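import Pool.Agent.J4.H91.FPP.Equiv

set_option autoImplicit false
open MeasureTheory ProbabilityTheory Filter Set
open scoped ENNReal Topology Pointwise

/-!
# The variance criterion in terms of the Euclidean size (helper91)
-/

namespace Pool.Agent.J4.H91.FPP

open Pool.Agent.N662.FP hiding em

variable {μ : Seminorm ℝ (ℝ × ℝ)} {c0 C0 : ℝ}

theorem crit (hN : Nrm μ c0 C0) {f : V → ℝ} :
    (∀ κ : ℝ, 0 < κ → κ < 2 / 3 → ∃ A : ℝ, ∀ v : V, f v ≤ A * (1 + μ (em v)) ^ (2 * (1 - κ))) ↔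
    (∀ ε : ℝ, 0 < ε → ∃ A : ℝ, ∀ v : V, f v ≤ A * (1 + ‖em v‖) ^ (2 / 3 + ε)) := by
  have hc0 := hN.cpos
  have hC0 := hN.Cge
  constructor
  · intro h ε hε
    obtain ⟨A, hA⟩ := h (max (2 / 3 - ε / 2) (1 / 3)) (lt_max_of_lt_right (by norm_num))
      (max_lt (by linarith) (by norm_num))
    refine ⟨|A| * C0 ^ (2 / 3 + ε), fun v => (hA v).trans ?_⟩
    have h0 : 0 ≤ μ (em v) := apply_nonneg μ _
    have h1 := norm_nonneg (em v)
    have h2 : (1 + μ (em v)) ^ (2 * (1 - max (2 / 3 - ε / 2) (1 / 3))) ≤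
        (1 + μ (em v)) ^ (2 / 3 + ε) := by
      refine Real.rpow_le_rpow_of_exponent_le (by linarith) ?_
      have := le_max_left (2 / 3 - ε / 2) (1 / 3 : ℝ)
      linarith
    have h3 : (1 + μ (em v)) ^ (2 / 3 + ε) ≤ C0 ^ (2 / 3 + ε) * (1 + ‖em v‖) ^ (2 / 3 + ε) := by
      rw [← Real.mul_rpow (by linarith) (by linarith)]
      refine Real.rpow_le_rpow (by linarith) ?_ (by linarith)
      have := hN.hi (em v)
      linarith
    calc A * (1 + μ (em v)) ^ (2 * (1 - max (2 / 3 - ε / 2) (1 / 3)))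
        ≤ |A| * (1 + μ (em v)) ^ (2 * (1 - max (2 / 3 - ε / 2) (1 / 3))) :=
          mul_le_mul_of_nonneg_right (le_abs_self A) (by positivity)
      _ ≤ |A| * (C0 ^ (2 / 3 + ε) * (1 + ‖em v‖) ^ (2 / 3 + ε)) :=
          mul_le_mul_of_nonneg_left (h2.trans h3) (abs_nonneg _)
      _ = _ := by ring
  · intro h κ k0 k1
    obtain ⟨A, hA⟩ := h (4 / 3 - 2 * κ) (by linarith)
    have e : 2 / 3 + (4 / 3 - 2 * κ) = 2 * (1 - κ) := by ring
    rw [e] at hA
    refine ⟨|A| * (1 + 1 / c0) ^ (2 * (1 - κ)), fun v => (hA v).trans ?_⟩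
    have h0 : 0 ≤ μ (em v) := apply_nonneg μ _
    have h1 := norm_nonneg (em v)
    have hc : 0 < 1 / c0 := by positivity
    have h3 : (1 + ‖em v‖) ^ (2 * (1 - κ)) ≤
        (1 + 1 / c0) ^ (2 * (1 - κ)) * (1 + μ (em v)) ^ (2 * (1 - κ)) := by
      rw [← Real.mul_rpow (by linarith) (by linarith)]
      refine Real.rpow_le_rpow (by linarith) ?_ (by linarith)
      have h4 : ‖em v‖ ≤ 1 / c0 * μ (em v) := by
        rw [one_div, ← div_eq_inv_mul, le_div_iff₀ hc0, mul_comm]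
        exact hN.lo _
      have h5 : (1 + 1 / c0) * (1 + μ (em v)) =
        1 + 1 / c0 + μ (em v) + 1 / c0 * μ (em v) := by ring
      linarith
    calc A * (1 + ‖em v‖) ^ (2 * (1 - κ)) ≤ |A| * (1 + ‖em v‖) ^ (2 * (1 - κ)) :=
          mul_le_mul_of_nonneg_right (le_abs_self A) (by positivity)
      _ ≤ |A| * ((1 + 1 / c0) ^ (2 * (1 - κ)) * (1 + μ (em v)) ^ (2 * (1 - κ))) :=
          mul_le_mul_of_nonneg_left h3 (abs_nonneg _)
      _ = _ := by ring

end Pool.Agent.J4.H91.FPP
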