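import Pool.Agent.J4.H91.FPP.Base

set_option autoImplicit false
open Filter Set
open scoped Topology

/-!
# Supporting functionals of a planar norm (helper91)
-/

namespace Pool.Agent.J4.H91.FPP

open Pool.Agent.N662.FP hiding em

/-- a lattice point as a point of the plane -/
def em (v : V) : ℝ × ℝ := Pool.Agent.N662.FP.em v

theorem em_def (v : V) : em v = ((v.1 : ℝ), (v.2 : ℝ)) := rfl

theorem em_add (a b : V) : em (a + b) = em a + em b := by
  simp [em_def]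

theorem em_sub (a b : V) : em (a - b) = em a - em b := by
  simp [em_def]

theorem em_neg (a : V) : em (-a) = -em a := by
  simp [em_def]

theorem em_zero : em (0 : V) = 0 := by
  simp [em_def]

/-- the comparison of the norm with the maximum norm -/
structure Nrm (μ : Seminorm ℝ (ℝ × ℝ)) (c0 C0 : ℝ) : Prop where
  cpos : 0 < c0
  Cge : 1 ≤ C0
  lo : ∀ x : ℝ × ℝ, c0 * ‖x‖ ≤ μ x
  hi : ∀ x : ℝ × ℝ, μ x ≤ C0 * ‖x‖

theorem norm_step {a b : V} (h : |b.1 - a.1| + |b.2 - a.2| = 1) : ‖em b - em a‖ ≤ 1 := by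
  rw [← em_sub, Prod.norm_def]
  have h1 : |b.1 - a.1| ≤ 1 := by have := abs_nonneg (b.2 - a.2); omega
  have h2 : |b.2 - a.2| ≤ 1 := by have := abs_nonneg (b.1 - a.1); omega
  refine max_le ?_ ?_
  · show ‖(((b - a).1 : ℤ) : ℝ)‖ ≤ 1
    rw [Real.norm_eq_abs]
    exact_mod_cast h1
  · show ‖(((b - a).2 : ℤ) : ℝ)‖ ≤ 1
    rw [Real.norm_eq_abs]
    exact_mod_cast h2

/-- a supporting functional of the unit ball at the point `th` of its boundary -/
structure Frame (μ : Seminorm ℝ (ℝ × ℝ)) where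
  l : ℝ × ℝ →ₗ[ℝ] ℝ
  th : ℝ × ℝ
  le : ∀ x, l x ≤ μ x
  lth : l th = 1
  mth : μ th = 1

theorem exists_frame {μ : Seminorm ℝ (ℝ × ℝ)} {x : ℝ × ℝ} (hx : 0 < μ x) :
    ∃ F : Frame μ, F.th = (μ x)⁻¹ • x := by
  have hm : μ ((μ x)⁻¹ • x) = 1 := by
    rw [map_smul_eq_mul, Real.norm_eq_abs, abs_of_pos (inv_pos.2 hx), inv_mul_cancel₀ hx.ne']
  have h0 : (μ x)⁻¹ • x ≠ 0 := by
    intro h
    rw [h, map_zero] at hm
    exact zero_ne_one hm
  obtain ⟨g, hg1, hg2⟩ := exists_extension_of_le_sublinear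
    (LinearPMap.mkSpanSingleton ((μ x)⁻¹ • x) (1 : ℝ) h0) μ
    (fun c hc y => by rw [map_smul_eq_mul, Real.norm_eq_abs, abs_of_pos hc])
    (fun y z => map_add_le_add μ y z) (by
      rintro ⟨y, hy⟩
      obtain ⟨c, rfl⟩ := Submodule.mem_span_singleton.1 hy
      have h5 : (LinearPMap.mkSpanSingleton ((μ x)⁻¹ • x) (1 : ℝ) h0 : ℝ × ℝ →ₗ.[ℝ] ℝ)
          ⟨c • (μ x)⁻¹ • x, hy⟩ = c • (1 : ℝ) := LinearPMap.mkSpanSingleton'_apply _ _ _ _ _
      rw [h5]
      show c • (1 : ℝ) ≤ μ (c • ((μ x)⁻¹ • x))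
      rw [map_smul_eq_mul, hm, smul_eq_mul, mul_one, mul_one]
      exact le_abs_self c)
  refine ⟨⟨g, (μ x)⁻¹ • x, hg2, ?_, hm⟩, rfl⟩
  have h3 := hg1 ⟨(μ x)⁻¹ • x, Submodule.mem_span_singleton_self _⟩
  exact h3.trans (LinearPMap.mkSpanSingleton'_apply_self _ _ _ _)

namespace Frame

variable {μ : Seminorm ℝ (ℝ × ℝ)} {c0 C0 : ℝ} (F : Frame μ)

/-- the level of a lattice point -/
noncomputable def lv (v : V) : ℝ := F.l (em v)

/-- the transversal coordinate -/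
noncomputable def h (x : ℝ × ℝ) : ℝ := F.th.1 * x.2 - F.th.2 * x.1

/-- the transversal direction -/
noncomputable def ta : ℝ × ℝ := (-F.l (0, 1), F.l (1, 0))

theorem l_eq (x : ℝ × ℝ) : F.l x = x.1 * F.l (1, 0) + x.2 * F.l (0, 1) := by
  have : x = x.1 • ((1 : ℝ), (0 : ℝ)) + x.2 • ((0 : ℝ), (1 : ℝ)) := by
    ext <;> simp
  conv_lhs => rw [this]
  rw [map_add, map_smul, map_smul, smul_eq_mul, smul_eq_mul]

theorem th_eq : F.th.1 * F.l (1, 0) + F.th.2 * F.l (0, 1) = 1 := by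
  rw [← F.l_eq, F.lth]

theorem decomp (x : ℝ × ℝ) : x = F.l x • F.th + F.h x • F.ta := by
  have h1 := F.th_eq
  have h2 := F.l_eq x
  ext
  · show x.1 = F.l x * F.th.1 + (F.th.1 * x.2 - F.th.2 * x.1) * (-F.l (0, 1))
    rw [h2]
    linear_combination (-x.1) * h1
  · show x.2 = F.l x * F.th.2 + (F.th.1 * x.2 - F.th.2 * x.1) * (F.l (1, 0))
    rw [h2]
    linear_combination (-x.2) * h1

theorem l_ta : F.l F.ta = 0 := by
  rw [F.l_eq]
  show -F.l (0, 1) * F.l (1, 0) + F.l (1, 0) * F.l (0, 1) = 0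
  ring

theorem h_th : F.h F.th = 0 := by
  show F.th.1 * F.th.2 - F.th.2 * F.th.1 = 0
  ring

theorem h_ta : F.h F.ta = 1 := by
  have h1 := F.th_eq
  show F.th.1 * F.l (1, 0) - F.th.2 * (-F.l (0, 1)) = 1
  linear_combination h1

theorem h_add (x y : ℝ × ℝ) : F.h (x + y) = F.h x + F.h y := by
  show F.th.1 * (x.2 + y.2) - F.th.2 * (x.1 + y.1) = _
  unfold Frame.h; ring

theorem h_sub (x y : ℝ × ℝ) : F.h (x - y) = F.h x - F.h y := by
  show F.th.1 * (x.2 - y.2) - F.th.2 * (x.1 - y.1) = _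
  unfold Frame.h; ring

theorem h_smul (c : ℝ) (x : ℝ × ℝ) : F.h (c • x) = c * F.h x := by
  show F.th.1 * (c * x.2) - F.th.2 * (c * x.1) = _
  unfold Frame.h; ring

theorem l_abs (hN : Nrm μ c0 C0) (x : ℝ × ℝ) : |F.l x| ≤ C0 * ‖x‖ := by
  refine abs_le.2 ⟨?_, (F.le x).trans (hN.hi x)⟩
  have h1 := (F.le (-x)).trans (hN.hi (-x))
  rw [map_neg, norm_neg] at h1
  linarith

theorem th_norm (hN : Nrm μ c0 C0) : ‖F.th‖ ≤ 1 / c0 := by
  rw [le_div_iff₀ hN.cpos, mul_comm, ← F.mth]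
  exact hN.lo _

theorem h_abs (hN : Nrm μ c0 C0) (x : ℝ × ℝ) : |F.h x| ≤ 2 / c0 * ‖x‖ := by
  have h1 := F.th_norm hN
  have h2 : |F.th.1| ≤ ‖F.th‖ := by rw [Prod.norm_def]; exact le_max_left _ _
  have h3 : |F.th.2| ≤ ‖F.th‖ := by rw [Prod.norm_def]; exact le_max_right _ _
  have h4 : |x.1| ≤ ‖x‖ := by rw [Prod.norm_def]; exact le_max_left _ _
  have h5 : |x.2| ≤ ‖x‖ := by rw [Prod.norm_def]; exact le_max_right _ _
  have h6 : |F.h x| ≤ |F.th.1| * |x.2| + |F.th.2| * |x.1| := by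
    rw [← abs_mul, ← abs_mul]
    exact abs_sub _ _
  have h7 : |F.th.1| * |x.2| ≤ (1 / c0) * ‖x‖ :=
    mul_le_mul (h2.trans h1) h5 (abs_nonneg _) (one_div_nonneg.2 hN.cpos.le)
  have h8 : |F.th.2| * |x.1| ≤ (1 / c0) * ‖x‖ :=
    mul_le_mul (h3.trans h1) h4 (abs_nonneg _) (one_div_nonneg.2 hN.cpos.le)
  calc |F.h x| ≤ _ := h6
    _ ≤ (1 / c0) * ‖x‖ + (1 / c0) * ‖x‖ := add_le_add h7 h8
    _ = 2 / c0 * ‖x‖ := by ring

theorem ta_norm (hN : Nrm μ c0 C0) : ‖F.ta‖ ≤ C0 := by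
  have h1 := F.l_abs hN (0, 1)
  have h2 := F.l_abs hN (1, 0)
  have e1 : ‖((0 : ℝ), (1 : ℝ))‖ = 1 := by simp [Prod.norm_def]
  have e2 : ‖((1 : ℝ), (0 : ℝ))‖ = 1 := by simp [Prod.norm_def]
  rw [e1, mul_one] at h1
  rw [e2, mul_one] at h2
  rw [Prod.norm_def]
  refine max_le ?_ ?_
  · show ‖-F.l (0, 1)‖ ≤ C0
    rw [norm_neg]; exact h1
  · exact h2

theorem lv_step (hN : Nrm μ c0 C0) {a b : V} (h : |b.1 - a.1| + |b.2 - a.2| = 1) :
    |F.lv b - F.lv a| ≤ C0 := by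
  unfold lv
  rw [← map_sub]
  refine (F.l_abs hN _).trans ?_
  have := norm_step h
  have h1 := hN.Cge
  nlinarith

theorem lv_add (a b : V) : F.lv (a + b) = F.lv a + F.lv b := by
  unfold lv; rw [em_add, map_add]

theorem lv_sub (a b : V) : F.lv (a - b) = F.lv a - F.lv b := by
  unfold lv; rw [em_sub, map_sub]

theorem lv_neg (a : V) : F.lv (-a) = -F.lv a := by
  unfold lv; rw [em_neg, map_neg]

theorem lv_zero : F.lv 0 = 0 := by
  unfold lv; rw [em_zero, map_zero]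

end Frame

theorem mu_step {μ : Seminorm ℝ (ℝ × ℝ)} {c0 C0 : ℝ} (hN : Nrm μ c0 C0) {a b : V}
    (h : |b.1 - a.1| + |b.2 - a.2| = 1) (z : ℝ × ℝ) : μ (em b - z) ≤ μ (em a - z) + C0 := by
  have h1 : em b - z = (em a - z) + (em b - em a) := by abel
  rw [h1]
  refine (map_add_le_add μ _ _).trans ?_
  have h2 := hN.hi (em b - em a)
  have h3 := norm_step h
  have h4 := hN.Cge
  nlinarith

/-- rounding to a lattice point -/
noncomputable def rnd (x : ℝ × ℝ) : V := (⌊x.1⌋, ⌊x.2⌋)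

theorem rnd_norm (x : ℝ × ℝ) : ‖em (rnd x) - x‖ ≤ 1 := by
  rw [Prod.norm_def]
  refine max_le ?_ ?_
  · show ‖((⌊x.1⌋ : ℤ) : ℝ) - x.1‖ ≤ 1
    rw [Real.norm_eq_abs, abs_le]
    constructor <;> linarith [Int.floor_le x.1, Int.lt_floor_add_one x.1]
  · show ‖((⌊x.2⌋ : ℤ) : ℝ) - x.2‖ ≤ 1
    rw [Real.norm_eq_abs, abs_le]
    constructor <;> linarith [Int.floor_le x.2, Int.lt_floor_add_one x.2]

theorem rnd_mu {μ : Seminorm ℝ (ℝ × ℝ)} {c0 C0 : ℝ} (hN : Nrm μ c0 C0) (x : ℝ × ℝ) :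
    μ (em (rnd x) - x) ≤ C0 := by
  have h1 := hN.hi (em (rnd x) - x)
  have h2 := rnd_norm x
  have h3 := hN.Cge
  nlinarith

/-- the profile of the norm along a line -/
theorem width {μ : Seminorm ℝ (ℝ × ℝ)} {c0 C0 : ℝ} (hN : Nrm μ c0 C0) (F : Frame μ) {m η : ℝ}
    (hm : 0 < m) (hη : 0 < η) :
    ∃ wp wm : ℝ, 0 < wp ∧ 0 < wm ∧
      (∀ s : ℝ, -wm ≤ s → s ≤ wp → μ (m • F.th + s • F.ta) ≤ m + η) ∧
      (∀ s : ℝ, |s| ≤ (wp + wm) * (1 + (μ (m • F.th + s • F.ta) - m) / η)) ∧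
      wp + wm ≤ 4 / c0 ^ 2 * (m + η) := by
  set f : ℝ → ℝ := fun s => μ (m • F.th + s • F.ta) - m with hf
  have hc := hN.cpos
  have hfc : Continuous f := by
    have hμ : Continuous μ := by
      refine Seminorm.continuous_of_le (p := μ) (q := (C0.toNNReal) • normSeminorm ℝ (ℝ × ℝ)) ?_ ?_
      · exact (continuous_const.mul continuous_norm : Continuous fun x : ℝ × ℝ =>
          (C0.toNNReal : ℝ) * ‖x‖)
      · intro x
        have h1 := hN.hi x
        show μ x ≤ (C0.toNNReal : ℝ) * ‖x‖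
        rw [Real.coe_toNNReal _ (by linarith [hN.Cge])]
        exact h1
    exact (hμ.comp (by fun_prop)).sub continuous_const
  have hf0 : f 0 = 0 := by
    show μ (m • F.th + (0 : ℝ) • F.ta) - m = 0
    rw [zero_smul, add_zero, map_smul_eq_mul, F.mth, Real.norm_eq_abs, abs_of_pos hm]; ring
  have hfnn : ∀ s, 0 ≤ f s := by
    intro s
    have h1 := F.le (m • F.th + s • F.ta)
    rw [map_add, map_smul, map_smul, F.lth, F.l_ta] at h1
    show 0 ≤ μ (m • F.th + s • F.ta) - m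
    simp only [smul_eq_mul, mul_one, mul_zero, add_zero] at h1
    linarith
  have hfcv : ConvexOn ℝ Set.univ f := by
    refine ⟨convex_univ, fun s _ t _ a b ha hb hab => ?_⟩
    show μ (m • F.th + (a • s + b • t) • F.ta) - m ≤
      a • (μ (m • F.th + s • F.ta) - m) + b • (μ (m • F.th + t • F.ta) - m)
    have e : m • F.th + (a • s + b • t) • F.ta =
        a • (m • F.th + s • F.ta) + b • (m • F.th + t • F.ta) := by
      have : m = a * m + b * m := by rw [← add_mul, hab, one_mul]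
      conv_lhs => rw [this]
      ext <;> simp <;> ring
    rw [e]
    have h1 := map_add_le_add μ (a • (m • F.th + s • F.ta)) (b • (m • F.th + t • F.ta))
    rw [map_smul_eq_mul, map_smul_eq_mul, Real.norm_eq_abs, Real.norm_eq_abs, abs_of_nonneg ha,
      abs_of_nonneg hb] at h1
    simp only [smul_eq_mul]
    nlinarith
  have hlow : ∀ s, |s| ≤ 2 / c0 ^ 2 * (m + f s) := by
    intro s
    have h1 := F.h_abs hN (m • F.th + s • F.ta)
    rw [F.h_add, F.h_smul, F.h_smul, F.h_th, F.h_ta] at h1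
    simp only [mul_zero, mul_one, zero_add] at h1
    have h2 := hN.lo (m • F.th + s • F.ta)
    have h3 : ‖m • F.th + s • F.ta‖ ≤ (m + f s) / c0 := by
      rw [le_div_iff₀ hc, mul_comm]
      show _ ≤ m + (μ (m • F.th + s • F.ta) - m)
      linarith
    calc |s| ≤ 2 / c0 * ‖m • F.th + s • F.ta‖ := h1
      _ ≤ 2 / c0 * ((m + f s) / c0) := by gcongr
      _ = 2 / c0 ^ 2 * (m + f s) := by field_simp
  -- one side
  have side : ∀ g : ℝ → ℝ, Continuous g → g 0 = 0 → (∀ s, 0 ≤ g s) → ConvexOn ℝ Set.univ g →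
      (∀ s, |s| ≤ 2 / c0 ^ 2 * (m + g s)) → ∃ w : ℝ, 0 < w ∧ (∀ s, 0 ≤ s → s ≤ w → g s ≤ η) ∧
      (∀ s, w ≤ s → s ≤ w * (g s / η)) ∧ w ≤ 2 / c0 ^ 2 * (m + η) := by
    intro g hgc hg0 hgnn hgcv hgl
    set S : ℝ := 2 / c0 ^ 2 * (m + η) with hS
    have hSpos : 0 < S := by positivity
    have hgS : η ≤ g S := by
      have h1 := hgl S
      rw [abs_of_pos hSpos, hS] at h1
      have h2 : 0 < 2 / c0 ^ 2 := by positivity
      have h3 := le_of_mul_le_mul_left h1 h2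
      linarith
    obtain ⟨w, hw, hgw⟩ := intermediate_value_Icc hSpos.le hgc.continuousOn
      (show η ∈ Set.Icc (g 0) (g S) by rw [hg0]; exact ⟨hη.le, hgS⟩)
    have hw0 : 0 < w := by
      rcases hw.1.eq_or_lt with h | h
      · rw [← h, hg0] at hgw; linarith
      · exact h
    refine ⟨w, hw0, ?_, ?_, hw.2⟩
    · intro s hs0 hsw
      have h1 : g ((1 - s / w) • (0 : ℝ) + (s / w) • w) ≤ (1 - s / w) • g 0 + (s / w) • g w :=
        hgcv.2 (Set.mem_univ (0 : ℝ)) (Set.mem_univ w) (by rw [sub_nonneg, div_le_one hw0]; exact hsw) (div_nonneg hs0 hw0.le) (by ring)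
      simp only [smul_eq_mul, mul_zero, zero_add, hg0] at h1
      rw [div_mul_cancel₀ _ hw0.ne', hgw] at h1
      have h2 : s / w ≤ 1 := (div_le_one hw0).2 hsw
      nlinarith
    · intro s hs
      have hs0 : 0 < s := hw0.trans_le hs
      have h1 : g ((1 - w / s) • (0 : ℝ) + (w / s) • s) ≤ (1 - w / s) • g 0 + (w / s) • g s :=
        hgcv.2 (Set.mem_univ (0 : ℝ)) (Set.mem_univ s) (by rw [sub_nonneg, div_le_one hs0]; exact hs) (div_nonneg hw0.le hs0.le) (by ring)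
      simp only [smul_eq_mul, mul_zero, zero_add, hg0] at h1
      rw [div_mul_cancel₀ _ hs0.ne', hgw] at h1
      rw [div_mul_eq_mul_div, le_div_iff₀ hs0] at h1
      rw [← mul_div_assoc, le_div_iff₀ hη]
      linarith
  obtain ⟨wp, hwp, hp1, hp2, hp3⟩ := side f hfc hf0 hfnn hfcv hlow
  obtain ⟨wm, hwm, hm1, hm2, hm3⟩ := side (fun s => f (-s)) (hfc.comp continuous_neg)
    (by simp [hf0]) (fun s => hfnn _) (by
      refine ⟨convex_univ, fun s _ t _ a b ha hb hab => ?_⟩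
      have h1 := hfcv.2 (Set.mem_univ (-s)) (Set.mem_univ (-t)) ha hb hab
      have e : a • -s + b • -t = -(a • s + b • t) := by simp only [smul_eq_mul]; ring
      rw [e] at h1
      exact h1)
    (fun s => by simpa using hlow (-s))
  refine ⟨wp, wm, hwp, hwm, ?_, ?_, ?_⟩
  · intro s h1 h2
    rcases le_total 0 s with h | h
    · have := hp1 s h h2
      simp only [hf] at this
      linarith
    · have := hm1 (-s) (by linarith) (by linarith)
      simp only [hf, neg_neg] at this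
      linarith
  · intro s
    have hfs : 0 ≤ f s / η := div_nonneg (hfnn s) hη.le
    show |s| ≤ (wp + wm) * (1 + f s / η)
    rcases le_total 0 s with h | h
    · rw [abs_of_nonneg h]
      rcases le_total s wp with h3 | h3
      · nlinarith
      · have := hp2 s h3
        nlinarith
    · rw [abs_of_nonpos h]
      rcases le_total (-s) wm with h3 | h3
      · nlinarith
      · have := hm2 (-s) h3
        simp only [neg_neg] at this
        nlinarith
  · have : 4 / c0 ^ 2 * (m + η) = 2 / c0 ^ 2 * (m + η) + 2 / c0 ^ 2 * (m + η) := by ring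
    linarith

end Pool.Agent.J4.H91.FPP
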