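import Pool.Agent.J4.H91.FPP.Law
import Pool.Agent.J4.H91.FPP.Geo

set_option autoImplicit false
open MeasureTheory ProbabilityTheory Filter Set
open scoped ENNReal Topology

/-!
# One-point hypotheses and their consequences for pairs (helper91)
-/

namespace Pool.Agent.J4.H91.FPP

open Pool.Agent.N662.FP hiding em

/-! ### elementary asymptotics -/

theorem exp_poly {κ c : ℝ} (k : ℝ) (hκ : 0 < κ) (hc : 0 < c) :
    ∃ C : ℝ, 0 < C ∧ ∀ H : ℝ, 1 ≤ H → Real.exp (-(c * H ^ κ)) ≤ C * H ^ (-k) := by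
  obtain ⟨N, hN⟩ := exists_nat_ge (k / κ)
  refine ⟨(N.factorial : ℝ) / c ^ N, by positivity, fun H hH => ?_⟩
  have hH0 : 0 < H := by linarith
  have h1 := Real.pow_div_factorial_le_exp (c * H ^ κ) (by positivity) N
  have h2 : 0 < (c * H ^ κ) ^ N / (N.factorial : ℝ) := by positivity
  rw [Real.exp_neg]
  refine (inv_anti₀ h2 h1).trans ?_
  rw [inv_div, mul_pow, ← Real.rpow_natCast (H ^ κ) N, ← Real.rpow_mul hH0.le, div_mul_eq_div_div,
    div_eq_mul_inv _ (H ^ (κ * N)), ← Real.rpow_neg hH0.le]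
  refine mul_le_mul_of_nonneg_left ?_ (by positivity)
  refine Real.rpow_le_rpow_of_exponent_le hH ?_
  have : k ≤ κ * N := by
    rw [div_le_iff₀ hκ] at hN
    linarith
  linarith

/-! ### the real passage time -/

/-- real passage time -/
noncomputable def dR (a b : V) (x : En) : ℝ := (DE a b x).toReal

theorem DE_lt_top (a b : V) (x : En) : DE a b x < ⊤ := by
  obtain ⟨n, p, h0, h1, h2⟩ := cPATH a b
  exact (LE_le (C := Fu a b) ⟨h0, h1, h2⟩ x).trans_lt (tm_lt_top _ _ _)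

theorem DE_ofReal (a b : V) (x : En) : DE a b x = ENNReal.ofReal (dR a b x) :=
  (ENNReal.ofReal_toReal (DE_lt_top a b x).ne).symm

theorem dR_nonneg (a b : V) (x : En) : 0 ≤ dR a b x := ENNReal.toReal_nonneg

theorem dR_tri (a b c : V) (x : En) : dR a c x ≤ dR a b x + dR b c x := by
  unfold dR
  rw [← ENNReal.toReal_add (DE_lt_top _ _ _).ne (DE_lt_top _ _ _).ne]
  exact ENNReal.toReal_mono (ENNReal.add_ne_top.2 ⟨(DE_lt_top _ _ _).ne, (DE_lt_top _ _ _).ne⟩)
    (DE_tri a b c x)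

theorem dR_comm (a b : V) (x : En) : dR a b x = dR b a x := by
  unfold dR; rw [DE_comm]

theorem dR_meas (a b : V) : Measurable (dR a b) := (DE_meas a b).ennreal_toReal

theorem dR_le_tm {n i j : ℕ} {p : ℕ → V} (hp : Stp n p) (hij : i ≤ j) (hj : j ≤ n) (x : En) :
    dR (p i) (p j) x ≤ (tm x (j - i) (sh i p)).toReal :=
  ENNReal.toReal_mono (tm_lt_top _ _ _).ne (DE_le_piece hp hij hj x)

theorem dR_lt {a b : V} {x : En} {t : ℝ} (ht : dR a b x < t) :
    ∃ n p, Fu a b n p ∧ tm x n p < ENNReal.ofReal t := by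
  have h : DE a b x < ENNReal.ofReal t := by
    rw [DE_ofReal]
    exact (ENNReal.ofReal_lt_ofReal_iff ((dR_nonneg a b x).trans_lt ht)).2 ht
  exact LE_lt.1 h

theorem dR_shift (a b : V) (x : En) : dR a b x = dR 0 (b - a) (shE a x) := by
  unfold dR; rw [DE_shift]

theorem dR_prob (a b : V) {S : Set ℝ} (hS : MeasurableSet S) :
    PP {x | dR a b x ∈ S} = PP {x | dR 0 (b - a) x ∈ S} :=
  DE_prob a b (S := ENNReal.toReal ⁻¹' S) (measurable_toReal hS)
where
  measurable_toReal {S : Set ℝ} (hS : MeasurableSet S) : MeasurableSet (ENNReal.toReal ⁻¹' S) :=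
    ENNReal.measurable_toReal hS

/-! ### hypotheses -/

/-- mean and upper tail of the passage times at the exponent `κ` -/
structure Hyp (μ : Seminorm ℝ (ℝ × ℝ)) (κ A : ℝ) : Prop where
  Age : 1 ≤ A
  up : ∀ v : V, ∫⁻ x, (DE 0 v x - ENNReal.ofReal (μ (em v))) ∂PP ≤
    ENNReal.ofReal (A * (1 + μ (em v)) ^ (1 - κ))
  lo : ∀ v : V, ∫⁻ x, (ENNReal.ofReal (μ (em v)) - DE 0 v x) ∂PP ≤
    ENNReal.ofReal (A * (1 + μ (em v)) ^ (1 - κ))
  tail : ∀ (v : V) (s : ℝ), 0 ≤ s → PP {x | μ (em v) + s < dR 0 v x} ≤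
    ENNReal.ofReal (3 * Real.exp (-(s / (A * (1 + μ (em v)) ^ (1 - κ)))))

/-- linear lower bound for the passage times -/
def LinLow : Prop := ∀ v : V, PP {x | dR 0 v x < ‖em v‖ / 25} ≤ ENNReal.ofReal ((1 / 2) ^ ‖em v‖)

section
variable {μ : Seminorm ℝ (ℝ × ℝ)} {c0 C0 κ A : ℝ}

theorem tail_pair (h : Hyp μ κ A) (a b : V) {s : ℝ} (hs : 0 ≤ s) :
    PP {x | μ (em (b - a)) + s < dR a b x} ≤
      ENNReal.ofReal (3 * Real.exp (-(s / (A * (1 + μ (em (b - a))) ^ (1 - κ))))) := by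
  have := dR_prob a b (S := Ioi (μ (em (b - a)) + s)) measurableSet_Ioi
  have h2 := h.tail (b - a) s hs
  exact this.le.trans h2

theorem markov_up (h : Hyp μ κ A) (a b : V) {s : ℝ} (hs : 0 < s) :
    PP {x | μ (em (b - a)) + s < dR a b x} ≤
      ENNReal.ofReal (A * (1 + μ (em (b - a))) ^ (1 - κ) / s) := by
  have h1 := dR_prob a b (S := Ioi (μ (em (b - a)) + s)) measurableSet_Ioi
  refine h1.le.trans ?_
  set v := b - a
  have h2 : {x | dR 0 v x ∈ Ioi (μ (em v) + s)} ⊆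
      {x | ENNReal.ofReal s ≤ DE 0 v x - ENNReal.ofReal (μ (em v))} := by
    intro x hx
    have hx' : μ (em v) + s < dR 0 v x := hx
    show ENNReal.ofReal s ≤ DE 0 v x - ENNReal.ofReal (μ (em v))
    rw [DE_ofReal, ← ENNReal.ofReal_sub _ (apply_nonneg μ _)]
    exact ENNReal.ofReal_le_ofReal (by linarith)
  refine (measure_mono h2).trans ?_
  refine (meas_ge_le_lintegral_div ((DE_meas 0 v).sub_const _).aemeasurable
    (ENNReal.ofReal_pos.2 hs).ne' ENNReal.ofReal_ne_top).trans ?_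
  rw [ENNReal.ofReal_div_of_pos hs]
  exact ENNReal.div_le_div_right (h.up v) _

theorem markov_lo (h : Hyp μ κ A) (a b : V) {s : ℝ} (hs : 0 < s) :
    PP {x | dR a b x < μ (em (b - a)) - s} ≤
      ENNReal.ofReal (A * (1 + μ (em (b - a))) ^ (1 - κ) / s) := by
  have h1 := dR_prob a b (S := Iio (μ (em (b - a)) - s)) measurableSet_Iio
  refine h1.le.trans ?_
  set v := b - a
  have h2 : {x | dR 0 v x ∈ Iio (μ (em v) - s)} ⊆
      {x | ENNReal.ofReal s ≤ ENNReal.ofReal (μ (em v)) - DE 0 v x} := by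
    intro x hx
    have hx' : dR 0 v x < μ (em v) - s := hx
    show ENNReal.ofReal s ≤ ENNReal.ofReal (μ (em v)) - DE 0 v x
    rw [DE_ofReal, ← ENNReal.ofReal_sub _ (dR_nonneg _ _ _)]
    exact ENNReal.ofReal_le_ofReal (by linarith)
  refine (measure_mono h2).trans ?_
  refine (meas_ge_le_lintegral_div (measurable_const.sub (DE_meas 0 v)).aemeasurable
    (ENNReal.ofReal_pos.2 hs).ne' ENNReal.ofReal_ne_top).trans ?_
  rw [ENNReal.ofReal_div_of_pos hs]
  exact ENNReal.div_le_div_right (h.lo v) _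

/-! ### boxes -/

/-- lattice points of maximum norm at most `r` -/
noncomputable def box (r : ℝ) : Finset V := Finset.Icc (-⌊r⌋) ⌊r⌋ ×ˢ Finset.Icc (-⌊r⌋) ⌊r⌋

theorem mem_box {r : ℝ} {a : V} : a ∈ box r ↔ ‖em a‖ ≤ r := by
  rw [box, Finset.mem_product, Finset.mem_Icc, Finset.mem_Icc, Prod.norm_def, max_le_iff]
  show _ ↔ ‖(a.1 : ℝ)‖ ≤ r ∧ ‖(a.2 : ℝ)‖ ≤ r
  rw [Real.norm_eq_abs, Real.norm_eq_abs, ← abs_le, ← abs_le, Int.le_floor, Int.le_floor]
  push_cast
  rfl

theorem card_box {r : ℝ} (hr : 1 ≤ r) : ((box r).card : ℝ) ≤ 9 * r ^ 2 := by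
  have h0 : 0 ≤ ⌊r⌋ := Int.floor_nonneg.2 (by linarith)
  have h1 : (((Finset.Icc (-⌊r⌋) ⌊r⌋).card : ℕ) : ℝ) ≤ 3 * r := by
    rw [Int.card_Icc]
    have h2 : ((⌊r⌋ + 1 - -⌊r⌋).toNat : ℤ) = ⌊r⌋ + 1 - -⌊r⌋ := Int.toNat_of_nonneg (by omega)
    have h3 : (((⌊r⌋ + 1 - -⌊r⌋).toNat : ℕ) : ℝ) = (⌊r⌋ : ℝ) + 1 - -(⌊r⌋ : ℝ) := by
      exact_mod_cast h2
    rw [h3]
    linarith [Int.floor_le r]
  rw [box, Finset.card_product]
  push_cast
  have h4 : (0 : ℝ) ≤ ((Finset.Icc (-⌊r⌋) ⌊r⌋).card : ℕ) := by positivity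
  nlinarith

theorem prob_box {r q : ℝ} (hr : 1 ≤ r) {E : V → Set En} (hq : 0 ≤ q)
    (h : ∀ a ∈ box r, PP (E a) ≤ ENNReal.ofReal q) :
    PP {x | ∃ a, ‖em a‖ ≤ r ∧ x ∈ E a} ≤ ENNReal.ofReal (9 * r ^ 2 * q) := by
  have h1 : {x | ∃ a, ‖em a‖ ≤ r ∧ x ∈ E a} ⊆ ⋃ a ∈ box r, E a := by
    rintro x ⟨a, ha, hx⟩
    exact mem_biUnion (mem_box.2 ha) hx
  refine (measure_mono h1).trans ((measure_biUnion_finset_le _ _).trans ?_)
  refine (Finset.sum_le_sum h).trans ?_
  rw [Finset.sum_const, nsmul_eq_mul, ENNReal.ofReal_mul (by positivity)]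
  gcongr
  rw [← ENNReal.ofReal_natCast]
  exact ENNReal.ofReal_le_ofReal (card_box hr)

/-! ### uniform linear control -/

/-- all passage times between points of the box of size `r` are within `d` of the norm -/
def Unif (μ : Seminorm ℝ (ℝ × ℝ)) (x : En) (r d : ℝ) : Prop :=
  ∀ a b : V, ‖em a‖ ≤ r → ‖em b‖ ≤ r → |dR a b x - μ (em (b - a))| ≤ d

theorem Unif_meas (μ : Seminorm ℝ (ℝ × ℝ)) (r d : ℝ) : MeasurableSet {x | Unif μ x r d} := by
  have : {x | Unif μ x r d} = ⋂ (a : V) (b : V) (_ : ‖em a‖ ≤ r) (_ : ‖em b‖ ≤ r),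
      {x | |dR a b x - μ (em (b - a))| ≤ d} := by
    ext x; simp only [mem_iInter]; rfl
  rw [this]
  refine MeasurableSet.iInter fun a => MeasurableSet.iInter fun b => MeasurableSet.iInter fun _ =>
    MeasurableSet.iInter fun _ => ?_
  have h1 : Measurable fun x => |dR a b x - μ (em (b - a))| :=
    measurable_norm.comp ((dR_meas a b).sub_const _)
  exact measurableSet_le h1 measurable_const

/-- rounding down to the multiples of `g` -/
def rd (g : ℤ) (a : V) : V := (g * (a.1 / g), g * (a.2 / g))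

theorem rd_norm {g : ℤ} (hg : 0 < g) (a : V) : ‖em (rd g a - a)‖ ≤ g := by
  have key : ∀ z : ℤ, |g * (z / g) - z| ≤ g := by
    intro z
    have h1 := Int.emod_add_mul_ediv z g
    have h2 := Int.emod_nonneg z hg.ne'
    have h3 := Int.emod_lt_of_pos z hg
    rw [abs_le]
    constructor <;> omega
  rw [Prod.norm_def]
  refine max_le ?_ ?_
  · show ‖(((rd g a - a).1 : ℤ) : ℝ)‖ ≤ g
    rw [Real.norm_eq_abs]
    exact_mod_cast key a.1
  · show ‖(((rd g a - a).2 : ℤ) : ℝ)‖ ≤ g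
    rw [Real.norm_eq_abs]
    exact_mod_cast key a.2

theorem rd_mem {g : ℤ} {r M : ℝ} (hg : 0 < g) (hr : r ≤ M * g) {a : V} (ha : ‖em a‖ ≤ r) :
    ∃ i ∈ box (M + 1), rd g a = g • i := by
  refine ⟨(a.1 / g, a.2 / g), ?_, rfl⟩
  rw [mem_box]
  have hg' : (0 : ℝ) < g := by exact_mod_cast hg
  have h1 := rd_norm hg a
  have h2 : ‖em (rd g a)‖ ≤ r + g := by
    have : em (rd g a) = em (rd g a - a) + em a := by rw [← em_add, sub_add_cancel]
    rw [this]
    refine (norm_add_le _ _).trans ?_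
    linarith
  have h3 : em (rd g a) = (g : ℝ) • em (a.1 / g, a.2 / g) := by
    rw [em_def, em_def, rd]
    ext <;> simp
  rw [h3, norm_smul, Real.norm_eq_abs, abs_of_pos hg'] at h2
  have h4 : (g : ℝ) * ‖em (a.1 / g, a.2 / g)‖ ≤ g * (M + 1) := by linarith
  exact le_of_mul_le_mul_left h4 hg'

theorem ulc (hN : Nrm μ c0 C0) (h : Hyp μ κ A) (hκ : 0 < κ) (hκ1 : κ < 1) {ε R : ℝ} (hε : 0 < ε)
    (hR : 1 ≤ R) :
    ∃ C : ℝ, 0 < C ∧ ∀ H : ℝ, 1 ≤ H →
      PP {x | ¬ Unif μ x (R * H) (ε * H)} ≤ ENNReal.ofReal (C * H ^ (-κ)) := by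
  have hC0 : 0 < C0 := by linarith [hN.Cge]
  have hA : 0 < A := by linarith [h.Age]
  set δ : ℝ := ε / (4 * C0 + 3) with hδ
  have hδ0 : 0 < δ := by positivity
  have hδε : (4 * C0 + 3) * δ = ε := by rw [hδ]; field_simp
  -- constants
  set c : ℝ := δ / (A * (1 + C0 * δ) ^ (1 - κ)) with hc
  have hc0 : 0 < c := by positivity
  obtain ⟨C1, hC1, hexp⟩ := exp_poly (2 + κ) hκ hc0
  set M : ℝ := 2 * R / δ with hM
  have hM0 : 0 < M := by positivity
  set nb : ℝ := ((box (M + 1)).card : ℝ) with hnb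
  set W : ℝ := C0 * (2 * (M + 1) * δ) with hW
  have hW0 : 0 < W := by positivity
  set C2 : ℝ := nb ^ 2 * (2 * (A * (1 + W) ^ (1 - κ) / δ)) with hC2
  have hC2' : 0 ≤ C2 := by positivity
  refine ⟨(1 / δ) ^ κ + 9 * R ^ 2 * (3 * C1) + C2, by positivity, fun H hH => ?_⟩
  have hH0 : 0 < H := by linarith
  rcases lt_or_ge H (1 / δ) with hsm | hbig
  · refine prob_le_one.trans ?_
    rw [ENNReal.one_le_ofReal]
    have h1 : H ^ κ ≤ (1 / δ) ^ κ := Real.rpow_le_rpow hH0.le hsm.le hκ.le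
    have h2 : 1 = H ^ κ * H ^ (-κ) := by
      rw [← Real.rpow_add hH0, add_neg_cancel, Real.rpow_zero]
    have h3 : 0 < H ^ (-κ) := Real.rpow_pos_of_pos hH0 _
    have h4 : 0 ≤ 9 * R ^ 2 * (3 * C1) + C2 := by positivity
    nlinarith
  -- the grid
  set g : ℤ := ⌊δ * H⌋ with hg
  have hδH : 1 ≤ δ * H := by
    rw [div_le_iff₀ hδ0] at hbig
    linarith
  have hg1 : 1 ≤ g := Int.le_floor.2 (by exact_mod_cast hδH)
  have hg0 : 0 < g := by omega
  have hgR : (0 : ℝ) < g := by exact_mod_cast hg0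
  have hgle : (g : ℝ) ≤ δ * H := Int.floor_le _
  have hgge : δ * H / 2 ≤ g := by
    have h1 := Int.lt_floor_add_one (δ * H)
    have h2 : (1 : ℝ) ≤ g := by exact_mod_cast hg1
    have h3 : δ * H < g + 1 := h1
    linarith
  have hRg : R * H ≤ M * g := by
    have : M * (δ * H / 2) = R * H := by rw [hM]; field_simp
    rw [← this]
    exact mul_le_mul_of_nonneg_left hgge hM0.le
  -- the events
  set E1 : V → Set En := fun a => {x | μ (em (rd g a - a)) + δ * H < dR a (rd g a) x} with hE1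
  set E2 : V → V → Set En := fun i j =>
    {x | μ (em (g • j - g • i)) + δ * H < dR (g • i) (g • j) x} ∪
    {x | dR (g • i) (g • j) x < μ (em (g • j - g • i)) - δ * H} with hE2
  have hsub : {x | ¬ Unif μ x (R * H) (ε * H)} ⊆ {x | ∃ a, ‖em a‖ ≤ R * H ∧ x ∈ E1 a} ∪
      ⋃ i ∈ box (M + 1), ⋃ j ∈ box (M + 1), E2 i j := by
    intro x hx
    by_contra hno
    rw [mem_union, not_or] at hno
    obtain ⟨hn1, hn2⟩ := hno
    apply hx
    intro a b ha hb
    obtain ⟨i, hi, hia⟩ := rd_mem hg0 hRg ha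
    obtain ⟨j, hj, hjb⟩ := rd_mem hg0 hRg hb
    have k1 : dR a (rd g a) x ≤ μ (em (rd g a - a)) + δ * H := by
      by_contra hcon
      exact hn1 ⟨a, ha, not_le.1 hcon⟩
    have k2 : dR b (rd g b) x ≤ μ (em (rd g b - b)) + δ * H := by
      by_contra hcon
      exact hn1 ⟨b, hb, not_le.1 hcon⟩
    have k3 : x ∉ E2 i j := by
      intro hcon
      exact hn2 (mem_biUnion hi (mem_biUnion hj hcon))
    rw [hE2, mem_union, not_or] at k3
    obtain ⟨k3, k4⟩ := k3
    have k3' : dR (rd g a) (rd g b) x ≤ μ (em (rd g b - rd g a)) + δ * H := by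
      rw [hia, hjb]; exact not_lt.1 k3
    have k4' : μ (em (rd g b - rd g a)) - δ * H ≤ dR (rd g a) (rd g b) x := by
      rw [hia, hjb]; exact not_lt.1 k4
    have m1 : μ (em (rd g a - a)) ≤ C0 * (δ * H) :=
      (hN.hi _).trans (mul_le_mul_of_nonneg_left ((rd_norm hg0 a).trans hgle) hC0.le)
    have m2 : μ (em (rd g b - b)) ≤ C0 * (δ * H) :=
      (hN.hi _).trans (mul_le_mul_of_nonneg_left ((rd_norm hg0 b).trans hgle) hC0.le)
    have m3 : |μ (em (rd g b - rd g a)) - μ (em (b - a))| ≤ 2 * (C0 * (δ * H)) := by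
      have e : em (rd g b - rd g a) = em (b - a) + (em (rd g b - b) - em (rd g a - a)) := by
        simp only [em_sub]; abel
      have e' : em (b - a) = em (rd g b - rd g a) - (em (rd g b - b) - em (rd g a - a)) := by
        simp only [em_sub]; abel
      have s1 : μ (em (rd g b - b) - em (rd g a - a)) ≤ 2 * (C0 * (δ * H)) := by
        refine (map_sub_le_add μ _ _).trans ?_
        linarith
      rw [abs_le]
      constructor
      · have := map_sub_le_add μ (em (rd g b - rd g a)) (em (rd g b - b) - em (rd g a - a))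
        rw [← e'] at this
        linarith
      · have := map_add_le_add μ (em (b - a)) (em (rd g b - b) - em (rd g a - a))
        rw [← e] at this
        linarith
    have t1 := dR_tri a (rd g a) b x
    have t2 := dR_tri (rd g a) (rd g b) b x
    have t3 := dR_tri (rd g a) a (rd g b) x
    have t4 := dR_tri a b (rd g b) x
    rw [dR_comm (rd g b) b] at t2
    rw [dR_comm (rd g a) a] at t3
    rw [abs_le] at m3 ⊢
    have hεH : ε * H = 4 * (C0 * (δ * H)) + 3 * (δ * H) := by rw [← hδε]; ring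
    constructor <;> linarith [m3.1, m3.2]
  -- probabilities
  have p1 : PP {x | ∃ a, ‖em a‖ ≤ R * H ∧ x ∈ E1 a} ≤
      ENNReal.ofReal (9 * R ^ 2 * (3 * C1) * H ^ (-κ)) := by
    have hq : ∀ a ∈ box (R * H), PP (E1 a) ≤ ENNReal.ofReal (3 * (C1 * H ^ (-(2 + κ)))) := by
      intro a _
      refine (tail_pair h a (rd g a) (by positivity : 0 ≤ δ * H)).trans ?_
      refine ENNReal.ofReal_le_ofReal (mul_le_mul_of_nonneg_left ?_ (by norm_num))
      refine le_trans ?_ (hexp H hH)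
      rw [Real.exp_le_exp, neg_le_neg_iff]
      have m1 : μ (em (rd g a - a)) ≤ C0 * (δ * H) :=
        (hN.hi _).trans (mul_le_mul_of_nonneg_left ((rd_norm hg0 a).trans hgle) hC0.le)
      have m2 : (1 + μ (em (rd g a - a))) ^ (1 - κ) ≤ ((1 + C0 * δ) ^ (1 - κ)) * H ^ (1 - κ) := by
        rw [← Real.mul_rpow (by positivity) hH0.le]
        refine Real.rpow_le_rpow (by positivity) ?_ (by linarith)
        nlinarith
      have m3 : 0 < (1 + μ (em (rd g a - a))) ^ (1 - κ) := by positivity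
      have e1 : c * H ^ κ = δ * H / (A * ((1 + C0 * δ) ^ (1 - κ) * H ^ (1 - κ))) := by
        have e2 : H ^ κ * H ^ (1 - κ) = H := by
          rw [← Real.rpow_add hH0]; simp
        have e3 : 0 < H ^ (1 - κ) := by positivity
        rw [hc, div_mul_eq_mul_div, div_eq_div_iff (by positivity) (by positivity)]
        linear_combination (δ * A * (1 + C0 * δ) ^ (1 - κ)) * e2
      rw [e1]
      refine div_le_div_of_nonneg_left (by positivity) (by positivity) ?_
      exact mul_le_mul_of_nonneg_left m2 hA.le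
    have h1 := prob_box (r := R * H) (by nlinarith) (by positivity) hq
    refine h1.trans (ENNReal.ofReal_le_ofReal (le_of_eq ?_))
    have e1 : H ^ (-(2 + κ)) * H ^ 2 = H ^ (-κ) := by
      rw [← Real.rpow_natCast H 2, ← Real.rpow_add hH0]
      congr 1; push_cast; ring
    rw [← e1]; ring
  have p2 : ∀ i ∈ box (M + 1), ∀ j ∈ box (M + 1), PP (E2 i j) ≤
      ENNReal.ofReal (2 * (A * (1 + W) ^ (1 - κ) / δ) * H ^ (-κ)) := by
    intro i hi j hj
    have n1 := mem_box.1 hi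
    have n2 := mem_box.1 hj
    have m1 : μ (em (g • j - g • i)) ≤ W * H := by
      have e : em (g • j - g • i) = (g : ℝ) • (em j - em i) := by
        rw [em_def, em_def, em_def]
        ext <;> simp <;> ring
      rw [e]
      refine (hN.hi _).trans ?_
      rw [norm_smul, Real.norm_eq_abs, abs_of_pos hgR, hW]
      have n3 : ‖em j - em i‖ ≤ 2 * (M + 1) := (norm_sub_le _ _).trans (by linarith)
      calc C0 * (g * ‖em j - em i‖) ≤ C0 * ((δ * H) * (2 * (M + 1))) := by gcongr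
        _ = C0 * (2 * (M + 1) * δ) * H := by ring
    have m2 : (1 + μ (em (g • j - g • i))) ^ (1 - κ) ≤ (1 + W) ^ (1 - κ) * H ^ (1 - κ) := by
      rw [← Real.mul_rpow (by positivity) hH0.le]
      refine Real.rpow_le_rpow (by positivity) ?_ (by linarith)
      nlinarith
    have hs : 0 < δ * H := by positivity
    have q1 := markov_up h (g • i) (g • j) hs
    have q2 := markov_lo h (g • i) (g • j) hs
    refine (measure_union_le _ _).trans ((add_le_add q1 q2).trans ?_)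
    rw [← ENNReal.ofReal_add (by positivity) (by positivity)]
    refine ENNReal.ofReal_le_ofReal ?_
    have e1 : H ^ (1 - κ) / H = H ^ (-κ) := by
      rw [← Real.rpow_sub_one hH0.ne']; congr 1; ring
    have m3 : A * (1 + μ (em (g • j - g • i))) ^ (1 - κ) / (δ * H) ≤
        A * (1 + W) ^ (1 - κ) / δ * H ^ (-κ) := by
      rw [← e1, div_mul_div_comm]
      refine div_le_div_of_nonneg_right ?_ hs.le
      rw [mul_assoc]
      exact mul_le_mul_of_nonneg_left m2 hA.le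
    linarith
  refine (measure_mono hsub).trans ((measure_union_le _ _).trans ?_)
  have p3 : PP (⋃ i ∈ box (M + 1), ⋃ j ∈ box (M + 1), E2 i j) ≤
      ENNReal.ofReal (C2 * H ^ (-κ)) := by
    refine (measure_biUnion_finset_le _ _).trans ?_
    have s1 : ∀ i ∈ box (M + 1), PP (⋃ j ∈ box (M + 1), E2 i j) ≤
        ENNReal.ofReal (nb * (2 * (A * (1 + W) ^ (1 - κ) / δ) * H ^ (-κ))) := by
      intro i hi
      refine (measure_biUnion_finset_le _ _).trans ((Finset.sum_le_sum (p2 i hi)).trans ?_)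
      rw [Finset.sum_const, nsmul_eq_mul, ← ENNReal.ofReal_natCast, ← hnb,
        ← ENNReal.ofReal_mul (by positivity)]
    refine (Finset.sum_le_sum s1).trans ?_
    rw [Finset.sum_const, nsmul_eq_mul, ← ENNReal.ofReal_natCast, ← hnb,
      ← ENNReal.ofReal_mul (by positivity)]
    refine ENNReal.ofReal_le_ofReal (le_of_eq ?_)
    rw [hC2]; ring
  refine (add_le_add p1 p3).trans ?_
  rw [← ENNReal.ofReal_add (by positivity) (by positivity)]
  refine ENNReal.ofReal_le_ofReal ?_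
  have : 0 ≤ (1 / δ) ^ κ * H ^ (-κ) := by positivity
  nlinarith

end

end Pool.Agent.J4.H91.FPP
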