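import Pool.Agent.J4.H91.FPP.Var

set_option autoImplicit false
open MeasureTheory ProbabilityTheory Filter Set
open scoped ENNReal Topology Pointwise

/-!
# Second moments (helper91)
-/

namespace Pool.Agent.J4.H91.FPP

open Pool.Agent.N662.FP hiding em

theorem sq_mom {f : En → ℝ} (hf : Measurable f) (hf0 : ∀ x, 0 ≤ f x) {w : ℝ} (hw : 0 < w)
    (h : ∀ s : ℝ, 0 ≤ s → PP {x | s < f x} ≤ ENNReal.ofReal (3 * Real.exp (-(s / w)))) :
    ∫⁻ x, ENNReal.ofReal (f x ^ 2) ∂PP ≤ ENNReal.ofReal (6 * w ^ 2) := by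
  have h1 := lintegral_rpow_eq_lintegral_meas_lt_mul PP (Eventually.of_forall hf0)
    hf.aemeasurable (p := 2) two_pos
  have h2 : ∀ x, f x ^ 2 = f x ^ (2 : ℝ) := fun x => (Real.rpow_two _).symm
  simp_rw [h2]
  rw [h1]
  have h3 : ∫⁻ t in Ioi (0 : ℝ), PP {a | t < f a} * ENNReal.ofReal (t ^ ((2 : ℝ) - 1)) ≤
      ∫⁻ t in Ioi (0 : ℝ), ENNReal.ofReal (3 * (t ^ ((2 : ℝ) - 1) * Real.exp (-(1 / w * t)))) := by
    refine setLIntegral_mono' measurableSet_Ioi fun t ht => ?_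
    have ht0 : (0 : ℝ) < t := ht
    refine (mul_le_mul_left (h t ht0.le) _).trans (le_of_eq ?_)
    rw [← ENNReal.ofReal_mul (by positivity)]
    congr 1
    have : t / w = 1 / w * t := by ring
    rw [this]; ring
  have hint : IntegrableOn (fun t : ℝ => t ^ ((2 : ℝ) - 1) * Real.exp (-(1 / w * t)))
      (Ioi (0 : ℝ)) := by
    have h4 := integrableOn_rpow_mul_exp_neg_mul_rpow (p := 1) (s := (2 : ℝ) - 1) (b := 1 / w)
      (by norm_num) one_pos (by positivity)
    refine h4.congr_fun (fun t _ => ?_) measurableSet_Ioi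
    simp only [Real.rpow_one]
    rw [neg_mul]
  have h5 : ∫⁻ t in Ioi (0 : ℝ),
      ENNReal.ofReal (3 * (t ^ ((2 : ℝ) - 1) * Real.exp (-(1 / w * t)))) =
      ENNReal.ofReal (3 * w ^ 2) := by
    rw [← ofReal_integral_eq_lintegral_ofReal (hint.const_mul 3)]
    · rw [integral_const_mul, Real.integral_rpow_mul_exp_neg_mul_Ioi two_pos (by positivity),
        Real.Gamma_two, mul_one, one_div_one_div, Real.rpow_two]
    · refine (ae_restrict_iff' measurableSet_Ioi).2 (Eventually.of_forall fun t ht => ?_)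
      have ht0 : (0 : ℝ) < t := ht
      show 0 ≤ 3 * (t ^ ((2 : ℝ) - 1) * Real.exp (-(1 / w * t)))
      positivity
  rw [h5] at h3
  refine (mul_le_mul_right h3 _).trans (le_of_eq ?_)
  rw [← ENNReal.ofReal_mul zero_le_two]
  congr 1; ring

section
variable {Ω : Type} [MeasureSpace Ω] [IsProbabilityMeasure (volume : Measure Ω)]
  {X : Sym2 (ℤ × ℤ) → Ω → ℝ} {μ : Seminorm ℝ (ℝ × ℝ)} {c0 C0 κ A : ℝ}

theorem up_sq (hX : Iid X) (v : V) {w : ℝ} (hw : 0 < w)
    (h : ∫ ω, |D (env X ω) 0 v - hh v| ∂(volume : Measure Ω) ≤ w) :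
    ∫⁻ x, ENNReal.ofReal (max (dR 0 v x - hh v) 0 ^ 2) ∂PP ≤ ENNReal.ofReal (486 * w ^ 2) := by
  have h1 := sq_mom (f := fun x => max (dR 0 v x - hh v) 0) (w := 9 * w)
    (((dR_meas 0 v).sub_const _).max measurable_const) (fun x => le_max_right _ _) (by positivity)
    (fun s hs => by
      refine le_trans (measure_mono ?_) (mean_tail hX v hw h hs)
      intro x hx
      have hx' : s < max (dR 0 v x - hh v) 0 := hx
      rcases lt_max_iff.1 hx' with h2 | h2
      · show hh v + s < dR 0 v x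
        linarith
      · linarith)
  refine h1.trans (ENNReal.ofReal_le_ofReal (le_of_eq ?_))
  ring

theorem mem2 (hX : Iid X) (v : V) : MemLp (dR 0 v) 2 PP := by
  rw [memLp_two_iff_integrable_sq (dR_meas 0 v).aestronglyMeasurable,
    ← lintegral_ofReal_ne_top_iff_integrable ((dR_meas 0 v).pow_const 2).aestronglyMeasurable
      (Eventually.of_forall fun x => sq_nonneg _)]
  obtain ⟨w, hw⟩ : ∃ w : ℝ, w = 1 + ∫ ω, |D (env X ω) 0 v - hh v| ∂(volume : Measure Ω) := ⟨_, rfl⟩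
  have h0 : 0 ≤ ∫ ω, |D (env X ω) 0 v - hh v| ∂(volume : Measure Ω) :=
    integral_nonneg fun ω => abs_nonneg _
  have h1 := up_sq hX v (w := w) (by linarith) (by linarith)
  have h2 : ∀ x, ENNReal.ofReal (dR 0 v x ^ 2) ≤
      ENNReal.ofReal 2 * ENNReal.ofReal (max (dR 0 v x - hh v) 0 ^ 2) +
        ENNReal.ofReal (2 * hh v ^ 2) := by
    intro x
    rw [← ENNReal.ofReal_mul zero_le_two, ← ENNReal.ofReal_add (by positivity) (by positivity)]
    refine ENNReal.ofReal_le_ofReal ?_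
    have h3 := dR_nonneg 0 v x
    have h4 := hh_nonneg v
    have h5 : dR 0 v x ≤ max (dR 0 v x - hh v) 0 + hh v := by
      have := le_max_left (dR 0 v x - hh v) 0
      linarith
    have h6 : 0 ≤ max (dR 0 v x - hh v) 0 := le_max_right _ _
    have h7 : dR 0 v x ^ 2 ≤ (max (dR 0 v x - hh v) 0 + hh v) ^ 2 := pow_le_pow_left₀ h3 h5 2
    nlinarith [sq_nonneg (max (dR 0 v x - hh v) 0 - hh v)]
  refine ((lintegral_mono h2).trans_lt ?_).ne
  rw [lintegral_add_right _ measurable_const, lintegral_const, measure_univ, mul_one,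
    lintegral_const_mul' _ _ ENNReal.ofReal_ne_top]
  exact ENNReal.add_lt_top.2 ⟨ENNReal.mul_lt_top ENNReal.ofReal_lt_top
    (h1.trans_lt ENNReal.ofReal_lt_top), ENNReal.ofReal_lt_top⟩

theorem mem2' (hX : Iid X) (v : V) :
    MemLp (fun ω => D (env X ω) 0 v) 2 (volume : Measure Ω) := by
  have h1 := mem2 hX v
  rw [← map_env hX] at h1
  have h2 := h1.comp_of_map (env_meas hX).aemeasurable
  refine h2.ae_eq ?_
  filter_upwards [cAE Ω X hX] with ω hω
  exact dR_eq hω 0 v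

/-- the mean square fluctuation -/
noncomputable def sqm (v : V) : ℝ := ∫ x, (dR 0 v x - hh v) ^ 2 ∂PP

theorem sqm_eq (hX : Iid X) (v : V) :
    ∫ ω, (D (env X ω) 0 v - hh v) ^ 2 ∂(volume : Measure Ω) = sqm v := by
  unfold sqm
  rw [tr_int hX (((dR_meas 0 v).sub_const _).pow_const 2)]
  refine integral_congr_ae ?_
  filter_upwards [cAE Ω X hX] with ω hω
  show _ = (dR 0 v (env X ω) - hh v) ^ 2
  rw [dR_eq hω]

theorem poly_exp {b : ℝ} (hb : 0 < b) :
    ∃ C : ℝ, 0 < C ∧ ∀ n : ℝ, 0 ≤ n → n ^ 2 * Real.exp (-(n ^ b)) ≤ C := by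
  obtain ⟨C, hC, h⟩ := exp_poly (κ := b) (c := 1) 2 hb one_pos
  refine ⟨1 + C, by linarith, fun n hn => ?_⟩
  have hE := Real.exp_pos (-(n ^ b))
  rcases le_total n 1 with h1 | h1
  · have h2 : n ^ 2 ≤ 1 := pow_le_one₀ hn h1
    have h3 : Real.exp (-(n ^ b)) ≤ 1 := by
      rw [Real.exp_le_one_iff]
      have : 0 ≤ n ^ b := by positivity
      linarith
    have := mul_le_mul h2 h3 hE.le zero_le_one
    linarith
  · have h2 := h n h1
    rw [one_mul] at h2
    have hn0 : 0 < n := by linarith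
    have h3 : n ^ 2 * (C * n ^ (-(2 : ℝ))) = C := by
      rw [Real.rpow_neg hn0.le, Real.rpow_two]
      field_simp
    have h4 := mul_le_mul_of_nonneg_left h2 (sq_nonneg n)
    linarith

theorem low_sq (hN : Nrm μ c0 C0) (hκ1 : κ < 1) (hL : HL μ κ) (hG : GG μ κ) :
    ∃ B : ℝ, 0 < B ∧ ∀ v : V, ∫⁻ x, ENNReal.ofReal (max (hh v - dR 0 v x) 0 ^ 2) ∂PP ≤
      ENNReal.ofReal (B * (1 + μ (em v)) ^ (2 * (1 - κ))) := by
  have hc0 := hN.cpos
  obtain ⟨b, C, hb, hC, hbd⟩ := hL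
  obtain ⟨C1, hC1, hb1⟩ := hG
  obtain ⟨C2, hC2, hb2⟩ := poly_exp hb
  refine ⟨(C1 + C) ^ 2 + (6 / c0) ^ 2 * (C * C2), by positivity, fun v => ?_⟩
  obtain ⟨n, hn⟩ : ∃ n : ℝ, n = μ (em v) := ⟨_, rfl⟩
  have hn0 : 0 ≤ n := by rw [hn]; exact apply_nonneg μ _
  obtain ⟨P, hP⟩ : ∃ P : ℝ, P = (1 + n) ^ (1 - κ) := ⟨_, rfl⟩
  have hP1 : 1 ≤ P := by rw [hP]; exact Real.one_le_rpow (by linarith) (by linarith)
  have hP2 : (1 + n) ^ (2 * (1 - κ)) = P ^ 2 := by
    rw [hP, ← Real.rpow_natCast, ← Real.rpow_mul (by linarith)]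
    congr 1; push_cast; ring
  have hb3 := hb1 v
  have hb4 := hbd v
  rw [← hn, ← hP] at hb3 hb4
  rw [← hn, hP2]
  have hhn : hh v ≤ 6 / c0 * n := by
    have h1 := hh_lin hN v
    have h2 : ‖em v‖ ≤ n / c0 := by
      rw [le_div_iff₀ hc0, mul_comm, hn]; exact hN.lo _
    have h3 : 6 / c0 * n = 6 * (n / c0) := by ring
    rw [h3]; linarith
  obtain ⟨S, hS⟩ : ∃ S : Set En, S = {x | dR 0 v x < n - C * P} := ⟨_, rfl⟩
  have hSm : MeasurableSet S := by rw [hS]; exact measurableSet_lt (dR_meas 0 v) measurable_const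
  rw [← hS] at hb4
  have hpt : ∀ x, ENNReal.ofReal (max (hh v - dR 0 v x) 0 ^ 2) ≤
      ENNReal.ofReal (((C1 + C) * P) ^ 2) +
        S.indicator (fun _ => ENNReal.ofReal ((6 / c0 * n) ^ 2)) x := by
    intro x
    have h0 : 0 ≤ max (hh v - dR 0 v x) 0 := le_max_right _ _
    by_cases hx : x ∈ S
    · rw [indicator_of_mem hx]
      refine le_trans (ENNReal.ofReal_le_ofReal (pow_le_pow_left₀ h0 ?_ 2)) le_add_self
      have h4 := hh_nonneg v
      refine max_le ?_ (by linarith)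
      have := dR_nonneg 0 v x
      linarith
    · rw [indicator_of_notMem hx, add_zero]
      refine ENNReal.ofReal_le_ofReal (pow_le_pow_left₀ h0 ?_ 2)
      have h1 : n - C * P ≤ dR 0 v x := by
        rw [hS] at hx
        exact not_lt.1 hx
      refine max_le ?_ (by positivity)
      have e : (C1 + C) * P = C1 * P + C * P := by ring
      linarith
  refine (lintegral_mono hpt).trans ?_
  rw [lintegral_add_left measurable_const, lintegral_const, measure_univ, mul_one,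
    lintegral_indicator_const hSm]
  have h5 : ENNReal.ofReal ((6 / c0 * n) ^ 2) * PP S ≤
      ENNReal.ofReal ((6 / c0) ^ 2 * (C * C2) * P ^ 2) := by
    refine (mul_le_mul_right hb4 _).trans ?_
    rw [← ENNReal.ofReal_mul (by positivity)]
    refine ENNReal.ofReal_le_ofReal ?_
    have h6 := hb2 n hn0
    have h7 : (6 / c0 * n) ^ 2 * (C * Real.exp (-(n ^ b))) =
      (6 / c0) ^ 2 * (C * (n ^ 2 * Real.exp (-(n ^ b)))) := by ring
    rw [h7]
    have h8 : (1 : ℝ) ≤ P ^ 2 := one_le_pow₀ hP1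
    calc (6 / c0) ^ 2 * (C * (n ^ 2 * Real.exp (-(n ^ b)))) ≤ (6 / c0) ^ 2 * (C * C2) := by
          gcongr
      _ ≤ (6 / c0) ^ 2 * (C * C2) * P ^ 2 := le_mul_of_one_le_right (by positivity) h8
  refine (add_le_add le_rfl h5).trans ?_
  rw [← ENNReal.ofReal_add (by positivity) (by positivity)]
  refine ENNReal.ofReal_le_ofReal (le_of_eq ?_)
  ring

theorem sqm_le (hX : Iid X) (v : V) {p q : ℝ} (hp : 0 ≤ p) (hq : 0 ≤ q)
    (h1 : ∫⁻ x, ENNReal.ofReal (max (dR 0 v x - hh v) 0 ^ 2) ∂PP ≤ ENNReal.ofReal p)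
    (h2 : ∫⁻ x, ENNReal.ofReal (max (hh v - dR 0 v x) 0 ^ 2) ∂PP ≤ ENNReal.ofReal q) :
    sqm v ≤ p + q := by
  have hi : Integrable (fun x => (dR 0 v x - hh v) ^ 2) PP :=
    ((mem2 hX v).sub (memLp_const (hh v))).integrable_sq
  have h3 : ENNReal.ofReal (sqm v) ≤ ENNReal.ofReal (p + q) := by
    unfold sqm
    rw [ofReal_integral_eq_lintegral_ofReal hi (Eventually.of_forall fun x => sq_nonneg _),
      ENNReal.ofReal_add hp hq]
    refine le_trans (le_of_eq ?_) (add_le_add h1 h2)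
    rw [← lintegral_add_left
      ((((dR_meas 0 v).sub_const _).max measurable_const).pow_const 2).ennreal_ofReal]
    refine lintegral_congr fun x => ?_
    rw [← ENNReal.ofReal_add (by positivity) (by positivity)]
    congr 1
    rcases le_total (dR 0 v x) (hh v) with h | h
    · rw [max_eq_right (by linarith), max_eq_left (by linarith)]; ring
    · rw [max_eq_left (by linarith), max_eq_right (by linarith)]; ring
  rwa [ENNReal.ofReal_le_ofReal_iff (by linarith)] at h3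

theorem abs_of_sqm (hX : Iid X) (v : V) {w : ℝ} (hw : 0 ≤ w) (h : sqm v ≤ w ^ 2) :
    ∫ ω, |D (env X ω) 0 v - hh v| ∂(volume : Measure Ω) ≤ w := by
  have hm : MemLp (fun ω => |D (env X ω) 0 v - hh v|) 2 (volume : Measure Ω) :=
    ((mem2' hX v).sub (memLp_const (hh v))).abs
  have h1 := variance_nonneg (fun ω => |D (env X ω) 0 v - hh v|) (volume : Measure Ω)
  rw [variance_eq_sub hm] at h1
  have h2 : ∫ ω, ((fun ω => |D (env X ω) 0 v - hh v|) ^ 2) ω ∂(volume : Measure Ω) = sqm v := by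
    rw [← sqm_eq hX]
    refine integral_congr_ae (Eventually.of_forall fun ω => ?_)
    show |D (env X ω) 0 v - hh v| ^ 2 = _
    rw [sq_abs]
  rw [h2] at h1
  exact abs_le_of_sq_le_sq' (by linarith) hw |>.2

end

end Pool.Agent.J4.H91.FPP
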