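import Pool.Agent.N662.FP.Cl

set_option autoImplicit false
open MeasureTheory ProbabilityTheory Filter Set
open scoped ENNReal Topology

/-!
# First-passage percolation, extended-real form (helper91)

Paths, passage times over classes of paths, concatenation, sub-paths.
-/

namespace Pool.Agent.J4.H91.FPP

open Pool.Agent.N662.FP

abbrev V := ℤ × ℤ
abbrev En := Sym2 V → ℝ

/-- the first `n` steps of `p` are lattice steps -/
def Stp (n : ℕ) (p : ℕ → V) : Prop :=
  ∀ i < n, |(p (i + 1)).1 - (p i).1| + |(p (i + 1)).2 - (p i).2| = 1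

/-- passage time of the first `n` steps of `p` -/
noncomputable def tm (x : En) (n : ℕ) (p : ℕ → V) : ℝ≥0∞ :=
  ∑ i ∈ Finset.range n, ENNReal.ofReal (x s(p i, p (i + 1)))

/-- passage time over a class of paths -/
noncomputable def LE (C : ℕ → (ℕ → V) → Prop) (x : En) : ℝ≥0∞ :=
  ⨅ (n : ℕ) (p : ℕ → V) (_ : C n p), tm x n p

theorem tm_cont (n : ℕ) (p : ℕ → V) : Continuous fun x : En => tm x n p :=
  continuous_finsetSum _ fun i _ => ENNReal.continuous_ofReal.comp (continuous_apply _)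

theorem tm_meas (n : ℕ) (p : ℕ → V) : Measurable fun x : En => tm x n p :=
  Finset.measurable_sum _ fun i _ => (measurable_pi_apply _).ennreal_ofReal

theorem LE_meas (C : ℕ → (ℕ → V) → Prop) : Measurable (LE C) := by
  have h : UpperSemicontinuous (LE C) := by
    unfold LE
    refine upperSemicontinuous_iInf fun n => upperSemicontinuous_iInf fun p =>
      upperSemicontinuous_iInf fun _ => (tm_cont n p).upperSemicontinuous
  exact h.measurable

theorem LE_lt {C : ℕ → (ℕ → V) → Prop} {x : En} {t : ℝ≥0∞} :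
    LE C x < t ↔ ∃ n p, C n p ∧ tm x n p < t := by
  simp only [LE, iInf_lt_iff, exists_prop]

theorem LE_le {C : ℕ → (ℕ → V) → Prop} {n : ℕ} {p : ℕ → V} (h : C n p) (x : En) :
    LE C x ≤ tm x n p := iInf_le_of_le n (iInf_le_of_le p (iInf_le_of_le h le_rfl))

theorem le_LE {C : ℕ → (ℕ → V) → Prop} {x : En} {t : ℝ≥0∞} (h : ∀ n p, C n p → t ≤ tm x n p) :
    t ≤ LE C x := le_iInf fun n => le_iInf fun p => le_iInf fun hc => h n p hc

/-- open events -/
theorem ev_open (C : ℕ → (ℕ → V) → Prop) (t : ℝ≥0∞) :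
    IsOpen {x : En | ∃ n p, C n p ∧ tm x n p < t} := by
  have : {x : En | ∃ n p, C n p ∧ tm x n p < t} =
      ⋃ (n : ℕ) (p : ℕ → V) (_ : C n p), {x : En | tm x n p < t} := by
    ext x; simp only [mem_iUnion, mem_ofPred_eq, exists_prop]
  rw [this]
  exact isOpen_iUnion fun n => isOpen_iUnion fun p => isOpen_iUnion fun _ =>
    isOpen_lt (tm_cont n p) continuous_const

/-! ### concatenation and sub-paths -/

/-- concatenation -/
def cat (n : ℕ) (p q : ℕ → V) : ℕ → V := fun i => if i ≤ n then p i else q (i - n)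

theorem cat_le {n : ℕ} {p q : ℕ → V} {i : ℕ} (h : i ≤ n) : cat n p q i = p i := if_pos h

theorem cat_add {n : ℕ} {p q : ℕ → V} (h : p n = q 0) (i : ℕ) : cat n p q (n + i) = q i := by
  rcases Nat.eq_zero_or_pos i with h0 | h0
  · subst h0; rw [add_zero, cat_le le_rfl, h]
  · rw [cat, if_neg (by omega)]; congr 1; omega

theorem tm_cat {n m : ℕ} {p q : ℕ → V} (h : p n = q 0) (x : En) :
    tm x (n + m) (cat n p q) = tm x n p + tm x m q := by
  unfold tm
  rw [Finset.sum_range_add]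
  congr 1
  · refine Finset.sum_congr rfl fun i hi => ?_
    have := Finset.mem_range.1 hi
    rw [cat_le this.le, cat_le (by omega : i + 1 ≤ n)]
  · refine Finset.sum_congr rfl fun i _ => ?_
    rw [cat_add h, add_assoc, cat_add h]

theorem stp_cat {n m : ℕ} {p q : ℕ → V} (h : p n = q 0) (hp : Stp n p) (hq : Stp m q) :
    Stp (n + m) (cat n p q) := by
  intro i hi
  rcases lt_or_ge i n with h1 | h1
  · rw [cat_le h1.le, cat_le (by omega : i + 1 ≤ n)]
    exact hp i h1
  · obtain ⟨j, rfl⟩ := Nat.exists_eq_add_of_le h1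
    rw [cat_add h, add_assoc, cat_add h]
    exact hq j (by omega)

/-- the vertices of a concatenation -/
theorem cat_forall {n m : ℕ} {p q : ℕ → V} (h : p n = q 0) {P : V → Prop}
    (hp : ∀ i ≤ n, P (p i)) (hq : ∀ i ≤ m, P (q i)) : ∀ i ≤ n + m, P (cat n p q i) := by
  intro i hi
  rcases le_or_gt i n with h1 | h1
  · rw [cat_le h1]; exact hp i h1
  · obtain ⟨j, rfl⟩ := Nat.exists_eq_add_of_le h1.le
    rw [cat_add h]; exact hq j (by omega)

/-- the part of `p` after time `s` -/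
def sh (s : ℕ) (p : ℕ → V) : ℕ → V := fun i => p (s + i)

theorem stp_sh {n s m : ℕ} {p : ℕ → V} (hp : Stp n p) (h : s + m ≤ n) : Stp m (sh s p) := by
  intro i hi
  have := hp (s + i) (by omega)
  simpa [sh, add_assoc] using this

theorem stp_mono {n m : ℕ} {p : ℕ → V} (hp : Stp n p) (h : m ≤ n) : Stp m p :=
  fun i hi => hp i (by omega)

theorem tm_mono {n m : ℕ} (p : ℕ → V) (x : En) (h : m ≤ n) : tm x m p ≤ tm x n p :=
  Finset.sum_le_sum_of_subset (Finset.range_mono h)

theorem tm_split (s m : ℕ) (p : ℕ → V) (x : En) :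
    tm x (s + m) p = tm x s p + tm x m (sh s p) := by
  unfold tm
  rw [Finset.sum_range_add]
  rfl

theorem tm_sh_le {n s m : ℕ} (p : ℕ → V) (x : En) (h : s + m ≤ n) :
    tm x m (sh s p) ≤ tm x n p := by
  refine le_trans ?_ (tm_mono p x h)
  rw [tm_split]
  exact le_add_self

theorem tm_lt_top (x : En) (n : ℕ) (p : ℕ → V) : tm x n p < ⊤ :=
  ENNReal.sum_lt_top.2 fun _ _ => ENNReal.ofReal_lt_top

/-- sum of the passage times of consecutive pieces -/
theorem tm_pieces (p : ℕ → V) (x : En) (s : ℕ → ℕ) (N : ℕ) (h0 : s 0 = 0)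
    (hs : ∀ i < N, s i ≤ s (i + 1)) :
    tm x (s N) p = ∑ i ∈ Finset.range N, tm x (s (i + 1) - s i) (sh (s i) p) := by
  induction N with
  | zero => simp [h0, tm]
  | succ N ih =>
    rw [Finset.sum_range_succ, ← ih fun i hi => hs i (by omega)]
    have := hs N (by omega)
    conv_lhs => rw [show s (N + 1) = s N + (s (N + 1) - s N) by omega]
    exact tm_split _ _ _ _

/-! ### the classes of paths -/

/-- all paths from `a` to `b` -/
def Fu (a b : V) (n : ℕ) (p : ℕ → V) : Prop := p 0 = a ∧ p n = b ∧ Stp n p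

/-- paths from `a` to `b` inside `S` -/
def Re (S : V → Prop) (a b : V) (n : ℕ) (p : ℕ → V) : Prop :=
  p 0 = a ∧ p n = b ∧ Stp n p ∧ ∀ i ≤ n, S (p i)

/-- crossings of the slab `α ≤ l < β` from `a` -/
def Cr (l : V → ℝ) (α β : ℝ) (a : V) (n : ℕ) (p : ℕ → V) : Prop :=
  p 0 = a ∧ Stp n p ∧ (∀ i < n, α ≤ l (p i) ∧ l (p i) < β) ∧ β ≤ l (p n)

/-- passage time between two points -/
noncomputable def DE (a b : V) (x : En) : ℝ≥0∞ := LE (Fu a b) x

theorem DE_meas (a b : V) : Measurable (DE a b) := LE_meas _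

theorem DE_le_tm {n : ℕ} {p : ℕ → V} (hp : Stp n p) (x : En) : DE (p 0) (p n) x ≤ tm x n p :=
  LE_le (C := Fu (p 0) (p n)) ⟨rfl, rfl, hp⟩ x

theorem DE_le_piece {n i j : ℕ} {p : ℕ → V} (hp : Stp n p) (hij : i ≤ j) (hj : j ≤ n) (x : En) :
    DE (p i) (p j) x ≤ tm x (j - i) (sh i p) := by
  have h := DE_le_tm (stp_sh (s := i) (m := j - i) hp (by omega)) x
  have e1 : sh i p 0 = p i := rfl
  have e2 : sh i p (j - i) = p j := by show p (i + (j - i)) = p j; congr 1; omega
  rwa [e1, e2] at h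

/-- concatenation for classes -/
theorem LE_add {C1 C2 C3 : ℕ → (ℕ → V) → Prop} {x : En}
    (h : ∀ n p m q, C1 n p → C2 m q → ∃ k r, C3 k r ∧ tm x k r ≤ tm x n p + tm x m q) :
    LE C3 x ≤ LE C1 x + LE C2 x := by
  have e : LE C1 x + LE C2 x = ⨅ (m : ℕ) (q : ℕ → V) (_ : C2 m q) (n : ℕ) (p : ℕ → V)
      (_ : C1 n p), (tm x n p + tm x m q) := by
    simp only [LE, ENNReal.iInf_add, ENNReal.add_iInf]
  rw [e]
  refine le_iInf fun m => le_iInf fun q => le_iInf fun h2 => le_iInf fun n => le_iInf fun p =>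
    le_iInf fun h1 => ?_
  obtain ⟨k, r, h3, h4⟩ := h n p m q h1 h2
  exact (LE_le h3 x).trans h4

theorem DE_tri (a b c : V) (x : En) : DE a c x ≤ DE a b x + DE b c x := by
  refine LE_add ?_
  rintro n p m q ⟨h1, h2, h3⟩ ⟨h4, h5, h6⟩
  have e : p n = q 0 := by rw [h2, h4]
  refine ⟨n + m, cat n p q, ⟨?_, ?_, stp_cat e h3 h6⟩, (tm_cat e x).le⟩
  · rw [cat_le (Nat.zero_le _), h1]
  · rw [cat_add e, h5]

/-- truncation at the first hitting of the level `β` -/
theorem exists_cr {l : V → ℝ} {α β : ℝ} {n : ℕ} {p : ℕ → V} (hp : Stp n p)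
    (h1 : ∀ i ≤ n, α ≤ l (p i)) (h2 : ∃ i ≤ n, β ≤ l (p i)) :
    ∃ m ≤ n, Cr l α β (p 0) m p := by
  classical
  obtain ⟨i, hi, hβ⟩ := h2
  have hex : ∃ j, β ≤ l (p j) := ⟨i, hβ⟩
  have hm : Nat.find hex ≤ i := Nat.find_min' hex hβ
  refine ⟨Nat.find hex, by omega, rfl, stp_mono hp (by omega), fun j hj => ⟨h1 j (by omega), ?_⟩,
    Nat.find_spec hex⟩
  exact not_le.1 (Nat.find_min hex hj)

/-- symmetry of the passage time -/
theorem DE_comm (a b : V) (x : En) : DE a b x = DE b a x := by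
  have key : ∀ a b : V, DE a b x ≤ DE b a x := by
    intro a b
    refine le_LE ?_
    rintro n p ⟨h1, h2, h3⟩
    have hq : Fu a b n (fun i => p (n - i)) := by
      refine ⟨?_, ?_, ?_⟩
      · show p (n - 0) = a
        rw [Nat.sub_zero, h2]
      · show p (n - n) = b
        rw [Nat.sub_self, h1]
      · intro i hi
        have h4 := h3 (n - (i + 1)) (by omega)
        have e : n - (i + 1) + 1 = n - i := by omega
        rw [e] at h4
        show |(p (n - (i + 1))).1 - (p (n - i)).1| + |(p (n - (i + 1))).2 - (p (n - i)).2| = 1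
        rw [abs_sub_comm (p (n - (i + 1))).1, abs_sub_comm (p (n - (i + 1))).2]
        exact h4
    refine (LE_le hq x).trans (le_of_eq ?_)
    unfold tm
    rw [← Finset.sum_range_reflect]
    refine Finset.sum_congr rfl fun i hi => ?_
    have := Finset.mem_range.1 hi
    show ENNReal.ofReal (x s(p (n - (n - 1 - i)), p (n - (n - 1 - i + 1)))) = _
    have e1 : n - (n - 1 - i) = i + 1 := by omega
    have e2 : n - (n - 1 - i + 1) = i := by omega
    rw [e1, e2, Sym2.eq_swap]
  exact le_antisymm (key a b) (key b a)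

/-! ### comparison with the real passage time -/

theorem DE_eq {x : En} (hx : ∀ e, 0 ≤ x e) (a b : V) : DE a b x = ENNReal.ofReal (D x a b) := by
  obtain ⟨hne, hbd, -, -⟩ := cGE x hx a b
  refine le_antisymm ?_ ?_
  · refine ENNReal.le_of_forall_pos_le_add fun ε hε _ => ?_
    obtain ⟨s, ⟨n, p, h0, h1, h2, h3⟩, hs⟩ :=
      exists_lt_of_csInf_lt hne (show sInf (PS x a b) < D x a b + ε from
        lt_add_of_pos_right _ (by exact_mod_cast hε))
    have h4 : tm x n p = ENNReal.ofReal s := by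
      rw [h3, ENNReal.ofReal_sum_of_nonneg fun i _ => hx _]; rfl
    refine (LE_le (C := Fu a b) ⟨h0, h1, h2⟩ x).trans ?_
    rw [h4]
    refine (ENNReal.ofReal_le_ofReal hs.le).trans ?_
    refine (ENNReal.ofReal_add_le).trans ?_
    rw [ENNReal.ofReal_coe_nnreal]
  · refine le_LE ?_
    rintro n p ⟨h0, h1, h2⟩
    have h4 : tm x n p = ENNReal.ofReal (∑ i ∈ Finset.range n, x s(p i, p (i + 1))) := by
      rw [ENNReal.ofReal_sum_of_nonneg fun i _ => hx _]; rfl
    rw [h4]
    exact ENNReal.ofReal_le_ofReal (csInf_le hbd ⟨n, p, h0, h1, h2, rfl⟩)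

end Pool.Agent.J4.H91.FPP
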