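import Pool.Agent.J4.H91.FPP.Line

set_option autoImplicit false
open MeasureTheory ProbabilityTheory Filter Set
open scoped ENNReal Topology

/-!
# Fast crossings from a cell are unlikely (helper91)
-/

namespace Pool.Agent.J4.H91.FPP

open Pool.Agent.N662.FP hiding em

variable {μ : Seminorm ℝ (ℝ × ℝ)} {c0 C0 κ A : ℝ}

/-- a fast crossing starts in the cell over the root `0` -/
def CB (F : Frame μ) (m S y : ℝ) : Set En :=
  {x | ∃ n p, (Stp n p ∧ μ (em (p 0)) ≤ m + y / 8 + S ∧ m - S ≤ F.lv (p 0) ∧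
    (∀ i ≤ n, 0 ≤ F.lv (p i)) ∧ 2 * m - S ≤ F.lv (p n)) ∧ tm x n p < ENNReal.ofReal (m - y)}

theorem CB_meas (F : Frame μ) (m S y : ℝ) : MeasurableSet (CB F m S y) :=
  (ev_open (fun n p => Stp n p ∧ μ (em (p 0)) ≤ m + y / 8 + S ∧ m - S ≤ F.lv (p 0) ∧
    (∀ i ≤ n, 0 ≤ F.lv (p i)) ∧ 2 * m - S ≤ F.lv (p n)) _).measurableSet

theorem Rh_shift (F : Frame μ) (z : V) (m : ℝ) (x : En) :
    LE (Re (fun v => F.lv z ≤ F.lv v) z (z + bp C0 F m)) x = Rh C0 F m (shE z x) := by
  unfold Rh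
  rw [LE_shift]
  congr 1
  funext n p
  simp only [Re, sub_eq_zero, stp_sub, F.lv_sub, sub_nonneg, sub_eq_iff_eq_add', eq_iff_iff]
  rw [add_zero]

theorem cell_incl (hN : Nrm μ c0 C0) (F : Frame μ) {m S y : ℝ} (hS : 0 ≤ S)
    (hm : 8 * S + 16 * C0 + 16 ≤ m) (hy1 : 16 * S ≤ y) (hy0 : 0 < y) (hym : y ≤ m) {x : En}
    (h1 : Rh C0 F m (shE (-bp C0 F m) x) ≤ ENNReal.ofReal (m + y / 8))
    (h2 : Unif μ x ((3 / c0 + 1) * m) (1 / 8 * m))
    (h3 : ∀ a : V, ‖em a‖ ≤ (3 / c0 + 1) * m → dR 0 a x ≤ μ (em a) + y / 8)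
    (hx : x ∈ CB F m S y) :
    Lc F (F.lv (bp C0 F m) + 2 * m - S) (shE (-bp C0 F m) x) <
      ENNReal.ofReal (F.lv (bp C0 F m) + 2 * m - S - y / 2) := by
  have hC0 : 1 ≤ C0 := hN.Cge
  have hc0 := hN.cpos
  obtain ⟨n, p, ⟨hs, ha1, ha2, hall, hend⟩, ht⟩ := hx
  set z : V := -bp C0 F m with hz
  set a : V := p 0 with hadef
  have hlz : F.lv z = -F.lv (bp C0 F m) := by rw [hz, F.lv_neg]
  have hlb := (bp_lv hN F m).1
  have hz0 : z + bp C0 F m = 0 := by rw [hz]; abel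
  have hmpos : 0 < m := by linarith
  have hball : ∀ b : V, μ (em b) ≤ 3 * m → ‖em b‖ ≤ (3 / c0 + 1) * m := by
    intro b hb
    have h4 : ‖em b‖ ≤ 3 * m / c0 := by
      rw [le_div_iff₀ hc0, mul_comm]
      exact (hN.lo _).trans hb
    have h5 : 3 * m / c0 = 3 / c0 * m := by ring
    rw [h5] at h4
    linarith
  have haball : ‖em a‖ ≤ (3 / c0 + 1) * m := hball a (by linarith)
  have hda := h3 a haball
  -- first leg
  have hR1 : LE (Re (fun v => F.lv z ≤ F.lv v) z 0) x ≤ ENNReal.ofReal (m + y / 8) := by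
    have := Rh_shift (C0 := C0) F z m x
    rw [hz0] at this
    rw [this]; exact h1
  -- second leg
  have hR2 : LE (Re (fun v => F.lv z ≤ F.lv v) 0 a) x ≤ ENNReal.ofReal (μ (em a) + y / 8) := by
    have h4 : LE (Re (fun v => F.lv z ≤ F.lv v) 0 a) x ≤ DE 0 a x := by
      refine Re_le_DE fun k q hq hqt i hi => ?_
      have hT : tm x k q ≤ ENNReal.ofReal (μ (em a) + y / 8 + 1) := by
        refine hqt.le.trans ?_
        rw [DE_ofReal, ENNReal.ofReal_add (by positivity) zero_le_one, ENNReal.ofReal_one]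
        gcongr
      have h5 := hp_path hN F (x := x) (d := 1 / 8 * m) (T := μ (em a) + y / 8 + 1)
        (u := 0) (w := a) (by positivity) (by positivity) (fun b c hb hc => by
          rw [sub_zero] at hb hc
          have := (abs_le.1 (h2 b c (hball b (by linarith)) (hball c (by linarith)))).1
          linarith) hq hT i hi
      rw [F.lv_zero] at h5
      rw [hlz]
      linarith
    refine h4.trans ?_
    rw [DE_ofReal]
    exact ENNReal.ofReal_le_ofReal hda
  -- third leg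
  have hR3 : LE (Re (fun v => F.lv z ≤ F.lv v) a (p n)) x ≤ tm x n p := by
    refine LE_le (C := Re (fun v => F.lv z ≤ F.lv v) a (p n)) ⟨rfl, rfl, hs, fun i hi => ?_⟩ x
    have := hall i hi
    show F.lv z ≤ F.lv (p i)
    rw [hlz]; linarith
  have hR4 : LE (Re (fun v => F.lv z ≤ F.lv v) z (p n)) x <
      ENNReal.ofReal (m + y / 8 + (μ (em a) + y / 8) + (m - y)) := by
    have h5 : LE (Re (fun v => F.lv z ≤ F.lv v) z (p n)) x ≤
        LE (Re (fun v => F.lv z ≤ F.lv v) z 0) x + LE (Re (fun v => F.lv z ≤ F.lv v) 0 a) x +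
        LE (Re (fun v => F.lv z ≤ F.lv v) a (p n)) x :=
      (Re_add (b := a) x).trans (add_le_add (Re_add (b := 0) x) le_rfl)
    refine h5.trans_lt ?_
    have hmy : 0 < m - y := ENNReal.ofReal_pos.1 (bot_le.trans_lt ht)
    rw [ENNReal.ofReal_add (by positivity) hmy.le, ENNReal.ofReal_add (by positivity) (by positivity)]
    refine ENNReal.add_lt_add_of_le_of_lt ?_ (add_le_add hR1 hR2) (hR3.trans_lt ht)
    exact (ENNReal.add_lt_top.2 ⟨hR1.trans_lt ENNReal.ofReal_lt_top,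
      hR2.trans_lt ENNReal.ofReal_lt_top⟩).ne
  -- truncation
  have hR5 : Lc F (F.lv (bp C0 F m) + 2 * m - S) (shE z x) ≤
      LE (Re (fun v => F.lv z ≤ F.lv v) z (p n)) x := by
    rw [← Lc_shift]
    refine le_LE fun k q hq => ?_
    obtain ⟨j, hj, hc⟩ := exists_cr (l := F.lv) (α := F.lv z)
      (β := F.lv z + (F.lv (bp C0 F m) + 2 * m - S)) hq.2.2.1 hq.2.2.2
      ⟨k, le_rfl, by rw [hq.2.1, hlz]; linarith⟩
    rw [hq.1] at hc
    exact (LE_le hc x).trans (tm_mono q x hj)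
  refine hR5.trans_lt (hR4.trans_le (ENNReal.ofReal_le_ofReal ?_))
  linarith

theorem cell (hN : Nrm μ c0 C0) (hy : Hyp μ κ A) (hκ1 : κ < 1) {κ' κ'' S : ℝ}
    (hκ'' : 0 < κ'') (hκ' : κ'' < κ') (hκκ : κ' < κ) (hS : 0 ≤ S) :
    ∃ C m0 : ℝ, 0 < C ∧ 1 ≤ m0 ∧ ∀ (F : Frame μ) (m : ℝ), m0 ≤ m →
      PP (CB F m S (m ^ (1 - κ''))) ≤ ENNReal.ofReal (C * m ^ (κ'' - κ')) := by
  have hC0 : 1 ≤ C0 := hN.Cge
  have hc0 := hN.cpos
  have hA : 1 ≤ A := hy.Age
  have hκ : 0 < κ := by linarith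
  obtain ⟨B, hB, htap⟩ := taper hN hy hκ1 (by linarith : 0 < κ') hκκ
  obtain ⟨B', hB', hlo⟩ := Lc_lo hN hy hκ1 (by linarith : 0 < κ') hκκ
  set R : ℝ := 3 / c0 + 1 with hR
  have hR1 : 1 ≤ R := by
    have : 0 ≤ 3 / c0 := by positivity
    linarith
  obtain ⟨Cu, hCu, hulc⟩ := ulc hN hy hκ hκ1 (ε := 1 / 8) (by norm_num) hR1
  set c : ℝ := 1 / (8 * A * (1 + C0 * R)) with hc
  have hcpos : 0 < c := by positivity
  obtain ⟨C1, hC1, hexp⟩ := exp_poly (κ := κ - κ'') (c := c) (2 + κ) (by linarith) hcpos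
  set W : ℝ := 3 + 2 * C0 with hW
  set Ct : ℝ := B * 8 + Cu + 9 * R ^ 2 * (3 * C1) + B' * W * 2 with hCt
  have hCt0 : 0 < Ct := by positivity
  -- threshold
  have hev : ∀ᶠ m : ℝ in atTop, 16 * S ≤ m ^ (1 - κ'') ∧ 8 * S + 16 * C0 + 16 ≤ m ∧ 1 ≤ m := by
    have h1 := (tendsto_rpow_atTop (by linarith : 0 < 1 - κ'')).eventually_ge_atTop (16 * S)
    have h2 := eventually_ge_atTop (8 * S + 16 * C0 + 16)
    have h3 := eventually_ge_atTop (1 : ℝ)
    filter_upwards [h1, h2, h3] with m a b c using ⟨a, b, c⟩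
  obtain ⟨m0, hm0⟩ := eventually_atTop.1 hev
  refine ⟨Ct, max m0 1, hCt0, le_max_right _ _, fun F m hm => ?_⟩
  obtain ⟨hSy, hmbig, hm1⟩ := hm0 m ((le_max_left _ _).trans hm)
  have hmp : 0 < m := by linarith
  set y : ℝ := m ^ (1 - κ'') with hydef
  have hy0 : 0 < y := Real.rpow_pos_of_pos hmp _
  have hym : y ≤ m := by
    calc y ≤ m ^ (1 : ℝ) := Real.rpow_le_rpow_of_exponent_le hm1 (by linarith)
      _ = m := Real.rpow_one m
  set z : V := -bp C0 F m with hz
  set E1 : Set En := {x | ENNReal.ofReal (m + y / 8) < Rh C0 F m (shE z x)} with hE1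
  set E2 : Set En := {x | ¬ Unif μ x (R * m) (1 / 8 * m)} with hE2
  set E3 : Set En := {x | ∃ a : V, ‖em a‖ ≤ R * m ∧ x ∈ {x | μ (em a) + y / 8 < dR 0 a x}} with hE3
  set hh : ℝ := F.lv (bp C0 F m) + 2 * m - S with hhh
  set E4 : Set En := {x | Lc F hh (shE z x) < ENNReal.ofReal (hh - y / 2)} with hE4
  have hsub : CB F m S y ⊆ E1 ∪ (E2 ∪ (E3 ∪ E4)) := by
    intro x hx
    by_contra hno
    simp only [mem_union, not_or] at hno
    obtain ⟨n1, n2, n3, n4⟩ := hno
    refine n4 ?_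
    have k3 : ∀ a : V, ‖em a‖ ≤ R * m → dR 0 a x ≤ μ (em a) + y / 8 := by
      intro a ha
      by_contra hcon
      exact n3 ⟨a, ha, not_le.1 hcon⟩
    exact cell_incl hN F hS hmbig hSy hy0 hym (not_lt.1 n1) (not_not.1 n2) k3 hx
  -- exponent facts
  have x1 : m ^ (1 - κ') / y = m ^ (κ'' - κ') := by
    rw [hydef, ← Real.rpow_sub hmp]; congr 1; ring
  have x2 : m ^ (-κ) ≤ m ^ (κ'' - κ') := Real.rpow_le_rpow_of_exponent_le hm1 (by linarith)
  have p1 : PP E1 ≤ ENNReal.ofReal (B * 8 * m ^ (κ'' - κ')) := by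
    have h1 : PP E1 = PP {x | ENNReal.ofReal (m + y / 8) < Rh C0 F m x} :=
      prob_shift z (S := {x | ENNReal.ofReal (m + y / 8) < Rh C0 F m x})
        (measurableSet_lt measurable_const (Rh_meas C0 F m))
    rw [h1]
    have h2 : {x | ENNReal.ofReal (m + y / 8) < Rh C0 F m x} ⊆
        {x | ENNReal.ofReal (y / 8) ≤ Rh C0 F m x - ENNReal.ofReal m} := by
      intro x hx
      have hx' : ENNReal.ofReal (m + y / 8) < Rh C0 F m x := hx
      show ENNReal.ofReal (y / 8) ≤ Rh C0 F m x - ENNReal.ofReal m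
      refine le_trans ?_ (tsub_le_tsub_right hx'.le _)
      rw [← ENNReal.ofReal_sub _ hmp.le]
      exact ENNReal.ofReal_le_ofReal (by linarith)
    refine (measure_mono h2).trans ?_
    refine (meas_ge_le_lintegral_div ((Rh_meas C0 F m).sub_const _).aemeasurable
      (ENNReal.ofReal_pos.2 (by positivity : 0 < y / 8)).ne' ENNReal.ofReal_ne_top).trans ?_
    refine (ENNReal.div_le_div_right (htap F m hm1) _).trans ?_
    rw [← ENNReal.ofReal_div_of_pos (by positivity : 0 < y / 8)]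
    refine ENNReal.ofReal_le_ofReal (le_of_eq ?_)
    rw [← x1]; field_simp
  have p2 : PP E2 ≤ ENNReal.ofReal (Cu * m ^ (κ'' - κ')) := by
    refine (hulc m hm1).trans (ENNReal.ofReal_le_ofReal ?_)
    exact mul_le_mul_of_nonneg_left x2 hCu.le
  have p3 : PP E3 ≤ ENNReal.ofReal (9 * R ^ 2 * (3 * C1) * m ^ (κ'' - κ')) := by
    have hq : ∀ a ∈ box (R * m), PP {x | μ (em a) + y / 8 < dR 0 a x} ≤
        ENNReal.ofReal (3 * (C1 * m ^ (-(2 + κ)))) := by
      intro a ha
      rw [mem_box] at ha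
      refine (hy.tail a (y / 8) (by positivity)).trans ?_
      refine ENNReal.ofReal_le_ofReal (mul_le_mul_of_nonneg_left ?_ (by norm_num))
      refine le_trans ?_ (hexp m hm1)
      rw [Real.exp_le_exp, neg_le_neg_iff]
      have m1 : μ (em a) ≤ C0 * R * m := by
        refine (hN.hi _).trans ?_
        rw [mul_assoc]
        exact mul_le_mul_of_nonneg_left ha (by linarith)
      have m2 : (1 + μ (em a)) ^ (1 - κ) ≤ (1 + C0 * R) * m ^ (1 - κ) := by
        refine le_trans (Real.rpow_le_rpow (by positivity) (?_ : _ ≤ (1 + C0 * R) * m)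
          (by linarith)) (rpow_le_const_mul ?_ hm1 (by linarith) (by linarith))
        · nlinarith
        · have : 0 ≤ C0 * R := by positivity
          linarith
      have m3 : 0 < (1 + μ (em a)) ^ (1 - κ) := by positivity
      have e1 : c * m ^ (κ - κ'') = (y / 8) / (A * ((1 + C0 * R) * m ^ (1 - κ))) := by
        have e2 : m ^ (κ - κ'') * m ^ (1 - κ) = y := by
          rw [← Real.rpow_add hmp, hydef]; congr 1; ring
        have e3 : 0 < m ^ (1 - κ) := by positivity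
        rw [← e2, hc]
        field_simp
      rw [e1]
      refine div_le_div_of_nonneg_left (by positivity) (by positivity) ?_
      exact mul_le_mul_of_nonneg_left m2 (by linarith)
    have h1 := prob_box (r := R * m) (by nlinarith) (by positivity) hq
    refine h1.trans (ENNReal.ofReal_le_ofReal ?_)
    have e1 : m ^ (-(2 + κ)) * m ^ 2 = m ^ (-κ) := by
      rw [← Real.rpow_natCast m 2, ← Real.rpow_add hmp]
      congr 1; push_cast; ring
    have e2 : 9 * (R * m) ^ 2 * (3 * (C1 * m ^ (-(2 + κ)))) =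
        9 * R ^ 2 * (3 * C1) * (m ^ (-(2 + κ)) * m ^ 2) := by ring
    rw [e2, e1]
    exact mul_le_mul_of_nonneg_left x2 (by positivity)
  have p4 : PP E4 ≤ ENNReal.ofReal (B' * W * 2 * m ^ (κ'' - κ')) := by
    have h1 : PP E4 = PP {x | Lc F hh x < ENNReal.ofReal (hh - y / 2)} :=
      prob_shift z (S := {x | Lc F hh x < ENNReal.ofReal (hh - y / 2)})
        (measurableSet_lt (Lc_meas F hh) measurable_const)
    have hl := bp_lv hN F m
    have hh1 : 1 ≤ hh := by rw [hhh]; linarith [hl.1]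
    have hh2 : hh ≤ W * m := by rw [hhh, hW]; nlinarith [hl.2]
    rw [h1]
    refine (hlo F hh (y / 2) hh1 (by positivity)).trans (ENNReal.ofReal_le_ofReal ?_)
    have h2 : hh ^ (1 - κ') ≤ W * m ^ (1 - κ') :=
      (Real.rpow_le_rpow (by linarith) hh2 (by linarith)).trans
        (rpow_le_const_mul (by rw [hW]; linarith) hm1 (by linarith) (by linarith))
    calc B' * hh ^ (1 - κ') / (y / 2) ≤ B' * (W * m ^ (1 - κ')) / (y / 2) := by gcongr
      _ = B' * W * 2 * (m ^ (1 - κ') / y) := by field_simp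
      _ = _ := by rw [x1]
  refine (measure_mono hsub).trans ((measure_union_le _ _).trans ?_)
  refine (add_le_add p1 ((measure_union_le _ _).trans (add_le_add p2
    ((measure_union_le _ _).trans (add_le_add p3 p4))))).trans ?_
  rw [← ENNReal.ofReal_add (by positivity) (by positivity),
    ← ENNReal.ofReal_add (by positivity) (by positivity),
    ← ENNReal.ofReal_add (by positivity) (by positivity)]
  refine ENNReal.ofReal_le_ofReal (le_of_eq ?_)
  rw [hCt]; ring

end Pool.Agent.J4.H91.FPP
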