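import Pool.Agent.J4.H91.FPP.Law

set_option autoImplicit false
open MeasureTheory ProbabilityTheory Filter Set
open scoped ENNReal Topology

/-!
# Chains through bad cells (helper91)
-/

namespace Pool.Agent.J4.H91.FPP

open Pool.Agent.N662.FP hiding em

/-- exponential weight of a displacement -/
noncomputable def wt (a : ℝ) (d : ℤ) : ℝ≥0∞ := ENNReal.ofReal (Real.exp (-(|(d : ℝ)| / a)))

theorem wt_zero (a : ℝ) : wt a 0 = 1 := by simp [wt]

theorem wt_le_one {a : ℝ} (ha : 0 < a) (d : ℤ) : wt a d ≤ 1 := by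
  unfold wt
  rw [← ENNReal.ofReal_one]
  refine ENNReal.ofReal_le_ofReal (Real.exp_le_one_iff.2 ?_)
  have : 0 ≤ |(d : ℝ)| / a := by positivity
  linarith

theorem wt_mul {a : ℝ} (ha : 0 < a) (d e : ℤ) : wt a d * wt a e ≤ wt a (d + e) := by
  unfold wt
  rw [← ENNReal.ofReal_mul (Real.exp_pos _).le, ← Real.exp_add]
  refine ENNReal.ofReal_le_ofReal (Real.exp_le_exp.2 ?_)
  rw [← neg_add, neg_le_neg_iff, ← add_div]
  push_cast
  exact div_le_div_of_nonneg_right (abs_add_le _ _) ha.le

theorem wt_sum {a : ℝ} (ha : 0 < a) : ∑' d : ℤ, wt a d ≤ ENNReal.ofReal (2 * (1 + a)) := by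
  have hg : ∀ n : ℕ, wt a (n : ℤ) = ENNReal.ofReal (Real.exp (-(1 / a)) ^ n) := by
    intro n
    unfold wt
    rw [← Real.exp_nat_mul]
    congr 2
    rw [Int.cast_natCast, abs_of_nonneg (by positivity : (0 : ℝ) ≤ n)]
    ring
  have h1 : Real.exp (-(1 / a)) < 1 := by
    rw [Real.exp_lt_one_iff]
    have : 0 < 1 / a := by positivity
    linarith
  have hsum : ∑' n : ℕ, wt a (n : ℤ) ≤ ENNReal.ofReal (1 + a) := by
    simp_rw [hg]
    rw [← ENNReal.ofReal_tsum_of_nonneg (fun n => by positivity)
      (summable_geometric_of_lt_one (Real.exp_pos _).le h1)]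
    rw [tsum_geometric_of_lt_one (Real.exp_pos _).le h1]
    refine ENNReal.ofReal_le_ofReal ?_
    have h2 : 1 / a + 1 ≤ Real.exp (1 / a) := Real.add_one_le_exp _
    have h3 : Real.exp (-(1 / a)) ≤ 1 / (1 / a + 1) := by
      rw [Real.exp_neg, ← one_div]
      exact one_div_le_one_div_of_le (by positivity) h2
    have h4 : 1 - Real.exp (-(1 / a)) ≥ 1 / (1 + a) := by
      have : 1 / (1 / a + 1) = 1 - 1 / (1 + a) := by field_simp; ring
      linarith
    rw [inv_le_comm₀ (by linarith) (by positivity), ← one_div]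
    exact h4
  have h2 : ∑' d : ℤ, wt a d ≤ ∑' n : ℕ, wt a (n : ℤ) + ∑' n : ℕ, wt a (-(n : ℤ)) := by
    have h3 : ∀ d : ℤ, wt a d ≤ (if 0 ≤ d then wt a (d.toNat : ℤ) else 0) +
        (if d < 0 then wt a (-((-d).toNat : ℤ)) else 0) := by
      intro d
      rcases le_or_gt 0 d with h | h
      · rw [if_pos h, Int.toNat_of_nonneg h]; exact le_self_add
      · rw [if_neg (not_le.2 h), if_pos h, Int.toNat_of_nonneg (by omega : 0 ≤ -d), neg_neg]
        exact le_add_self
    refine (ENNReal.tsum_le_tsum h3).trans ?_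
    rw [ENNReal.tsum_add]
    refine add_le_add ?_ ?_
    · have h4 : ∑' d : ℤ, (if 0 ≤ d then wt a (d.toNat : ℤ) else 0) =
          ∑' n : ℕ, wt a (n : ℤ) := by
        refine (Function.Injective.tsum_eq (g := fun n : ℕ => (n : ℤ))
          (fun a b h => Int.ofNat_inj.1 h) ?_).symm.trans ?_
        · intro d hd
          by_contra h5
          apply hd
          have h6 : ¬ 0 ≤ d := fun h6 => h5 ⟨d.toNat, Int.toNat_of_nonneg h6⟩
          simp only [h6, if_false]
        · refine tsum_congr fun n => ?_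
          rw [if_pos (by positivity)]; simp
      exact h4.le
    · have h4 : ∑' d : ℤ, (if d < 0 then wt a (-((-d).toNat : ℤ)) else 0) ≤
          ∑' n : ℕ, wt a (-(n : ℤ)) := by
        refine (Function.Injective.tsum_eq (g := fun n : ℕ => -(n : ℤ))
          (fun a b h => by simpa using h) ?_).symm.le.trans ?_
        · intro d hd
          by_contra h5
          apply hd
          have h6 : ¬ d < 0 := fun h6 =>
            h5 ⟨(-d).toNat, by show -(((-d).toNat : ℕ) : ℤ) = d; omega⟩
          simp only [h6, if_false]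
        · refine ENNReal.tsum_le_tsum fun n => ?_
          split_ifs
          · simp
          · exact bot_le
      exact h4
  have h3 : ∀ n : ℕ, wt a (-(n : ℤ)) = wt a (n : ℤ) := by
    intro n; unfold wt; push_cast; rw [abs_neg]
  simp_rw [h3] at h2
  refine h2.trans ((add_le_add hsum hsum).trans ?_)
  rw [← ENNReal.ofReal_add (by positivity) (by positivity)]
  exact ENNReal.ofReal_le_ofReal (by linarith)

/-- weight of the chains whose last bad cell is `c` -/
noncomputable def Zc (a : ℝ) (B : ℕ → ℤ → Set En) : ℕ → ℤ → En → ℝ≥0∞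
  | 0, c, _ => if c = 0 then 1 else 0
  | i + 1, c, x => Zc a B i c x +
      ENNReal.ofReal (Real.exp 1) * ((B i c).indicator (fun _ => 1) x *
        ∑' c' : ℤ, wt a (c - c') * Zc a B i c' x)

theorem Zc_meas (a : ℝ) (B : ℕ → ℤ → Set En) (hB : ∀ i c, MeasurableSet (B i c)) :
    ∀ i c, Measurable (Zc a B i c) := by
  intro i
  induction i with
  | zero =>
    intro c
    show Measurable fun _ : En => if c = 0 then (1 : ℝ≥0∞) else 0
    exact measurable_const
  | succ i ih =>
    intro c
    show Measurable fun x => Zc a B i c x +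
      ENNReal.ofReal (Real.exp 1) * ((B i c).indicator (fun _ => 1) x *
        ∑' c' : ℤ, wt a (c - c') * Zc a B i c' x)
    refine (ih c).add (measurable_const.mul ((measurable_const.indicator (hB i c)).mul ?_))
    exact Measurable.ennreal_tsum fun c' => measurable_const.mul (ih c')

open Classical in
theorem Zc_path {a : ℝ} (ha : 0 < a) (B : ℕ → ℤ → Set En) (x : En) (D : ℕ → ℤ) (hD : D 0 = 0)
    (i : ℕ) : ∃ c : ℤ, ENNReal.ofReal (Real.exp
      ((({j ∈ Finset.range i | x ∈ B j (D (j + 1))} : Finset ℕ)).card -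
        (∑ j ∈ Finset.range i, |((D (j + 1) - D j : ℤ) : ℝ)|) / a)) ≤
      Zc a B i c x * wt a (D i - c) := by
  induction i with
  | zero =>
    refine ⟨0, ?_⟩
    simp [Zc, hD, wt_zero]
  | succ i ih =>
    obtain ⟨c, hc⟩ := ih
    have hw : wt a (D i - c) * wt a (D (i + 1) - D i) ≤ wt a (D (i + 1) - c) := by
      refine (wt_mul ha _ _).trans (le_of_eq ?_)
      congr 1; ring
    have hexp : ∀ k : ℝ, ENNReal.ofReal (Real.exp (k -
        (∑ j ∈ Finset.range (i + 1), |((D (j + 1) - D j : ℤ) : ℝ)|) / a)) =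
        ENNReal.ofReal (Real.exp (k - (∑ j ∈ Finset.range i, |((D (j + 1) - D j : ℤ) : ℝ)|) / a)) *
          wt a (D (i + 1) - D i) := by
      intro k
      unfold wt
      rw [← ENNReal.ofReal_mul (Real.exp_pos _).le, ← Real.exp_add, Finset.sum_range_succ]
      congr 2
      ring
    by_cases hx : x ∈ B i (D (i + 1))
    · refine ⟨D (i + 1), ?_⟩
      have hcard : (({j ∈ Finset.range (i + 1) | x ∈ B j (D (j + 1))} : Finset ℕ)).card =
          (({j ∈ Finset.range i | x ∈ B j (D (j + 1))} : Finset ℕ)).card + 1 := by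
        rw [Finset.range_add_one, Finset.filter_insert, if_pos hx, Finset.card_insert_of_notMem]
        simp
      rw [hcard, hexp, sub_self, wt_zero, mul_one]
      have h1 : ENNReal.ofReal (Real.exp 1) * (wt a (D (i + 1) - c) * Zc a B i c x) ≤
          Zc a B (i + 1) (D (i + 1)) x := by
        show _ ≤ Zc a B i (D (i + 1)) x + ENNReal.ofReal (Real.exp 1) *
          ((B i (D (i + 1))).indicator (fun _ => 1) x *
            ∑' c' : ℤ, wt a (D (i + 1) - c') * Zc a B i c' x)
        rw [indicator_of_mem hx, one_mul]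
        refine le_trans ?_ le_add_self
        gcongr
        exact ENNReal.le_tsum c
      refine le_trans ?_ h1
      have e1 : ENNReal.ofReal (Real.exp
          (((({j ∈ Finset.range i | x ∈ B j (D (j + 1))} : Finset ℕ)).card + 1 : ℕ) -
            (∑ j ∈ Finset.range i, |((D (j + 1) - D j : ℤ) : ℝ)|) / a)) =
          ENNReal.ofReal (Real.exp 1) * ENNReal.ofReal (Real.exp
          (((({j ∈ Finset.range i | x ∈ B j (D (j + 1))} : Finset ℕ)).card : ℕ) -
            (∑ j ∈ Finset.range i, |((D (j + 1) - D j : ℤ) : ℝ)|) / a)) := by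
        rw [← ENNReal.ofReal_mul (Real.exp_pos _).le, ← Real.exp_add]
        congr 2
        push_cast; ring
      rw [e1, mul_assoc]
      refine mul_le_mul_right ?_ _
      calc _ ≤ (Zc a B i c x * wt a (D i - c)) * wt a (D (i + 1) - D i) :=
            mul_le_mul_left hc _
        _ = (wt a (D i - c) * wt a (D (i + 1) - D i)) * Zc a B i c x := by ring
        _ ≤ wt a (D (i + 1) - c) * Zc a B i c x := mul_le_mul_left hw _
    · refine ⟨c, ?_⟩
      have hcard : (({j ∈ Finset.range (i + 1) | x ∈ B j (D (j + 1))} : Finset ℕ)).card =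
          (({j ∈ Finset.range i | x ∈ B j (D (j + 1))} : Finset ℕ)).card := by
        rw [Finset.range_add_one, Finset.filter_insert, if_neg hx]
      rw [hcard, hexp]
      have h1 : Zc a B i c x ≤ Zc a B (i + 1) c x := le_self_add
      calc _ ≤ (Zc a B i c x * wt a (D i - c)) * wt a (D (i + 1) - D i) := by gcongr
        _ = Zc a B i c x * (wt a (D i - c) * wt a (D (i + 1) - D i)) := by ring
        _ ≤ Zc a B (i + 1) c x * wt a (D (i + 1) - c) := by gcongr

open Classical in
/-- probability of chains with many bad cells -/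
theorem chain {a q : ℝ} (ha : 0 < a) (hq : 0 ≤ q) {N : ℕ} {B : ℕ → ℤ → Set En}
    (hB : ∀ i c, MeasurableSet (B i c)) {S : ℕ → Set (Sym2 V)}
    (hS : ∀ i j, i ≠ j → Disjoint (S i) (S j))
    (hBS : ∀ i c (x y : En), (∀ e ∈ S i, x e = y e) → x ∈ B i c → y ∈ B i c)
    (hBq : ∀ i < N, ∀ c, PP (B i c) ≤ ENNReal.ofReal q) (k J : ℝ) :
    PP {x | ∃ D : ℕ → ℤ, D 0 = 0 ∧ ∑ j ∈ Finset.range N, |((D (j + 1) - D j : ℤ) : ℝ)| ≤ J ∧
      k ≤ (({j ∈ Finset.range N | x ∈ B j (D (j + 1))} : Finset ℕ)).card} ≤
      ENNReal.ofReal (Real.exp (J / a - k + 2 * Real.exp 1 * q * (1 + a) * N)) := by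
  have hZm := Zc_meas a B hB
  -- locality
  have hloc : ∀ i c (x y : En), (∀ j < i, ∀ e ∈ S j, x e = y e) → Zc a B i c x = Zc a B i c y := by
    intro i
    induction i with
    | zero => intro c x y _; rfl
    | succ i ih =>
      intro c x y hxy
      have h1 : ∀ c', Zc a B i c' x = Zc a B i c' y :=
        fun c' => ih c' x y fun j hj => hxy j (by omega)
      have h2 : (B i c).indicator (fun _ => (1 : ℝ≥0∞)) x =
          (B i c).indicator (fun _ => (1 : ℝ≥0∞)) y := by
        by_cases hx : x ∈ B i c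
        · rw [indicator_of_mem hx, indicator_of_mem (hBS i c x y (hxy i (by omega)) hx)]
        · have hy : y ∉ B i c := fun hy => hx (hBS i c y x (fun e he => (hxy i (by omega) e he).symm)
            hy)
          rw [indicator_of_notMem hx, indicator_of_notMem hy]
      show Zc a B i c x + _ * (_ * _) = Zc a B i c y + _ * (_ * _)
      rw [h1 c, h2]
      simp_rw [h1]
  have hprod : ∀ i < N, ∀ c c', ∫⁻ x, (B i c).indicator (fun _ => 1) x * Zc a B i c' x ∂PP ≤
      ENNReal.ofReal q * ∫⁻ x, Zc a B i c' x ∂PP := by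
    intro i hi c c'
    set T : Set (Sym2 V) := ⋃ j ∈ Finset.range i, S j with hT
    have hdis : Disjoint (S i) T := by
      rw [hT, disjoint_iUnion₂_right]
      intro j hj
      exact hS i j (by have := Finset.mem_range.1 hj; omega)
    have hind := mask_indep hdis
    have hf : Measurable fun x : En => (B i c).indicator (fun _ => (1 : ℝ≥0∞)) x :=
      measurable_const.indicator (hB i c)
    have e1 : ∀ x : En, (B i c).indicator (fun _ => (1 : ℝ≥0∞)) x =
        (B i c).indicator (fun _ => (1 : ℝ≥0∞)) (mask (S i) x) := by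
      intro x
      have hm : ∀ e ∈ S i, mask (S i) x e = x e := fun e he => mask_of_mem he x
      by_cases hx : x ∈ B i c
      · rw [indicator_of_mem hx, indicator_of_mem (hBS i c x _ (fun e he => (hm e he).symm) hx)]
      · rw [indicator_of_notMem hx, indicator_of_notMem fun hy => hx (hBS i c _ x hm hy)]
    have e2 : ∀ x : En, Zc a B i c' x = Zc a B i c' (mask T x) := by
      intro x
      refine hloc i c' _ _ fun j hj e he => (mask_of_mem ?_ x).symm
      rw [hT]
      exact mem_biUnion (Finset.mem_coe.2 (Finset.mem_range.2 hj)) he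
    have h1 := lintegral_mul_eq_lintegral_mul_lintegral_of_indepFun (μ := PP)
      (f := fun x => (B i c).indicator (fun _ => (1 : ℝ≥0∞)) (mask (S i) x))
      (g := fun x => Zc a B i c' (mask T x)) (hf.comp (mask_meas _))
      ((hZm i c').comp (mask_meas _)) (hind.comp hf (hZm i c'))
    simp only [Pi.mul_apply] at h1
    simp_rw [← e1, ← e2] at h1
    rw [h1]
    refine mul_le_mul_left ?_ _
    rw [lintegral_indicator (hB i c), setLIntegral_const, one_mul]
    exact hBq i hi c
  set SS : ℕ → ℝ≥0∞ := fun i => ∑' c, ∫⁻ x, Zc a B i c x ∂PP with hSS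
  set K : ℝ := 1 + 2 * Real.exp 1 * q * (1 + a) with hK
  have hK0 : 0 < K := by positivity
  have hrec : ∀ i ≤ N, SS i ≤ ENNReal.ofReal (K ^ i) := by
    intro i
    induction i with
    | zero =>
      intro _
      show ∑' c, ∫⁻ x, Zc a B 0 c x ∂PP ≤ _
      have : ∀ c : ℤ, ∫⁻ x, Zc a B 0 c x ∂PP = if c = 0 then 1 else 0 := by
        intro c
        show ∫⁻ _ : En, (if c = 0 then (1 : ℝ≥0∞) else 0) ∂PP = _
        rw [lintegral_const, measure_univ, mul_one]
      simp_rw [this]
      rw [tsum_ite_eq]; simp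
    | succ i ih =>
      intro hi
      have h1 : ∀ c, ∫⁻ x, Zc a B (i + 1) c x ∂PP ≤ ∫⁻ x, Zc a B i c x ∂PP +
          ENNReal.ofReal (Real.exp 1) * (ENNReal.ofReal q *
            ∑' c', wt a (c - c') * ∫⁻ x, Zc a B i c' x ∂PP) := by
        intro c
        show ∫⁻ x, (Zc a B i c x + ENNReal.ofReal (Real.exp 1) *
          ((B i c).indicator (fun _ => 1) x * ∑' c' : ℤ, wt a (c - c') * Zc a B i c' x)) ∂PP ≤ _
        rw [lintegral_add_left (hZm i c), lintegral_const_mul' _ _ ENNReal.ofReal_ne_top]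
        gcongr
        have h2 : ∀ x : En, (B i c).indicator (fun _ => (1 : ℝ≥0∞)) x *
            ∑' c' : ℤ, wt a (c - c') * Zc a B i c' x =
            ∑' c' : ℤ, wt a (c - c') * ((B i c).indicator (fun _ => (1 : ℝ≥0∞)) x *
              Zc a B i c' x) := by
          intro x
          rw [← ENNReal.tsum_mul_left]
          refine tsum_congr fun c' => ?_
          ring
        simp_rw [h2]
        have hm3 : ∀ c', Measurable fun x : En => (B i c).indicator (fun _ => (1 : ℝ≥0∞)) x *
            Zc a B i c' x := fun c' => (measurable_const.indicator (hB i c)).mul (hZm i c')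
        rw [lintegral_tsum (f := fun c' x => wt a (c - c') *
            ((B i c).indicator (fun _ => (1 : ℝ≥0∞)) x * Zc a B i c' x))
            (fun c' => (measurable_const.mul (hm3 c')).aemeasurable),
          ← ENNReal.tsum_mul_left]
        refine ENNReal.tsum_le_tsum fun c' => ?_
        rw [lintegral_const_mul _ (hm3 c')]
        calc _ ≤ wt a (c - c') * (ENNReal.ofReal q * ∫⁻ x, Zc a B i c' x ∂PP) := by
              gcongr
              exact hprod i (by omega) c c'
          _ = _ := by ring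
      have h3 : SS (i + 1) ≤ SS i + ENNReal.ofReal (Real.exp 1) * (ENNReal.ofReal q *
          (ENNReal.ofReal (2 * (1 + a)) * SS i)) := by
        refine (ENNReal.tsum_le_tsum h1).trans ?_
        rw [ENNReal.tsum_add, ENNReal.tsum_mul_left, ENNReal.tsum_mul_left]
        gcongr
        rw [ENNReal.tsum_comm]
        have h4 : ∀ c' : ℤ, ∑' c, wt a (c - c') * ∫⁻ x, Zc a B i c' x ∂PP ≤
            ENNReal.ofReal (2 * (1 + a)) * ∫⁻ x, Zc a B i c' x ∂PP := by
          intro c'
          rw [ENNReal.tsum_mul_right]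
          gcongr
          have h5 : ∑' c : ℤ, wt a (c - c') = ∑' d : ℤ, wt a d :=
            (Equiv.subRight c').tsum_eq (wt a)
          rw [h5]
          exact wt_sum ha
        refine (ENNReal.tsum_le_tsum h4).trans (le_of_eq ?_)
        rw [ENNReal.tsum_mul_left]
      have h6 := ih (by omega)
      refine h3.trans ?_
      have h7 : SS i + ENNReal.ofReal (Real.exp 1) * (ENNReal.ofReal q *
          (ENNReal.ofReal (2 * (1 + a)) * SS i)) = ENNReal.ofReal K * SS i := by
        rw [hK, ENNReal.ofReal_add zero_le_one (by positivity), ENNReal.ofReal_one]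
        have : 2 * Real.exp 1 * q * (1 + a) = Real.exp 1 * (q * (2 * (1 + a))) := by ring
        rw [this, ENNReal.ofReal_mul (Real.exp_pos _).le, ENNReal.ofReal_mul hq]
        ring
      rw [h7, pow_succ', ENNReal.ofReal_mul hK0.le]
      gcongr
  -- Markov
  have hsub : {x | ∃ D : ℕ → ℤ, D 0 = 0 ∧
      ∑ j ∈ Finset.range N, |((D (j + 1) - D j : ℤ) : ℝ)| ≤ J ∧
      k ≤ (({j ∈ Finset.range N | x ∈ B j (D (j + 1))} : Finset ℕ)).card} ⊆
      {x | ENNReal.ofReal (Real.exp (k - J / a)) ≤ ∑' c, Zc a B N c x} := by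
    rintro x ⟨D, hD, hJ, hk⟩
    obtain ⟨c, hc⟩ := Zc_path ha B x D hD N
    show ENNReal.ofReal (Real.exp (k - J / a)) ≤ ∑' c, Zc a B N c x
    refine le_trans ?_ (hc.trans ((mul_le_of_le_one_right bot_le (wt_le_one ha _)).trans
      (ENNReal.le_tsum c)))
    refine ENNReal.ofReal_le_ofReal (Real.exp_le_exp.2 ?_)
    have : (∑ j ∈ Finset.range N, |((D (j + 1) - D j : ℤ) : ℝ)|) / a ≤ J / a :=
      div_le_div_of_nonneg_right hJ ha.le
    linarith
  refine (measure_mono hsub).trans ?_
  refine (meas_ge_le_lintegral_div (Measurable.ennreal_tsum fun c => hZm N c).aemeasurable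
    (ENNReal.ofReal_pos.2 (Real.exp_pos _)).ne' ENNReal.ofReal_ne_top).trans ?_
  rw [lintegral_tsum fun c => (hZm N c).aemeasurable]
  refine (ENNReal.div_le_div_right (hrec N le_rfl) _).trans ?_
  rw [← ENNReal.ofReal_div_of_pos (Real.exp_pos _)]
  refine ENNReal.ofReal_le_ofReal ?_
  have h8 : K ^ N ≤ Real.exp (2 * Real.exp 1 * q * (1 + a) * N) := by
    have h9 : K ≤ Real.exp (2 * Real.exp 1 * q * (1 + a)) := by
      rw [hK, add_comm]
      exact Real.add_one_le_exp _
    calc K ^ N ≤ Real.exp (2 * Real.exp 1 * q * (1 + a)) ^ N := by gcongr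
      _ = _ := by rw [← Real.exp_nat_mul]; congr 1; ring
  rw [div_le_iff₀ (Real.exp_pos _), ← Real.exp_add]
  refine h8.trans (Real.exp_le_exp.2 ?_)
  linarith

end Pool.Agent.J4.H91.FPP
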