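import Pool.Agent.J4.H91.FPP.Sq

set_option autoImplicit false
open MeasureTheory ProbabilityTheory Filter Set
open scoped ENNReal Topology Pointwise

/-!
# Equivalences with the variance (helper91)
-/

namespace Pool.Agent.J4.H91.FPP

open Pool.Agent.N662.FP hiding em

section
variable {Ω : Type} [MeasureSpace Ω] [IsProbabilityMeasure (volume : Measure Ω)]
  {X : Sym2 (ℤ × ℤ) → Ω → ℝ} {μ : Seminorm ℝ (ℝ × ℝ)} {c0 C0 κ A : ℝ}

theorem var_eq (hX : Iid X) (v : V) :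
    variance (fun ω => D (env X ω) 0 v) (volume : Measure Ω) = sqm v := by
  rw [variance_eq_integral (cINT Ω X hX 0 v).aemeasurable, ← sqm_eq hX, hh_eq hX]

theorem pw_pos (μ : Seminorm ℝ (ℝ × ℝ)) (κ : ℝ) (v : V) : 0 < (1 + μ (em v)) ^ (1 - κ) := by
  have h1 : 0 ≤ μ (em v) := apply_nonneg μ _
  positivity

theorem pw_mono (μ : Seminorm ℝ (ℝ × ℝ)) {κ κ' : ℝ} (h : κ' ≤ κ) (v : V) :
    (1 + μ (em v)) ^ (1 - κ) ≤ (1 + μ (em v)) ^ (1 - κ') := by
  have h1 : 0 ≤ μ (em v) := apply_nonneg μ _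
  exact Real.rpow_le_rpow_of_exponent_le (by linarith) (by linarith)

/-- from the mean to the time constant -/
theorem l1_of_mean (hX : Iid X) (hN : Nrm μ c0 C0)
    (hlim : ∀ z : V, ∀ᵐ ω ∂(volume : Measure Ω),
      Tendsto (fun n : ℕ => D (env X ω) 0 ((n : ℤ) • z) / (n : ℝ)) atTop (𝓝 (μ (em z))))
    (hκ0 : 0 < κ) (hκ1 : κ < 1)
    (h : ∀ v : V, ∫ ω, |D (env X ω) 0 v - hh v| ∂(volume : Measure Ω) ≤
      A * (1 + μ (em v)) ^ (1 - κ)) {κ' : ℝ} (hk : κ' < κ) :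
    ∃ A' : ℝ, 0 < A' ∧ ∀ v : V, μ (em v) ≤ hh v ∧ hh v ≤ μ (em v) + A' * (1 + μ (em v)) ^ (1 - κ') ∧
      ∫ ω, |D (env X ω) 0 v - μ (em v)| ∂(volume : Measure Ω) ≤
        A' * (1 + μ (em v)) ^ (1 - κ') := by
  obtain ⟨B, hv⟩ := mk_HV hX hlim hκ0 hκ1 h
  obtain ⟨C, hC, hb⟩ := GG_all hN hv hκ0 hκ1 hk
  refine ⟨|A| + C, by positivity, fun v => ?_⟩
  have h1 := pw_pos μ κ' v
  have h2 := pw_mono μ hk.le v
  have h3 := hb v
  have h4 : A * (1 + μ (em v)) ^ (1 - κ) ≤ |A| * (1 + μ (em v)) ^ (1 - κ') :=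
    mul_le_mul (le_abs_self A) h2 (pw_pos μ κ v).le (abs_nonneg _)
  have h5 : 0 ≤ |A| * (1 + μ (em v)) ^ (1 - κ') := by positivity
  have e : (|A| + C) * (1 + μ (em v)) ^ (1 - κ') =
    |A| * (1 + μ (em v)) ^ (1 - κ') + C * (1 + μ (em v)) ^ (1 - κ') := by ring
  have h6 := hv.ge v
  refine ⟨h6, by linarith, ?_⟩
  have hi : Integrable (fun ω => |D (env X ω) 0 v - hh v|) (volume : Measure Ω) :=
    ((cINT Ω X hX 0 v).sub (integrable_const _)).abs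
  have hi2 : Integrable (fun ω => |D (env X ω) 0 v - μ (em v)|) (volume : Measure Ω) :=
    ((cINT Ω X hX 0 v).sub (integrable_const _)).abs
  have h7 : ∫ ω, |D (env X ω) 0 v - μ (em v)| ∂(volume : Measure Ω) ≤
      ∫ ω, (|D (env X ω) 0 v - hh v| + (hh v - μ (em v))) ∂(volume : Measure Ω) := by
    refine integral_mono hi2 (hi.add (integrable_const _)) fun ω => ?_
    have e1 : D (env X ω) 0 v - μ (em v) = (D (env X ω) 0 v - hh v) + (hh v - μ (em v)) := by ring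
    show |D (env X ω) 0 v - μ (em v)| ≤ _
    rw [e1]
    refine (abs_add_le _ _).trans ?_
    rw [abs_of_nonneg (by linarith : 0 ≤ hh v - μ (em v))]
  rw [integral_add hi (integrable_const _), integral_const, probReal_univ, one_smul] at h7
  have h8 := h v
  linarith

/-- from the time constant to the mean -/
theorem mean_of_l1 (hX : Iid X)
    (h : ∀ v : V, ∫ ω, |D (env X ω) 0 v - μ (em v)| ∂(volume : Measure Ω) ≤
      A * (1 + μ (em v)) ^ (1 - κ)) (v : V) :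
    ∫ ω, |D (env X ω) 0 v - hh v| ∂(volume : Measure Ω) ≤ 2 * A * (1 + μ (em v)) ^ (1 - κ) := by
  have hi0 : Integrable (fun ω => D (env X ω) 0 v) (volume : Measure Ω) := cINT Ω X hX 0 v
  have hi : Integrable (fun ω => |D (env X ω) 0 v - hh v|) (volume : Measure Ω) :=
    (hi0.sub (integrable_const _)).abs
  have hi2 : Integrable (fun ω => |D (env X ω) 0 v - μ (em v)|) (volume : Measure Ω) :=
    (hi0.sub (integrable_const _)).abs
  have h1 : |hh v - μ (em v)| ≤ ∫ ω, |D (env X ω) 0 v - μ (em v)| ∂(volume : Measure Ω) := by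
    have e : hh v - μ (em v) = ∫ ω, (D (env X ω) 0 v - μ (em v)) ∂(volume : Measure Ω) := by
      rw [integral_sub hi0 (integrable_const _), hh_eq hX, integral_const, probReal_univ, one_smul]
    rw [e]
    exact abs_integral_le_integral_abs
  have h7 : ∫ ω, |D (env X ω) 0 v - hh v| ∂(volume : Measure Ω) ≤
      ∫ ω, (|D (env X ω) 0 v - μ (em v)| + |hh v - μ (em v)|) ∂(volume : Measure Ω) := by
    refine integral_mono hi (hi2.add (integrable_const _)) fun ω => ?_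
    have e1 : D (env X ω) 0 v - hh v = (D (env X ω) 0 v - μ (em v)) - (hh v - μ (em v)) := by ring
    show |D (env X ω) 0 v - hh v| ≤ _
    rw [e1]
    exact abs_sub _ _
  rw [integral_add hi2 (integrable_const _), integral_const, probReal_univ, one_smul] at h7
  have h8 := h v
  have e : 2 * A * (1 + μ (em v)) ^ (1 - κ) =
    A * (1 + μ (em v)) ^ (1 - κ) + A * (1 + μ (em v)) ^ (1 - κ) := by ring
  linarith

/-- the variance bound -/
theorem var_of_mean (hX : Iid X) (hN : Nrm μ c0 C0)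
    (hlim : ∀ z : V, ∀ᵐ ω ∂(volume : Measure Ω),
      Tendsto (fun n : ℕ => D (env X ω) 0 ((n : ℤ) • z) / (n : ℝ)) atTop (𝓝 (μ (em z))))
    (hκ1 : κ < 1)
    (h : ∀ v : V, ∫ ω, |D (env X ω) 0 v - hh v| ∂(volume : Measure Ω) ≤
      A * (1 + μ (em v)) ^ (1 - κ)) {κ' : ℝ} (hk0 : 0 ≤ κ') (hk : κ' < κ) :
    ∃ A' : ℝ, 0 < A' ∧ ∀ v : V, sqm v ≤ A' * (1 + μ (em v)) ^ (2 * (1 - κ')) := by
  have hκ0 : 0 < κ := lt_of_le_of_lt hk0 hk
  obtain ⟨B, hv⟩ := mk_HV hX hlim hκ0 hκ1 h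
  have hG1 : GG μ ((κ' + κ) / 2) := GG_all hN hv hκ0 hκ1 (by linarith)
  obtain ⟨A1, hy⟩ := to_hyp hv hG1 (by linarith)
  have hL : HL μ κ' := HL_all hN hy (by linarith) linLow (by linarith) hk0
  obtain ⟨B2, hB2, hlow⟩ := low_sq hN (by linarith) hL (GG_all hN hv hκ0 hκ1 hk)
  refine ⟨486 * (|A| + 1) ^ 2 + B2, by positivity, fun v => ?_⟩
  obtain ⟨P, hP⟩ : ∃ P : ℝ, P = (1 + μ (em v)) ^ (1 - κ') := ⟨_, rfl⟩
  have hP0 : 0 < P := by rw [hP]; exact pw_pos μ κ' v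
  have hP2 : (1 + μ (em v)) ^ (2 * (1 - κ')) = P ^ 2 := by
    have h1 : 0 ≤ μ (em v) := apply_nonneg μ _
    rw [hP, ← Real.rpow_natCast, ← Real.rpow_mul (by linarith)]
    congr 1; push_cast; ring
  have h2 := pw_mono μ hk.le v
  rw [← hP] at h2
  have h3 : ∫ ω, |D (env X ω) 0 v - hh v| ∂(volume : Measure Ω) ≤ (|A| + 1) * P := by
    refine (h v).trans ?_
    exact mul_le_mul (by linarith [le_abs_self A]) h2 (pw_pos μ κ v).le (by positivity)
  have h4 := up_sq hX v (w := (|A| + 1) * P) (by positivity) h3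
  have h5 := hlow v
  rw [hP2] at h5 ⊢
  refine (sqm_le hX v (by positivity) (by positivity) h4 h5).trans (le_of_eq ?_)
  ring

theorem mean_of_var (hX : Iid X) {A : ℝ}
    (h : ∀ v : V, sqm v ≤ A * (1 + μ (em v)) ^ (2 * (1 - κ))) (v : V) :
    ∫ ω, |D (env X ω) 0 v - hh v| ∂(volume : Measure Ω) ≤
      Real.sqrt |A| * (1 + μ (em v)) ^ (1 - κ) := by
  have h0 := pw_pos μ κ v
  refine abs_of_sqm hX v (by positivity) ((h v).trans ?_)
  have h1 : 0 ≤ μ (em v) := apply_nonneg μ _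
  have hP2 : (1 + μ (em v)) ^ (2 * (1 - κ)) = ((1 + μ (em v)) ^ (1 - κ)) ^ 2 := by
    rw [← Real.rpow_natCast, ← Real.rpow_mul (by linarith)]
    congr 1; push_cast; ring
  rw [hP2, mul_pow, Real.sq_sqrt (abs_nonneg _)]
  exact mul_le_mul_of_nonneg_right (le_abs_self A) (sq_nonneg _)

theorem weak_of_mean (hX : Iid X)
    (h : ∀ v : V, ∫ ω, |D (env X ω) 0 v - hh v| ∂(volume : Measure Ω) ≤
      A * (1 + μ (em v)) ^ (1 - κ)) :
    ∀ v : V, (volume : Measure Ω).real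
      {ω | hh v + (8 * |A| + 1) * (1 + μ (em v)) ^ (1 - κ) ≤ D (env X ω) 0 v} ≤ 1 / 8 := by
  intro v
  have h0 := pw_pos μ κ v
  have h1 : 0 < (8 * |A| + 1) * (1 + μ (em v)) ^ (1 - κ) := by positivity
  have h5 := mk (fun ω => D (env X ω) 0 v) (cINT Ω X hX 0 v) (hh v) _ h1
  refine (measureReal_mono ?_ (measure_ne_top _ _)).trans (h5.trans ?_)
  · intro ω hω
    have h6 : hh v + (8 * |A| + 1) * (1 + μ (em v)) ^ (1 - κ) ≤ D (env X ω) 0 v := hω
    exact (by linarith : _ ≤ D (env X ω) 0 v - hh v).trans (le_abs_self _)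
  · rw [div_le_iff₀ h1]
    have h7 := h v
    have h8 : A * (1 + μ (em v)) ^ (1 - κ) ≤ |A| * (1 + μ (em v)) ^ (1 - κ) :=
      mul_le_mul_of_nonneg_right (le_abs_self A) h0.le
    have e : 1 / 8 * ((8 * |A| + 1) * (1 + μ (em v)) ^ (1 - κ)) =
      |A| * (1 + μ (em v)) ^ (1 - κ) + 1 / 8 * (1 + μ (em v)) ^ (1 - κ) := by ring
    linarith

theorem mean_of_weak (hX : Iid X) {e : ℝ} (he : e < Real.exp (-1)) (hA : 0 < A)
    (h : ∀ v : V, (volume : Measure Ω).real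
      {ω | hh v + A * (1 + μ (em v)) ^ (1 - κ) ≤ D (env X ω) 0 v} ≤ e) :
    ∃ A' : ℝ, ∀ v : V, ∫ ω, |D (env X ω) 0 v - hh v| ∂(volume : Measure Ω) ≤
      A' * (1 + μ (em v)) ^ (1 - κ) := by
  obtain ⟨d, hd, hed⟩ := ex_d e he
  refine ⟨2 * (1 + 1 / d) * A, fun v => ?_⟩
  have h0 := pw_pos μ κ v
  have h1 := (one_mean hX v (r := A * (1 + μ (em v)) ^ (1 - κ)) (by positivity) hd
    ((h v).trans hed)).2
  refine h1.trans (le_of_eq ?_)
  ring

/-- one exponent -/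
theorem one_exp (hX : Iid X) (hN : Nrm μ c0 C0) (hG : Good (fun ω v => D (env X ω) 0 v) μ)
    (hlim : ∀ z : V, ∀ᵐ ω ∂(volume : Measure Ω),
      Tendsto (fun n : ℕ => D (env X ω) 0 ((n : ℤ) • z) / (n : ℝ)) atTop (𝓝 (μ (em z))))
    (hκ1 : κ < 1)
    (h : ∀ v : V, ∫ ω, |D (env X ω) 0 v - hh v| ∂(volume : Measure Ω) ≤
      A * (1 + μ (em v)) ^ (1 - κ)) {κ' : ℝ} (h0' : 0 < κ') (hk : κ' < κ) :
    ∃ c : ℝ, 0 < c ∧ ∀ᶠ t : ℝ in atTop,
      (volume : Measure Ω).real (Out (fun ω v => D (env X ω) 0 v) μ κ' t) ≤ Real.exp (-(t ^ c)) ∧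
      (volume : Measure Ω).real
        (Pool.Agent.N662.FP.Bad (fun ω v => D (env X ω) 0 v) μ κ' t) ≤ Real.exp (-(t ^ c)) := by
  have hκ0 : 0 < κ := h0'.trans hk
  obtain ⟨B, hB, hb⟩ := l1_of_mean hX hN hlim hκ0 hκ1 h (κ' := (κ' + κ) / 2) (by linarith)
  have hw : ∀ v : V, (volume : Measure Ω).real
      {ω | μ (em v) + (8 * B) * (1 + μ (em v)) ^ (1 - (κ' + κ) / 2) ≤ D (env X ω) 0 v} ≤ 1 / 8 := by
    intro v
    have h0 := pw_pos μ ((κ' + κ) / 2) v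
    have h1 : 0 < (8 * B) * (1 + μ (em v)) ^ (1 - (κ' + κ) / 2) := by positivity
    have h5 := mk (fun ω => D (env X ω) 0 v) (cINT Ω X hX 0 v) (μ (em v)) _ h1
    refine (measureReal_mono ?_ (measure_ne_top _ _)).trans (h5.trans ?_)
    · intro ω hω
      have h6 : μ (em v) + (8 * B) * (1 + μ (em v)) ^ (1 - (κ' + κ) / 2) ≤ D (env X ω) 0 v := hω
      exact (by linarith : _ ≤ D (env X ω) 0 v - μ (em v)).trans (le_abs_self _)
    · rw [div_le_iff₀ h1]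
      have h7 := (hb v).2.2
      have e : 1 / 8 * ((8 * B) * (1 + μ (em v)) ^ (1 - (κ' + κ) / 2)) =
        B * (1 + μ (em v)) ^ (1 - (κ' + κ) / 2) := by ring
      rw [e]; exact h7
  obtain ⟨A1, hy⟩ := mk_hyp hX hG eighth (by positivity) hw
  obtain ⟨c1, hc1, e1⟩ := out_of_hyp hX hN hy (by linarith) h0' (by linarith)
  obtain ⟨c2, hc2, e2⟩ := d_c cEE hG ((κ' + κ) / 2) (by linarith) (by linarith) (8 * B)
    (by positivity) (1 / 8) eighth hw κ' h0' (by linarith)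
  refine ⟨min c1 c2, lt_min hc1 hc2, ?_⟩
  filter_upwards [e1, e2, eventually_ge_atTop (1 : ℝ)] with t t1 t2 t3
  refine ⟨t1.trans (Real.exp_le_exp.2 (neg_le_neg ?_)),
    t2.trans (Real.exp_le_exp.2 (neg_le_neg ?_))⟩
  · exact Real.rpow_le_rpow_of_exponent_le t3 (min_le_left _ _)
  · exact Real.rpow_le_rpow_of_exponent_le t3 (min_le_right _ _)

/-- the equivalences -/
theorem tfae3 (hX : Iid X) (hG : Good (fun ω v => D (env X ω) 0 v) μ)
    (hlim : ∀ z : V, ∀ᵐ ω ∂(volume : Measure Ω),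
      Tendsto (fun n : ℕ => D (env X ω) 0 ((n : ℤ) • z) / (n : ℝ)) atTop (𝓝 (μ (em z))))
    (K : ℝ) (hK1 : K < 1) :
    List.TFAE [
      ∀ κ : ℝ, 0 < κ → κ < K → ∀ q : ℝ, 0 < q →
        Asymptotics.IsBigO atTop (fun t : ℝ => (volume : Measure Ω).real
          (Out (fun ω v => D (env X ω) 0 v) μ κ t)) (fun t : ℝ => t ^ (-q)) ∧
        Asymptotics.IsBigO atTop (fun t : ℝ => (volume : Measure Ω).real
          (Pool.Agent.N662.FP.Bad (fun ω v => D (env X ω) 0 v) μ κ t)) (fun t : ℝ => t ^ (-q)),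
      ∀ κ : ℝ, 0 < κ → κ < K → ∃ c : ℝ, 0 < c ∧ ∀ᶠ t : ℝ in atTop,
        (volume : Measure Ω).real (Out (fun ω v => D (env X ω) 0 v) μ κ t) ≤ Real.exp (-(t ^ c)) ∧
        (volume : Measure Ω).real
          (Pool.Agent.N662.FP.Bad (fun ω v => D (env X ω) 0 v) μ κ t) ≤ Real.exp (-(t ^ c)),
      ∀ κ : ℝ, 0 < κ → κ < K → ∃ A : ℝ, ∀ v : ℤ × ℤ,
        variance (fun ω => D (env X ω) 0 v) (volume : Measure Ω) ≤
          A * (1 + μ (em v)) ^ (2 * (1 - κ)),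
      ∀ κ : ℝ, 0 < κ → κ < K → ∃ A : ℝ, ∀ v : ℤ × ℤ,
        ∫ ω, |D (env X ω) 0 v - ∫ ω', D (env X ω') 0 v ∂(volume : Measure Ω)|
          ∂(volume : Measure Ω) ≤ A * (1 + μ (em v)) ^ (1 - κ),
      ∀ κ : ℝ, 0 < κ → κ < K → ∃ e : ℝ, e < Real.exp (-1) ∧ ∃ A : ℝ, 0 < A ∧ ∀ v : ℤ × ℤ,
        (volume : Measure Ω).real
          {ω | (∫ ω', D (env X ω') 0 v ∂(volume : Measure Ω)) + A * (1 + μ (em v)) ^ (1 - κ) ≤
            D (env X ω) 0 v} ≤ e] := by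
  obtain ⟨c0, C0, hN⟩ := nrm_of μ hG.norm
  have hold := tfae2 hX hG K hK1
  have o12 := hold.out 1 2
  have o15 := hold.out 1 5
  simp_rw [var_eq hX, hh_eq hX]
  tfae_have 1 ↔ 2 := o12
  tfae_have 1 → 4 := by
    intro h κ h0 h1
    obtain ⟨A, hA⟩ := o15.1 h κ h0 h1
    exact ⟨2 * A, fun v => mean_of_l1 hX hA v⟩
  tfae_have 4 → 1 := by
    intro h
    refine o15.2 fun κ h0 h1 => ?_
    obtain ⟨A, hA⟩ := h ((κ + K) / 2) (by linarith) (by linarith)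
    obtain ⟨A', -, hA'⟩ := l1_of_mean hX hN hlim (by linarith) (by linarith) hA
      (κ' := κ) (by linarith)
    exact ⟨A', fun v => (hA' v).2.2⟩
  tfae_have 4 → 3 := by
    intro h κ h0 h1
    obtain ⟨A, hA⟩ := h ((κ + K) / 2) (by linarith) (by linarith)
    obtain ⟨A', -, hA'⟩ := var_of_mean hX hN hlim (by linarith) hA (κ' := κ) h0.le (by linarith)
    exact ⟨A', hA'⟩
  tfae_have 3 → 4 := by
    intro h κ h0 h1
    obtain ⟨A, hA⟩ := h κ h0 h1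
    exact ⟨_, fun v => mean_of_var hX hA v⟩
  tfae_have 4 → 5 := by
    intro h κ h0 h1
    obtain ⟨A, hA⟩ := h κ h0 h1
    exact ⟨1 / 8, eighth, 8 * |A| + 1, by positivity, weak_of_mean hX hA⟩
  tfae_have 5 → 4 := by
    intro h κ h0 h1
    obtain ⟨e, he, A, hA, hA2⟩ := h κ h0 h1
    exact mean_of_weak hX he hA hA2
  tfae_finish

end

end Pool.Agent.J4.H91.FPP
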