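import Pool.Agent.J4.H91.FPP.Tail

set_option autoImplicit false
open MeasureTheory ProbabilityTheory Filter Set
open scoped ENNReal Topology

/-!
# Paths in half-planes (helper91)
-/

namespace Pool.Agent.J4.H91.FPP

open Pool.Agent.N662.FP hiding em

variable {μ : Seminorm ℝ (ℝ × ℝ)} {c0 C0 κ A : ℝ}

/-- near-geodesics do not go back much -/
theorem hp_path (hN : Nrm μ c0 C0) (F : Frame μ) {x : En} {d T : ℝ} {u w : V} (hT : 0 ≤ T)
    (hd : 0 ≤ d)
    (hU : ∀ a b : V, μ (em (a - u)) ≤ T + d + C0 → μ (em (b - u)) ≤ T + d + C0 →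
      μ (em (b - a)) - d ≤ dR a b x)
    {n : ℕ} {p : ℕ → V} (hp : Fu u w n p) (ht : tm x n p ≤ ENNReal.ofReal T) :
    ∀ i ≤ n, (F.lv u + F.lv w - T - 2 * d) / 2 ≤ F.lv (p i) := by
  obtain ⟨h0, hn, hs⟩ := hp
  have hC0 : 0 < C0 := by linarith [hN.Cge]
  have hpre : ∀ i j, i ≤ j → j ≤ n → (tm x (j - i) (sh i p)).toReal ≤ T := by
    intro i j hij hj
    refine ENNReal.toReal_le_of_le_ofReal hT ((tm_sh_le p x (by omega)).trans ht)
  have hball : ∀ i ≤ n, μ (em (p i - u)) ≤ T + d := by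
    intro i
    induction i with
    | zero =>
      intro _
      rw [h0, sub_self, em_zero, map_zero]
      linarith
    | succ i ih =>
      intro hi
      have h1 := ih (by omega)
      have h2 : μ (em (p (i + 1) - u)) ≤ T + d + C0 := by
        have h3 := mu_step hN (hs i (by omega)) (em u)
        rw [← em_sub, ← em_sub] at h3
        linarith
      have h3 := hU u (p (i + 1)) (by rw [sub_self, em_zero, map_zero]; linarith) h2
      have h4 := dR_le_tm hs (Nat.zero_le (i + 1)) hi x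
      rw [h0] at h4
      have h5 := hpre 0 (i + 1) (Nat.zero_le _) hi
      linarith
  intro i hi
  have h1 := hball i hi
  have h2 := hball n le_rfl
  have k1 := hU u (p i) (by rw [sub_self, em_zero, map_zero]; linarith) (by linarith)
  have k2 := hU (p i) (p n) (by linarith) (by linarith)
  have m1 := dR_le_tm hs (Nat.zero_le i) hi x
  have m2 := dR_le_tm hs hi le_rfl x
  have m3 : (tm x (i - 0) (sh 0 p)).toReal + (tm x (n - i) (sh i p)).toReal ≤ T := by
    rw [← ENNReal.toReal_add (tm_lt_top _ _ _).ne (tm_lt_top _ _ _).ne]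
    refine ENNReal.toReal_le_of_le_ofReal hT ?_
    have e : tm x (i - 0) (sh 0 p) + tm x (n - i) (sh i p) = tm x n p := by
      have e1 : sh 0 p = p := by funext j; simp [sh]
      rw [e1, Nat.sub_zero, ← tm_split]
      congr 1; omega
    rw [e]; exact ht
  rw [h0] at m1
  have l1 : F.lv u - F.lv (p i) ≤ μ (em (p i - u)) := by
    rw [← F.lv_sub]
    refine (F.le _).trans (le_of_eq ?_)
    rw [← neg_sub u (p i), em_neg, map_neg_eq_map]
  have l2 : F.lv (p n) - F.lv (p i) ≤ μ (em (p n - p i)) := by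
    rw [← F.lv_sub]
    exact F.le _
  rw [← hn]
  linarith

/-- restricted passage times agree with the free ones when near-geodesics stay inside -/
theorem Re_le_DE {S : V → Prop} {u w : V} {x : En}
    (h : ∀ n p, Fu u w n p → tm x n p < DE u w x + 1 → ∀ i ≤ n, S (p i)) :
    LE (Re S u w) x ≤ DE u w x := by
  by_contra hcon
  rw [not_le] at hcon
  have h1 : DE u w x < min (LE (Re S u w) x) (DE u w x + 1) :=
    lt_min hcon (ENNReal.lt_add_right (DE_lt_top _ _ _).ne one_ne_zero)
  obtain ⟨n, p, hp, ht⟩ := LE_lt.1 h1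
  have h2 := h n p hp (ht.trans_le (min_le_right _ _))
  have h3 : LE (Re S u w) x ≤ tm x n p := LE_le (C := Re S u w) ⟨hp.1, hp.2.1, hp.2.2, h2⟩ x
  exact absurd (ht.trans_le (min_le_left _ _)) (not_lt.2 h3)

/-- a straight path -/
def stra (u e : V) : ℕ → V := fun i => u + (i : ℤ) • e

theorem stra_stp (u e : V) (he : |e.1| + |e.2| = 1) (n : ℕ) : Stp n (stra u e) := by
  intro i _
  show |(u.1 + ((i + 1 : ℕ) : ℤ) * e.1) - (u.1 + (i : ℤ) * e.1)| +
    |(u.2 + ((i + 1 : ℕ) : ℤ) * e.2) - (u.2 + (i : ℤ) * e.2)| = 1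
  have e1 : (u.1 + ((i + 1 : ℕ) : ℤ) * e.1) - (u.1 + (i : ℤ) * e.1) = e.1 := by push_cast; ring
  have e2 : (u.2 + ((i + 1 : ℕ) : ℤ) * e.2) - (u.2 + (i : ℤ) * e.2) = e.2 := by push_cast; ring
  rw [e1, e2, he]

theorem lv_smul (F : Frame μ) (k : ℤ) (e : V) : F.lv (k • e) = k * F.lv e := by
  unfold Frame.lv
  have : em (k • e) = (k : ℝ) • em e := by
    rw [em_def, em_def]; ext <;> simp
  rw [this, map_smul, smul_eq_mul]

theorem stra_lv (F : Frame μ) (u e : V) (n : ℕ) : ∀ i ≤ n,
    min (F.lv u) (F.lv (stra u e n)) ≤ F.lv (stra u e i) := by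
  intro i hi
  have h1 : ∀ j : ℕ, F.lv (stra u e j) = F.lv u + j * F.lv e := by
    intro j
    show F.lv (u + (j : ℤ) • e) = _
    rw [F.lv_add, lv_smul]; norm_cast
  rw [h1, h1]
  have h2 : (i : ℝ) ≤ n := by exact_mod_cast hi
  have h3 : (0 : ℝ) ≤ i := by positivity
  rcases le_total 0 (F.lv e) with h | h
  · refine (min_le_left _ _).trans ?_
    nlinarith
  · refine (min_le_right _ _).trans ?_
    nlinarith

/-- a straight leg in a coordinate direction -/
theorem leg (F : Frame μ) (u : V) (z : ℤ) (b : Bool) :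
    ∃ p : ℕ → V, Fu u (u + bif b then (z, 0) else (0, z)) z.natAbs p ∧ ∀ i ≤ z.natAbs,
      min (F.lv u) (F.lv (u + bif b then (z, 0) else (0, z))) ≤ F.lv (p i) := by
  set s : ℤ := if 0 ≤ z then 1 else -1 with hs
  have hsz : (z.natAbs : ℤ) * s = z := by
    rw [hs]; split_ifs with h <;> omega
  have hs1 : |s| = 1 := by rw [hs]; split_ifs <;> simp
  set e : V := bif b then (s, 0) else (0, s) with he
  have he1 : |e.1| + |e.2| = 1 := by
    rw [he]; cases b <;> simp [hs1]
  have hend : stra u e z.natAbs = u + bif b then (z, 0) else (0, z) := by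
    show u + (z.natAbs : ℤ) • e = _
    congr 1
    rw [he]
    cases b
    · show (z.natAbs : ℤ) • ((0 : ℤ), s) = (0, z)
      ext
      · simp
      · exact hsz
    · show (z.natAbs : ℤ) • (s, (0 : ℤ)) = (z, 0)
      ext
      · exact hsz
      · simp
  refine ⟨stra u e, ⟨by simp [stra], hend, stra_stp u e he1 _⟩, ?_⟩
  rw [← hend]
  exact stra_lv F u e _

/-- an L-shaped path which stays above the lower end point -/
theorem lshape (F : Frame μ) (u w : V) :
    ∃ (n : ℕ) (p : ℕ → V), Re (fun v => min (F.lv u) (F.lv w) ≤ F.lv v) u w n p ∧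
      (n : ℝ) ≤ 2 * ‖em (w - u)‖ := by
  obtain ⟨a, ha⟩ : ∃ a : ℤ, a = (w - u).1 := ⟨_, rfl⟩
  obtain ⟨b, hb⟩ : ∃ b : ℤ, b = (w - u).2 := ⟨_, rfl⟩
  have hlen : ((a.natAbs + b.natAbs : ℕ) : ℝ) ≤ 2 * ‖em (w - u)‖ := by
    have h1 : |((a : ℤ) : ℝ)| ≤ ‖em (w - u)‖ := by
      rw [ha, Prod.norm_def]; exact le_max_left _ _
    have h2 : |((b : ℤ) : ℝ)| ≤ ‖em (w - u)‖ := by
      rw [hb, Prod.norm_def]; exact le_max_right _ _
    have h3 : ((a.natAbs : ℕ) : ℝ) = |(a : ℝ)| := by
      rw [Nat.cast_natAbs, Int.cast_abs]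
    have h4 : ((b.natAbs : ℕ) : ℝ) = |(b : ℝ)| := by
      rw [Nat.cast_natAbs, Int.cast_abs]
    push_cast
    rw [h3, h4]; linarith
  have hw : u + (a, 0) + (0, b) = w := by
    ext
    · show u.1 + a + 0 = w.1
      rw [ha]; show u.1 + (w.1 - u.1) + 0 = w.1; ring
    · show u.2 + 0 + b = w.2
      rw [hb]; show u.2 + 0 + (w.2 - u.2) = w.2; ring
  have hw' : u + (0, b) + (a, 0) = w := by
    rw [← hw]; abel
  have hsum : F.lv (u + (a, 0)) + F.lv (u + (0, b)) = F.lv u + F.lv w := by
    rw [← hw, F.lv_add, F.lv_add, F.lv_add, F.lv_add]; ring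
  -- concatenation of two legs
  have two : ∀ (z : V) (n m : ℕ) (p q : ℕ → V), Fu u z n p → Fu z w m q →
      (∀ i ≤ n, min (F.lv u) (F.lv z) ≤ F.lv (p i)) → (∀ i ≤ m, min (F.lv z) (F.lv w) ≤ F.lv (q i)) →
      min (F.lv u) (F.lv w) ≤ F.lv z →
      Re (fun v => min (F.lv u) (F.lv w) ≤ F.lv v) u w (n + m) (cat n p q) := by
    intro z n m p q hp hq h1 h2 h3
    have e : p n = q 0 := by rw [hp.2.1, hq.1]
    refine ⟨?_, ?_, stp_cat e hp.2.2 hq.2.2, cat_forall (P := fun v => min (F.lv u) (F.lv w) ≤ F.lv v) e (fun i hi => ?_)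
      (fun i hi => ?_)⟩
    · rw [cat_le (Nat.zero_le _), hp.1]
    · rw [cat_add e, hq.2.1]
    · exact (le_min (min_le_left _ _) h3).trans (h1 i hi)
    · exact (le_min h3 (min_le_right _ _)).trans (h2 i hi)
  rcases le_total (F.lv (u + (0, b))) (F.lv (u + (a, 0))) with h | h
  · obtain ⟨p, hp, hp2⟩ := leg F u a true
    obtain ⟨q, hq, hq2⟩ := leg F (u + (a, 0)) b false
    simp only [cond_true, cond_false] at hp hp2 hq hq2
    rw [hw] at hq hq2
    refine ⟨a.natAbs + b.natAbs, _, two _ _ _ _ _ hp hq hp2 hq2 ?_, hlen⟩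
    rcases min_choice (F.lv u) (F.lv w) with h5 | h5 <;> rw [h5]
    · have := min_le_right (F.lv u) (F.lv w); linarith
    · have := min_le_left (F.lv u) (F.lv w); linarith
  · obtain ⟨p, hp, hp2⟩ := leg F u b false
    obtain ⟨q, hq, hq2⟩ := leg F (u + (0, b)) a true
    simp only [cond_true, cond_false] at hp hp2 hq hq2
    rw [hw'] at hq hq2
    refine ⟨b.natAbs + a.natAbs, _, two _ _ _ _ _ hp hq hp2 hq2 ?_, by rw [add_comm]; exact hlen⟩
    rcases min_choice (F.lv u) (F.lv w) with h5 | h5 <;> rw [h5]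
    · have := min_le_right (F.lv u) (F.lv w); linarith
    · have := min_le_left (F.lv u) (F.lv w); linarith

/-! ### the single weights -/

theorem exc (e : Sym2 V) {M : ℝ} (hM : 1 ≤ M) :
    ∫⁻ x, (ENNReal.ofReal (x e) - ENNReal.ofReal M) ∂PP ≤ ENNReal.ofReal (3 * Real.exp (-M)) := by
  let _ : MeasureSpace En := ⟨PP⟩
  have hprob : IsProbabilityMeasure (volume : Measure En) := inferInstanceAs (IsProbabilityMeasure PP)
  have hX := iid_can
  have hmeas : Measurable fun x : En => x e := measurable_pi_apply e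
  have hint : Integrable (fun x : En => x e) (volume : Measure En) := by
    have h6 : Integrable (fun x : ℝ => x) (Measure.map (fun x : En => x e) (volume : Measure En)) := by
      rw [hX.law e]
      exact Pool.Agent.N327.FL.t_EXPI
    exact (integrable_map_measure h6.aestronglyMeasurable hmeas.aemeasurable).1 h6
  have htail : ∀ t : ℝ, M ≤ t → (volume : Measure En).real {x | t ≤ x e} ≤
      (3 * Real.exp (-M)) * Real.exp (-(1 * (t - M))) := by
    intro t ht
    have h1 : (volume : Measure En).real {x | t ≤ x e} ≤ (expMeasure 1).real (Ioi (t - 1)) := by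
      rw [← hX.law e, measureReal_def, measureReal_def, Measure.map_apply hmeas measurableSet_Ioi]
      refine ENNReal.toReal_mono (measure_ne_top _ _) (measure_mono fun x hx => ?_)
      have : t ≤ x e := hx
      show t - 1 < x e
      linarith
    have h2 : (expMeasure 1).real (Ioi (t - 1)) = Real.exp (-(t - 1)) := by
      have h3 := cdf_expMeasure_eq one_pos (t - 1)
      rw [if_pos (by linarith), one_mul, cdf_eq_real] at h3
      have h4 : (expMeasure 1).real (Ioi (t - 1)) = 1 - (expMeasure 1).real (Iic (t - 1)) := by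
        rw [← compl_Iic, probReal_compl_eq_one_sub measurableSet_Iic]
      rw [h4, h3]; ring
    rw [h2] at h1
    refine h1.trans ?_
    rw [mul_assoc, ← Real.exp_add]
    have e1 : -(t - 1) = 1 + (-M + -(1 * (t - M))) := by ring
    rw [e1, Real.exp_add]
    have h5 : Real.exp 1 ≤ 3 := by linarith [Real.exp_one_lt_d9]
    exact mul_le_mul_of_nonneg_right h5 (Real.exp_pos _).le
  have h := Pool.Agent.N346.FM.t_LAY2 En (fun x => x e) hmeas hint M (3 * Real.exp (-M)) 1 one_pos
    htail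
  rw [div_one] at h
  have hi2 : Integrable (fun x : En => max (x e - M) 0) (volume : Measure En) :=
    (hint.sub (integrable_const M)).pos_part
  have h7 := ofReal_integral_eq_lintegral_ofReal hi2 (Eventually.of_forall fun x => le_max_right _ _)
  have h8 : ∫⁻ x, (ENNReal.ofReal (x e) - ENNReal.ofReal M) ∂PP =
      ∫⁻ x, ENNReal.ofReal (max (x e - M) 0) ∂(volume : Measure En) := by
    refine lintegral_congr fun x => ?_
    rw [← ENNReal.ofReal_sub _ (by linarith : 0 ≤ M)]
    rcases le_total (x e - M) 0 with h9 | h9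
    · rw [max_eq_right h9, ENNReal.ofReal_of_nonpos h9, ENNReal.ofReal_zero]
    · rw [max_eq_left h9]
  rw [h8, ← h7]
  exact ENNReal.ofReal_le_ofReal h

theorem tm_bad (n : ℕ) (p : ℕ → V) {B : Set En} (hB : MeasurableSet B) {M b : ℝ} (hM : 1 ≤ M)
    (hb : 0 ≤ b) (hPB : PP B ≤ ENNReal.ofReal b) :
    ∫⁻ x in B, tm x n p ∂PP ≤ ENNReal.ofReal (n * (M * b + 3 * Real.exp (-M))) := by
  unfold tm
  rw [lintegral_finsetSum _ fun i _ => (measurable_pi_apply _).ennreal_ofReal]
  have h1 : ∀ i ∈ Finset.range n, ∫⁻ x in B, ENNReal.ofReal (x s(p i, p (i + 1))) ∂PP ≤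
      ENNReal.ofReal (M * b + 3 * Real.exp (-M)) := by
    intro i _
    have h2 : ∀ x : En, ENNReal.ofReal (x s(p i, p (i + 1))) ≤
        ENNReal.ofReal M + (ENNReal.ofReal (x s(p i, p (i + 1))) - ENNReal.ofReal M) :=
      fun x => le_add_tsub
    refine (lintegral_mono h2).trans ?_
    rw [lintegral_add_left measurable_const, lintegral_const, Measure.restrict_apply_univ,
      ENNReal.ofReal_add (by positivity) (by positivity), ENNReal.ofReal_mul (by linarith)]
    refine add_le_add (mul_le_mul_right hPB _) ?_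
    exact (setLIntegral_le_lintegral _ _).trans (exc _ hM)
  refine (Finset.sum_le_sum h1).trans ?_
  rw [Finset.sum_const, Finset.card_range, nsmul_eq_mul, ENNReal.ofReal_mul (by positivity),
    ENNReal.ofReal_natCast]

end Pool.Agent.J4.H91.FPP
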