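import Pool.Agent.J4.H91.FPP.Mean

set_option autoImplicit false
open MeasureTheory ProbabilityTheory Filter Set
open scoped ENNReal Topology Pointwise

/-!
# Splitting at a level, with hubs (helper91)
-/

namespace Pool.Agent.J4.H91.FPP

open Pool.Agent.N662.FP hiding em

variable {μ : Seminorm ℝ (ℝ × ℝ)} {c0 C0 κ κ0 A : ℝ}

theorem hub (hN : Nrm μ c0 C0) (hv : HV μ κ A) (hκ1 : κ < 1) (F : Frame μ) (w : V)
    {m R y L : ℝ} (hR : 1 ≤ R) (hy : 0 < y) (hm0 : 0 < m) (hm : m ≤ F.lv w)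
    (hRw : hh w + y + 1 ≤ R) (hw : ‖em w‖ ≤ 27 * R) {N : ℕ} (hat chk : Fin N → V) (Rel : V → Prop)
    (hRel : PP {x | ∃ b : V, ‖em b‖ ≤ 26 * R ∧ m ≤ F.lv b ∧ F.lv b ≤ m + C0 ∧
      dR 0 b x + dR b w x ≤ hh w + y + 1 ∧ ¬ Rel b} ≤ ENNReal.ofReal (1 / 8))
    (hcov : ∀ b : V, ‖em b‖ ≤ 26 * R → m ≤ F.lv b → F.lv b ≤ m + C0 → Rel b →
      ∃ k, hh (hat k - b) + hh (b - chk k) ≤ L ∧ ‖em (hat k)‖ ≤ 27 * R ∧ ‖em (chk k)‖ ≤ 27 * R)
    (q1 : N * (2 * (A * (1 + C0 * (54 * R)) ^ (1 - κ) / y)) ≤ 1 / 8)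
    (q2 : 81 * (27 * R) ^ 4 * (3 * Real.exp (-(y / (A * (1 + C0 * (54 * R)) ^ (1 - κ))))) ≤ 1 / 8)
    (q3 : 9 * (26 * R) ^ 2 * Real.exp (-R) ≤ 1 / 8) :
    ∃ k, hh (hat k) + hh (w - chk k) ≤ hh w + L + 5 * y + 1 := by
  classical
  have hC0 := hN.Cge
  have hA := hv.Age
  set Z : ℝ := (1 + C0 * (54 * R)) ^ (1 - κ) with hZ
  have hZ0 : 0 < Z := by positivity
  have hmu : ∀ a b : V, ‖em a‖ ≤ 27 * R → ‖em b‖ ≤ 27 * R → (1 + μ (em (b - a))) ^ (1 - κ) ≤ Z := by
    intro a b ha hb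
    refine Real.rpow_le_rpow (by have := apply_nonneg μ (em (b - a)); linarith) ?_ (by linarith)
    have h1 := hN.hi (em (b - a))
    have h2 : ‖em (b - a)‖ ≤ 54 * R := by
      rw [em_sub]
      refine (norm_sub_le _ _).trans ?_
      linarith
    have h3 : C0 * ‖em (b - a)‖ ≤ C0 * (54 * R) := mul_le_mul_of_nonneg_left h2 (by linarith)
    linarith
  have hmu0 : ∀ a b : V, 0 < (1 + μ (em (b - a))) ^ (1 - κ) := by
    intro a b
    have := apply_nonneg μ (em (b - a))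
    positivity
  have h0box : ‖em (0 : V)‖ ≤ 27 * R := by rw [em_zero, norm_zero]; linarith
  -- the exceptional events
  set B1 : Set En := {x | ∃ a : V, ‖em a‖ ≤ 26 * R ∧ x ∈ {x | 25 * R ≤ ‖em a‖ ∧
    dR 0 a x < ‖em a‖ / 25}} with hB1
  set B2 : Set En := {x | ∃ a : V, ‖em a‖ ≤ 27 * R ∧ x ∈ {x | ∃ b : V, ‖em b‖ ≤ 27 * R ∧
    x ∈ {x | hh (b - a) + y < dR a b x}}} with hB2
  set B3 : Set En := {x | ∃ b : V, ‖em b‖ ≤ 26 * R ∧ m ≤ F.lv b ∧ F.lv b ≤ m + C0 ∧
      dR 0 b x + dR b w x ≤ hh w + y + 1 ∧ ¬ Rel b} with hB3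
  set B4 : Fin N → Set En := fun k => {x | ‖em (hat k)‖ ≤ 27 * R ∧ dR 0 (hat k) x < hh (hat k) - y} ∪
    {x | ‖em (chk k)‖ ≤ 27 * R ∧ dR (chk k) w x < hh (w - chk k) - y} with hB4
  have p1 : PP B1 ≤ ENNReal.ofReal (1 / 8) :=
    (far_prob linLow hR).trans (ENNReal.ofReal_le_ofReal q3)
  have p2 : PP B2 ≤ ENNReal.ofReal (1 / 8) := by
    set q : ℝ := 3 * Real.exp (-(y / (A * Z))) with hq
    have hq0 : 0 ≤ q := by positivity
    have key : ∀ a ∈ box (27 * R), ∀ b ∈ box (27 * R),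
        PP {x | hh (b - a) + y < dR a b x} ≤ ENNReal.ofReal q := by
      intro a ha b hb
      refine (hv.upp a b hy.le).trans (ENNReal.ofReal_le_ofReal ?_)
      refine mul_le_mul_of_nonneg_left (Real.exp_le_exp.2 (neg_le_neg ?_)) (by norm_num)
      refine div_le_div_of_nonneg_left hy.le (by have := hmu0 a b; positivity) ?_
      exact mul_le_mul_of_nonneg_left (hmu a b (mem_box.1 ha) (mem_box.1 hb)) (by linarith)
    have h2 := prob_box (r := 27 * R) (by linarith) (q := 9 * (27 * R) ^ 2 * q)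
      (E := fun a => {x | ∃ b : V, ‖em b‖ ≤ 27 * R ∧ x ∈ {x | hh (b - a) + y < dR a b x}})
      (by positivity) (fun a ha => prob_box (r := 27 * R) (by linarith) hq0 (key a ha))
    refine h2.trans (ENNReal.ofReal_le_ofReal (le_trans (le_of_eq ?_) q2))
    rw [hq]; ring
  have p4 : PP (⋃ k, B4 k) ≤ ENNReal.ofReal (1 / 8) := by
    have hk : ∀ k, PP (B4 k) ≤ ENNReal.ofReal (2 * (A * Z / y)) := by
      intro k
      have e1 : PP {x | ‖em (hat k)‖ ≤ 27 * R ∧ dR 0 (hat k) x < hh (hat k) - y} ≤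
          ENNReal.ofReal (A * Z / y) := by
        by_cases hb : ‖em (hat k)‖ ≤ 27 * R
        · refine (measure_mono (fun x hx => ?_ :
            _ ⊆ {x | dR 0 (hat k) x < hh (hat k - 0) - y})).trans ((hv.low 0 (hat k) hy).trans
            (ENNReal.ofReal_le_ofReal ?_))
          · rw [sub_zero]; exact hx.2
          · refine div_le_div_of_nonneg_right ?_ hy.le
            exact mul_le_mul_of_nonneg_left (hmu 0 (hat k) h0box hb) (by linarith)
        · have : {x : En | ‖em (hat k)‖ ≤ 27 * R ∧ dR 0 (hat k) x < hh (hat k) - y} = ∅ := by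
            ext x; simp [hb]
          rw [this, measure_empty]; exact bot_le
      have e2 : PP {x | ‖em (chk k)‖ ≤ 27 * R ∧ dR (chk k) w x < hh (w - chk k) - y} ≤
          ENNReal.ofReal (A * Z / y) := by
        by_cases hb : ‖em (chk k)‖ ≤ 27 * R
        · refine (measure_mono (fun x hx => hx.2 :
            _ ⊆ {x | dR (chk k) w x < hh (w - chk k) - y})).trans ((hv.low (chk k) w hy).trans
            (ENNReal.ofReal_le_ofReal ?_))
          refine div_le_div_of_nonneg_right ?_ hy.le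
          exact mul_le_mul_of_nonneg_left (hmu (chk k) w hb hw) (by linarith)
        · have : {x : En | ‖em (chk k)‖ ≤ 27 * R ∧ dR (chk k) w x < hh (w - chk k) - y} = ∅ := by
            ext x; simp [hb]
          rw [this, measure_empty]; exact bot_le
      refine (measure_union_le _ _).trans ((add_le_add e1 e2).trans (le_of_eq ?_))
      rw [← ENNReal.ofReal_add (by positivity) (by positivity)]
      congr 1; ring
    refine (measure_iUnion_le _).trans ?_
    rw [tsum_fintype]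
    refine (Finset.sum_le_sum fun k _ => hk k).trans ?_
    rw [Finset.sum_const, Finset.card_univ, Fintype.card_fin, nsmul_eq_mul,
      ← ENNReal.ofReal_natCast, ← ENNReal.ofReal_mul (by positivity)]
    exact ENNReal.ofReal_le_ofReal q1
  have hex : ∃ x, x ∉ B1 ∪ (B2 ∪ (B3 ∪ ⋃ k, B4 k)) := by
    by_contra hcon
    push Not at hcon
    have h1 : PP (B1 ∪ (B2 ∪ (B3 ∪ ⋃ k, B4 k))) = 1 := by
      rw [Set.eq_univ_of_forall hcon, measure_univ]
    have h2 : PP (B1 ∪ (B2 ∪ (B3 ∪ ⋃ k, B4 k))) ≤ ENNReal.ofReal (1 / 2) := by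
      refine (measure_union_le _ _).trans ((add_le_add p1 ((measure_union_le _ _).trans
        (add_le_add p2 ((measure_union_le _ _).trans (add_le_add hRel p4))))).trans (le_of_eq ?_))
      rw [← ENNReal.ofReal_add (by norm_num) (by norm_num),
        ← ENNReal.ofReal_add (by norm_num) (by norm_num),
        ← ENNReal.ofReal_add (by norm_num) (by norm_num)]
      norm_num
    rw [h1, ENNReal.one_le_ofReal] at h2
    norm_num at h2
  obtain ⟨x, hx⟩ := hex
  simp only [mem_union, mem_iUnion, not_or, not_exists] at hx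
  obtain ⟨n1, n2, n3, n4⟩ := hx
  have hup : ∀ a b : V, ‖em a‖ ≤ 27 * R → ‖em b‖ ≤ 27 * R → dR a b x ≤ hh (b - a) + y := by
    intro a b ha hb
    by_contra hcon
    exact n2 ⟨a, ha, b, hb, not_le.1 hcon⟩
  have h1 := hup 0 w h0box hw
  rw [sub_zero] at h1
  obtain ⟨n, p, hp, ht⟩ := dR_lt (show dR 0 w x < hh w + y + 1 by linarith)
  have ht' : (tm x n p).toReal < hh w + y + 1 := ENNReal.toReal_lt_of_lt_ofReal ht
  have hbox := in_box hR n1 hp (ht'.trans_le hRw)
  obtain ⟨hp0, hpn, hps⟩ := hp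
  have hex : ∃ j, m ≤ F.lv (p j) := ⟨n, by rw [hpn]; exact hm⟩
  have hj1 := Nat.find_spec hex
  have hjn : Nat.find hex ≤ n := Nat.find_min' hex (by rw [hpn]; exact hm)
  have hj0 : Nat.find hex ≠ 0 := by
    intro h
    rw [h, hp0, F.lv_zero] at hj1
    linarith
  have hj2 := Nat.find_min hex (m := Nat.find hex - 1) (by omega)
  rw [not_le] at hj2
  have hst := F.lv_step hN (hps (Nat.find hex - 1) (by omega))
  rw [show Nat.find hex - 1 + 1 = Nat.find hex by omega] at hst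
  set j := Nat.find hex with hj
  have hj3 : F.lv (p j) ≤ m + C0 := by
    have := (abs_le.1 hst).2
    linarith
  have hsum : dR 0 (p j) x + dR (p j) w x ≤ hh w + y + 1 := by
    have e1 := dR_le_tm (i := 0) (j := j) hps (Nat.zero_le _) hjn x
    have e2 := dR_le_tm (i := j) (j := n) hps hjn le_rfl x
    rw [hp0] at e1
    rw [hpn] at e2
    have e3 : tm x n p = tm x j p + tm x (n - j) (sh j p) := by
      conv_lhs => rw [show n = j + (n - j) by omega]
      exact tm_split _ _ _ _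
    have e4 : (tm x n p).toReal = (tm x j p).toReal + (tm x (n - j) (sh j p)).toReal := by
      rw [e3, ENNReal.toReal_add (tm_lt_top _ _ _).ne (tm_lt_top _ _ _).ne]
    have e5 : tm x (j - 0) (sh 0 p) = tm x j p := by
      have : sh 0 p = p := by funext i; show p (0 + i) = p i; rw [zero_add]
      rw [this, Nat.sub_zero]
    rw [e5] at e1
    linarith
  have hrel : Rel (p j) := by
    by_contra hcon
    exact n3 ⟨p j, hbox j hjn, hj1, hj3, hsum, hcon⟩
  obtain ⟨k, hk1, hk2, hk3⟩ := hcov (p j) (hbox j hjn) hj1 hj3 hrel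
  refine ⟨k, ?_⟩
  have n4' := n4 k
  rw [hB4] at n4'
  simp only [mem_union, not_or] at n4'
  have g1 : hh (hat k) - y ≤ dR 0 (hat k) x := by
    by_contra hcon
    exact n4'.1 ⟨hk2, not_le.1 hcon⟩
  have g2 : hh (w - chk k) - y ≤ dR (chk k) w x := by
    by_contra hcon
    exact n4'.2 ⟨hk3, not_le.1 hcon⟩
  have g3 := dR_tri 0 (p j) (hat k) x
  have g4 := dR_tri (chk k) (p j) w x
  have hb27 : ‖em (p j)‖ ≤ 27 * R := by have := hbox j hjn; linarith
  have g5 := hup (p j) (hat k) hb27 hk2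
  have g6 := hup (chk k) (p j) hk3 hb27
  linarith

end Pool.Agent.J4.H91.FPP
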