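import Pool.Agent.J4.H91.FPP.Step

set_option autoImplicit false
open MeasureTheory ProbabilityTheory Filter Set
open scoped ENNReal Topology

/-!
# Iteration: the lower tail at all exponents below the hypothesis (helper91)
-/

namespace Pool.Agent.J4.H91.FPP

open Pool.Agent.N662.FP hiding em

variable {μ : Seminorm ℝ (ℝ × ℝ)} {c0 C0 κ A : ℝ}

theorem exp_dom {b b' c : ℝ} (hb : 0 < b) (hbb : b < b') (hc : 0 < c) {C : ℝ} (hC : 0 < C)
    (k : ℕ) :
    ∀ᶠ n : ℝ in atTop, C * n ^ k * Real.exp (-(c * n ^ b')) ≤ Real.exp (-(n ^ b)) := by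
  obtain ⟨C1, hC1, hexp⟩ := exp_poly (κ := b) (c := 1) (k + 1) hb one_pos
  have h1 := (tendsto_rpow_atTop (by linarith : 0 < b' - b)).eventually_ge_atTop (2 / c)
  filter_upwards [h1, eventually_ge_atTop (1 : ℝ), eventually_ge_atTop (C * C1)] with n h2 h3 h4
  have hn0 : 0 < n := by linarith
  have h5 : 2 * n ^ b ≤ c * n ^ b' := by
    have e : n ^ b' = n ^ (b' - b) * n ^ b := by rw [← Real.rpow_add hn0]; congr 1; ring
    rw [div_le_iff₀ hc] at h2
    rw [e]
    have : 0 < n ^ b := Real.rpow_pos_of_pos hn0 _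
    nlinarith
  have h6 : Real.exp (-(c * n ^ b')) ≤ Real.exp (-(n ^ b)) * Real.exp (-(1 * n ^ b)) := by
    rw [← Real.exp_add]
    refine Real.exp_le_exp.2 ?_
    linarith
  have h7 := hexp n h3
  have h8 : n ^ (-((k : ℝ) + 1)) = (n ^ (k + 1))⁻¹ := by
    rw [Real.rpow_neg hn0.le]
    congr 1
    exact_mod_cast Real.rpow_natCast n (k + 1)
  rw [h8] at h7
  have h9 : 0 < n ^ k := by positivity
  calc C * n ^ k * Real.exp (-(c * n ^ b'))
      ≤ C * n ^ k * (Real.exp (-(n ^ b)) * Real.exp (-(1 * n ^ b))) := by gcongr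
    _ ≤ C * n ^ k * (Real.exp (-(n ^ b)) * (C1 * (n ^ (k + 1))⁻¹)) := by gcongr
    _ = (C * C1 / n) * Real.exp (-(n ^ b)) := by rw [pow_succ]; field_simp
    _ ≤ 1 * Real.exp (-(n ^ b)) := by
        refine mul_le_mul_of_nonneg_right ?_ (Real.exp_pos _).le
        rw [div_le_one hn0]; exact h4
    _ = _ := one_mul _

theorem step (hN : Nrm μ c0 C0) (hy : Hyp μ κ A) (hκ1 : κ < 1) (hlin : LinLow) {κ0 u δ : ℝ}
    (h0 : 0 ≤ κ0) (hu : 0 < u) (hδ : 0 < δ) (h4 : κ0 + 4 * u < κ) (hL : HL μ κ0) :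
    HL μ ((κ0 + u) / (1 + u + δ)) := by
  obtain ⟨b, K, M0, hb0, hb1, hK, hM0, hcore⟩ := step_core hN hy hκ1 hlin h0 hu h4 hL
  set κ'' : ℝ := κ0 + u with hκ''
  set β : ℝ := 1 / (1 + u + δ) with hβ
  have hβ0 : 0 < β := by positivity
  have hβ1 : β < 1 := by
    rw [hβ, div_lt_one (by positivity)]; linarith
  have hβe : β * (1 + u + δ) = 1 := by rw [hβ]; field_simp
  have hκnew : κ'' / (1 + u + δ) = β * κ'' := by rw [hβ]; ring
  rw [hκnew]
  have hκp : 0 < κ'' := by rw [hκ'']; linarith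
  have hκl : κ'' < 1 := by rw [hκ'']; linarith
  have hβκ : β * κ'' < 1 := by nlinarith
  set α : ℝ := 1 - β with hα
  have hα0 : 0 < α := by rw [hα]; linarith
  set b' : ℝ := min (β * δ) (β * b) / 2 with hb'
  have hβδ : 0 < β * δ := by positivity
  have hβb : 0 < β * b := by positivity
  have hb'0 : 0 < b' := by
    rw [hb']
    have := lt_min hβδ hβb
    linarith
  have hb'1 : b' < β * δ := by
    have h1 := lt_min hβδ hβb
    have h2 := min_le_left (β * δ) (β * b)
    rw [hb']; linarith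
  have hb'2 : b' < β * b := by
    have h1 := lt_min hβδ hβb
    have h2 := min_le_right (β * δ) (β * b)
    rw [hb']; linarith
  have hK0 : 0 < K := by linarith
  have d1 := exp_dom (c := 1 / K) hb'0 hb'1 (by positivity) hK0 0
  have d2 := exp_dom (c := (1 / 4) ^ b) hb'0 hb'2 (by positivity) hK0 4
  have d3 := (tendsto_rpow_atTop hβ0).eventually_ge_atTop (2 * M0)
  obtain ⟨n0, hn0⟩ := eventually_atTop.1 ((d1.and (d2.and d3)).and (eventually_ge_atTop (1 : ℝ)))
  refine ⟨b', max 4 (n0 + 1), hb'0, lt_max_of_lt_left (by norm_num), fun v => ?_⟩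
  set n : ℝ := μ (em v) with hn
  have hnn : 0 ≤ n := apply_nonneg μ _
  set C : ℝ := max 4 (n0 + 1) with hC
  have hC4 : 4 ≤ C := le_max_left _ _
  have hCn : n0 + 1 ≤ C := le_max_right _ _
  rcases lt_or_ge n n0 with hsm | hbig
  · have h1 : 1 ≤ (1 + n) ^ (1 - β * κ'') := Real.one_le_rpow (by linarith) (by linarith)
    have : {x | dR 0 v x < n - C * (1 + n) ^ (1 - β * κ'')} = ∅ := by
      ext x
      simp only [mem_ofPred_eq, mem_empty_iff_false, iff_false, not_lt]
      have h2 := dR_nonneg 0 v x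
      nlinarith
    rw [this, measure_empty]; exact bot_le
  obtain ⟨⟨e1, e2, e3⟩, hn1⟩ := hn0 n hbig
  have hn0' : 0 < n := by linarith
  set N : ℕ := ⌈n ^ α⌉₊ with hNdef
  have hnα : 1 ≤ n ^ α := Real.one_le_rpow hn1 hα0.le
  have hNge : n ^ α ≤ N := Nat.le_ceil _
  have hNle : (N : ℝ) ≤ 2 * n ^ α := by
    have := Nat.ceil_lt_add_one (a := n ^ α) (by positivity)
    linarith
  have hN0 : (0 : ℝ) < N := by linarith
  have hN1 : 1 ≤ N := by
    have : (0 : ℝ) < N := hN0
    have h : 0 < N := by exact_mod_cast this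
    omega
  set m : ℝ := n / N with hm
  have hm0 : 0 < m := by positivity
  have hNm : (N : ℝ) * m = n := by rw [hm]; field_simp
  have hsplit : n ^ α * n ^ β = n := by
    rw [← Real.rpow_add hn0']
    have : α + β = 1 := by rw [hα]; ring
    rw [this, Real.rpow_one]
  have hnβ : 0 < n ^ β := Real.rpow_pos_of_pos hn0' _
  have hmle : m ≤ n ^ β := by
    rw [hm, div_le_iff₀ hN0]
    calc n = n ^ α * n ^ β := hsplit.symm
      _ ≤ N * n ^ β := by gcongr
      _ = _ := mul_comm _ _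
  have hmge : n ^ β / 2 ≤ m := by
    rw [hm, le_div_iff₀ hN0]
    calc n ^ β / 2 * N ≤ n ^ β / 2 * (2 * n ^ α) := by gcongr
      _ = n ^ α * n ^ β := by ring
      _ = n := hsplit
  have hmain := hcore v N m hN1 (by linarith) (by rw [hNm])
  rw [hNm] at hmain
  have h1 : (N : ℝ) * m ^ (1 - κ'') ≤ 2 * (1 + n) ^ (1 - β * κ'') := by
    have h2 : (N : ℝ) * m ^ (1 - κ'') = n * m ^ (-κ'') := by
      rw [show (1 : ℝ) - κ'' = 1 + -κ'' by ring, Real.rpow_add hm0, Real.rpow_one, ← mul_assoc, hNm]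
    rw [h2]
    have h3 : m ^ (-κ'') ≤ 2 * n ^ (-(β * κ'')) := by
      calc m ^ (-κ'') ≤ (n ^ β / 2) ^ (-κ'') :=
            Real.rpow_le_rpow_of_nonpos (by positivity) hmge (by linarith)
        _ = 2 ^ κ'' * n ^ (-(β * κ'')) := by
            rw [Real.div_rpow hnβ.le zero_le_two, ← Real.rpow_mul hn0'.le, Real.rpow_neg zero_le_two,
              div_inv_eq_mul, mul_comm, mul_neg]
        _ ≤ 2 ^ (1 : ℝ) * n ^ (-(β * κ'')) := by
            refine mul_le_mul_of_nonneg_right ?_ (by positivity)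
            exact Real.rpow_le_rpow_of_exponent_le one_le_two hκl.le
        _ = 2 * n ^ (-(β * κ'')) := by rw [Real.rpow_one]
    calc n * m ^ (-κ'') ≤ n * (2 * n ^ (-(β * κ''))) := by gcongr
      _ = 2 * n ^ (1 - β * κ'') := by
          rw [show (1 : ℝ) - β * κ'' = 1 + -(β * κ'') by ring, Real.rpow_add hn0', Real.rpow_one]
          ring
      _ ≤ 2 * (1 + n) ^ (1 - β * κ'') := by
          refine mul_le_mul_of_nonneg_left ?_ zero_le_two
          exact Real.rpow_le_rpow hnn (by linarith) (by linarith)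
  have hsub : {x | dR 0 v x < n - C * (1 + n) ^ (1 - β * κ'')} ⊆
      {x | dR 0 v x < n - 2 * (N * m ^ (1 - κ''))} := by
    intro x hx
    have hx' : dR 0 v x < n - C * (1 + n) ^ (1 - β * κ'') := hx
    show dR 0 v x < n - 2 * (N * m ^ (1 - κ''))
    have h2 : 0 < (1 + n) ^ (1 - β * κ'') := by positivity
    nlinarith
  refine (measure_mono hsub).trans (hmain.trans (ENNReal.ofReal_le_ofReal ?_))
  have h2 : K * Real.exp (-(N / (K * m ^ u))) ≤ Real.exp (-(n ^ b')) := by
    refine le_trans ?_ e1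
    rw [pow_zero, mul_one]
    refine mul_le_mul_of_nonneg_left (Real.exp_le_exp.2 (neg_le_neg ?_)) hK0.le
    rw [le_div_iff₀ (by positivity)]
    have h3 : m ^ u ≤ n ^ (β * u) := by
      rw [Real.rpow_mul hn0'.le]
      exact Real.rpow_le_rpow hm0.le hmle hu.le
    have h5 : n ^ (β * δ) * n ^ (β * u) = n ^ α := by
      rw [← Real.rpow_add hn0']
      congr 1
      rw [hα]; linear_combination hβe
    calc 1 / K * n ^ (β * δ) * (K * m ^ u) = n ^ (β * δ) * m ^ u := by field_simp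
      _ ≤ n ^ (β * δ) * n ^ (β * u) := by gcongr
      _ = n ^ α := h5
      _ ≤ N := hNge
  have h3 : K * n ^ 4 * Real.exp (-((m / 2) ^ b)) ≤ Real.exp (-(n ^ b')) := by
    refine le_trans ?_ e2
    refine mul_le_mul_of_nonneg_left (Real.exp_le_exp.2 (neg_le_neg ?_)) (by positivity)
    rw [Real.rpow_mul hn0'.le, ← Real.mul_rpow (by norm_num) hnβ.le]
    exact Real.rpow_le_rpow (by positivity) (by linarith) hb0.le
  have h5 := Real.exp_pos (-(n ^ b'))
  nlinarith

theorem HL_zero : HL μ 0 := by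
  refine ⟨1, 1, one_pos, one_pos, fun v => ?_⟩
  have : {x | dR 0 v x < μ (em v) - 1 * (1 + μ (em v)) ^ ((1 : ℝ) - 0)} = ∅ := by
    ext x
    simp only [mem_ofPred_eq, mem_empty_iff_false, iff_false, not_lt]
    have h2 := dR_nonneg 0 v x
    rw [sub_zero, Real.rpow_one]
    linarith
  rw [this, measure_empty]; exact bot_le

theorem HL_mono {κ1 κ2 : ℝ} (h : κ2 ≤ κ1) (hL : HL μ κ1) : HL μ κ2 := by
  obtain ⟨b, C, hb, hC, hbd⟩ := hL
  refine ⟨b, C, hb, hC, fun v => le_trans (measure_mono ?_) (hbd v)⟩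
  intro x hx
  have hx' : dR 0 v x < μ (em v) - C * (1 + μ (em v)) ^ (1 - κ2) := hx
  show dR 0 v x < μ (em v) - C * (1 + μ (em v)) ^ (1 - κ1)
  have h1 : 0 ≤ μ (em v) := apply_nonneg μ _
  have h2 : (1 + μ (em v)) ^ (1 - κ1) ≤ (1 + μ (em v)) ^ (1 - κ2) :=
    Real.rpow_le_rpow_of_exponent_le (by linarith) (by linarith)
  nlinarith

/-- the lower tail at all exponents below `κ` -/
theorem HL_all (hN : Nrm μ c0 C0) (hy : Hyp μ κ A) (hκ1 : κ < 1) (hlin : LinLow)
    {κs : ℝ} (hs : κs < κ) (hs0 : 0 ≤ κs) : HL μ κs := by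
  -- one step of a fixed size
  set r : ℝ := (κ - κs) / 5 with hr
  have hr0 : 0 < r := by rw [hr]; linarith
  set δ : ℝ := r * (1 - κ) / 2 with hδ
  have hδ0 : 0 < δ := by
    rw [hδ]
    have : 0 < 1 - κ := by linarith
    positivity
  set ε : ℝ := r * (1 - κ) / 6 with hε
  have hε0 : 0 < ε := by
    rw [hε]
    have : 0 < 1 - κ := by linarith
    positivity
  have hr1 : r < 1 := by rw [hr]; linarith
  have hstep : ∀ κ0, 0 ≤ κ0 → κ0 ≤ κs → HL μ κ0 → HL μ (κ0 + ε) := by
    intro κ0 h0 h1 hL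
    have h2 := step hN hy hκ1 hlin (u := r) (δ := δ) h0 hr0 hδ0 (by rw [hr]; linarith) hL
    refine HL_mono ?_ h2
    rw [le_div_iff₀ (by positivity)]
    have h3 : κ0 ≤ κ := by linarith
    have h4 : δ ≤ 1 / 2 := by
      rw [hδ]
      nlinarith
    have h5 : ε * (1 + r + δ) ≤ ε * 3 := by
      refine mul_le_mul_of_nonneg_left ?_ hε0.le
      linarith
    have h6 : ε * 3 = r * (1 - κ) / 2 := by rw [hε]; ring
    have h7 : κ0 * (r + δ) ≤ κ0 * r + δ := by nlinarith
    have h8 : κ0 * r ≤ κ * r := mul_le_mul_of_nonneg_right h3 hr0.le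
    have h9 : r - κ * r = 2 * δ := by rw [hδ]; ring
    have h10 : r * (1 - κ) / 2 = δ := hδ.symm
    nlinarith
  have hit : ∀ j : ℕ, HL μ (min κs (j * ε)) := by
    intro j
    induction j with
    | zero =>
      rw [Nat.cast_zero, zero_mul, min_eq_right hs0]
      exact HL_zero
    | succ j ih =>
      rcases le_total κs (j * ε) with h | h
      · rw [min_eq_left h] at ih
        exact HL_mono (min_le_left _ _) ih
      · rw [min_eq_right h] at ih
        refine HL_mono ?_ (hstep _ (by positivity) h ih)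
        refine (min_le_right _ _).trans (le_of_eq ?_)
        push_cast; ring
  obtain ⟨j, hj⟩ := exists_nat_ge (κs / ε)
  have := hit j
  rwa [min_eq_left ((div_le_iff₀ hε0).1 hj)] at this

end Pool.Agent.J4.H91.FPP
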