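import Pool.Agent.J4.H91.FPP.Base

set_option autoImplicit false
open MeasureTheory ProbabilityTheory Filter Set
open scoped ENNReal Topology

/-!
# The law of the environment: shifts, masks, independence (helper91)
-/

namespace Pool.Agent.J4.H91.FPP

open Pool.Agent.N662.FP
open Pool.Agent.N390.FL.TI (sg sg_inj)

instance : IsProbabilityMeasure (expMeasure 1) := isProbabilityMeasure_expMeasure one_pos

instance instCS : Countable (Sym2 V) := inferInstanceAs (Countable (Quot _))

/-- the law of the environment -/
noncomputable def PP : Measure En := Measure.infinitePi (fun _ : Sym2 V => expMeasure 1)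

instance : IsProbabilityMeasure PP := by unfold PP; infer_instance

theorem map_env {Ω : Type} [MeasureSpace Ω] [IsProbabilityMeasure (volume : Measure Ω)]
    {X : Sym2 (ℤ × ℤ) → Ω → ℝ} (hX : Iid X) :
    Measure.map (env X) (volume : Measure Ω) = PP := by
  have h4 := (iIndepFun_iff_map_fun_eq_infinitePi_map hX.meas).1 hX.ind
  show Measure.map (fun ω (e : Sym2 (ℤ × ℤ)) => X e ω) (volume : Measure Ω) = PP
  rw [h4]
  unfold PP
  congr 1
  funext e
  exact hX.law _

theorem env_meas {Ω : Type} [MeasureSpace Ω] {X : Sym2 (ℤ × ℤ) → Ω → ℝ} (hX : Iid X) :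
    Measurable (env X) := measurable_pi_iff.2 fun e => hX.meas e

theorem ind_can : iIndepFun (fun (e : Sym2 V) (x : En) => x e) PP := by
  have h := iIndepFun_iff_map_fun_eq_infinitePi_map (P := PP) (X := fun (e : Sym2 V) (x : En) => x e)
    (fun e => measurable_pi_apply e)
  rw [h]
  have h2 : (fun (x : En) (e : Sym2 V) => x e) = id := rfl
  rw [h2, Measure.map_id]
  unfold PP
  congr 1
  funext e
  exact (Measure.infinitePi_map_eval (fun _ : Sym2 V => expMeasure 1) e).symm

/-- the canonical environment -/
theorem iid_can : @Iid En ⟨PP⟩ (fun e x => x e) := by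
  let _ : MeasureSpace En := ⟨PP⟩
  refine ⟨fun e => measurable_pi_apply e, ind_can, fun e => ?_⟩
  exact Measure.infinitePi_map_eval (fun _ : Sym2 V => expMeasure 1) e

theorem ae_nonneg : ∀ᵐ x ∂PP, ∀ e, 0 ≤ x e := by
  let _ : MeasureSpace En := ⟨PP⟩
  exact cAE En (fun e x => x e) iid_can

/-! ### shifts -/

/-- the shifted environment -/
def shE (a : V) (x : En) : En := fun e => x (sg a e)

theorem shE_meas (a : V) : Measurable (shE a) :=
  measurable_pi_iff.2 fun e => measurable_pi_apply _

theorem shE_map (a : V) : Measure.map (shE a) PP = PP := by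
  have h3 : iIndepFun (fun (e : Sym2 V) (x : En) => x (sg a e)) PP := ind_can.precomp (sg_inj a)
  have h4 := (iIndepFun_iff_map_fun_eq_infinitePi_map (fun e => measurable_pi_apply (sg a e))).1 h3
  show Measure.map (fun (x : En) (e : Sym2 V) => x (sg a e)) PP = PP
  rw [h4]
  conv_rhs => unfold PP
  congr 1
  funext e
  exact Measure.infinitePi_map_eval (fun _ : Sym2 V => expMeasure 1) _

theorem lint_shift (a : V) {f : En → ℝ≥0∞} (hf : Measurable f) :
    ∫⁻ x, f (shE a x) ∂PP = ∫⁻ x, f x ∂PP := by
  rw [← lintegral_map hf (shE_meas a), shE_map]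

theorem prob_shift (a : V) {S : Set En} (hS : MeasurableSet S) :
    PP {x | shE a x ∈ S} = PP S := by
  have := Measure.map_apply (shE_meas a) hS (μ := PP)
  rw [shE_map] at this
  exact this.symm

theorem tm_shift (a : V) (x : En) (n : ℕ) (p : ℕ → V) :
    tm (shE a x) n p = tm x n (fun i => a + p i) := rfl

theorem LE_shift (C : ℕ → (ℕ → V) → Prop) (a : V) (x : En) :
    LE C (shE a x) = LE (fun n p => C n (fun i => p i - a)) x := by
  refine le_antisymm (le_LE fun n p h => ?_) (le_LE fun n p h => ?_)
  · refine (LE_le h (shE a x)).trans (le_of_eq ?_)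
    rw [tm_shift]
    congr 1
    funext i
    exact add_sub_cancel a (p i)
  · rw [tm_shift]
    refine LE_le (C := fun n p => C n (fun i => p i - a)) ?_ x
    have : (fun i => a + p i - a) = p := by funext i; exact add_sub_cancel_left a (p i)
    rw [this]; exact h

theorem stp_sub {n : ℕ} {p : ℕ → V} (a : V) : Stp n (fun i => p i - a) ↔ Stp n p := by
  simp only [Stp, Prod.fst_sub, Prod.snd_sub, sub_sub_sub_cancel_right]

theorem DE_shift (a b : V) (x : En) : DE a b x = DE 0 (b - a) (shE a x) := by
  unfold DE
  rw [LE_shift]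
  congr 1
  funext n p
  simp only [Fu, sub_eq_zero, sub_left_inj, stp_sub]

theorem DE_lint (a b : V) {f : ℝ≥0∞ → ℝ≥0∞} (hf : Measurable f) :
    ∫⁻ x, f (DE a b x) ∂PP = ∫⁻ x, f (DE 0 (b - a) x) ∂PP := by
  simp_rw [DE_shift a b]
  exact lint_shift a (f := fun x => f (DE 0 (b - a) x)) (hf.comp (DE_meas _ _))

theorem DE_prob (a b : V) {S : Set ℝ≥0∞} (hS : MeasurableSet S) :
    PP {x | DE a b x ∈ S} = PP {x | DE 0 (b - a) x ∈ S} := by
  simp_rw [DE_shift a b]
  exact prob_shift a (S := {x | DE 0 (b - a) x ∈ S}) (DE_meas _ _ hS)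

/-! ### masks -/

open Classical in
/-- the environment on the edges of `S` -/
noncomputable def mask (S : Set (Sym2 V)) (x : En) : En := fun e => if e ∈ S then x e else 0

theorem mask_meas (S : Set (Sym2 V)) : Measurable (mask S) := by
  refine measurable_pi_iff.2 fun e => ?_
  by_cases h : e ∈ S
  · simp only [mask, h, if_true]; exact measurable_pi_apply e
  · simp only [mask, h, if_false]; exact measurable_const

theorem mask_of_mem {S : Set (Sym2 V)} {e : Sym2 V} (h : e ∈ S) (x : En) : mask S x e = x e := by
  classical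
  exact if_pos h

theorem tm_mask {S : Set (Sym2 V)} {n : ℕ} {p : ℕ → V} (h : ∀ i < n, s(p i, p (i + 1)) ∈ S)
    (x : En) : tm (mask S x) n p = tm x n p := by
  refine Finset.sum_congr rfl fun i hi => ?_
  rw [mask_of_mem (h i (Finset.mem_range.1 hi))]

theorem mask_indep {S T : Set (Sym2 V)} (h : Disjoint S T) : IndepFun (mask S) (mask T) PP := by
  have h1 := indep_iSup_of_disjoint (m := fun e : Sym2 V =>
    MeasurableSpace.comap (fun x : En => x e) inferInstance)
    (fun e => (measurable_pi_apply e).comap_le) ind_can h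
  have key : ∀ S : Set (Sym2 V), MeasurableSpace.comap (mask S) inferInstance ≤
      ⨆ e ∈ S, MeasurableSpace.comap (fun x : En => x e) inferInstance := by
    intro S
    rw [← measurable_iff_comap_le]
    refine (@measurable_pi_iff _ _ _ (_) _ _).2 fun e => ?_
    by_cases h : e ∈ S
    · simp only [mask, h, if_true]
      refine Measurable.mono ?_ (le_iSup₂_of_le e h le_rfl) le_rfl
      exact comap_measurable _
    · simp only [mask, h, if_false]
      exact measurable_const
  exact indep_of_indep_of_le_left (indep_of_indep_of_le_right h1 (key T)) (key S)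

end Pool.Agent.J4.H91.FPP
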