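import Pool.Agent.J4.H91.FPP.Taper

set_option autoImplicit false
open MeasureTheory ProbabilityTheory Filter Set
open scoped ENNReal Topology

/-!
# Passage times from a point to a line inside a half-plane (helper91)
-/

namespace Pool.Agent.J4.H91.FPP

open Pool.Agent.N662.FP hiding em

variable {μ : Seminorm ℝ (ℝ × ℝ)} {c0 C0 κ A : ℝ}

/-- the lower level of an edge -/
noncomputable def mlv (F : Frame μ) : Sym2 V → ℝ :=
  Sym2.lift ⟨fun a b => min (F.lv a) (F.lv b), fun _ _ => min_comm _ _⟩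

theorem mlv_mk (F : Frame μ) (a b : V) : mlv F s(a, b) = min (F.lv a) (F.lv b) := rfl

theorem LE_mask {C : ℕ → (ℕ → V) → Prop} {S : Set (Sym2 V)}
    (h : ∀ n p, C n p → ∀ i < n, s(p i, p (i + 1)) ∈ S) (x : En) : LE C (mask S x) = LE C x := by
  unfold LE
  refine iInf_congr fun n => iInf_congr fun p => iInf_congr fun hc => ?_
  exact tm_mask (h n p hc) x

/-- point-to-line passage time -/
noncomputable def Lc (F : Frame μ) (h : ℝ) (x : En) : ℝ≥0∞ := LE (Cr F.lv 0 h 0) x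

theorem Lc_meas (F : Frame μ) (h : ℝ) : Measurable (Lc F h) := LE_meas _

theorem Lc_shift (F : Frame μ) (a : V) (h : ℝ) (x : En) :
    LE (Cr F.lv (F.lv a) (F.lv a + h) a) x = Lc F h (shE a x) := by
  unfold Lc
  rw [LE_shift]
  congr 1
  funext n p
  simp only [Cr, sub_eq_zero, stp_sub, F.lv_sub, sub_lt_iff_lt_add', le_sub_iff_add_le, zero_add,
    eq_iff_iff]
  refine and_congr Iff.rfl (and_congr Iff.rfl (and_congr Iff.rfl ?_))
  rw [add_comm]

theorem Lc_le_Rh (hN : Nrm μ c0 C0) (F : Frame μ) (h : ℝ) (x : En) : Lc F h x ≤ Rh C0 F h x := by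
  refine le_LE fun n p hp => ?_
  obtain ⟨m, hm, hc⟩ := exists_cr (l := F.lv) (α := 0) (β := h) hp.2.2.1 hp.2.2.2
    ⟨n, le_rfl, by rw [hp.2.1]; exact (bp_lv hN F h).1⟩
  rw [hp.1] at hc
  exact (LE_le hc x).trans (tm_mono p x hm)

/-- the mean point-to-line passage time is subadditive -/
theorem Lc_sub (F : Frame μ) {h h' : ℝ} (hh : 0 ≤ h) (hh' : 0 ≤ h') :
    ∫⁻ x, Lc F (h + h') x ∂PP ≤ ∫⁻ x, Lc F h x ∂PP + ∫⁻ x, Lc F h' x ∂PP := by
  set S : Set (Sym2 V) := {e | mlv F e < h} with hS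
  have hlow : ∀ n p, Cr F.lv 0 h 0 n p → ∀ i < n, s(p i, p (i + 1)) ∈ S := by
    intro n p hp i hi
    show mlv F s(p i, p (i + 1)) < h
    rw [mlv_mk]
    exact (min_le_left _ _).trans_lt (hp.2.2.1 i hi).2
  have hup : ∀ b : V, h ≤ F.lv b → ∀ n p, Cr F.lv (F.lv b) (F.lv b + h') b n p →
      ∀ i < n, s(p i, p (i + 1)) ∈ Sᶜ := by
    intro b hb n p hp i hi
    show ¬ mlv F s(p i, p (i + 1)) < h
    rw [mlv_mk, not_lt]
    refine le_min (hb.trans (hp.2.2.1 i hi).1) ?_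
    rcases lt_or_eq_of_le (Nat.succ_le_of_lt hi) with h1 | h1
    · exact hb.trans (hp.2.2.1 (i + 1) h1).1
    · have h2 := hp.2.2.2
      rw [← h1] at h2
      exact (by linarith : h ≤ F.lv b + h').trans h2
  set Ψ : En × En → ℝ≥0∞ := fun z => ⨅ (n : ℕ) (p : ℕ → V) (_ : Cr F.lv 0 h 0 n p) (m : ℕ)
    (q : ℕ → V) (_ : Cr F.lv (F.lv (p n)) (F.lv (p n) + h') (p n) m q),
    (tm z.1 n p + tm z.2 m q) with hΨ
  have hΨm : Measurable Ψ := by
    have : UpperSemicontinuous Ψ := by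
      refine upperSemicontinuous_iInf fun n => upperSemicontinuous_iInf fun p =>
        upperSemicontinuous_iInf fun _ => upperSemicontinuous_iInf fun m =>
        upperSemicontinuous_iInf fun q => upperSemicontinuous_iInf fun _ => ?_
      exact (((tm_cont n p).comp continuous_fst).add
        ((tm_cont m q).comp continuous_snd)).upperSemicontinuous
    exact this.measurable
  have h1 : ∀ x, Lc F (h + h') x ≤ Ψ (mask S x, mask Sᶜ x) := by
    intro x
    refine le_iInf fun n => le_iInf fun p => le_iInf fun hp => le_iInf fun m => le_iInf fun q =>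
      le_iInf fun hq => ?_
    have hpn : h ≤ F.lv (p n) := hp.2.2.2
    have e1 : tm (mask S x) n p = tm x n p := tm_mask (hlow n p hp) x
    have e2 : tm (mask Sᶜ x) m q = tm x m q := tm_mask (hup _ hpn m q hq) x
    show _ ≤ tm (mask S x) n p + tm (mask Sᶜ x) m q
    rw [e1, e2]
    have e : p n = q 0 := hq.1.symm
    rw [← tm_cat e]
    have hall : ∀ i ≤ n + m, 0 ≤ F.lv (cat n p q i) := by
      refine cat_forall (P := fun v => 0 ≤ F.lv v) e (fun i hi => ?_) (fun i hi => ?_)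
      · rcases lt_or_eq_of_le hi with h2 | h2
        · exact (hp.2.2.1 i h2).1
        · rw [h2]; linarith
      · rcases lt_or_eq_of_le hi with h2 | h2
        · have := (hq.2.2.1 i h2).1; linarith
        · rw [h2]; have := hq.2.2.2; linarith
    obtain ⟨k, hk, hc⟩ := exists_cr (l := F.lv) (α := 0) (β := h + h') (stp_cat e hp.2.1 hq.2.1)
      hall ⟨n + m, le_rfl, by rw [cat_add e]; have := hq.2.2.2; linarith⟩
    have h0 : cat n p q 0 = 0 := by rw [cat_le (Nat.zero_le _), hp.1]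
    rw [h0] at hc
    exact (LE_le hc x).trans (tm_mono _ x hk)
  have hmS := mask_meas S
  have hmT := mask_meas Sᶜ
  have hind := (indepFun_iff_map_prod_eq_prod_map_map hmS.aemeasurable hmT.aemeasurable).1
    (mask_indep (disjoint_compl_right : Disjoint S Sᶜ))
  have h2 : ∫⁻ x, Ψ (mask S x, mask Sᶜ x) ∂PP =
      ∫⁻ u, ∫⁻ w, Ψ (u, w) ∂(Measure.map (mask Sᶜ) PP) ∂(Measure.map (mask S) PP) := by
    have hp1 : IsProbabilityMeasure (Measure.map (mask Sᶜ) PP) :=
      Measure.isProbabilityMeasure_map hmT.aemeasurable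
    rw [← lintegral_prod _ hΨm.aemeasurable, ← hind, lintegral_map hΨm (hmS.prodMk hmT)]
  have h3 : ∀ u : En, ∫⁻ w, Ψ (u, w) ∂(Measure.map (mask Sᶜ) PP) ≤
      LE (Cr F.lv 0 h 0) u + ∫⁻ x, Lc F h' x ∂PP := by
    intro u
    have hp1 : IsProbabilityMeasure (Measure.map (mask Sᶜ) PP) :=
      Measure.isProbabilityMeasure_map hmT.aemeasurable
    have h4 : ∀ n p, Cr F.lv 0 h 0 n p → ∫⁻ w, Ψ (u, w) ∂(Measure.map (mask Sᶜ) PP) ≤
        tm u n p + ∫⁻ x, Lc F h' x ∂PP := by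
      intro n p hp
      have h5 : ∀ w, Ψ (u, w) ≤ tm u n p +
          LE (Cr F.lv (F.lv (p n)) (F.lv (p n) + h') (p n)) w := by
        intro w
        rw [hΨ]
        refine (iInf_le _ n).trans ((iInf_le _ p).trans ((iInf_le _ hp).trans ?_))
        simp only [LE, ENNReal.add_iInf]
        exact le_rfl
      refine (lintegral_mono h5).trans ?_
      rw [lintegral_add_left measurable_const, lintegral_const, measure_univ, mul_one]
      refine add_le_add le_rfl (le_of_eq ?_)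
      rw [lintegral_map (LE_meas _) hmT]
      have h6 : ∀ x, LE (Cr F.lv (F.lv (p n)) (F.lv (p n) + h') (p n)) (mask Sᶜ x) =
          Lc F h' (shE (p n) x) := by
        intro x
        rw [LE_mask (hup _ hp.2.2.2) x, Lc_shift]
      simp_rw [h6]
      exact lint_shift _ (Lc_meas F h')
    have h7 : LE (Cr F.lv 0 h 0) u + ∫⁻ x, Lc F h' x ∂PP = ⨅ (n : ℕ) (p : ℕ → V)
        (_ : Cr F.lv 0 h 0 n p), (tm u n p + ∫⁻ x, Lc F h' x ∂PP) := by
      simp only [LE, ENNReal.iInf_add]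
    rw [h7]
    exact le_iInf fun n => le_iInf fun p => le_iInf fun hp => h4 n p hp
  refine (lintegral_mono h1).trans ?_
  rw [h2]
  refine (lintegral_mono h3).trans ?_
  have hp2 : IsProbabilityMeasure (Measure.map (mask S) PP) :=
    Measure.isProbabilityMeasure_map hmS.aemeasurable
  rw [lintegral_add_right _ measurable_const, lintegral_const, measure_univ, mul_one]
  refine add_le_add (le_of_eq ?_) le_rfl
  rw [lintegral_map (LE_meas _) hmS]
  refine lintegral_congr fun x => ?_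
  rw [LE_mask hlow x]; rfl

theorem Lc_sub_n (F : Frame μ) {h : ℝ} (hh : 0 ≤ h) (n : ℕ) :
    ∫⁻ x, Lc F ((n + 1 : ℕ) * h) x ∂PP ≤ (n + 1 : ℕ) * ∫⁻ x, Lc F h x ∂PP := by
  induction n with
  | zero => simp
  | succ n ih =>
    have h1 := Lc_sub F (h := (n + 1 : ℕ) * h) (h' := h) (by positivity) hh
    have e : ((n + 1 : ℕ) : ℝ) * h + h = ((n + 1 + 1 : ℕ) : ℝ) * h := by push_cast; ring
    rw [e] at h1
    refine h1.trans ((add_le_add ih le_rfl).trans (le_of_eq ?_))
    push_cast; ring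

/-- lower bound on the good event -/
theorem Lc_good (hN : Nrm μ c0 C0) (F : Frame μ) {H ε : ℝ} (hH : 1 ≤ H) {x : En}
    (hx : Unif μ x ((1 + C0) / c0 * H) (ε * H)) : ENNReal.ofReal ((1 - ε) * H) ≤ Lc F H x := by
  have hC0 : 1 ≤ C0 := hN.Cge
  have hc0 := hN.cpos
  refine le_LE fun n p hp => ?_
  obtain ⟨h0, hs, h1, h2⟩ := hp
  classical
  have hex : ∃ i, H ≤ μ (em (p i)) := ⟨n, h2.trans (F.le _)⟩
  have hi : Nat.find hex ≤ n := Nat.find_min' hex (h2.trans (F.le _))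
  set i := Nat.find hex with hidef
  have hHi : H ≤ μ (em (p i)) := Nat.find_spec hex
  have hi0 : i ≠ 0 := by
    intro h3
    rw [h3, h0, em_zero, map_zero] at hHi
    linarith
  obtain ⟨j, hj⟩ := Nat.exists_eq_succ_of_ne_zero hi0
  have hmj : μ (em (p j)) < H := not_le.1 (Nat.find_min hex (by omega : j < Nat.find hex))
  have hHi2 : μ (em (p i)) ≤ H + C0 := by
    have h3 := mu_step hN (hs j (by omega)) 0
    rw [sub_zero, sub_zero] at h3
    rw [hj]
    linarith
  have hnorm : ‖em (p i)‖ ≤ (1 + C0) / c0 * H := by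
    rw [div_mul_eq_mul_div, le_div_iff₀ hc0, mul_comm]
    refine (hN.lo _).trans ?_
    nlinarith
  have hz : ‖em (0 : V)‖ ≤ (1 + C0) / c0 * H := by
    rw [em_zero, norm_zero]; positivity
  have h4 := (abs_le.1 (hx 0 (p i) hz hnorm)).1
  rw [sub_zero] at h4
  have h5 := DE_le_tm (stp_mono hs hi) x
  rw [h0] at h5
  refine le_trans ?_ (h5.trans (tm_mono p x hi))
  rw [DE_ofReal]
  exact ENNReal.ofReal_le_ofReal (by linarith)

/-- the mean point-to-line passage time is at least the distance -/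
theorem Lc_mean (hN : Nrm μ c0 C0) (hy : Hyp μ κ A) (hκ : 0 < κ) (hκ1 : κ < 1) (F : Frame μ) {h : ℝ}
    (hh : 0 < h) : ENNReal.ofReal h ≤ ∫⁻ x, Lc F h x ∂PP := by
  have hC0 : 1 ≤ C0 := hN.Cge
  have hc0 := hN.cpos
  by_contra hcon
  rw [not_le] at hcon
  set i : ℝ := (∫⁻ x, Lc F h x ∂PP).toReal with hi
  have hine : (∫⁻ x, Lc F h x ∂PP) ≠ ⊤ := (hcon.trans_le le_top).ne
  have hi2 : (∫⁻ x, Lc F h x ∂PP) = ENNReal.ofReal i := (ENNReal.ofReal_toReal hine).symm
  have hi0 : 0 ≤ i := ENNReal.toReal_nonneg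
  have hih : i < h := by
    rw [hi2, ENNReal.ofReal_lt_ofReal_iff hh] at hcon
    exact hcon
  set ε : ℝ := (h - i) / (4 * h) with hε
  have hε0 : 0 < ε := by
    have : 0 < h - i := by linarith
    positivity
  have hε1 : ε ≤ 1 / 4 := by
    rw [hε, div_le_iff₀ (by positivity)]
    linarith
  have hc1 : c0 ≤ C0 := by
    have h1 := hN.lo F.th
    have h2 := hN.hi F.th
    rw [F.mth] at h1 h2
    have h3 : 0 < ‖F.th‖ := by
      by_contra h4
      have : ‖F.th‖ = 0 := le_antisymm (not_lt.1 h4) (norm_nonneg _)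
      rw [this] at h2; linarith
    nlinarith
  obtain ⟨C, hC, hulc⟩ := ulc hN hy hκ hκ1 (ε := ε) (R := (1 + C0) / c0) hε0
    (by rw [le_div_iff₀ hc0]; linarith)
  -- a large multiple
  have hlim : Tendsto (fun n : ℕ => C * (((n + 1 : ℕ) : ℝ) * h) ^ (-κ)) atTop (𝓝 (C * 0)) := by
    refine Tendsto.const_mul C ?_
    have h1 : Tendsto (fun n : ℕ => ((n + 1 : ℕ) : ℝ) * h) atTop atTop :=
      ((tendsto_natCast_atTop_atTop (R := ℝ)).comp (tendsto_add_atTop_nat 1)).atTop_mul_const hh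
    exact (tendsto_rpow_neg_atTop hκ).comp h1
  rw [mul_zero] at hlim
  have hlarge : Tendsto (fun n : ℕ => ((n + 1 : ℕ) : ℝ) * h) atTop atTop :=
    ((tendsto_natCast_atTop_atTop (R := ℝ)).comp (tendsto_add_atTop_nat 1)).atTop_mul_const hh
  obtain ⟨n, hn1, hn2⟩ := ((hlim.eventually (gt_mem_nhds hε0)).and
    (hlarge.eventually_ge_atTop 1)).exists
  set N : ℝ := ((n + 1 : ℕ) : ℝ) with hN'
  have hNpos : 0 < N := by positivity
  have h1 := Lc_sub_n F hh.le n
  have hP : ENNReal.ofReal (1 - ε) ≤ PP {x | Unif μ x ((1 + C0) / c0 * (N * h)) (ε * (N * h))} := by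
    have h2 := hulc (N * h) hn2
    have h3 : PP {x | ¬ Unif μ x ((1 + C0) / c0 * (N * h)) (ε * (N * h))} ≤ ENNReal.ofReal ε :=
      h2.trans (ENNReal.ofReal_le_ofReal hn1.le)
    have h4 := prob_compl_eq_one_sub (μ := PP) (Unif_meas μ ((1 + C0) / c0 * (N * h))
      (ε * (N * h))).compl
    rw [compl_compl] at h4
    rw [h4, ENNReal.ofReal_sub _ hε0.le, ENNReal.ofReal_one]
    exact tsub_le_tsub_left h3 _
  have h2 : ENNReal.ofReal ((1 - ε) * (N * h)) * ENNReal.ofReal (1 - ε) ≤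
      ∫⁻ x, Lc F (N * h) x ∂PP := by
    refine (mul_le_mul_right hP _).trans ?_
    rw [← setLIntegral_const]
    refine (lintegral_mono_set' (Filter.EventuallyLE.refl _ _)).trans ?_
    refine le_trans ?_ (setLIntegral_le_lintegral {x | Unif μ x ((1 + C0) / c0 * (N * h))
      (ε * (N * h))} _)
    exact setLIntegral_mono (Lc_meas F _) fun x hx => Lc_good hN F hn2 hx
  have h3 := h2.trans h1
  rw [hi2, ← ENNReal.ofReal_mul (by have : 0 ≤ 1 - ε := by linarith
                                    positivity), ← ENNReal.ofReal_natCast,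
    ← ENNReal.ofReal_mul (by positivity), ENNReal.ofReal_le_ofReal_iff (by positivity)] at h3
  have h4 : (1 - ε) * (N * h) * (1 - ε) ≤ N * i := h3
  have h5 : N * ((1 - ε) * h * (1 - ε)) ≤ N * i := by linarith
  have h6 := le_of_mul_le_mul_left h5 hNpos
  have h7 : ε * (4 * h) = h - i := by rw [hε]; field_simp
  nlinarith

theorem Lc_lo (hN : Nrm μ c0 C0) (hy : Hyp μ κ A) (hκ1 : κ < 1) {κ' : ℝ}
    (hκ' : 0 < κ') (hκκ : κ' < κ) :
    ∃ B : ℝ, 0 < B ∧ ∀ (F : Frame μ) (h u : ℝ), 1 ≤ h → 0 < u →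
      PP {x | Lc F h x < ENNReal.ofReal (h - u)} ≤ ENNReal.ofReal (B * h ^ (1 - κ') / u) := by
  obtain ⟨B, hB, ht⟩ := taper hN hy hκ1 hκ' hκκ
  refine ⟨B, hB, fun F h u hh hu => ?_⟩
  have h1 : ∫⁻ x, (Lc F h x - ENNReal.ofReal h) ∂PP ≤ ENNReal.ofReal (B * h ^ (1 - κ')) :=
    (lintegral_mono fun x => tsub_le_tsub_right (Lc_le_Rh hN F h x) _).trans (ht F h hh)
  have hm := Lc_mean hN hy (hκ'.trans hκκ) hκ1 F (by linarith : 0 < h)
  have h2 : ∫⁻ x, (ENNReal.ofReal h - Lc F h x) ∂PP ≤ ∫⁻ x, (Lc F h x - ENNReal.ofReal h) ∂PP := by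
    have e1 : ∫⁻ x, Lc F h x ∂PP + ∫⁻ x, (ENNReal.ofReal h - Lc F h x) ∂PP =
        ENNReal.ofReal h + ∫⁻ x, (Lc F h x - ENNReal.ofReal h) ∂PP := by
      rw [← lintegral_add_left (Lc_meas F h)]
      have e3 : ENNReal.ofReal h + ∫⁻ x, (Lc F h x - ENNReal.ofReal h) ∂PP =
          ∫⁻ x, (ENNReal.ofReal h + (Lc F h x - ENNReal.ofReal h)) ∂PP := by
        rw [lintegral_add_left measurable_const, lintegral_const, measure_univ, mul_one]
      rw [e3]
      refine lintegral_congr fun x => ?_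
      rw [add_tsub_eq_max, add_tsub_eq_max, max_comm]
    have e2 : ENNReal.ofReal h + ∫⁻ x, (ENNReal.ofReal h - Lc F h x) ∂PP ≤
        ENNReal.ofReal h + ∫⁻ x, (Lc F h x - ENNReal.ofReal h) ∂PP := by
      rw [← e1]
      exact add_le_add hm le_rfl
    exact (ENNReal.add_le_add_iff_left ENNReal.ofReal_ne_top).1 e2
  have h3 : {x | Lc F h x < ENNReal.ofReal (h - u)} ⊆
      {x | ENNReal.ofReal u ≤ ENNReal.ofReal h - Lc F h x} := by
    intro x hx
    have hx' : Lc F h x < ENNReal.ofReal (h - u) := hx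
    have hpos : 0 < h - u := ENNReal.ofReal_pos.1 (bot_le.trans_lt hx')
    show ENNReal.ofReal u ≤ ENNReal.ofReal h - Lc F h x
    refine le_trans ?_ (tsub_le_tsub_left hx'.le _)
    rw [← ENNReal.ofReal_sub _ hpos.le]
    exact ENNReal.ofReal_le_ofReal (by linarith)
  refine (measure_mono h3).trans ?_
  refine (meas_ge_le_lintegral_div (measurable_const.sub (Lc_meas F h)).aemeasurable
    (ENNReal.ofReal_pos.2 hu).ne' ENNReal.ofReal_ne_top).trans ?_
  rw [ENNReal.ofReal_div_of_pos hu]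
  exact ENNReal.div_le_div_right (h2.trans h1) _

end Pool.Agent.J4.H91.FPP
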