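import Pool.Agent.J4.H91.FPP.Outer

set_option autoImplicit false
open MeasureTheory ProbabilityTheory Filter Set
open scoped ENNReal Topology Pointwise

/-!
# Mean passage times (helper91)
-/

namespace Pool.Agent.J4.H91.FPP

open Pool.Agent.N662.FP hiding em

/-- the mean passage time -/
noncomputable def hh (v : V) : ℝ := ∫ x, dR 0 v x ∂PP

theorem lint_tm (n : ℕ) (p : ℕ → V) : ∫⁻ x, tm x n p ∂PP ≤ ENNReal.ofReal (n * 3) := by
  have h := tm_bad n p (B := univ) MeasurableSet.univ (M := 1) (b := 1) le_rfl zero_le_one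
    (by rw [ENNReal.ofReal_one]; exact prob_le_one)
  rw [Measure.restrict_univ] at h
  refine h.trans (ENNReal.ofReal_le_ofReal ?_)
  refine mul_le_mul_of_nonneg_left ?_ (by positivity)
  have h1 : Real.exp (-1) ≤ 1 / 2 := by
    rw [Real.exp_neg, ← one_div]
    exact one_div_le_one_div_of_le (by norm_num) (by linarith [Real.exp_one_gt_d9])
  linarith

theorem dR_int (a b : V) : Integrable (dR a b) PP := by
  obtain ⟨n, p, h0, h1, h2⟩ := cPATH a b
  refine integrable_toReal_of_lintegral_ne_top (DE_meas a b).aemeasurable ?_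
  have h3 : ∫⁻ x, DE a b x ∂PP ≤ ENNReal.ofReal (n * 3) :=
    (lintegral_mono fun x => LE_le (C := Fu a b) ⟨h0, h1, h2⟩ x).trans (lint_tm n p)
  exact (h3.trans_lt ENNReal.ofReal_lt_top).ne

theorem hh_lint (v : V) : ∫⁻ x, DE 0 v x ∂PP = ENNReal.ofReal (hh v) := by
  unfold hh
  rw [ofReal_integral_eq_lintegral_ofReal (dR_int 0 v) (Eventually.of_forall fun x => dR_nonneg _ _ _)]
  exact lintegral_congr fun x => DE_ofReal _ _ _

theorem hh_nonneg (v : V) : 0 ≤ hh v := integral_nonneg fun x => dR_nonneg _ _ _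

theorem hh_zero : hh 0 = 0 := by
  unfold hh
  have : ∀ x : En, dR 0 0 x = 0 := by
    intro x
    have h1 : DE 0 0 x ≤ tm x 0 (fun _ => (0 : V)) :=
      LE_le (C := Fu 0 0) ⟨rfl, rfl, fun i hi => absurd hi (Nat.not_lt_zero i)⟩ x
    have h2 : tm x 0 (fun _ => (0 : V)) = 0 := by simp [tm]
    rw [h2] at h1
    unfold dR
    rw [le_antisymm h1 bot_le]; rfl
  simp [this]

theorem int_shift (a b : V) : ∫ x, dR a b x ∂PP = hh (b - a) := by
  unfold hh
  have h1 : ∀ x, dR a b x = dR 0 (b - a) (shE a x) := fun x => dR_shift a b x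
  simp_rw [h1]
  have h2 := integral_map (μ := PP) (shE_meas a).aemeasurable
    (f := dR 0 (b - a)) (by rw [shE_map]; exact (dR_meas 0 (b - a)).aestronglyMeasurable)
  rw [shE_map] at h2
  exact h2.symm

theorem hh_sub (a b : V) : hh (a + b) ≤ hh a + hh b := by
  have h1 : ∀ x, dR 0 (a + b) x ≤ dR 0 a x + dR a (a + b) x := fun x => dR_tri 0 a (a + b) x
  have h2 : hh (a + b) ≤ ∫ x, (dR 0 a x + dR a (a + b) x) ∂PP :=
    integral_mono (dR_int _ _) ((dR_int _ _).add (dR_int _ _)) h1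
  rw [integral_add (dR_int _ _) (dR_int _ _), int_shift a (a + b), add_sub_cancel_left] at h2
  exact h2

theorem hh_nsmul (n : ℕ) (a : V) : hh ((n : ℤ) • a) ≤ n * hh a := by
  induction n with
  | zero => simp [hh_zero]
  | succ n ih =>
    have e : ((n + 1 : ℕ) : ℤ) • a = (n : ℤ) • a + a := by
      rw [Nat.cast_succ, add_smul, one_smul]
    rw [e]
    refine (hh_sub _ _).trans ?_
    push_cast
    linarith

section
variable {μ : Seminorm ℝ (ℝ × ℝ)} {c0 C0 κ κ0 A : ℝ}

theorem any_frame (hN : Nrm μ c0 C0) : Nonempty (Frame μ) := by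
  have h1 : 0 < μ (1, 0) := by
    refine lt_of_lt_of_le ?_ (hN.lo (1, 0))
    have e1 : ‖((1 : ℝ), (0 : ℝ))‖ = 1 := by simp [Prod.norm_def]
    rw [e1, mul_one]
    exact hN.cpos
  obtain ⟨F, -⟩ := exists_frame h1
  exact ⟨F⟩

theorem hh_lin (hN : Nrm μ c0 C0) (v : V) : hh v ≤ 6 * ‖em v‖ := by
  obtain ⟨F⟩ := any_frame hN
  obtain ⟨n, p, hp, hn⟩ := lshape F 0 v
  rw [sub_zero] at hn
  have h1 : ENNReal.ofReal (hh v) ≤ ENNReal.ofReal (n * 3) := by
    rw [← hh_lint]
    exact (lintegral_mono fun x => LE_le (C := Fu 0 v) ⟨hp.1, hp.2.1, hp.2.2.1⟩ x).trans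
      (lint_tm n p)
  rw [ENNReal.ofReal_le_ofReal_iff (by positivity)] at h1
  linarith

/-- concentration around the mean -/
structure HV (μ : Seminorm ℝ (ℝ × ℝ)) (κ A : ℝ) : Prop where
  Age : 1 ≤ A
  ge : ∀ v : V, μ (em v) ≤ hh v
  con : ∀ v : V, ∫⁻ x, ENNReal.ofReal |dR 0 v x - hh v| ∂PP ≤
    ENNReal.ofReal (A * (1 + μ (em v)) ^ (1 - κ))
  tail : ∀ (v : V) (s : ℝ), 0 ≤ s → PP {x | hh v + s < dR 0 v x} ≤
    ENNReal.ofReal (3 * Real.exp (-(s / (A * (1 + μ (em v)) ^ (1 - κ)))))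
  lln : ∀ v : V, ∀ᶠ k : ℕ in atTop, hh ((k : ℤ) • v) ≤ k * (μ (em v) + 1)

theorem HV.low (h : HV μ κ A) (a b : V) {s : ℝ} (hs : 0 < s) :
    PP {x | dR a b x < hh (b - a) - s} ≤
      ENNReal.ofReal (A * (1 + μ (em (b - a))) ^ (1 - κ) / s) := by
  have h1 := dR_prob a b (S := Iio (hh (b - a) - s)) measurableSet_Iio
  refine h1.le.trans ?_
  set v := b - a
  have h2 : {x | dR 0 v x ∈ Iio (hh v - s)} ⊆
      {x | ENNReal.ofReal s ≤ ENNReal.ofReal |dR 0 v x - hh v|} := by
    intro x hx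
    have hx' : dR 0 v x < hh v - s := hx
    refine ENNReal.ofReal_le_ofReal ?_
    rw [abs_sub_comm]
    exact le_trans (by linarith) (le_abs_self _)
  refine (measure_mono h2).trans ?_
  have hm : Measurable fun x => ENNReal.ofReal |dR 0 v x - hh v| :=
    (measurable_norm.comp ((dR_meas 0 v).sub_const _)).ennreal_ofReal
  refine (meas_ge_le_lintegral_div hm.aemeasurable
    (ENNReal.ofReal_pos.2 hs).ne' ENNReal.ofReal_ne_top).trans ?_
  rw [ENNReal.ofReal_div_of_pos hs]
  exact ENNReal.div_le_div_right (h.con v) _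

theorem HV.upp (h : HV μ κ A) (a b : V) {s : ℝ} (hs : 0 ≤ s) :
    PP {x | hh (b - a) + s < dR a b x} ≤
      ENNReal.ofReal (3 * Real.exp (-(s / (A * (1 + μ (em (b - a))) ^ (1 - κ))))) := by
  have := dR_prob a b (S := Ioi (hh (b - a) + s)) measurableSet_Ioi
  exact this.le.trans (h.tail (b - a) s hs)

/-- the nonrandom fluctuations at the exponent `κ` -/
def GG (μ : Seminorm ℝ (ℝ × ℝ)) (κ : ℝ) : Prop :=
  ∃ C : ℝ, 0 < C ∧ ∀ v : V, hh v - μ (em v) ≤ C * (1 + μ (em v)) ^ (1 - κ)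

theorem GG_mono {κ1 κ2 : ℝ} (h : κ2 ≤ κ1) (hG : GG μ κ1) : GG μ κ2 := by
  obtain ⟨C, hC, hb⟩ := hG
  refine ⟨C, hC, fun v => (hb v).trans ?_⟩
  have h1 : 0 ≤ μ (em v) := apply_nonneg μ _
  exact mul_le_mul_of_nonneg_left
    (Real.rpow_le_rpow_of_exponent_le (by linarith) (by linarith)) hC.le

theorem to_hyp (h : HV μ κ A) (hG : GG μ κ0) (hκ : κ0 ≤ κ) : ∃ A' : ℝ, Hyp μ κ0 A' := by
  obtain ⟨C, hC, hb⟩ := hG
  have hA := h.Age
  have hpow : ∀ v : V, (1 + μ (em v)) ^ (1 - κ) ≤ (1 + μ (em v)) ^ (1 - κ0) := by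
    intro v
    have h1 : 0 ≤ μ (em v) := apply_nonneg μ _
    exact Real.rpow_le_rpow_of_exponent_le (by linarith) (by linarith)
  have hpos : ∀ v : V, 0 < (1 + μ (em v)) ^ (1 - κ0) := by
    intro v
    have h1 : 0 ≤ μ (em v) := apply_nonneg μ _
    positivity
  refine ⟨2 * A + 2 * C, by linarith, fun v => ?_, fun v => ?_, fun v s hs => ?_⟩
  · have h1 : ∀ x, DE 0 v x - ENNReal.ofReal (μ (em v)) ≤
        ENNReal.ofReal |dR 0 v x - hh v| + ENNReal.ofReal (hh v - μ (em v)) := by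
      intro x
      rw [DE_ofReal, ← ENNReal.ofReal_sub _ (apply_nonneg μ _),
        ← ENNReal.ofReal_add (abs_nonneg _) (sub_nonneg.2 (h.ge v))]
      refine ENNReal.ofReal_le_ofReal ?_
      have := le_abs_self (dR 0 v x - hh v)
      linarith
    refine (lintegral_mono h1).trans ?_
    rw [lintegral_add_right _ measurable_const, lintegral_const, measure_univ, mul_one]
    refine (add_le_add (h.con v) (ENNReal.ofReal_le_ofReal (hb v))).trans ?_
    rw [← ENNReal.ofReal_add (by have := hpos v; positivity) (by have := hpos v; positivity)]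
    refine ENNReal.ofReal_le_ofReal ?_
    have h2 := hpow v
    have h3 := hpos v
    have h4 : A * (1 + μ (em v)) ^ (1 - κ) ≤ A * (1 + μ (em v)) ^ (1 - κ0) := by gcongr
    nlinarith
  · have h1 : ∀ x, ENNReal.ofReal (μ (em v)) - DE 0 v x ≤ ENNReal.ofReal |dR 0 v x - hh v| := by
      intro x
      rw [DE_ofReal, ← ENNReal.ofReal_sub _ (dR_nonneg _ _ _)]
      refine ENNReal.ofReal_le_ofReal ?_
      have h2 := neg_abs_le (dR 0 v x - hh v)
      have h3 := h.ge v
      linarith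
    refine (lintegral_mono h1).trans ((h.con v).trans (ENNReal.ofReal_le_ofReal ?_))
    have h2 := hpow v
    have h3 := hpos v
    have h4 : A * (1 + μ (em v)) ^ (1 - κ) ≤ A * (1 + μ (em v)) ^ (1 - κ0) := by gcongr
    nlinarith
  · have h3 := hpos v
    set P := (1 + μ (em v)) ^ (1 - κ0) with hP
    rcases lt_or_ge s (2 * C * P) with h1 | h1
    · refine prob_le_one.trans ?_
      rw [ENNReal.one_le_ofReal]
      have h2 : s / ((2 * A + 2 * C) * P) ≤ 1 := by
        rw [div_le_one (by positivity)]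
        nlinarith
      have h4 : Real.exp (-1) ≤ Real.exp (-(s / ((2 * A + 2 * C) * P))) :=
        Real.exp_le_exp.2 (neg_le_neg h2)
      have h5 : 1 / 3 ≤ Real.exp (-1) := by
        rw [Real.exp_neg, ← one_div]
        exact one_div_le_one_div_of_le (Real.exp_pos _) (by linarith [Real.exp_one_lt_d9])
      linarith
    · have h2 : {x | μ (em v) + s < dR 0 v x} ⊆ {x | hh v + s / 2 < dR 0 v x} := by
        intro x hx
        have hx' : μ (em v) + s < dR 0 v x := hx
        show hh v + s / 2 < dR 0 v x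
        have := hb v
        rw [← hP] at this
        linarith
      refine (measure_mono h2).trans ((h.tail v (s / 2) (by linarith)).trans
        (ENNReal.ofReal_le_ofReal ?_))
      refine mul_le_mul_of_nonneg_left (Real.exp_le_exp.2 (neg_le_neg ?_)) (by norm_num)
      have h4 : 0 < (1 + μ (em v)) ^ (1 - κ) := by
        have h1 : 0 ≤ μ (em v) := apply_nonneg μ _
        positivity
      rw [div_div]
      refine div_le_div_of_nonneg_left hs (by positivity) ?_
      have h5 := hpow v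
      rw [← hP] at h5
      nlinarith

end

end Pool.Agent.J4.H91.FPP
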