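import Pool.Agent.J4.H91.FPP.Rec

set_option autoImplicit false
open MeasureTheory ProbabilityTheory Filter Set
open scoped ENNReal Topology Pointwise

/-!
# The nonrandom fluctuations (helper91)
-/

namespace Pool.Agent.J4.H91.FPP

open Pool.Agent.N662.FP hiding em

variable {μ : Seminorm ℝ (ℝ × ℝ)} {c0 C0 κ κ1 A : ℝ}

theorem gg_of_rec (hN : Nrm μ c0 C0) (hk0 : 0 < κ1) (hk1 : κ1 < 1) {C2 M1 : ℝ} (hC2 : 1 ≤ C2)
    (hM1 : 1 ≤ M1) (hrec : ∀ v : V, M1 ≤ μ (em v) → ∃ z : V, μ (em z) ≤ μ (em v) / 2 ∧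
      hh v - μ (em v) ≤ C2 * μ (em v) ^ (1 - κ1) + (hh z - μ (em z))) : GG μ κ1 := by
  have hc0 := hN.cpos
  obtain ⟨q, hq⟩ : ∃ q : ℝ, q = ((3 : ℝ) / 4) ^ (1 - κ1) := ⟨_, rfl⟩
  have hq1 : q < 1 := by
    rw [hq]; exact Real.rpow_lt_one (by norm_num) (by norm_num) (by linarith)
  have hq2 : 0 < 1 - q := by linarith
  obtain ⟨C3, hC3⟩ : ∃ C3 : ℝ, C3 = max (6 * M1 / c0) (C2 / (1 - q)) := ⟨_, rfl⟩
  have k1 : 6 * M1 / c0 ≤ C3 := by rw [hC3]; exact le_max_left _ _
  have k2 : C2 ≤ C3 * (1 - q) := by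
    rw [← div_le_iff₀ hq2, hC3]; exact le_max_right _ _
  have k3 : 0 < C3 := lt_of_lt_of_le (by positivity) k1
  have base : ∀ v : V, μ (em v) ≤ M1 → hh v - μ (em v) ≤ C3 * (1 + μ (em v)) ^ (1 - κ1) := by
    intro v hv
    have h0 : 0 ≤ μ (em v) := apply_nonneg μ _
    have h1 := hh_lin hN v
    have h2 : ‖em v‖ ≤ M1 / c0 := by
      rw [le_div_iff₀ hc0, mul_comm]
      exact (hN.lo _).trans hv
    have h3 : 1 ≤ (1 + μ (em v)) ^ (1 - κ1) := Real.one_le_rpow (by linarith) (by linarith)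
    have h4 : C3 * 1 ≤ C3 * (1 + μ (em v)) ^ (1 - κ1) := mul_le_mul_of_nonneg_left h3 k3.le
    have h5 : 6 * (M1 / c0) = 6 * M1 / c0 := by ring
    linarith
  have main : ∀ n : ℕ, ∀ v : V, μ (em v) ≤ 2 ^ n * M1 →
      hh v - μ (em v) ≤ C3 * (1 + μ (em v)) ^ (1 - κ1) := by
    intro n
    induction n with
    | zero => intro v hv; exact base v (by simpa using hv)
    | succ n ih =>
      intro v hv
      rcases le_total (μ (em v)) M1 with h | h
      · exact base v h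
      obtain ⟨z, z1, z2⟩ := hrec v h
      have h0 : 0 ≤ μ (em v) := apply_nonneg μ _
      have hz0 : 0 ≤ μ (em z) := apply_nonneg μ _
      have hzn : μ (em z) ≤ 2 ^ n * M1 := by
        rw [pow_succ] at hv
        linarith
      have h1 := ih z hzn
      have h2 : (1 + μ (em z)) ^ (1 - κ1) ≤ q * (1 + μ (em v)) ^ (1 - κ1) := by
        rw [hq, ← Real.mul_rpow (by norm_num) (by linarith)]
        refine Real.rpow_le_rpow (by linarith) ?_ (by linarith)
        linarith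
      have h3 : μ (em v) ^ (1 - κ1) ≤ (1 + μ (em v)) ^ (1 - κ1) :=
        Real.rpow_le_rpow h0 (by linarith) (by linarith)
      have h4 : 0 ≤ (1 + μ (em v)) ^ (1 - κ1) := by positivity
      have h5 : C3 * (1 + μ (em z)) ^ (1 - κ1) ≤ C3 * (q * (1 + μ (em v)) ^ (1 - κ1)) :=
        mul_le_mul_of_nonneg_left h2 k3.le
      have h6 : C2 * μ (em v) ^ (1 - κ1) ≤ (C3 * (1 - q)) * (1 + μ (em v)) ^ (1 - κ1) :=
        mul_le_mul k2 h3 (by positivity) (by positivity)
      have h7 : C3 * (q * (1 + μ (em v)) ^ (1 - κ1)) + (C3 * (1 - q)) * (1 + μ (em v)) ^ (1 - κ1) =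
        C3 * (1 + μ (em v)) ^ (1 - κ1) := by ring
      linarith
  refine ⟨C3, k3, fun v => ?_⟩
  obtain ⟨n, hn⟩ := pow_unbounded_of_one_lt (μ (em v)) one_lt_two
  refine main n v (hn.le.trans ?_)
  exact le_mul_of_one_le_right (by positivity) hM1

theorem gg_of_sp (hN : Nrm μ c0 C0) (hv : HV μ κ A) (hk0 : 0 < κ1) (hk1 : κ1 < 1)
    (hS : SP μ κ1) : GG μ κ1 := by
  obtain ⟨C2, M1, h1, h2, h3⟩ := rec_step hN hv.ge hv.lln hk0 hk1 hS
  exact gg_of_rec hN hk0 hk1 h1 h2 h3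

/-- the nonrandom fluctuations are controlled at all exponents below that of the random ones -/
theorem GG_all (hN : Nrm μ c0 C0) (hv : HV μ κ A) (hκ0 : 0 < κ) (hκ1 : κ < 1) {κs : ℝ}
    (hs : κs < κ) : GG μ κs := by
  have h3 : GG μ (κ / 3) :=
    gg_of_sp hN hv (by positivity) (by linarith) (spl0 hN hv hκ0 hκ1)
  rcases le_total κs (κ / 3) with h | h
  · exact GG_mono h h3
  have hκs0 : 0 < κs := by linarith
  obtain ⟨δ, hδ⟩ : ∃ δ : ℝ, δ = (κ - κs) / 3 * (1 - κ) := ⟨_, rfl⟩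
  have hδ0 : 0 < δ := by
    rw [hδ]
    exact mul_pos (by linarith) (by linarith)
  have hstep : ∀ x, 0 < x → x ≤ κs → GG μ x → GG μ (x + δ) := by
    intro x hx0 hx1 hG
    have hS := spl1 hN hv hG hx0 (by linarith) hκ1
    have e1 : (κ - κs) / 3 * (1 - κ) ≤ (κ - x) / 3 * (1 - x) :=
      mul_le_mul (by linarith) (by linarith) (by linarith) (by linarith)
    have e2 : (κ - x) / 3 * (1 - x) < 1 * (1 - x) :=
      mul_lt_mul_of_pos_right (by linarith) (by linarith)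
    have e3 : 0 ≤ (κ - x) / 3 * (1 - x) := mul_nonneg (by linarith) (by linarith)
    refine GG_mono ?_ (gg_of_sp hN hv ?_ ?_ hS)
    · rw [hδ]; linarith
    · linarith
    · linarith
  have hit : ∀ j : ℕ, GG μ (min κs (κ / 3 + j * δ)) := by
    intro j
    induction j with
    | zero =>
      rw [Nat.cast_zero, zero_mul, add_zero, min_eq_right h]
      exact h3
    | succ j ih =>
      rcases le_total κs (κ / 3 + j * δ) with h' | h'
      · rw [min_eq_left h'] at ih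
        exact GG_mono (min_le_left _ _) ih
      · rw [min_eq_right h'] at ih
        refine GG_mono ?_ (hstep _ (by positivity) h' ih)
        refine (min_le_right _ _).trans (le_of_eq ?_)
        push_cast; ring
  obtain ⟨j, hj⟩ := exists_nat_ge (κs / δ)
  have := hit j
  rwa [min_eq_left] at this
  have h5 := (div_le_iff₀ hδ0).1 hj
  have h6 : 0 < κ / 3 := by positivity
  linarith

end Pool.Agent.J4.H91.FPP
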