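import Pool.Agent.J4.H91.FPP.Trans

set_option autoImplicit false
open MeasureTheory ProbabilityTheory Filter Set
open scoped ENNReal Topology Pointwise

/-!
# The outer event and the equivalences (helper91)
-/

namespace Pool.Agent.J4.H91.FPP

open Pool.Agent.N662.FP hiding em

/-- the outer event: the fattened cluster is not inside `(1 + t ^ (-κ)) t` times the limit shape -/
def Out {Ω : Type} (T : Ω → ℤ × ℤ → ℝ) (μ : Seminorm ℝ (ℝ × ℝ)) (κ t : ℝ) : Set Ω :=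
  {ω | ¬ (Fat (T ω) t ⊆ ((1 + t ^ (-κ)) * t) • {x : ℝ × ℝ | μ x ≤ 1})}

theorem str {b b' c : ℝ} (hb : 0 < b) (hbb : b < b') (hc : 0 < c) {C : ℝ} (hC : 0 < C) :
    ∃ C' : ℝ, 0 < C' ∧ ∀ n : ℝ, 0 ≤ n →
      C * Real.exp (-(c * (1 + n) ^ b')) ≤ C' * Real.exp (-(n ^ b)) := by
  obtain ⟨n0, hn0⟩ := eventually_atTop.1 (exp_dom hb hbb hc hC 0)
  refine ⟨max 1 (C * Real.exp ((max n0 0) ^ b)), lt_max_of_lt_left one_pos, fun n hn => ?_⟩
  have hE := Real.exp_pos (-(n ^ b))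
  rcases le_or_gt n0 n with h | h
  · have h1 := hn0 n h
    rw [pow_zero, mul_one] at h1
    have h2 : Real.exp (-(c * (1 + n) ^ b')) ≤ Real.exp (-(c * n ^ b')) := by
      refine Real.exp_le_exp.2 (neg_le_neg (mul_le_mul_of_nonneg_left ?_ hc.le))
      exact Real.rpow_le_rpow hn (by linarith) (by linarith)
    calc C * Real.exp (-(c * (1 + n) ^ b')) ≤ C * Real.exp (-(c * n ^ b')) := by gcongr
      _ ≤ 1 * Real.exp (-(n ^ b)) := by rw [one_mul]; exact h1
      _ ≤ _ := mul_le_mul_of_nonneg_right (le_max_left _ _) hE.le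
  · have h1 : n ^ b ≤ (max n0 0) ^ b := Real.rpow_le_rpow hn (h.le.trans (le_max_left _ _)) hb.le
    have h2 : 1 ≤ Real.exp ((max n0 0) ^ b) * Real.exp (-(n ^ b)) := by
      rw [← Real.exp_add]
      exact Real.one_le_exp (by linarith)
    have h3 : Real.exp (-(c * (1 + n) ^ b')) ≤ 1 := by
      rw [Real.exp_le_one_iff]
      have : 0 ≤ c * (1 + n) ^ b' := by positivity
      linarith
    calc C * Real.exp (-(c * (1 + n) ^ b')) ≤ C * 1 := by gcongr
      _ ≤ C * (Real.exp ((max n0 0) ^ b) * Real.exp (-(n ^ b))) := by gcongr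
      _ = (C * Real.exp ((max n0 0) ^ b)) * Real.exp (-(n ^ b)) := by ring
      _ ≤ _ := mul_le_mul_of_nonneg_right (le_max_right _ _) hE.le

section
variable {Ω : Type} [MeasureSpace Ω] [IsProbabilityMeasure (volume : Measure Ω)]
  {X : Sym2 (ℤ × ℤ) → Ω → ℝ} {μ : Seminorm ℝ (ℝ × ℝ)} {c0 C0 κ A : ℝ}

theorem real_le {S : Set Ω} {q : ℝ} (hq : 0 ≤ q)
    (h : (volume : Measure Ω) S ≤ ENNReal.ofReal q) : (volume : Measure Ω).real S ≤ q := by
  unfold Measure.real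
  exact ENNReal.toReal_le_of_le_ofReal hq h

/-- the outer event -/
theorem out_of_hyp (hX : Iid X) (hN : Nrm μ c0 C0) (hy : Hyp μ κ A) (hκ1 : κ < 1) {κ' : ℝ}
    (h0' : 0 < κ') (h1' : κ' < κ) : ∃ c : ℝ, 0 < c ∧ ∀ᶠ t : ℝ in atTop,
      (volume : Measure Ω).real (Out (fun ω v => D (env X ω) 0 v) μ κ' t) ≤
        Real.exp (-(t ^ c)) := by
  have hHL := HL_all hN hy hκ1 linLow (κs := (κ' + κ) / 2) (by linarith) (by linarith)
  obtain ⟨c, hc, hev⟩ := out_prob hN hHL (by linarith) h0' (by linarith)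
  refine ⟨c, hc, ?_⟩
  filter_upwards [hev, eventually_gt_atTop (0 : ℝ)] with t ht ht0
  refine real_le (Real.exp_pos _).le (le_trans (measure_mono_ae ?_) ((tr_le hX _).trans ht))
  filter_upwards [cAE Ω X hX] with ω hω hout
  have hC0 := hN.Cge
  have hout' : ¬ (Fat (fun v => D (env X ω) 0 v) t ⊆
      ((1 + t ^ (-κ')) * t) • {x : ℝ × ℝ | μ x ≤ 1}) := hout
  rw [Set.not_subset] at hout'
  obtain ⟨x, ⟨v, hv, hx1, hx2⟩, hx⟩ := hout'
  have hr0 : 0 < (1 + t ^ (-κ')) * t := by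
    have : 0 < t ^ (-κ') := Real.rpow_pos_of_pos ht0 _
    positivity
  have hrt : (1 + t ^ (-κ')) * t = t + t ^ (1 - κ') := by
    rw [add_mul, one_mul]
    congr 1
    rw [← Real.rpow_add_one ht0.ne']
    congr 1; ring
  have h1 : (1 + t ^ (-κ')) * t < μ x := by
    by_contra hcon
    rw [not_lt] at hcon
    apply hx
    rw [Set.mem_smul_set_iff_inv_smul_mem₀ hr0.ne']
    show μ (((1 + t ^ (-κ')) * t)⁻¹ • x) ≤ 1
    rw [map_smul_eq_mul, Real.norm_eq_abs, abs_of_pos (inv_pos.2 hr0), inv_mul_le_iff₀ hr0, mul_one]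
    exact hcon
  refine ⟨v, ?_, ?_⟩
  · show dR 0 v (env X ω) ≤ t
    rw [dR_eq hω]; exact hv
  · have h2 : μ x ≤ μ (em v) + μ (x - em v) := by
      have := map_add_le_add μ (em v) (x - em v)
      rwa [add_sub_cancel] at this
    have h3 : μ (x - em v) ≤ C0 := by
      refine (hN.hi _).trans ?_
      have h4 : ‖x - em v‖ ≤ 1 := by
        rw [Prod.norm_def]
        refine max_le ?_ ?_
        · show ‖x.1 - (v.1 : ℝ)‖ ≤ 1
          rw [Real.norm_eq_abs]; linarith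
        · show ‖x.2 - (v.2 : ℝ)‖ ≤ 1
          rw [Real.norm_eq_abs]; linarith
      nlinarith
    rw [hrt] at h1
    linarith

/-- the lower tail at one point -/
theorem low_of_hyp (hX : Iid X) (hN : Nrm μ c0 C0) (hy : Hyp μ κ A) (hκ1 : κ < 1) {κ' : ℝ}
    (h0' : 0 ≤ κ') (h1' : κ' < κ) : ∃ c A' : ℝ, 0 < c ∧ 0 < A' ∧ ∀ v : V,
      (volume : Measure Ω).real
        {ω | D (env X ω) 0 v ≤ μ (em v) - A' * (1 + μ (em v)) ^ (1 - κ')} ≤
        A' * Real.exp (-(μ (em v) ^ c)) := by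
  obtain ⟨b, C, hb, hC, hbd⟩ := HL_all hN hy hκ1 linLow h1' h0'
  refine ⟨b, 2 * C, hb, by positivity, fun v => ?_⟩
  have hE := Real.exp_pos (-(μ (em v) ^ b))
  refine (real_le (by positivity) (le_trans (measure_mono_ae ?_) ((tr_le hX _).trans (hbd v)))).trans
    ?_
  · filter_upwards [cAE Ω X hX] with ω hω h
    have h2 : D (env X ω) 0 v ≤ μ (em v) - 2 * C * (1 + μ (em v)) ^ (1 - κ') := h
    show dR 0 v (env X ω) < μ (em v) - C * (1 + μ (em v)) ^ (1 - κ')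
    rw [dR_eq hω]
    have h3 : 0 < (1 + μ (em v)) ^ (1 - κ') := by
      have : 0 ≤ μ (em v) := apply_nonneg μ _
      positivity
    nlinarith
  · nlinarith

/-- the upper tail at one point -/
theorem upp_of_hyp (hX : Iid X) (hy : Hyp μ κ A) {κ' : ℝ} (h1' : κ' < κ) :
    ∃ c A' : ℝ, 0 < c ∧ 0 < A' ∧ ∀ v : V,
      (volume : Measure Ω).real
        {ω | μ (em v) + A' * (1 + μ (em v)) ^ (1 - κ') ≤ D (env X ω) 0 v} ≤
        A' * Real.exp (-(μ (em v) ^ c)) := by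
  have hA := hy.Age
  obtain ⟨C', hC', hstr⟩ := str (b := (κ - κ') / 2) (b' := κ - κ') (c := 1 / A) (by linarith)
    (by linarith) (by positivity) (C := 3) (by norm_num)
  refine ⟨(κ - κ') / 2, 2 + C', by linarith, by positivity, fun v => ?_⟩
  set n := μ (em v) with hn
  have hn0 : 0 ≤ n := apply_nonneg μ _
  have hE := Real.exp_pos (-(n ^ ((κ - κ') / 2)))
  have h3 : 0 < (1 + n) ^ (1 - κ') := by positivity
  have ht := hy.tail v ((1 + n) ^ (1 - κ')) h3.le
  refine (real_le (by positivity) (le_trans (measure_mono_ae ?_) ((tr_le hX _).trans ht))).trans ?_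
  · filter_upwards [cAE Ω X hX] with ω hω h
    have h2 : n + (2 + C') * (1 + n) ^ (1 - κ') ≤ D (env X ω) 0 v := h
    show n + (1 + n) ^ (1 - κ') < dR 0 v (env X ω)
    rw [dR_eq hω]
    nlinarith
  · have h4 : (1 + n) ^ (1 - κ') / (A * (1 + n) ^ (1 - κ)) = 1 / A * (1 + n) ^ (κ - κ') := by
      have h5 : (1 + n) ^ (1 - κ') = (1 + n) ^ (κ - κ') * (1 + n) ^ (1 - κ) := by
        rw [← Real.rpow_add (by positivity)]; congr 1; ring
      have h6 : 0 < (1 + n) ^ (1 - κ) := by positivity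
      rw [h5]; field_simp
    rw [h4]
    refine (hstr n hn0).trans ?_
    nlinarith

/-- both tails -/
theorem two_of_hyp (hX : Iid X) (hN : Nrm μ c0 C0) (hy : Hyp μ κ A) (hκ1 : κ < 1) {κ' : ℝ}
    (h0' : 0 < κ') (h1' : κ' < κ) : ∃ c A' : ℝ, 0 < c ∧ 0 < A' ∧ ∀ v : V,
      (volume : Measure Ω).real
        {ω | A' * (1 + μ (em v)) ^ (1 - κ') ≤ |D (env X ω) 0 v - μ (em v)|} ≤
        A' * Real.exp (-(μ (em v) ^ c)) := by
  obtain ⟨c1, A1, hc1, hA1, h1⟩ := low_of_hyp hX hN hy hκ1 h0'.le h1'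
  obtain ⟨c2, A2, hc2, hA2, h2⟩ := upp_of_hyp hX hy h1'
  set c := min c1 c2 with hc
  have hc0 : 0 < c := lt_min hc1 hc2
  refine ⟨c, 3 * (A1 + A2), hc0, by positivity, fun v => ?_⟩
  set n := μ (em v) with hn
  have hn0 : 0 ≤ n := apply_nonneg μ _
  have h3 : 0 < (1 + n) ^ (1 - κ') := by positivity
  have hexp : ∀ c' : ℝ, 0 < c' → c ≤ c' → Real.exp (-(n ^ c')) ≤ 3 * Real.exp (-(n ^ c)) := by
    intro c' hc' hcc
    rcases le_or_gt 1 n with h | h
    · have h4 : n ^ c ≤ n ^ c' := Real.rpow_le_rpow_of_exponent_le h hcc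
      have h5 := Real.exp_le_exp.2 (neg_le_neg h4)
      have h6 := Real.exp_pos (-(n ^ c))
      linarith
    · have h4 : n ^ c ≤ 1 := Real.rpow_le_one hn0 h.le hc0.le
      have h5 : Real.exp (-(n ^ c')) ≤ 1 := by
        rw [Real.exp_le_one_iff]
        have : 0 ≤ n ^ c' := by positivity
        linarith
      have h6 : Real.exp (-1) ≤ Real.exp (-(n ^ c)) := Real.exp_le_exp.2 (neg_le_neg h4)
      have h7 : 1 / 3 ≤ Real.exp (-1) := by
        rw [Real.exp_neg, ← one_div]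
        exact one_div_le_one_div_of_le (Real.exp_pos _) (by linarith [Real.exp_one_lt_d9])
      linarith
  have hsub : {ω | 3 * (A1 + A2) * (1 + n) ^ (1 - κ') ≤ |D (env X ω) 0 v - n|} ⊆
      {ω | D (env X ω) 0 v ≤ n - A1 * (1 + n) ^ (1 - κ')} ∪
      {ω | n + A2 * (1 + n) ^ (1 - κ') ≤ D (env X ω) 0 v} := by
    intro ω hω
    have h4 : 3 * (A1 + A2) * (1 + n) ^ (1 - κ') ≤ |D (env X ω) 0 v - n| := hω
    have h5 : 0 < A1 * (1 + n) ^ (1 - κ') := by positivity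
    have h6 : 0 < A2 * (1 + n) ^ (1 - κ') := by positivity
    have h7 : 3 * (A1 + A2) * (1 + n) ^ (1 - κ') =
      3 * (A1 * (1 + n) ^ (1 - κ')) + 3 * (A2 * (1 + n) ^ (1 - κ')) := by ring
    rcases le_total 0 (D (env X ω) 0 v - n) with h | h
    · right
      rw [abs_of_nonneg h] at h4
      show n + A2 * (1 + n) ^ (1 - κ') ≤ D (env X ω) 0 v
      linarith
    · left
      rw [abs_of_nonpos h] at h4
      show D (env X ω) 0 v ≤ n - A1 * (1 + n) ^ (1 - κ')
      linarith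
  refine (measureReal_mono hsub (measure_ne_top _ _)).trans ((measureReal_union_le _ _).trans
    ((add_le_add (h1 v) (h2 v)).trans ?_))
  have h4 := hexp c1 hc1 (min_le_left _ _)
  have h5 := hexp c2 hc2 (min_le_right _ _)
  have h6 : A1 * Real.exp (-(n ^ c1)) ≤ A1 * (3 * Real.exp (-(n ^ c))) := by gcongr
  have h7 : A2 * Real.exp (-(n ^ c2)) ≤ A2 * (3 * Real.exp (-(n ^ c))) := by gcongr
  rw [← hn]
  linarith

/-- the equivalences for all exponents below `K` -/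
theorem tfae2 (hX : Iid X) (hG : Good (fun ω v => D (env X ω) 0 v) μ) (K : ℝ) (hK1 : K < 1) :
    List.TFAE [
      ∀ κ : ℝ, 0 < κ → κ < K → ∃ e : ℝ, e < Real.exp (-1) ∧
        ∀ᶠ t : ℝ in atTop, (volume : Measure Ω).real
          (Pool.Agent.N662.FP.Bad (fun ω v => D (env X ω) 0 v) μ κ t) ≤ e,
      ∀ κ : ℝ, 0 < κ → κ < K → ∀ q : ℝ, 0 < q →
        Asymptotics.IsBigO atTop (fun t : ℝ => (volume : Measure Ω).real
          (Out (fun ω v => D (env X ω) 0 v) μ κ t)) (fun t : ℝ => t ^ (-q)) ∧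
        Asymptotics.IsBigO atTop (fun t : ℝ => (volume : Measure Ω).real
          (Pool.Agent.N662.FP.Bad (fun ω v => D (env X ω) 0 v) μ κ t)) (fun t : ℝ => t ^ (-q)),
      ∀ κ : ℝ, 0 < κ → κ < K → ∃ c : ℝ, 0 < c ∧ ∀ᶠ t : ℝ in atTop,
        (volume : Measure Ω).real (Out (fun ω v => D (env X ω) 0 v) μ κ t) ≤ Real.exp (-(t ^ c)) ∧
        (volume : Measure Ω).real
          (Pool.Agent.N662.FP.Bad (fun ω v => D (env X ω) 0 v) μ κ t) ≤ Real.exp (-(t ^ c)),
      ∀ κ : ℝ, 0 < κ → κ < K → ∃ e : ℝ, e < Real.exp (-1) ∧ ∃ A : ℝ, 0 < A ∧ ∀ v : ℤ × ℤ,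
        (volume : Measure Ω).real
          {ω | μ (em v) + A * (1 + μ (em v)) ^ (1 - κ) ≤ D (env X ω) 0 v} ≤ e,
      ∀ κ : ℝ, 0 < κ → κ < K → ∃ c A : ℝ, 0 < c ∧ 0 < A ∧ ∀ v : ℤ × ℤ,
        (volume : Measure Ω).real
          {ω | A * (1 + μ (em v)) ^ (1 - κ) ≤ |D (env X ω) 0 v - μ (em v)|} ≤
          A * Real.exp (-(μ (em v) ^ c)),
      ∀ κ : ℝ, 0 < κ → κ < K → ∃ A : ℝ, ∀ v : ℤ × ℤ,
        ∫ ω, |D (env X ω) 0 v - μ (em v)| ∂(volume : Measure Ω) ≤
          A * (1 + μ (em v)) ^ (1 - κ)] := by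
  obtain ⟨c0, C0, hN⟩ := nrm_of μ hG.norm
  have hold := tfae cNORM cDD2 cEE hG K hK1
  have o14 := hold.out 0 3
  have o34 := hold.out 2 3
  have o45 := hold.out 3 4
  have o46 := hold.out 3 5
  tfae_have 1 ↔ 4 := o14
  tfae_have 4 ↔ 6 := o45
  tfae_have 4 → 3 := by
    intro h κ h0 h1
    obtain ⟨c1, hc1, e1⟩ := o34.2 h κ h0 h1
    obtain ⟨e, he, A, hA, hA2⟩ := h ((κ + K) / 2) (by linarith) (by linarith)
    obtain ⟨A', hy⟩ := mk_hyp hX hG he hA hA2
    obtain ⟨c2, hc2, e2⟩ := out_of_hyp hX hN hy (by linarith) h0 (by linarith)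
    refine ⟨min c1 c2, lt_min hc1 hc2, ?_⟩
    filter_upwards [e1, e2, eventually_ge_atTop (1 : ℝ)] with t t1 t2 t3
    refine ⟨t2.trans (Real.exp_le_exp.2 (neg_le_neg ?_)),
      t1.trans (Real.exp_le_exp.2 (neg_le_neg ?_))⟩
    · exact Real.rpow_le_rpow_of_exponent_le t3 (min_le_right _ _)
    · exact Real.rpow_le_rpow_of_exponent_le t3 (min_le_left _ _)
  tfae_have 3 → 2 := by
    intro h κ h0 h1 q hq
    obtain ⟨c, hc, hcc⟩ := h κ h0 h1
    constructor
    · refine (Asymptotics.IsBigO.of_bound 1 ?_).trans (exp_O c q hc)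
      filter_upwards [hcc] with t ht
      rw [Real.norm_of_nonneg measureReal_nonneg, Real.norm_of_nonneg (Real.exp_pos _).le, one_mul]
      exact ht.1
    · refine (Asymptotics.IsBigO.of_bound 1 ?_).trans (exp_O c q hc)
      filter_upwards [hcc] with t ht
      rw [Real.norm_of_nonneg measureReal_nonneg, Real.norm_of_nonneg (Real.exp_pos _).le, one_mul]
      exact ht.2
  tfae_have 2 → 1 := by
    intro h κ h0 h1
    refine ⟨1 / 8, eighth, ?_⟩
    have h2 := (h κ h0 h1 1 one_pos).2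
    have h3 : Tendsto (fun t : ℝ => t ^ (-(1 : ℝ))) atTop (𝓝 0) := tendsto_rpow_neg_atTop one_pos
    have h4 := h2.trans_tendsto h3
    have h5 := h4.eventually (gt_mem_nhds (by norm_num : (0 : ℝ) < 1 / 8))
    filter_upwards [h5] with t ht
    exact ht.le
  tfae_have 4 → 5 := by
    intro h κ h0 h1
    obtain ⟨e, he, A, hA, hA2⟩ := h ((κ + K) / 2) (by linarith) (by linarith)
    obtain ⟨A', hy⟩ := mk_hyp hX hG he hA hA2
    exact two_of_hyp hX hN hy (by linarith) h0 (by linarith)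
  tfae_have 5 → 4 := by
    intro h
    refine o46.2 ?_
    intro κ h0 h1 ε hε
    obtain ⟨c, A, hc, hA, hA2⟩ := h ((κ + K) / 2) (by linarith) (by linarith)
    have ht := tends cNORM μ hG.norm
    have h2 : Tendsto (fun v : ℤ × ℤ => A * Real.exp (-(μ (em v) ^ c))) cofinite (𝓝 0) := by
      have h3 : Tendsto (fun v : ℤ × ℤ => Real.exp (-(μ (em v) ^ c))) cofinite (𝓝 0) :=
        Real.tendsto_exp_neg_atTop_nhds_zero.comp ((tendsto_rpow_atTop hc).comp ht)
      simpa using h3.const_mul A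
    have h3 : ∀ᶠ v : ℤ × ℤ in cofinite, A * (1 + μ (em v)) ^ (1 - (κ + K) / 2) ≤
        ε * (1 + μ (em v)) ^ (1 - κ) := by
      have h4 : Tendsto (fun v : ℤ × ℤ => (1 + μ (em v)) ^ (-((K - κ) / 2))) cofinite (𝓝 0) :=
        (tendsto_rpow_neg_atTop (by linarith : 0 < (K - κ) / 2)).comp
          (tendsto_atTop_add_const_left _ _ ht)
      filter_upwards [h4.eventually (gt_mem_nhds (by positivity : 0 < ε / A))] with v hv
      have hm : 0 < 1 + μ (em v) := by have := apply_nonneg μ (em v); linarith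
      have h5 : (1 + μ (em v)) ^ (1 - (κ + K) / 2) =
          (1 + μ (em v)) ^ (-((K - κ) / 2)) * (1 + μ (em v)) ^ (1 - κ) := by
        rw [← Real.rpow_add hm]; congr 1; ring
      have h6 : 0 < (1 + μ (em v)) ^ (1 - κ) := by positivity
      rw [h5, ← mul_assoc]
      refine mul_le_mul_of_nonneg_right ?_ h6.le
      rw [lt_div_iff₀ hA] at hv
      linarith
    refine squeeze_zero' (Eventually.of_forall fun v => measureReal_nonneg) ?_ h2
    filter_upwards [h3] with v hv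
    refine (measureReal_mono ?_ (measure_ne_top _ _)).trans (hA2 v)
    intro ω hω
    exact hv.trans hω
  tfae_finish

end

end Pool.Agent.J4.H91.FPP
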