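import Pool.Agent.J4.H91.FPP.Tree

set_option autoImplicit false
open MeasureTheory ProbabilityTheory Filter Set
open scoped ENNReal Topology Pointwise

/-!
# The recursion for the nonrandom fluctuations (helper91)
-/

namespace Pool.Agent.J4.H91.FPP

open Pool.Agent.N662.FP hiding em

variable {μ : Seminorm ℝ (ℝ × ℝ)} {c0 C0 κ κ1 A : ℝ}

theorem em_zsmul (n : ℕ) (w : V) : em ((n : ℤ) • w) = (n : ℝ) • em w := by
  ext
  · simp [em_def]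
  · simp [em_def]

theorem Frame.lv_zsmul (F : Frame μ) (n : ℕ) (w : V) : F.lv ((n : ℤ) • w) = n * F.lv w := by
  unfold Frame.lv
  rw [em_zsmul, map_smul, smul_eq_mul]

theorem fin_step (hN : Nrm μ c0 C0) (hge : ∀ v : V, μ (em v) ≤ hh v) (F : Frame μ) {v w1 w2 : V}
    {M a b T G : ℝ} (hM : 0 < M) (hv : em v = M • F.th) (ha : 0 ≤ a) (hb : 0 ≤ b)
    (hab : a + b = 1) (h1 : M / 32 ≤ F.lv w1) (h1' : F.lv w1 ≤ M / 8) (h2 : M / 32 ≤ F.lv w2)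
    (h2' : F.lv w2 ≤ M / 8) (hT : |a * F.h (em w1) + b * F.h (em w2)| ≤ T)
    (hG : a * (hh w1 - F.lv w1) + b * (hh w2 - F.lv w2) ≤ G) :
    ∃ z : V, μ (em z) ≤ C0 * (32 * T * C0) + M / 4 + 32 * G ∧
      hh v - M ≤ 64 * G + C0 * (32 * T * C0) + (hh z - μ (em z)) := by
  have hC0 := hN.Cge
  have hT0 : 0 ≤ T := (abs_nonneg _).trans hT
  have hf1 : 0 ≤ hh w1 - F.lv w1 := sub_nonneg.2 ((F.le _).trans (hge w1))
  have hf2 : 0 ≤ hh w2 - F.lv w2 := sub_nonneg.2 ((F.le _).trans (hge w2))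
  obtain ⟨L, hL⟩ : ∃ L, L = a * F.lv w1 + b * F.lv w2 := ⟨_, rfl⟩
  have hL1 : M / 32 ≤ L := by
    have e1 : a * (M / 32) ≤ a * F.lv w1 := mul_le_mul_of_nonneg_left h1 ha
    have e2 : b * (M / 32) ≤ b * F.lv w2 := mul_le_mul_of_nonneg_left h2 hb
    have e3 : a * (M / 32) + b * (M / 32) = M / 32 := by rw [← add_mul, hab, one_mul]
    linarith
  have hL0 : 0 < L := by linarith
  obtain ⟨al, hal⟩ : ∃ al, al = M / L := ⟨_, rfl⟩
  have hal0 : 0 < al := by rw [hal]; positivity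
  have hal2 : al ≤ 32 := by rw [hal, div_le_iff₀ hL0]; linarith
  have halL : al * L = M := by rw [hal]; field_simp
  obtain ⟨p, hp⟩ : ∃ p, p = al * a := ⟨_, rfl⟩
  obtain ⟨q, hq⟩ : ∃ q, q = al * b := ⟨_, rfl⟩
  have hp0 : 0 ≤ p := by rw [hp]; positivity
  have hq0 : 0 ≤ q := by rw [hq]; positivity
  have hG0 : 0 ≤ a * (hh w1 - F.lv w1) + b * (hh w2 - F.lv w2) :=
    add_nonneg (mul_nonneg ha hf1) (mul_nonneg hb hf2)
  have hpq : p * (hh w1 - F.lv w1) + q * (hh w2 - F.lv w2) ≤ 32 * G := by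
    have e : p * (hh w1 - F.lv w1) + q * (hh w2 - F.lv w2) =
        al * (a * (hh w1 - F.lv w1) + b * (hh w2 - F.lv w2)) := by rw [hp, hq]; ring
    rw [e]
    exact mul_le_mul hal2 hG hG0 (by norm_num)
  have hlvpq : p * F.lv w1 + q * F.lv w2 = M := by
    rw [← halL, hL, hp, hq]; ring
  obtain ⟨D, hD⟩ : ∃ D, D = em v - (p • em w1 + q • em w2) := ⟨_, rfl⟩
  have hD2 : D = (-(al * (a * F.h (em w1) + b * F.h (em w2)))) • F.ta := by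
    have d1 := F.decomp (em w1)
    have d2 := F.decomp (em w2)
    have f1 : F.l (em w1) = F.lv w1 := rfl
    have f2 : F.l (em w2) = F.lv w2 := rfl
    rw [f1] at d1
    rw [f2] at d2
    have d3 : p • em w1 + q • em w2 = (p * F.lv w1 + q * F.lv w2) • F.th +
        (p * F.h (em w1) + q * F.h (em w2)) • F.ta := by
      conv_lhs => rw [d1, d2]
      module
    rw [hD, hv, d3, hlvpq, hp, hq]
    module
  have hDl : F.l D = 0 := by rw [hD2, map_smul, F.l_ta, smul_zero]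
  have hDn : ‖D‖ ≤ 32 * T * C0 := by
    rw [hD2, norm_smul, Real.norm_eq_abs, abs_neg, abs_mul, abs_of_pos hal0]
    exact mul_le_mul (mul_le_mul hal2 hT (abs_nonneg _) (by norm_num)) (F.ta_norm hN)
      (norm_nonneg _) (by positivity)
  have hDm : μ D ≤ C0 * (32 * T * C0) :=
    (hN.hi D).trans (mul_le_mul_of_nonneg_left hDn (by linarith))
  obtain ⟨n1, hn1⟩ : ∃ n1 : ℕ, n1 = ⌊p⌋₊ := ⟨_, rfl⟩
  obtain ⟨n2, hn2⟩ : ∃ n2 : ℕ, n2 = ⌊q⌋₊ := ⟨_, rfl⟩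
  have p1 : (n1 : ℝ) ≤ p := by rw [hn1]; exact Nat.floor_le hp0
  have p2 : p - n1 ≤ 1 := by rw [hn1]; linarith [Nat.lt_floor_add_one p]
  have q1 : (n2 : ℝ) ≤ q := by rw [hn2]; exact Nat.floor_le hq0
  have q2 : q - n2 ≤ 1 := by rw [hn2]; linarith [Nat.lt_floor_add_one q]
  have n10 : (0 : ℝ) ≤ n1 := Nat.cast_nonneg _
  have n20 : (0 : ℝ) ≤ n2 := Nat.cast_nonneg _
  obtain ⟨z, hz⟩ : ∃ z : V, z = v - (n1 : ℤ) • w1 - (n2 : ℤ) • w2 := ⟨_, rfl⟩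
  have hzv : v = (z + (n1 : ℤ) • w1) + (n2 : ℤ) • w2 := by rw [hz]; abel
  have hem : em z = D + ((p - n1) • em w1 + (q - n2) • em w2) := by
    rw [hz, em_sub, em_sub, em_zsmul, em_zsmul, hD]
    module
  have hlz : F.lv z = (p - n1) * F.lv w1 + (q - n2) * F.lv w2 := by
    show F.l (em z) = _
    rw [hem, map_add, map_add, map_smul, map_smul, hDl, zero_add]
    rfl
  have hmz : μ (em z) ≤ C0 * (32 * T * C0) + ((p - n1) * hh w1 + (q - n2) * hh w2) := by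
    rw [hem]
    refine (map_add_le_add μ _ _).trans (add_le_add hDm ((map_add_le_add μ _ _).trans ?_))
    rw [map_smul_eq_mul, map_smul_eq_mul, Real.norm_eq_abs, Real.norm_eq_abs,
      abs_of_nonneg (sub_nonneg.2 p1), abs_of_nonneg (sub_nonneg.2 q1)]
    exact add_le_add (mul_le_mul_of_nonneg_left (hge w1) (sub_nonneg.2 p1))
      (mul_le_mul_of_nonneg_left (hge w2) (sub_nonneg.2 q1))
  have k1 : (p - n1) * (hh w1 - F.lv w1) ≤ p * (hh w1 - F.lv w1) :=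
    mul_le_mul_of_nonneg_right (by linarith) hf1
  have k2 : (q - n2) * (hh w2 - F.lv w2) ≤ q * (hh w2 - F.lv w2) :=
    mul_le_mul_of_nonneg_right (by linarith) hf2
  have k3 : (p - n1) * F.lv w1 ≤ M / 8 := by
    calc (p - n1) * F.lv w1 ≤ 1 * F.lv w1 := mul_le_mul_of_nonneg_right p2 (by linarith)
      _ ≤ M / 8 := by linarith
  have k4 : (q - n2) * F.lv w2 ≤ M / 8 := by
    calc (q - n2) * F.lv w2 ≤ 1 * F.lv w2 := mul_le_mul_of_nonneg_right q2 (by linarith)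
      _ ≤ M / 8 := by linarith
  have k5 : (n1 : ℝ) * (hh w1 - F.lv w1) ≤ p * (hh w1 - F.lv w1) :=
    mul_le_mul_of_nonneg_right p1 hf1
  have k6 : (n2 : ℝ) * (hh w2 - F.lv w2) ≤ q * (hh w2 - F.lv w2) :=
    mul_le_mul_of_nonneg_right q1 hf2
  have k7 : hh v ≤ hh z + n1 * hh w1 + n2 * hh w2 := by
    conv_lhs => rw [hzv]
    refine (hh_sub _ _).trans (add_le_add ((hh_sub _ _).trans (add_le_add le_rfl ?_)) ?_)
    · exact hh_nsmul n1 w1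
    · exact hh_nsmul n2 w2
  have e1 : (p - n1) * (hh w1 - F.lv w1) = (p - n1) * hh w1 - (p - n1) * F.lv w1 := by ring
  have e2 : (q - n2) * (hh w2 - F.lv w2) = (q - n2) * hh w2 - (q - n2) * F.lv w2 := by ring
  have e3 : (n1 : ℝ) * (hh w1 - F.lv w1) = n1 * hh w1 - n1 * F.lv w1 := by ring
  have e4 : (n2 : ℝ) * (hh w2 - F.lv w2) = n2 * hh w2 - n2 * F.lv w2 := by ring
  have e5 : (p - n1) * F.lv w1 = p * F.lv w1 - n1 * F.lv w1 := by ring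
  have e6 : (q - n2) * F.lv w2 = q * F.lv w2 - n2 * F.lv w2 := by ring
  refine ⟨z, ?_, ?_⟩
  · linarith
  · linarith

theorem tree_pair (hN : Nrm μ c0 C0) (hge : ∀ v : V, μ (em v) ≤ hh v) (F : Frame μ) {v : V}
    {M u C m0 n : ℝ} (hM : M = 32 * n) (hv : em v = M • F.th)
    (hlln : ∀ᶠ k : ℕ in atTop, hh ((k : ℤ) • v) ≤ k * (M + 1))
    (hk0 : 0 < κ1) (hk1 : κ1 < 1) (hu0 : 0 < u) (hu1 : u ≤ 1) (hC : 1 ≤ C) (hm0 : 1 ≤ m0)
    {ρ : ℝ → ℝ} (hρ : ∀ s, 1 ≤ s → 0 ≤ ρ s ∧ ρ s ≤ s ^ (-u))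
    (hsp : ∀ (w : V) (s : ℝ), m0 ≤ s → s ≤ F.lv w → F.lv w ≤ 4 * s → ∃ w1 w2 : V,
      ‖em w1 + em w2 - (1 + ρ s) • em w‖ ≤ C ∧
      |F.lv w1 - (1 + ρ s) * F.lv w / 2| ≤ C ∧ |F.lv w2 - (1 + ρ s) * F.lv w / 2| ≤ C ∧
      (hh w1 - F.lv w1) + (hh w2 - F.lv w2) ≤
        (1 + C * s ^ (-u)) * (hh w - F.lv w) + C * s ^ (1 - κ1))
    (hn : m0 ≤ n) (hn2 : 2 * C ≤ n)
    (hsg : (4 + 2 * C) * (n ^ (-u) * (1 / (1 - 2 ^ (-u)))) ≤ 2) :
    ∃ (w1 w2 : V) (a b : ℝ), 0 ≤ a ∧ 0 ≤ b ∧ a + b = 1 ∧ n ≤ F.lv w1 ∧ F.lv w1 ≤ 4 * n ∧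
      n ≤ F.lv w2 ∧ F.lv w2 ≤ 4 * n ∧ |a * F.h (em w1) + b * F.h (em w2)| ≤ 6 * C / c0 ∧
      a * (hh w1 - F.lv w1) + b * (hh w2 - F.lv w2) ≤
        3 * (1 + C * (1 / (1 - 2 ^ (-κ1)))) * n ^ (1 - κ1) := by
  have hn1 : 1 ≤ n := hm0.trans hn
  have hn0 : 0 < n := by linarith
  have hc0 := hN.cpos
  obtain ⟨k0, hk0'⟩ := eventually_atTop.1 hlln
  obtain ⟨K, hK⟩ : ∃ K : ℕ, k0 ≤ 2 ^ K := ⟨k0, Nat.lt_two_pow_self.le⟩
  obtain ⟨W, hW⟩ : ∃ W : V, W = ((2 ^ K : ℕ) : ℤ) • v := ⟨_, rfl⟩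
  have hWh : hh W ≤ 2 ^ K * (M + 1) := by
    have := hk0' _ hK
    rw [hW]
    push_cast at this ⊢
    exact this
  have hlvv : F.lv v = M := by
    show F.l (em v) = M
    rw [hv, map_smul, F.lth, smul_eq_mul, mul_one]
  have hWl : F.lv W = 2 ^ K * M := by
    rw [hW, F.lv_zsmul, hlvv]; push_cast; ring
  obtain ⟨J, hJ⟩ : ∃ J : ℕ, J = K + 4 := ⟨_, rfl⟩
  have h2J : (2 : ℝ) ^ J = 16 * 2 ^ K := by rw [hJ, pow_add]; norm_num; ring
  have h2K : (1 : ℝ) ≤ 2 ^ K := one_le_pow₀ one_le_two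
  have hWl2 : F.lv W = 2 * (2 ^ J * n) := by rw [hWl, h2J, hM]; ring
  have hsgle := sg_le hn0 hu0 J
  have hsg0 := sg_nonneg hn0 u J
  have hsgb : (4 + 2 * C) * sg n u J ≤ 2 :=
    (mul_le_mul_of_nonneg_left hsgle (by linarith)).trans hsg
  have hsg1 : C * sg n u J ≤ 1 := by
    have : (4 + 2 * C) * sg n u J = 4 * sg n u J + 2 * (C * sg n u J) := by ring
    linarith
  have hsg2 : sg n u J ≤ 1 := by
    have : 1 * sg n u J ≤ C * sg n u J := mul_le_mul_of_nonneg_right hC hsg0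
    linarith
  have hJn : 0 < (2 : ℝ) ^ J * n := by positivity
  obtain ⟨ι, _, w, c1, c2, c3, c4⟩ := tree (κ1 := κ1) hu1 hC hm0 hρ F
    (fun v => (F.le _).trans (hge v)) hsp hn hn2 J W (by
      rw [hWl2]
      have e1 : (2 : ℝ) ^ J * (2 * C) ≤ 2 ^ J * n := mul_le_mul_of_nonneg_left hn2 (by positivity)
      have e2 : (2 : ℝ) ^ J * (n + 2 * C) = 2 ^ J * n + 2 ^ J * (2 * C) := by ring
      linarith) (by
      rw [hWl2]
      have e1 : (2 : ℝ) ^ J * n * ((4 + 2 * C) * sg n u J) ≤ 2 ^ J * n * 2 :=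
        mul_le_mul_of_nonneg_left hsgb hJn.le
      have e2 : (2 : ℝ) ^ J * n * (4 - (4 + 2 * C) * sg n u J) =
        4 * (2 ^ J * n) - 2 ^ J * n * ((4 + 2 * C) * sg n u J) := by ring
      linarith)
  have hcard : (Fintype.card ι : ℝ) = 2 ^ J := by rw [c1]; push_cast; rfl
  have hcard0 : (0 : ℝ) < 2 ^ J := by positivity
  have hne : Nonempty ι := by
    rw [← Fintype.card_pos_iff, c1]; positivity
  have hexp3 : Real.exp 1 ≤ 3 := by linarith [Real.exp_one_lt_d9]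
  obtain ⟨S, hS⟩ : ∃ S : ℝ × ℝ, S = ∑ i, em (w i) := ⟨_, rfl⟩
  obtain ⟨tb, htb⟩ : ∃ tb : ℝ, tb = F.h S / 2 ^ J := ⟨_, rfl⟩
  have hhS : |F.h S| ≤ 6 * C / c0 * 2 ^ J := by
    obtain ⟨c, hc⟩ : ∃ c : ℝ, c = ∏ i ∈ Finset.range J, (1 + ρ (2 ^ (i + 1) * n)) := ⟨_, rfl⟩
    rw [← hc, ← hS] at c3
    have e1 : F.h (c • em W) = 0 := by
      rw [hW, em_zsmul, hv, smul_smul, smul_smul, F.h_smul, F.h_th, mul_zero]
    have e2 : F.h S = F.h (S - c • em W) := by rw [F.h_sub, e1, sub_zero]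
    rw [e2]
    refine (F.h_abs hN _).trans ?_
    have e3 : C * Real.exp (sg n u J) * (2 ^ J - 1) ≤ C * 3 * 2 ^ J := by
      have e4 : Real.exp (sg n u J) ≤ 3 := (Real.exp_le_exp.2 hsg2).trans hexp3
      have e5 : C * Real.exp (sg n u J) ≤ C * 3 := mul_le_mul_of_nonneg_left e4 (by linarith)
      have e6 : (1 : ℝ) ≤ 2 ^ J := one_le_pow₀ one_le_two
      exact mul_le_mul e5 (by linarith) (by linarith) (by linarith)
    calc 2 / c0 * ‖S - c • em W‖ ≤ 2 / c0 * (C * 3 * 2 ^ J) :=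
          mul_le_mul_of_nonneg_left (c3.trans e3) (by positivity)
      _ = 6 * C / c0 * 2 ^ J := by ring
  have htb1 : |tb| ≤ 6 * C / c0 := by
    rw [htb, abs_div, abs_of_pos hcard0, div_le_iff₀ hcard0]
    exact hhS
  obtain ⟨G, hG⟩ : ∃ G : ℝ, G = 3 * (1 + C * (1 / (1 - 2 ^ (-κ1)))) * n ^ (1 - κ1) := ⟨_, rfl⟩
  have hr : (2 : ℝ) ^ (-κ1) < 1 := Real.rpow_lt_one_of_one_lt_of_neg one_lt_two (by linarith)
  have hr1 : 0 < 1 / (1 - (2 : ℝ) ^ (-κ1)) := by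
    have : 0 < 1 - (2 : ℝ) ^ (-κ1) := by linarith
    positivity
  have hnk : 1 ≤ n ^ (1 - κ1) := Real.one_le_rpow hn1 (by linarith)
  have hsum : ∑ i, (hh (w i) - F.lv (w i)) ≤ Fintype.card ι * G := by
    rw [hcard]
    refine c4.trans ?_
    have e1 : hh W - F.lv W ≤ 2 ^ J * 1 := by
      rw [hWl, h2J]
      have : (2 : ℝ) ^ K * (M + 1) = 2 ^ K * M + 2 ^ K := by ring
      linarith
    have e2 := geo_sum hk0 J
    have e3 : C * n ^ (1 - κ1) * ∑ i ∈ Finset.range J, ((2 : ℝ) ^ (i + 1)) ^ (-κ1) ≤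
        C * n ^ (1 - κ1) * (1 / (1 - 2 ^ (-κ1))) :=
      mul_le_mul_of_nonneg_left e2 (by positivity)
    have e4 : (2 : ℝ) ^ J * (C * n ^ (1 - κ1) * ∑ i ∈ Finset.range J, ((2 : ℝ) ^ (i + 1)) ^ (-κ1)) ≤
        2 ^ J * (C * n ^ (1 - κ1) * (1 / (1 - 2 ^ (-κ1)))) :=
      mul_le_mul_of_nonneg_left e3 hcard0.le
    have e5 : (hh W - F.lv W) + 2 ^ J * (C * n ^ (1 - κ1) *
        ∑ i ∈ Finset.range J, ((2 : ℝ) ^ (i + 1)) ^ (-κ1)) ≤
        2 ^ J * ((1 + C * (1 / (1 - 2 ^ (-κ1)))) * n ^ (1 - κ1)) := by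
      have e6 : (2 : ℝ) ^ J * ((1 + C * (1 / (1 - 2 ^ (-κ1)))) * n ^ (1 - κ1)) =
        2 ^ J * n ^ (1 - κ1) + 2 ^ J * (C * n ^ (1 - κ1) * (1 / (1 - 2 ^ (-κ1)))) := by ring
      have e7 : (2 : ℝ) ^ J * 1 ≤ 2 ^ J * n ^ (1 - κ1) := mul_le_mul_of_nonneg_left hnk hcard0.le
      rw [e6]
      linarith
    have e8 : 0 ≤ (2 : ℝ) ^ J * ((1 + C * (1 / (1 - 2 ^ (-κ1)))) * n ^ (1 - κ1)) := by positivity
    calc _ ≤ Real.exp (C * sg n u J) * (2 ^ J * ((1 + C * (1 / (1 - 2 ^ (-κ1)))) * n ^ (1 - κ1))) :=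
          mul_le_mul_of_nonneg_left e5 (Real.exp_pos _).le
      _ ≤ 3 * (2 ^ J * ((1 + C * (1 / (1 - 2 ^ (-κ1)))) * n ^ (1 - κ1))) :=
          mul_le_mul_of_nonneg_right ((Real.exp_le_exp.2 hsg1).trans hexp3) e8
      _ = 2 ^ J * G := by rw [hG]; ring
  obtain ⟨i, j, a, b, ha, hb, hab, hτ, hf⟩ := pair (fun i => F.h (em (w i)) - tb)
    (fun i => hh (w i) - F.lv (w i)) G (by
      rw [Finset.sum_sub_distrib, ← F.h_sum, ← hS, Finset.sum_const, Finset.card_univ,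
        nsmul_eq_mul, hcard, htb]
      field_simp
      ring) hsum
  refine ⟨w i, w j, a, b, ha, hb, hab, (c2 i).1, (c2 i).2, (c2 j).1, (c2 j).2, ?_, ?_⟩
  · have e : a * F.h (em (w i)) + b * F.h (em (w j)) = tb := by
      have e1 : a * (F.h (em (w i)) - tb) + b * (F.h (em (w j)) - tb) = 0 := hτ
      have e2 : (a + b) * tb = tb := by rw [hab, one_mul]
      linear_combination e1 + e2
    rw [e]
    exact htb1
  · rw [← hG]
    exact hf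

theorem rec_step (hN : Nrm μ c0 C0) (hge : ∀ v : V, μ (em v) ≤ hh v)
    (hlln : ∀ v : V, ∀ᶠ k : ℕ in atTop, hh ((k : ℤ) • v) ≤ k * (μ (em v) + 1))
    (hk0 : 0 < κ1) (hk1 : κ1 < 1) (hS : SP μ κ1) :
    ∃ C2 M1 : ℝ, 1 ≤ C2 ∧ 1 ≤ M1 ∧ ∀ v : V, M1 ≤ μ (em v) → ∃ z : V,
      μ (em z) ≤ μ (em v) / 2 ∧
      hh v - μ (em v) ≤ C2 * μ (em v) ^ (1 - κ1) + (hh z - μ (em z)) := by
  obtain ⟨u0, C, m0, hu0, hC, hm0, ρ, hρ, hsp⟩ := hS
  have hc0 := hN.cpos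
  have hC0 := hN.Cge
  obtain ⟨u, hu⟩ : ∃ u : ℝ, u = min u0 1 := ⟨_, rfl⟩
  have hu1 : u ≤ 1 := by rw [hu]; exact min_le_right _ _
  have huu : u ≤ u0 := by rw [hu]; exact min_le_left _ _
  have hupos : 0 < u := by rw [hu]; exact lt_min hu0 one_pos
  obtain ⟨G0, hG0⟩ : ∃ G0 : ℝ, G0 = 3 * (1 + C * (1 / (1 - 2 ^ (-κ1)))) := ⟨_, rfl⟩
  have hr : (2 : ℝ) ^ (-κ1) < 1 := Real.rpow_lt_one_of_one_lt_of_neg one_lt_two (by linarith)
  have hr1 : 0 < 1 / (1 - (2 : ℝ) ^ (-κ1)) := by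
    have : 0 < 1 - (2 : ℝ) ^ (-κ1) := by linarith
    positivity
  have hG1 : 0 < G0 := by rw [hG0]; positivity
  obtain ⟨C5, hC5⟩ : ∃ C5 : ℝ, C5 = C0 * (32 * (6 * C / c0) * C0) := ⟨_, rfl⟩
  have hC5' : 0 < C5 := by rw [hC5]; positivity
  have ev1 : ∀ᶠ n : ℝ in atTop, (4 + 2 * C) * (1 / (1 - 2 ^ (-u))) * n ^ (-u) ≤ 2 :=
    ev_neg hupos _ two_pos
  have ev2 : ∀ᶠ n : ℝ in atTop, (32 * G0) * n ^ (-κ1) ≤ 1 := ev_neg hk0 _ one_pos
  have ev3 : ∀ᶠ n : ℝ in atTop, max m0 (max (2 * C) C5) ≤ n := eventually_ge_atTop _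
  obtain ⟨N1, hN1⟩ := eventually_atTop.1 (ev1.and (ev2.and ev3))
  refine ⟨64 * G0 + C5 + 1, 32 * max N1 1, by linarith, by
    have := le_max_right N1 1
    linarith, fun v hvM => ?_⟩
  obtain ⟨M, hM⟩ : ∃ M : ℝ, M = μ (em v) := ⟨_, rfl⟩
  rw [← hM] at hvM ⊢
  obtain ⟨n, hn⟩ : ∃ n : ℝ, n = M / 32 := ⟨_, rfl⟩
  have hMn : M = 32 * n := by rw [hn]; ring
  have hnN : N1 ≤ n := by
    have := le_max_left N1 1
    linarith
  have hn1 : 1 ≤ n := by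
    have := le_max_right N1 1
    linarith
  have hn0 : 0 < n := by linarith
  have hM0 : 0 < M := by linarith
  obtain ⟨v1, v2, v3⟩ := hN1 n hnN
  have v4 : m0 ≤ n := (le_max_left _ _).trans v3
  have v5 : 2 * C ≤ n := ((le_max_left _ _).trans (le_max_right _ _)).trans v3
  have v6 : C5 ≤ n := ((le_max_right _ _).trans (le_max_right _ _)).trans v3
  obtain ⟨F, hF⟩ := exists_frame (μ := μ) (x := em v) (by rw [← hM]; exact hM0)
  rw [← hM] at hF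
  have hv : em v = M • F.th := by
    rw [hF, smul_smul, mul_inv_cancel₀ hM0.ne', one_smul]
  have hl := hlln v
  rw [← hM] at hl
  obtain ⟨w1, w2, a, b, ha, hb, hab, b1, b2, b3, b4, b5, b6⟩ := tree_pair (u := u) (C := C)
    (m0 := m0) (ρ := ρ) (κ1 := κ1) hN hge F hMn hv hl hk0 hk1 hupos hu1 hC hm0
    (fun s hs => ⟨(hρ s hs).1, (hρ s hs).2.trans
      (Real.rpow_le_rpow_of_exponent_le hs (by linarith))⟩)
    (fun w s h1 h2 h3 => by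
      obtain ⟨w1, w2, a1, a2, a3, a4⟩ := hsp F w s h1 h2 h3
      refine ⟨w1, w2, a1, a2, a3, a4.trans ?_⟩
      have hs1 : 1 ≤ s := hm0.trans h1
      have h4 : s ^ (-u0) ≤ s ^ (-u) := Real.rpow_le_rpow_of_exponent_le hs1 (by linarith)
      have h5 : C * s ^ (-u0) ≤ C * s ^ (-u) := mul_le_mul_of_nonneg_left h4 (by linarith)
      have h6 : 0 ≤ hh w - F.lv w := sub_nonneg.2 ((F.le _).trans (hge w))
      have h7 : (1 + C * s ^ (-u0)) * (hh w - F.lv w) ≤ (1 + C * s ^ (-u)) * (hh w - F.lv w) :=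
        mul_le_mul_of_nonneg_right (by linarith) h6
      linarith)
    v4 v5 (by
      have e : (4 + 2 * C) * (n ^ (-u) * (1 / (1 - 2 ^ (-u)))) =
        (4 + 2 * C) * (1 / (1 - 2 ^ (-u))) * n ^ (-u) := by ring
      rw [e]
      exact v1)
  rw [← hG0] at b6
  obtain ⟨z, z1, z2⟩ := fin_step hN hge F hM0 hv ha hb hab (by linarith) (by linarith)
    (by linarith) (by linarith) b5 b6
  rw [← hC5] at z1 z2
  have hnk : n ^ (1 - κ1) = n * n ^ (-κ1) := by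
    rw [show (1 : ℝ) - κ1 = 1 + -κ1 by ring, Real.rpow_add hn0, Real.rpow_one]
  refine ⟨z, ?_, ?_⟩
  · have e1 : 32 * (G0 * n ^ (1 - κ1)) ≤ n * 1 := by
      rw [hnk]
      calc 32 * (G0 * (n * n ^ (-κ1))) = n * ((32 * G0) * n ^ (-κ1)) := by ring
        _ ≤ n * 1 := mul_le_mul_of_nonneg_left v2 hn0.le
    linarith
  · have e1 : n ^ (1 - κ1) ≤ M ^ (1 - κ1) :=
      Real.rpow_le_rpow hn0.le (by linarith) (by linarith)
    have e2 : 1 ≤ M ^ (1 - κ1) := Real.one_le_rpow (by linarith) (by linarith)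
    have e3 : 64 * (G0 * n ^ (1 - κ1)) ≤ 64 * G0 * M ^ (1 - κ1) := by
      calc 64 * (G0 * n ^ (1 - κ1)) = (64 * G0) * n ^ (1 - κ1) := by ring
        _ ≤ (64 * G0) * M ^ (1 - κ1) := mul_le_mul_of_nonneg_left e1 (by linarith)
    have e4 : C5 ≤ C5 * M ^ (1 - κ1) := le_mul_of_one_le_right hC5'.le e2
    have e5 : (64 * G0 + C5 + 1) * M ^ (1 - κ1) =
      64 * G0 * M ^ (1 - κ1) + C5 * M ^ (1 - κ1) + M ^ (1 - κ1) := by ring
    linarith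

end Pool.Agent.J4.H91.FPP
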