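import Pool.Agent.J4.H91.FPP.Cell
import Pool.Agent.J4.H91.FPP.Chain

set_option autoImplicit false
open MeasureTheory ProbabilityTheory Filter Set
open scoped ENNReal Topology

/-!
# Rows, bad cells and the decomposition of a path (helper91)
-/

namespace Pool.Agent.J4.H91.FPP

open Pool.Agent.N662.FP hiding em

variable {μ : Seminorm ℝ (ℝ × ℝ)} {c0 C0 κ A : ℝ}

/-- the number of the cell of a lattice point -/
noncomputable def cn (F : Frame μ) (w : ℝ) (a : V) : ℤ := ⌊F.h (em a) / w⌋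

/-- a fast crossing of the row `i` starts in the cell `c` -/
def Bad (F : Frame μ) (C0 m w y : ℝ) (i : ℕ) (c : ℤ) : Set En :=
  {x | ∃ n p, (Cr F.lv (i * m) ((i + 1) * m) (p 0) n p ∧ F.lv (p 0) < i * m + C0 ∧
    cn F w (p 0) = c) ∧ tm x n p < ENNReal.ofReal (m - y)}

theorem Bad_meas (F : Frame μ) (C0 m w y : ℝ) (i : ℕ) (c : ℤ) :
    MeasurableSet (Bad F C0 m w y i c) :=
  (ev_open (fun n p => Cr F.lv (i * m) ((i + 1) * m) (p 0) n p ∧ F.lv (p 0) < i * m + C0 ∧
    cn F w (p 0) = c) _).measurableSet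

/-- the edges of a row -/
def RS (F : Frame μ) (m : ℝ) (i : ℕ) : Set (Sym2 V) := {e | i * m ≤ mlv F e ∧ mlv F e < (i + 1) * m}

theorem RS_disj (F : Frame μ) {m : ℝ} (hm : 0 < m) (i j : ℕ) (hij : i ≠ j) :
    Disjoint (RS F m i) (RS F m j) := by
  rw [Set.disjoint_left]
  rintro e ⟨h1, h2⟩ ⟨h3, h4⟩
  have key : ∀ a b : ℕ, (a : ℝ) * m ≤ mlv F e → mlv F e < (b + 1) * m → a ≤ b := by
    intro a b ha hb
    have h5 : (a : ℝ) * m < (b + 1) * m := ha.trans_lt hb
    have h6 : (a : ℝ) < b + 1 := lt_of_mul_lt_mul_right h5 hm.le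
    have h7 : a < b + 1 := by exact_mod_cast h6
    omega
  exact hij (le_antisymm (key i j h1 h4) (key j i h3 h2))

theorem Cr_edges (F : Frame μ) {α β : ℝ} (hαβ : α ≤ β) {a : V} {n : ℕ} {p : ℕ → V}
    (h : Cr F.lv α β a n p) : ∀ i < n, α ≤ mlv F s(p i, p (i + 1)) ∧ mlv F s(p i, p (i + 1)) < β := by
  intro i hi
  rw [mlv_mk]
  refine ⟨le_min (h.2.2.1 i hi).1 ?_, (min_le_left _ _).trans_lt (h.2.2.1 i hi).2⟩
  rcases lt_or_eq_of_le (Nat.succ_le_of_lt hi) with h1 | h1
  · exact (h.2.2.1 (i + 1) h1).1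
  · have h2 := h.2.2.2
    rw [← h1] at h2
    exact hαβ.trans h2

theorem Bad_loc (F : Frame μ) {m : ℝ} (hm : 0 < m) (w y : ℝ) (i : ℕ) (c : ℤ) (x z : En)
    (hxz : ∀ e ∈ RS F m i, x e = z e) (hx : x ∈ Bad F C0 m w y i c) : z ∈ Bad F C0 m w y i c := by
  obtain ⟨n, p, h1, h2⟩ := hx
  refine ⟨n, p, h1, ?_⟩
  have h3 : tm z n p = tm x n p := by
    refine Finset.sum_congr rfl fun j hj => ?_
    rw [hxz _ (Cr_edges F (by nlinarith) h1.1 j (Finset.mem_range.1 hj))]
  rw [h3]; exact h2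

theorem Bad_incl (hN : Nrm μ c0 C0) (F : Frame μ) {m w y wp wm : ℝ} (hw : w = wp + wm)
    (hwp : 0 < wp) (hwm : 0 < wm)
    (hprof : ∀ s : ℝ, -wm ≤ s → s ≤ wp → μ (m • F.th + s • F.ta) ≤ m + y / 8)
    (hm : C0 ≤ m) (i : ℕ) (c : ℤ) :
    ∃ z : V, Bad F C0 m w y i c ⊆ {x | shE z x ∈ CB F m (4 * C0) y} := by
  have hC0 := hN.Cge
  have hw0 : 0 < w := by rw [hw]; positivity
  set Z : ℝ × ℝ := (((i : ℝ) - 1) * m) • F.th + (c * w + wm) • F.ta with hZ
  set z : V := rnd Z with hz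
  have hzn : ‖em z - Z‖ ≤ 1 := rnd_norm Z
  have hzm : μ (em z - Z) ≤ C0 := rnd_mu hN Z
  have hlZ : F.l Z = ((i : ℝ) - 1) * m := by
    rw [hZ, map_add, map_smul, map_smul, F.lth, F.l_ta]; simp
  have hlz : |F.lv z - ((i : ℝ) - 1) * m| ≤ C0 := by
    have h1 := F.l_abs hN (em z - Z)
    rw [map_sub, hlZ] at h1
    refine h1.trans ?_
    nlinarith
  rw [abs_le] at hlz
  refine ⟨z, ?_⟩
  rintro x ⟨n, p, ⟨hcr, hp0, hcn⟩, ht⟩
  have hlow : ∀ j ≤ n, (i : ℝ) * m ≤ F.lv (p j) := by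
    intro j hj
    rcases lt_or_eq_of_le hj with h1 | h1
    · exact (hcr.2.2.1 j h1).1
    · rw [h1]
      have := hcr.2.2.2
      nlinarith
  refine ⟨n, fun j => p j - z, ⟨(stp_sub z).2 hcr.2.1, ?_, ?_, ?_, ?_⟩, ?_⟩
  · show μ (em (p 0 - z)) ≤ m + y / 8 + 4 * C0
    set s : ℝ := F.h (em (p 0)) - c * w - wm with hs
    have hc1 : (c : ℝ) * w ≤ F.h (em (p 0)) := by
      have h1 : (c : ℝ) ≤ F.h (em (p 0)) / w := by
        rw [← hcn]; exact Int.floor_le _
      rwa [le_div_iff₀ hw0] at h1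
    have hc2 : F.h (em (p 0)) < (c + 1) * w := by
      have h1 : F.h (em (p 0)) / w < c + 1 := by
        rw [← hcn]; exact Int.lt_floor_add_one _
      rwa [div_lt_iff₀ hw0] at h1
    have hps := hprof s (by rw [hs]; linarith) (by rw [hs]; nlinarith)
    have e : em (p 0 - z) = (m • F.th + s • F.ta) + (F.lv (p 0) - i * m) • F.th - (em z - Z) := by
      rw [em_sub]
      have h1 := F.decomp (em (p 0))
      have h2 : em (p 0) = (m • F.th + s • F.ta) + (F.lv (p 0) - i * m) • F.th + Z := by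
        conv_lhs => rw [h1]
        rw [hZ, hs]
        show F.l (em (p 0)) • F.th + F.h (em (p 0)) • F.ta =
          (m • F.th + (F.h (em (p 0)) - c * w - wm) • F.ta) +
          (F.l (em (p 0)) - i * m) • F.th + ((((i : ℝ) - 1) * m) • F.th + (c * w + wm) • F.ta)
        module
      rw [h2]
      abel
    rw [e]
    have h3 := map_sub_le_add μ ((m • F.th + s • F.ta) + (F.lv (p 0) - i * m) • F.th) (em z - Z)
    have h4 := map_add_le_add μ (m • F.th + s • F.ta) ((F.lv (p 0) - i * m) • F.th)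
    rw [map_smul_eq_mul, F.mth, mul_one, Real.norm_eq_abs, abs_of_nonneg
      (by have := hlow 0 (Nat.zero_le _); linarith)] at h4
    linarith
  · show m - 4 * C0 ≤ F.lv (p 0 - z)
    rw [F.lv_sub]
    have := hlow 0 (Nat.zero_le _)
    linarith
  · intro j hj
    show 0 ≤ F.lv (p j - z)
    rw [F.lv_sub]
    have := hlow j hj
    linarith
  · show 2 * m - 4 * C0 ≤ F.lv (p n - z)
    rw [F.lv_sub]
    have := hcr.2.2.2
    linarith
  · rw [tm_shift]
    have : (fun j => z + (p j - z)) = p := by funext j; exact add_sub_cancel z (p j)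
    rw [this]; exact ht

/-- decomposition of a path into the pieces between the rows -/
theorem rows (hN : Nrm μ c0 C0) (F : Frame μ) {m : ℝ} (hm0 : 0 < m) {N : ℕ}
    (hN1 : 1 ≤ N) {v : V} {n : ℕ} {p : ℕ → V} (hp : Fu 0 v n p) (hv : F.lv v = N * m) :
    ∃ s : ℕ → ℕ, s 0 = 0 ∧ s N = n ∧ (∀ i < N, s i ≤ s (i + 1)) ∧ (∀ i ≤ N, s i ≤ n) ∧
      (∀ i, 1 ≤ i → i < N → i * m ≤ F.lv (p (s i)) ∧ F.lv (p (s i)) < i * m + C0 ∧
        ∃ k, s i + k ≤ s (i + 1) ∧ Cr F.lv (i * m) ((i + 1) * m) (p (s i)) k (sh (s i) p)) := by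
  classical
  obtain ⟨hp0, hpn, hps⟩ := hp
  have hlv0 : F.lv (p 0) = 0 := by rw [hp0, F.lv_zero]
  set T : ℕ → ℕ := fun i => sInf {j | (i : ℝ) * m ≤ F.lv (p j)} with hT
  have hne : ∀ i ≤ N, n ∈ {j | (i : ℝ) * m ≤ F.lv (p j)} := by
    intro i hi
    show (i : ℝ) * m ≤ F.lv (p n)
    rw [hpn, hv]
    have : (i : ℝ) ≤ N := by exact_mod_cast hi
    exact mul_le_mul_of_nonneg_right this hm0.le
  have hTn : ∀ i ≤ N, T i ≤ n := fun i hi => Nat.sInf_le (hne i hi)
  have hTm : ∀ i ≤ N, (i : ℝ) * m ≤ F.lv (p (T i)) := fun i hi =>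
    Nat.sInf_mem (s := {j | (i : ℝ) * m ≤ F.lv (p j)}) ⟨n, hne i hi⟩
  have hTl : ∀ i, ∀ j < T i, F.lv (p j) < i * m := by
    intro i j hj
    have h1 : j ∉ {j | (i : ℝ) * m ≤ F.lv (p j)} := Nat.notMem_of_lt_sInf hj
    exact not_le.1 h1
  have hT1 : ∀ i, i + 1 ≤ N → 1 ≤ T (i + 1) := by
    intro i hi
    by_contra hcon
    have h0 : T (i + 1) = 0 := by omega
    have h1 := hTm (i + 1) hi
    rw [h0, hlv0] at h1
    push_cast at h1
    have h2 : (0 : ℝ) ≤ i := by positivity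
    nlinarith
  have hTmono : ∀ i, i + 1 ≤ N → T i ≤ T (i + 1) := by
    intro i hi
    refine Nat.sInf_le ?_
    show (i : ℝ) * m ≤ F.lv (p (T (i + 1)))
    have h1 := hTm (i + 1) hi
    push_cast at h1
    nlinarith
  set P : ℕ → ℕ → Prop := fun i j => j = 0 ∨ F.lv (p (j - 1)) < i * m with hP
  set G : ℕ → ℕ := fun i => Nat.findGreatest (P i) (T (i + 1)) with hG
  have hGT : ∀ i, G i ≤ T (i + 1) := fun i => Nat.findGreatest_le _
  have hGP : ∀ i, P i (G i) := fun i =>
    Nat.findGreatest_spec (P := P i) (Nat.zero_le (T (i + 1))) (Or.inl rfl)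
  have hGg : ∀ i j, G i ≤ j → j < T (i + 1) → i * m ≤ F.lv (p j) := by
    intro i j h1 h2
    have h3 : ¬ P i (j + 1) := Nat.findGreatest_is_greatest (P := P i) (n := T (i + 1))
      (Nat.lt_succ_of_le h1) h2
    by_contra h4
    exact h3 (Or.inr (by rw [Nat.add_sub_cancel]; exact not_le.1 h4))
  set s : ℕ → ℕ := fun i => if i = 0 then 0 else if i < N then G i else n with hs
  have hsG : ∀ i, 1 ≤ i → i < N → s i = G i := by
    intro i h1 h2
    show (if i = 0 then 0 else if i < N then G i else n) = G i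
    rw [if_neg (by omega), if_pos h2]
  have hsN : s N = n := by
    show (if N = 0 then 0 else if N < N then G N else n) = n
    rw [if_neg (by omega), if_neg (lt_irrefl N)]
  have hTs : ∀ i, i + 1 ≤ N → T (i + 1) ≤ s (i + 1) := by
    intro i hi
    rcases lt_or_eq_of_le hi with h1 | h1
    · rw [hsG (i + 1) (by omega) h1]
      refine Nat.le_findGreatest (hTmono (i + 1) h1) (Or.inr ?_)
      exact hTl (i + 1) _ (by have := hT1 i hi; omega)
    · rw [h1, hsN]; exact hTn N le_rfl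
  have hsn : ∀ i ≤ N, s i ≤ n := by
    intro i hi
    rcases Nat.eq_zero_or_pos i with h1 | h1
    · rw [h1]; exact Nat.zero_le _
    rcases lt_or_eq_of_le hi with h2 | h2
    · rw [hsG i h1 h2]; exact (hGT i).trans (hTn _ h2)
    · rw [h2, hsN]
  refine ⟨s, rfl, hsN, ?_, hsn, ?_⟩
  · intro i hi
    rcases Nat.eq_zero_or_pos i with h1 | h1
    · rw [h1]; exact Nat.zero_le _
    · rw [hsG i h1 hi]
      exact (hGT i).trans (hTs i hi)
  · intro i h1 h2
    rw [hsG i h1 h2]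
    have h3 : (i : ℝ) * m ≤ F.lv (p (G i)) := by
      rcases lt_or_eq_of_le (hGT i) with h4 | h4
      · exact hGg i _ le_rfl h4
      · rw [h4]
        have h5 := hTm (i + 1) h2
        push_cast at h5
        nlinarith
    have hi0 : (1 : ℝ) ≤ i := by exact_mod_cast h1
    have hG0 : G i ≠ 0 := by
      intro h4
      rw [h4, hlv0] at h3
      nlinarith
    refine ⟨h3, ?_, T (i + 1) - G i, ?_, ?_⟩
    · rcases hGP i with h4 | h4
      · exact absurd h4 hG0
      · have h5 : G i ≤ n := (hGT i).trans (hTn _ h2)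
        have h6 := F.lv_step hN (hps (G i - 1) (by omega))
        have h7 : G i - 1 + 1 = G i := by omega
        rw [h7] at h6
        have := (abs_le.1 h6).2
        linarith
    · have h4 := hGT i
      have h5 := hTs i h2
      omega
    · have h4 := hGT i
      refine ⟨rfl, stp_sh hps (by have := hTn (i + 1) h2; omega), fun j hj => ⟨?_, ?_⟩, ?_⟩
      · exact hGg i (G i + j) (by omega) (by omega)
      · have := hTl (i + 1) (G i + j) (by omega)
        push_cast at this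
        exact this
      · have h5 := hTm (i + 1) h2
        push_cast at h5
        show (i + 1 : ℝ) * m ≤ F.lv (p (G i + (T (i + 1) - G i)))
        rw [show G i + (T (i + 1) - G i) = T (i + 1) by omega]
        exact h5

theorem floor_diff (a b : ℝ) : |((⌊a⌋ - ⌊b⌋ : ℤ) : ℝ)| ≤ |a - b| + 1 := by
  push_cast
  have h1 := Int.floor_le a
  have h2 := Int.lt_floor_add_one a
  have h3 := Int.floor_le b
  have h4 := Int.lt_floor_add_one b
  have h5 := neg_abs_le (a - b)
  have h6 := le_abs_self (a - b)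
  rw [abs_le]
  constructor <;> linarith

open Classical in
/-- a fast path crosses many rows from bad cells -/
theorem count (hN : Nrm μ c0 C0) (F : Frame μ) {m y w c2 g2 J k R : ℝ} (hm0 : 0 < m)
    (hy : 0 < y) (hw : 0 < w) (hc2 : 0 < c2) (hg2 : 0 ≤ g2)
    (hwid : ∀ s : ℝ, |s| ≤ w * (1 + (μ (m • F.th + s • F.ta) - m) / (y / 8)))
    {N : ℕ} (hN1 : 1 ≤ N) {v : V} (hv : F.lv v = N * m) {x : En}
    (hold : ∀ a b : V, ‖em a‖ ≤ R → ‖em b‖ ≤ R → |F.lv (b - a) - m| ≤ C0 →
      F.lv (b - a) + c2 * (μ (em (b - a)) - F.lv (b - a)) - g2 ≤ dR a b x)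
    (hJ : N * (2 + (g2 / c2 + 2 * C0) / (y / 8)) ≤ J) (hk : (k + 1) * (C0 + g2) ≤ N * y)
    {n : ℕ} {p : ℕ → V} (hp : Fu 0 v n p) (hR : ∀ i ≤ n, ‖em (p i)‖ ≤ R)
    (ht : (tm x n p).toReal ≤ N * m - 2 * (N * y)) :
    ∃ D : ℕ → ℤ, D 0 = 0 ∧ ∑ j ∈ Finset.range N, |((D (j + 1) - D j : ℤ) : ℝ)| ≤ J ∧
      k ≤ (({j ∈ Finset.range N | x ∈ Bad F C0 m w y j (D (j + 1))} : Finset ℕ)).card := by
  have hC0 := hN.Cge
  obtain ⟨s, hs0, hsN, hsm, hsn, hsr⟩ := rows hN F hm0 hN1 hp hv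
  obtain ⟨hp0, hpn, hps⟩ := hp
  -- levels
  have hL : ∀ i ≤ N, i * m ≤ F.lv (p (s i)) ∧ F.lv (p (s i)) ≤ i * m + C0 := by
    intro i hi
    rcases Nat.eq_zero_or_pos i with h1 | h1
    · rw [h1, hs0, hp0, F.lv_zero]
      push_cast
      constructor <;> linarith
    rcases lt_or_eq_of_le hi with h2 | h2
    · exact ⟨(hsr i h1 h2).1, (hsr i h1 h2).2.1.le⟩
    · rw [h2, hsN, hpn, hv]
      constructor <;> linarith
  set ℓ : ℕ → ℝ := fun i => F.lv (p (s (i + 1)) - p (s i)) with hℓ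
  set e : ℕ → ℝ := fun i => μ (em (p (s (i + 1)) - p (s i))) - ℓ i with he
  set τ : ℕ → ℝ := fun i => (tm x (s (i + 1) - s i) (sh (s i) p)).toReal with hτ
  have hℓm : ∀ i < N, |ℓ i - m| ≤ C0 := by
    intro i hi
    have h1 := hL i hi.le
    have h2 := hL (i + 1) hi
    push_cast at h2
    show |F.lv (p (s (i + 1)) - p (s i)) - m| ≤ C0
    rw [F.lv_sub, abs_le]
    constructor <;> linarith [h1.1, h1.2, h2.1, h2.2]
  have he0 : ∀ i, 0 ≤ e i := fun i => sub_nonneg.2 (F.le _)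
  have hτ1 : ∀ i < N, ℓ i + c2 * e i - g2 ≤ τ i := by
    intro i hi
    have h1 := hold (p (s i)) (p (s (i + 1))) (hR _ (hsn i hi.le)) (hR _ (hsn (i + 1) hi)) (hℓm i hi)
    exact h1.trans (dR_le_tm hps (hsm i hi) (hsn (i + 1) hi) x)
  have hsumℓ : ∑ i ∈ Finset.range N, ℓ i = N * m := by
    have h1 : ∀ i ∈ Finset.range N, ℓ i = F.lv (p (s (i + 1))) - F.lv (p (s i)) :=
      fun i _ => F.lv_sub _ _
    rw [Finset.sum_congr rfl h1, Finset.sum_range_sub (fun i => F.lv (p (s i))), hsN, hs0, hpn, hp0,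
      F.lv_zero, hv, sub_zero]
  have hsumτ : ∑ i ∈ Finset.range N, τ i ≤ N * m - 2 * (N * y) := by
    have h1 := tm_pieces p x s N hs0 hsm
    rw [hsN] at h1
    have h2 : ∑ i ∈ Finset.range N, τ i = (tm x n p).toReal := by
      rw [h1, ENNReal.toReal_sum fun i _ => (tm_lt_top _ _ _).ne]
    rw [h2]; exact ht
  have hN0 : (0 : ℝ) ≤ N := by positivity
  have hsume : ∑ i ∈ Finset.range N, e i ≤ N * (g2 / c2) := by
    have h1 : ∑ i ∈ Finset.range N, (ℓ i + c2 * e i - g2) ≤ ∑ i ∈ Finset.range N, τ i :=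
      Finset.sum_le_sum fun i hi => hτ1 i (Finset.mem_range.1 hi)
    rw [Finset.sum_sub_distrib, Finset.sum_add_distrib, hsumℓ, ← Finset.mul_sum, Finset.sum_const,
      Finset.card_range, nsmul_eq_mul] at h1
    have h2 : c2 * ∑ i ∈ Finset.range N, e i ≤ N * g2 := by
      have : 0 ≤ (N : ℝ) * y := by positivity
      linarith
    rw [← mul_div_assoc, le_div_iff₀ hc2, mul_comm]
    exact h2
  set D : ℕ → ℤ := fun j => if j = 0 then 0 else cn F w (p (s (j - 1))) with hD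
  have hD0 : D 0 = 0 := rfl
  have hDs : ∀ j, D (j + 1) = cn F w (p (s j)) := by
    intro j
    show (if j + 1 = 0 then 0 else cn F w (p (s (j + 1 - 1)))) = _
    rw [if_neg (Nat.succ_ne_zero j), Nat.add_sub_cancel]
  refine ⟨D, hD0, ?_, ?_⟩
  · -- total variation
    have hst : ∀ j < N, |((D (j + 2) - D (j + 1) : ℤ) : ℝ)| ≤ 2 + (e j + 2 * C0) / (y / 8) := by
      intro j hj
      have e1 : D (j + 2) = cn F w (p (s (j + 1))) := hDs (j + 1)
      have e2 : D (j + 1) = cn F w (p (s j)) := hDs j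
      rw [e1, e2]
      refine (floor_diff _ _).trans ?_
      rw [← sub_div, abs_div, abs_of_pos hw, ← F.h_sub, ← em_sub]
      set Δ : V := p (s (j + 1)) - p (s j) with hΔ
      have h1 := hwid (F.h (em Δ))
      have h2 : μ (m • F.th + F.h (em Δ) • F.ta) ≤ m + (e j + 2 * C0) := by
        have h3 : m • F.th + F.h (em Δ) • F.ta = em Δ - (ℓ j - m) • F.th := by
          have h5 : ℓ j = F.l (em Δ) := rfl
          rw [eq_sub_iff_add_eq, h5]
          conv_rhs => rw [F.decomp (em Δ)]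
          module
        rw [h3]
        have h4 := map_sub_le_add μ (em Δ) ((ℓ j - m) • F.th)
        rw [map_smul_eq_mul, F.mth, mul_one, Real.norm_eq_abs] at h4
        have h5 := hℓm j hj
        have h6 : μ (em Δ) = e j + ℓ j := by
          show μ (em Δ) = (μ (em Δ) - ℓ j) + ℓ j
          ring
        have h7 := (abs_le.1 h5).2
        linarith
      have h3 : |F.h (em Δ)| / w ≤ 1 + (μ (m • F.th + F.h (em Δ) • F.ta) - m) / (y / 8) := by
        rw [div_le_iff₀ hw, mul_comm]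
        exact h1
      have h4 : (μ (m • F.th + F.h (em Δ) • F.ta) - m) / (y / 8) ≤ (e j + 2 * C0) / (y / 8) :=
        div_le_div_of_nonneg_right (by linarith) (by positivity)
      linarith
    obtain ⟨N', rfl⟩ : ∃ N', N = N' + 1 := ⟨N - 1, by omega⟩
    rw [Finset.sum_range_succ']
    have h0 : |((D (0 + 1) - D 0 : ℤ) : ℝ)| = 0 := by
      rw [hDs 0, hD0, hs0, hp0]
      have h1 : F.h (em 0) = 0 := by rw [em_zero]; simp [Frame.h]
      rw [cn, h1, zero_div, Int.floor_zero]; simp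
    rw [h0, add_zero]
    have h1 : ∑ j ∈ Finset.range N', |((D (j + 1 + 1) - D (j + 1) : ℤ) : ℝ)| ≤
        ∑ j ∈ Finset.range N', (2 + (e j + 2 * C0) / (y / 8)) :=
      Finset.sum_le_sum fun j hj => hst j (by have := Finset.mem_range.1 hj; omega)
    have h2 : ∑ j ∈ Finset.range N', (2 + (e j + 2 * C0) / (y / 8)) ≤
        ∑ j ∈ Finset.range (N' + 1), (2 + (e j + 2 * C0) / (y / 8)) := by
      refine Finset.sum_le_sum_of_subset_of_nonneg (Finset.range_mono (Nat.le_succ N')) ?_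
      intro j _ _
      have := he0 j
      positivity
    refine (h1.trans h2).trans (le_trans ?_ hJ)
    rw [Finset.sum_add_distrib, ← Finset.sum_div, Finset.sum_add_distrib, Finset.sum_const,
      Finset.sum_const, Finset.card_range, nsmul_eq_mul, nsmul_eq_mul, mul_add, mul_div_assoc',
      mul_add]
    refine add_le_add le_rfl (div_le_div_of_nonneg_right (add_le_add hsume le_rfl) (by positivity))
  · -- number of bad rows
    by_contra hcon
    rw [not_le] at hcon
    set K : ℕ := (({j ∈ Finset.range N | x ∈ Bad F C0 m w y j (D (j + 1))} : Finset ℕ)).card with hK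
    have hrow : ∀ i ∈ Finset.range N, m - y - ((if i = 0 then C0 + g2 else 0) +
        (if x ∈ Bad F C0 m w y i (D (i + 1)) then C0 + g2 else 0)) ≤ τ i := by
      intro i hi
      rw [Finset.mem_range] at hi
      have hcg : 0 ≤ C0 + g2 := by linarith
      have hb : m - y - (C0 + g2) ≤ τ i := by
        have h1 := hτ1 i hi
        have h2 := (abs_le.1 (hℓm i hi)).1
        have h3 := he0 i
        have h4 : 0 ≤ c2 * e i := by positivity
        linarith
      by_cases h1 : i = 0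
      · rw [if_pos h1]
        split_ifs <;> linarith
      by_cases h2 : x ∈ Bad F C0 m w y i (D (i + 1))
      · rw [if_pos h2, if_neg h1]; linarith
      · rw [if_neg h1, if_neg h2]
        obtain ⟨h3, h4, k', h5, h6⟩ := hsr i (by omega) hi
        by_contra h7
        rw [not_le] at h7
        apply h2
        refine ⟨k', sh (s i) p, ⟨h6, h4, (hDs i).symm⟩, ?_⟩
        have h8 : tm x k' (sh (s i) p) ≤ tm x (s (i + 1) - s i) (sh (s i) p) :=
          tm_mono _ x (by omega)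
        refine h8.trans_lt ?_
        have h9 : τ i < m - y := by linarith
        rw [← ENNReal.ofReal_toReal (tm_lt_top x (s (i + 1) - s i) (sh (s i) p)).ne]
        exact (ENNReal.ofReal_lt_ofReal_iff (ENNReal.toReal_nonneg.trans_lt h9)).2 h9
    have h1 := (Finset.sum_le_sum hrow).trans hsumτ
    rw [Finset.sum_sub_distrib, Finset.sum_add_distrib, Finset.sum_const, Finset.card_range,
      nsmul_eq_mul, ← Finset.sum_filter, ← Finset.sum_filter, Finset.sum_const, Finset.sum_const,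
      nsmul_eq_mul, nsmul_eq_mul, ← hK] at h1
    have h2 : ((({i ∈ Finset.range N | i = 0} : Finset ℕ)).card : ℝ) ≤ 1 := by
      have : (({i ∈ Finset.range N | i = 0} : Finset ℕ)).card ≤ 1 := by
        rw [Finset.card_le_one]
        intro a ha b hb
        rw [Finset.mem_filter] at ha hb
        rw [ha.2, hb.2]
      exact_mod_cast this
    have h3 : 0 < C0 + g2 := by linarith
    nlinarith

end Pool.Agent.J4.H91.FPP
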