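import Pool.Agent.J4.H91.FPP.Hub

set_option autoImplicit false
open MeasureTheory ProbabilityTheory Filter Set
open scoped ENNReal Topology Pointwise

/-!
# The splitting property, first form (helper91)
-/

namespace Pool.Agent.J4.H91.FPP

open Pool.Agent.N662.FP hiding em

theorem ev_neg {a : ℝ} (ha : 0 < a) (C : ℝ) {e : ℝ} (he : 0 < e) :
    ∀ᶠ H : ℝ in atTop, C * H ^ (-a) ≤ e := by
  have e1 := (tendsto_rpow_neg_atTop ha).const_mul C
  rw [mul_zero] at e1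
  filter_upwards [e1.eventually (gt_mem_nhds he)] with H h
  exact h.le

theorem ev_exp {b c C : ℝ} (hb : 0 < b) (hc : 0 < c) (hC : 0 < C) (k : ℕ) {e : ℝ} (he : 0 < e) :
    ∀ᶠ H : ℝ in atTop, C * H ^ k * Real.exp (-(c * H ^ b)) ≤ e := by
  have h1 := exp_dom (b := b / 2) (b' := b) (by positivity) (by linarith) hc hC k
  have h2 : Tendsto (fun H : ℝ => Real.exp (-(H ^ (b / 2)))) atTop (𝓝 0) :=
    Real.tendsto_exp_neg_atTop_nhds_zero.comp (tendsto_rpow_atTop (by positivity : 0 < b / 2))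
  filter_upwards [h1, h2.eventually (gt_mem_nhds he)] with H h3 h4
  exact h3.trans h4.le

variable {μ : Seminorm ℝ (ℝ × ℝ)} {c0 C0 κ κ0 A : ℝ}

/-- the splitting property -/
def SP (μ : Seminorm ℝ (ℝ × ℝ)) (κ1 : ℝ) : Prop :=
  ∃ u C m0 : ℝ, 0 < u ∧ 1 ≤ C ∧ 1 ≤ m0 ∧ ∃ ρ : ℝ → ℝ, (∀ s, 1 ≤ s → 0 ≤ ρ s ∧ ρ s ≤ s ^ (-u)) ∧
    ∀ (F : Frame μ) (w : V) (s : ℝ), m0 ≤ s → s ≤ F.lv w → F.lv w ≤ 4 * s → ∃ w1 w2 : V,
      ‖em w1 + em w2 - (1 + ρ s) • em w‖ ≤ C ∧
      |F.lv w1 - (1 + ρ s) * F.lv w / 2| ≤ C ∧ |F.lv w2 - (1 + ρ s) * F.lv w / 2| ≤ C ∧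
      (hh w1 - F.lv w1) + (hh w2 - F.lv w2) ≤
        (1 + C * s ^ (-u)) * (hh w - F.lv w) + C * s ^ (1 - κ1)

theorem lv_rnd (hN : Nrm μ c0 C0) (F : Frame μ) (x : ℝ × ℝ) : |F.lv (rnd x) - F.l x| ≤ C0 := by
  have h1 := F.l_abs hN (em (rnd x) - x)
  rw [map_sub] at h1
  refine h1.trans ?_
  have h2 := rnd_norm x
  have h3 := hN.Cge
  nlinarith

theorem spl0 (hN : Nrm μ c0 C0) (hv : HV μ κ A) (hκ0 : 0 < κ) (hκ1 : κ < 1) : SP μ (κ / 3) := by
  have hC0 := hN.Cge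
  have hc0 := hN.cpos
  have hA := hv.Age
  set κ1 : ℝ := κ / 3 with hκ1d
  have hk1 : 0 < κ1 := by rw [hκ1d]; positivity
  have hk2 : κ1 < 1 := by rw [hκ1d]; linarith
  set K1 : ℝ := 3 + 1 / c0 with hK1
  have hK1' : 1 ≤ K1 := by
    have : 0 < 1 / c0 := by positivity
    rw [hK1]; linarith
  set C3 : ℝ := 1 + C0 / c0 + C0 with hC3
  have hC3' : 0 < C3 := by positivity
  set CN : ℝ := 2 / c0 * (26 * K1) with hCN
  have hCN' : 0 < CN := by positivity
  set Q : ℝ := 1 + C0 * (54 * K1) with hQ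
  have hQ1 : 1 ≤ Q := by
    have : 0 ≤ C0 * (54 * K1) := by positivity
    rw [hQ]; linarith
  have e1 := ev_neg (a := κ / 3) (by positivity) ((2 * CN + 5) * (2 * (A * Q)))
    (e := 1 / 8) (by norm_num)
  have e2 := ev_exp (b := κ - κ1) (c := 1 / (A * Q)) (C := 81 * (27 * K1) ^ 4 * 3)
    (by rw [hκ1d]; linarith) (by positivity) (by positivity) 4 (e := 1 / 8) (by norm_num)
  have e3 := ev_exp (b := 1) (c := K1) (C := 9 * (26 * K1) ^ 2)
    one_pos (by linarith) (by positivity) 2 (e := 1 / 8) (by norm_num)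
  have e4 : ∀ᶠ H : ℝ in atTop, C3 * H ^ (-κ1) ≤ 1 := ev_neg hk1 C3 one_pos
  obtain ⟨m0, hm0⟩ := eventually_atTop.1 ((e1.and e2).and (e3.and e4))
  set C4 : ℝ := 12 * C3 + 6 with hC4
  have hC4' : 1 ≤ C4 := by rw [hC4]; linarith
  refine ⟨κ1, 4 * C4 + C0, max m0 1, hk1, by linarith, le_max_right _ _, fun _ => 0,
    fun s hs => ⟨le_rfl, by positivity⟩, fun F w s hms hs1 hs2 => ?_⟩
  have hs1' : 1 ≤ s := (le_max_right _ _).trans hms
  have hs0 : 0 < s := by linarith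
  set H : ℝ := hh w with hH
  have hlvmu : F.lv w ≤ μ (em w) := F.le _
  have hmuH : μ (em w) ≤ H := hv.ge w
  have hHs : s ≤ H := by linarith
  have hH1 : 1 ≤ H := by linarith
  have hH0 : 0 < H := by linarith
  obtain ⟨⟨g1, g2⟩, g3, g4⟩ := hm0 H (((le_max_left _ _).trans hms).trans hHs)
  set r : ℝ := H ^ (1 - κ1) with hr
  have hr0 : 0 < r := Real.rpow_pos_of_pos hH0 _
  have hr1 : 1 ≤ r := Real.one_le_rpow hH1 (by linarith)
  have hrH : r ≤ H := by
    calc r ≤ H ^ (1 : ℝ) := Real.rpow_le_rpow_of_exponent_le hH1 (by linarith)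
      _ = H := Real.rpow_one H
  have hrC : C3 * r ≤ H := by
    have : H ^ (-κ1) * H = r := by
      rw [hr, ← Real.rpow_add_one hH0.ne']; congr 1; ring
    calc C3 * r = (C3 * H ^ (-κ1)) * H := by rw [mul_assoc, this]
      _ ≤ 1 * H := by gcongr
      _ = H := one_mul H
  have hHr : H = H ^ κ1 * r := by
    rw [hr, ← Real.rpow_add hH0]
    have : κ1 + (1 - κ1) = 1 := by ring
    rw [this, Real.rpow_one]
  have hHk : 1 ≤ H ^ κ1 := Real.one_le_rpow hH1 hk1.le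
  set R : ℝ := K1 * H with hR
  have hRH : H ≤ R := by rw [hR]; nlinarith
  have hR1 : 1 ≤ R := by linarith
  set m : ℝ := F.lv w / 2 with hm
  have hm0' : 0 < m := by rw [hm]; linarith
  set Mh : ℕ := ⌈CN * H ^ κ1⌉₊ + 1 with hMh
  have hMh1 : CN * H ^ κ1 + 1 ≤ Mh := by
    rw [hMh]; push_cast
    linarith [Nat.le_ceil (CN * H ^ κ1)]
  have hMh2 : (Mh : ℝ) ≤ CN * H ^ κ1 + 2 := by
    rw [hMh]; push_cast
    have := Nat.ceil_lt_add_one (a := CN * H ^ κ1) (by positivity)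
    linarith
  set hat : Fin (2 * Mh + 1) → V := fun i =>
    rnd (m • F.th + (((i : ℕ) : ℝ) - Mh) • (r • F.ta)) with hhat
  have hoff : ∀ b : V, m ≤ F.lv b → F.lv b ≤ m + C0 → ∀ i : Fin (2 * Mh + 1),
      |F.h (em b) - (((i : ℕ) : ℝ) - Mh) * r| ≤ r → ‖em (hat i) - em b‖ ≤ C3 * r := by
    intro b hb1 hb2 i hi
    have hd := F.decomp (em b)
    have e : em (hat i) - em b = (em (hat i) - (m • F.th + (((i : ℕ) : ℝ) - Mh) • (r • F.ta))) +
        ((m - F.lv b) • F.th + ((((i : ℕ) : ℝ) - Mh) * r - F.h (em b)) • F.ta) := by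
      conv_lhs => rw [hd]
      show em (hat i) - (F.l (em b) • F.th + F.h (em b) • F.ta) = _
      have : F.lv b = F.l (em b) := rfl
      rw [this]
      module
    rw [e]
    have n1 := rnd_norm (m • F.th + (((i : ℕ) : ℝ) - Mh) • (r • F.ta))
    have n2 := F.th_norm hN
    have n3 := F.ta_norm hN
    have n4 : ‖(m - F.lv b) • F.th‖ ≤ C0 / c0 := by
      rw [norm_smul, Real.norm_eq_abs]
      have : |m - F.lv b| ≤ C0 := by rw [abs_le]; constructor <;> linarith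
      calc |m - F.lv b| * ‖F.th‖ ≤ C0 * (1 / c0) := by gcongr
        _ = C0 / c0 := by ring
    have n5 : ‖((((i : ℕ) : ℝ) - Mh) * r - F.h (em b)) • F.ta‖ ≤ r * C0 := by
      rw [norm_smul, Real.norm_eq_abs, abs_sub_comm]
      gcongr
    calc _ ≤ 1 + (C0 / c0 + r * C0) := by
          refine (norm_add_le _ _).trans (add_le_add n1 ((norm_add_le _ _).trans
            (add_le_add n4 n5)))
      _ ≤ C3 * r := by
          have : 0 < C0 / c0 := by positivity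
          rw [hC3]; nlinarith
  obtain ⟨k, hk⟩ := hub (m := m) (R := R) (y := r) (L := 12 * C3 * r) hN hv hκ1 F w hR1 hr0 hm0'
    (by rw [hm]; linarith) (by
      have h5 : 0 < 1 / c0 := by positivity
      rw [hR, hK1]; nlinarith) (by
      have h5 : ‖em w‖ ≤ H / c0 := by
        rw [le_div_iff₀ hc0, mul_comm]
        exact (hN.lo _).trans hmuH
      have h6 : H / c0 = 1 / c0 * H := by ring
      have h7 : 1 / c0 * H ≤ R := by rw [hR, hK1]; nlinarith
      linarith) hat hat (fun _ => True) (by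
      have : {x : En | ∃ b : V, ‖em b‖ ≤ 26 * R ∧ m ≤ F.lv b ∧ F.lv b ≤ m + C0 ∧
          dR 0 b x + dR b w x ≤ hh w + r + 1 ∧ ¬ True} = ∅ := by
        ext x; simp
      rw [this, measure_empty]; exact bot_le) (by
      intro b hb1 hb2 hb3 _
      set σ : ℝ := F.h (em b) with hσ
      have hσ1 : |σ| ≤ CN * H := by
        refine (F.h_abs hN (em b)).trans ?_
        rw [hCN]
        calc 2 / c0 * ‖em b‖ ≤ 2 / c0 * (26 * R) := by gcongr
          _ = _ := by rw [hR]; ring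
      have hfl1 := Int.floor_le (σ / r)
      have hfl2 := Int.lt_floor_add_one (σ / r)
      have hσr : |σ / r| ≤ CN * H ^ κ1 := by
        rw [abs_div, abs_of_pos hr0, div_le_iff₀ hr0]
        calc |σ| ≤ CN * H := hσ1
          _ = CN * (H ^ κ1 * r) := by rw [← hHr]
          _ = _ := by ring
      rw [abs_le] at hσr
      have hz1 : 0 ≤ ⌊σ / r⌋ + (Mh : ℤ) := by
        have : (-1 : ℝ) < ⌊σ / r⌋ + (Mh : ℝ) := by linarith
        have h8 : (-1 : ℤ) < ⌊σ / r⌋ + (Mh : ℤ) := by exact_mod_cast this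
        omega
      have hz2 : ⌊σ / r⌋ + (Mh : ℤ) < 2 * Mh + 1 := by
        have : (⌊σ / r⌋ : ℝ) + (Mh : ℝ) < 2 * Mh + 1 := by linarith
        exact_mod_cast this
      set i : Fin (2 * Mh + 1) := ⟨(⌊σ / r⌋ + (Mh : ℤ)).toNat, by omega⟩ with hi
      have hival : (((i : ℕ) : ℝ)) - Mh = ⌊σ / r⌋ := by
        have h8 : (((⌊σ / r⌋ + (Mh : ℤ)).toNat : ℕ) : ℤ) = ⌊σ / r⌋ + Mh := Int.toNat_of_nonneg hz1
        have h9 : (((⌊σ / r⌋ + (Mh : ℤ)).toNat : ℕ) : ℝ) = ⌊σ / r⌋ + Mh := by exact_mod_cast h8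
        show (((⌊σ / r⌋ + (Mh : ℤ)).toNat : ℕ) : ℝ) - Mh = _
        rw [h9]; ring
      have hdist := hoff b hb2 hb3 i (by
        rw [hival, ← hσ]
        have h8 : σ - ⌊σ / r⌋ * r = (σ / r - ⌊σ / r⌋) * r := by field_simp
        rw [h8, abs_mul, abs_of_pos hr0, abs_of_nonneg (by linarith)]
        nlinarith)
      have hbx : ‖em (hat i)‖ ≤ 27 * R := by
        have e : em (hat i) = (em (hat i) - em b) + em b := by abel
        rw [e]
        refine (norm_add_le _ _).trans ?_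
        linarith
      refine ⟨i, ?_, hbx, hbx⟩
      have d1 := hh_lin hN (hat i - b)
      have d2 := hh_lin hN (b - hat i)
      rw [em_sub] at d1 d2
      rw [norm_sub_rev] at d2
      linarith) (by
      have h5 : (1 + C0 * (54 * R)) ^ (1 - κ) ≤ Q * H ^ (1 - κ) := by
        refine le_trans (Real.rpow_le_rpow (by positivity) (?_ : _ ≤ Q * H) (by linarith))
          (rpow_le_const_mul hQ1 hH1 (by linarith) (by linarith))
        rw [hQ, hR]; nlinarith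
      have h6 : ((2 * Mh + 1 : ℕ) : ℝ) ≤ (2 * CN + 5) * H ^ κ1 := by
        push_cast; nlinarith
      have h7 : H ^ κ1 * (H ^ (1 - κ) / r) = H ^ (-(κ / 3)) := by
        rw [hr, ← Real.rpow_sub hH0, ← Real.rpow_add hH0]
        congr 1
        rw [hκ1d]; ring
      calc ((2 * Mh + 1 : ℕ) : ℝ) * (2 * (A * (1 + C0 * (54 * R)) ^ (1 - κ) / r))
          ≤ ((2 * CN + 5) * H ^ κ1) * (2 * (A * (Q * H ^ (1 - κ)) / r)) := by gcongr
        _ = (2 * CN + 5) * (2 * (A * Q)) * (H ^ κ1 * (H ^ (1 - κ) / r)) := by ring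
        _ ≤ 1 / 8 := by rw [h7]; exact g1) (by
      have h5 : (1 + C0 * (54 * R)) ^ (1 - κ) ≤ Q * H ^ (1 - κ) := by
        refine le_trans (Real.rpow_le_rpow (by positivity) (?_ : _ ≤ Q * H) (by linarith))
          (rpow_le_const_mul hQ1 hH1 (by linarith) (by linarith))
        rw [hQ, hR]; nlinarith
      have h6 : 1 / (A * Q) * H ^ (κ - κ1) ≤ r / (A * (1 + C0 * (54 * R)) ^ (1 - κ)) := by
        have h7 : r = H ^ (κ - κ1) * H ^ (1 - κ) := by
          rw [hr, ← Real.rpow_add hH0]; congr 1; ring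
        rw [le_div_iff₀ (by positivity)]
        calc 1 / (A * Q) * H ^ (κ - κ1) * (A * (1 + C0 * (54 * R)) ^ (1 - κ))
            ≤ 1 / (A * Q) * H ^ (κ - κ1) * (A * (Q * H ^ (1 - κ))) := by gcongr
          _ = H ^ (κ - κ1) * H ^ (1 - κ) := by field_simp
          _ = r := h7.symm
      calc 81 * (27 * R) ^ 4 * (3 * Real.exp (-(r / (A * (1 + C0 * (54 * R)) ^ (1 - κ)))))
          ≤ 81 * (27 * R) ^ 4 * (3 * Real.exp (-(1 / (A * Q) * H ^ (κ - κ1)))) := by gcongr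
        _ = 81 * (27 * K1) ^ 4 * 3 * H ^ 4 * Real.exp (-(1 / (A * Q) * H ^ (κ - κ1))) := by
            rw [hR]; ring
        _ ≤ 1 / 8 := g2) (by
      have : 9 * (26 * R) ^ 2 * Real.exp (-R) =
          9 * (26 * K1) ^ 2 * H ^ 2 * Real.exp (-(K1 * H ^ (1 : ℝ))) := by
        rw [Real.rpow_one, hR]; ring
      rw [this]; exact g3)
  have hl1 := lv_rnd hN F (m • F.th + (((k : ℕ) : ℝ) - Mh) • (r • F.ta))
  have hl2 : F.l (m • F.th + (((k : ℕ) : ℝ) - Mh) • (r • F.ta)) = m := by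
    rw [map_add, map_smul, map_smul, map_smul, F.lth, F.l_ta]; simp
  rw [hl2] at hl1
  have hl3 : |F.lv (hat k) - m| ≤ C0 := hl1
  refine ⟨hat k, w - hat k, ?_, ?_, ?_, ?_⟩
  · have : em (hat k) + em (w - hat k) - (1 + (0 : ℝ)) • em w = 0 := by
      rw [em_sub, add_zero, one_smul]; abel
    rw [this, norm_zero]
    linarith
  · have : (1 + (0 : ℝ)) * F.lv w / 2 = m := by rw [hm]; ring
    rw [this]
    linarith
  · have : (1 + (0 : ℝ)) * F.lv w / 2 = m := by rw [hm]; ring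
    rw [this, F.lv_sub]
    have e : F.lv w - F.lv (hat k) - m = -(F.lv (hat k) - m) := by rw [hm]; ring
    rw [e, abs_neg]
    linarith
  · rw [F.lv_sub]
    have h5 : r ≤ 4 * s ^ (1 - κ1) + s ^ (-κ1) * (H - F.lv w) := by
      have h6 : r = H * H ^ (-κ1) := by
        rw [hr, show (1 : ℝ) - κ1 = 1 + -κ1 by ring, Real.rpow_add hH0, Real.rpow_one]
      have h7 : H ^ (-κ1) ≤ s ^ (-κ1) := Real.rpow_le_rpow_of_nonpos hs0 hHs (by linarith)
      have h8 : s ^ (1 - κ1) = s * s ^ (-κ1) := by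
        rw [show (1 : ℝ) - κ1 = 1 + -κ1 by ring, Real.rpow_add hs0, Real.rpow_one]
      have h9 : 0 < s ^ (-κ1) := Real.rpow_pos_of_pos hs0 _
      rw [h6, h8]
      calc H * H ^ (-κ1) ≤ H * s ^ (-κ1) := by gcongr
        _ = (F.lv w + (H - F.lv w)) * s ^ (-κ1) := by ring
        _ ≤ (4 * s + (H - F.lv w)) * s ^ (-κ1) := by gcongr
        _ = _ := by ring
    have h6 : hh (hat k) + hh (w - hat k) ≤ H + C4 * r := by
      rw [hC4]; linarith
    have h9 : 0 < s ^ (-κ1) := Real.rpow_pos_of_pos hs0 _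
    have h10 : 0 < s ^ (1 - κ1) := Real.rpow_pos_of_pos hs0 _
    have h11 : 0 ≤ H - F.lv w := by linarith
    have h12 : 0 ≤ s ^ (-κ1) * (H - F.lv w) := by positivity
    nlinarith

end Pool.Agent.J4.H91.FPP
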