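import Pool.Agent.J4.H91.FPP.Spl0

set_option autoImplicit false
open MeasureTheory ProbabilityTheory Filter Set
open scoped ENNReal Topology Pointwise

/-!
# The splitting property, second form (helper91)
-/

namespace Pool.Agent.J4.H91.FPP

open Pool.Agent.N662.FP hiding em

variable {μ : Seminorm ℝ (ℝ × ℝ)} {c0 C0 κ κ0 A : ℝ}

/-- vectors far from the level direction -/
theorem spl1_big (hN : Nrm μ c0 C0) (hv : HV μ κ A) (hG : GG μ κ0) (h0 : 0 < κ0) (h01 : κ0 < 1)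
    {u' : ℝ} (hu0 : 0 < u') (hu1 : u' < 1) :
    ∃ C m0 : ℝ, 1 ≤ C ∧ 1 ≤ m0 ∧ ∀ (F : Frame μ) (w : V) (s : ℝ), m0 ≤ s → s ≤ F.lv w →
      F.lv w ≤ 4 * s → s ^ (1 - κ0 * (1 - u')) ≤ hh w - F.lv w → ∃ w1 w2 : V,
      ‖em w1 + em w2 - (1 + s ^ (-u')) • em w‖ ≤ C ∧
      |F.lv w1 - (1 + s ^ (-u')) * F.lv w / 2| ≤ C ∧ |F.lv w2 - (1 + s ^ (-u')) * F.lv w / 2| ≤ C ∧
      (hh w1 - F.lv w1) + (hh w2 - F.lv w2) ≤
        (1 + C * s ^ (-(κ0 * u'))) * (hh w - F.lv w) + C := by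
  have hC0 := hN.Cge
  obtain ⟨CG, hCG, hΓ⟩ := hG
  refine ⟨2 + 4 * C0 + 20 * CG, 1 + C0, by linarith, by linarith, fun F w s hm hs1 hs2 hf => ?_⟩
  have hs0 : 0 < s := by linarith
  have hs1' : 1 ≤ s := by linarith
  set H : ℝ := hh w with hH
  set f : ℝ := H - F.lv w with hfd
  have hlvmu : F.lv w ≤ μ (em w) := F.le _
  have hmuH : μ (em w) ≤ H := hv.ge w
  have hH0 : 0 < H := by linarith
  have hf0 : 0 ≤ f := by rw [hfd]; linarith
  set ρ : ℝ := s ^ (-u') with hρ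
  have hρ0 : 0 < ρ := Real.rpow_pos_of_pos hs0 _
  have hρ1 : ρ ≤ 1 := Real.rpow_le_one_of_one_le_of_nonpos hs1' (by linarith)
  set a : ℝ := s ^ (-(κ0 * u')) with ha
  have ha0 : 0 < a := Real.rpow_pos_of_pos hs0 _
  have hρa : ρ ≤ a := Real.rpow_le_rpow_of_exponent_le hs1' (by nlinarith)
  set w1 : V := rnd (((1 + ρ) / 2) • em w) with hw1
  have n1 := rnd_norm (((1 + ρ) / 2) • em w)
  have n2 := rnd_mu hN (((1 + ρ) / 2) • em w)
  have n3 := lv_rnd hN F (((1 + ρ) / 2) • em w)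
  have n4 : F.l (((1 + ρ) / 2) • em w) = (1 + ρ) * F.lv w / 2 := by
    rw [map_smul, smul_eq_mul]
    show (1 + ρ) / 2 * F.l (em w) = (1 + ρ) * F.l (em w) / 2
    ring
  rw [n4, ← hw1] at n3
  rw [← hw1] at n1 n2
  have n5 : μ (em w1) ≤ (1 + ρ) / 2 * μ (em w) + C0 := by
    have h1 := map_add_le_add μ (em w1 - ((1 + ρ) / 2) • em w) (((1 + ρ) / 2) • em w)
    rw [sub_add_cancel, map_smul_eq_mul, Real.norm_eq_abs, abs_of_pos (by positivity)] at h1
    linarith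
  have n6 : μ (em w1) ≤ H + C0 := by
    have : (1 + ρ) / 2 * μ (em w) ≤ 1 * H :=
      mul_le_mul (by linarith) hmuH (apply_nonneg μ _) zero_le_one
    linarith
  have n7 : (1 + μ (em w1)) ^ (1 - κ0) ≤ 2 * (5 * (a * f)) := by
    have h1 : (1 + μ (em w1)) ^ (1 - κ0) ≤ 2 * H ^ (1 - κ0) := by
      refine le_trans (Real.rpow_le_rpow (by have := apply_nonneg μ (em w1); linarith)
        (?_ : _ ≤ 2 * H) (by linarith)) (rpow_le_const_mul (by norm_num) (by linarith)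
        (by linarith) (by linarith))
      linarith
    refine h1.trans (mul_le_mul_of_nonneg_left ?_ (by norm_num))
    have h2 : H ^ (1 - κ0) = H * H ^ (-κ0) := by
      rw [show (1 : ℝ) - κ0 = 1 + -κ0 by ring, Real.rpow_add hH0, Real.rpow_one]
    have h3 : H ^ (-κ0) ≤ s ^ (-κ0) :=
      Real.rpow_le_rpow_of_nonpos hs0 (by linarith) (by linarith)
    have h4 : s * s ^ (-κ0) = s ^ (1 - κ0 * (1 - u')) * a := by
      rw [ha, ← Real.rpow_add hs0]
      conv_lhs => rw [← Real.rpow_one_add' hs0.le (by linarith)]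
      congr 1; ring
    have h5 : s ^ (-κ0) ≤ a := Real.rpow_le_rpow_of_exponent_le hs1' (by nlinarith)
    have h6 : 0 < s ^ (-κ0) := Real.rpow_pos_of_pos hs0 _
    rw [h2]
    calc H * H ^ (-κ0) ≤ H * s ^ (-κ0) := by gcongr
      _ = (F.lv w + f) * s ^ (-κ0) := by rw [hfd]; ring
      _ ≤ (4 * s + f) * s ^ (-κ0) := by gcongr
      _ = 4 * (s * s ^ (-κ0)) + f * s ^ (-κ0) := by ring
      _ = 4 * (s ^ (1 - κ0 * (1 - u')) * a) + f * s ^ (-κ0) := by rw [h4]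
      _ ≤ 4 * (f * a) + f * a := by gcongr
      _ = 5 * (a * f) := by ring
  have n8 : hh w1 ≤ (1 + ρ) / 2 * μ (em w) + C0 + CG * (2 * (5 * (a * f))) := by
    have h1 := hΓ w1
    have h2 : CG * (1 + μ (em w1)) ^ (1 - κ0) ≤ CG * (2 * (5 * (a * f))) := by gcongr
    linarith
  have n9 := abs_le.1 n3
  refine ⟨w1, w1, ?_, by linarith, by linarith, ?_⟩
  · have e : em w1 + em w1 - (1 + ρ) • em w = (2 : ℝ) • (em w1 - ((1 + ρ) / 2) • em w) := by
      rw [smul_sub, smul_smul, two_smul]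
      congr 2
      ring
    rw [e, norm_smul, Real.norm_eq_abs, abs_of_pos two_pos]
    linarith
  · have h1 : (1 + ρ) * (μ (em w) - F.lv w) ≤ (1 + ρ) * f := by
      refine mul_le_mul_of_nonneg_left ?_ (by linarith)
      rw [hfd]; linarith
    have h2 : ρ * f ≤ a * f := mul_le_mul_of_nonneg_right hρa hf0
    have h3 : 0 ≤ a * f := by positivity
    nlinarith

end Pool.Agent.J4.H91.FPP
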