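import Pool.Agent.J4.H91.FPP.Spl1

set_option autoImplicit false
open MeasureTheory ProbabilityTheory Filter Set
open scoped ENNReal Topology Pointwise

/-!
# The splitting property, second form: vectors near the level direction (helper91)
-/

namespace Pool.Agent.J4.H91.FPP

open Pool.Agent.N662.FP hiding em

variable {μ : Seminorm ℝ (ℝ × ℝ)} {c0 C0 κ κ0 A : ℝ}

/-- the relevant half-width -/
theorem half_width (F : Frame μ) (θ : ℝ × ℝ) {m M : ℝ} (B : Finset V) (σ : V → ℝ)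
    (h0 : μ (m • θ) ≤ M)
    (hB : ∀ b ∈ B, μ (m • θ + σ b • F.ta) ≤ M ∧ μ (m • θ - σ b • F.ta) ≤ M) :
    ∃ S : ℝ, 0 ≤ S ∧ (∀ b ∈ B, |σ b| ≤ S) ∧ ∀ d : ℝ, |d| ≤ S → μ (m • θ + d • F.ta) ≤ M := by
  classical
  have key : ∃ S : ℝ, 0 ≤ S ∧ (∀ b ∈ B, |σ b| ≤ S) ∧ μ (m • θ + S • F.ta) ≤ M ∧
      μ (m • θ - S • F.ta) ≤ M := by
    rcases B.eq_empty_or_nonempty with hE | hne
    · refine ⟨0, le_rfl, ?_, ?_, ?_⟩
      · rw [hE]; simp
      · rw [zero_smul, add_zero]; exact h0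
      · rw [zero_smul, sub_zero]; exact h0
    · obtain ⟨b, hb, hmax⟩ := B.exists_max_image (fun b => |σ b|) hne
      refine ⟨|σ b|, abs_nonneg _, hmax, ?_, ?_⟩
      · rcases abs_choice (σ b) with h | h <;> rw [h]
        · exact (hB b hb).1
        · rw [neg_smul, ← sub_eq_add_neg]; exact (hB b hb).2
      · rcases abs_choice (σ b) with h | h <;> rw [h]
        · exact (hB b hb).2
        · rw [neg_smul, sub_neg_eq_add]; exact (hB b hb).1
  obtain ⟨S, hS0, hSB, hp, hm⟩ := key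
  refine ⟨S, hS0, hSB, fun d hd => ?_⟩
  rcases hS0.eq_or_lt with h | h
  · have : d = 0 := by
      rw [← h] at hd
      exact abs_eq_zero.1 (le_antisymm hd (abs_nonneg _))
    rw [this, zero_smul, add_zero]; exact h0
  · have hd2 := abs_le.1 hd
    have e : m • θ + d • F.ta = ((1 + d / S) / 2) • (m • θ + S • F.ta) +
        ((1 - d / S) / 2) • (m • θ - S • F.ta) := by
      rw [smul_add, smul_sub, smul_smul, smul_smul, smul_smul, smul_smul]
      have e1 : d = (1 + d / S) / 2 * S - (1 - d / S) / 2 * S := by field_simp; ring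
      have e2 : m = (1 + d / S) / 2 * m + (1 - d / S) / 2 * m := by ring
      conv_lhs => rw [e1, e2]
      module
    have h1 : 0 ≤ (1 + d / S) / 2 := by
      have : -1 ≤ d / S := by rw [le_div_iff₀ h]; linarith
      linarith
    have h2 : 0 ≤ (1 - d / S) / 2 := by
      have : d / S ≤ 1 := by rw [div_le_one h]; linarith
      linarith
    rw [e]
    refine (map_add_le_add μ _ _).trans ?_
    rw [map_smul_eq_mul, map_smul_eq_mul, Real.norm_eq_abs, Real.norm_eq_abs, abs_of_nonneg h1,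
      abs_of_nonneg h2]
    calc (1 + d / S) / 2 * μ (m • θ + S • F.ta) + (1 - d / S) / 2 * μ (m • θ - S • F.ta)
        ≤ (1 + d / S) / 2 * M + (1 - d / S) / 2 * M := by gcongr
      _ = M := by ring

/-- points of the level which are not relevant are unlikely on a fast path -/
theorem rel_prob (hN : Nrm μ c0 C0) {κs b C : ℝ} (hb : 0 < b) (hC : 0 < C)
    (hbd : ∀ v : V, PP {x | dR 0 v x < μ (em v) - C * (1 + μ (em v)) ^ (1 - κs)} ≤
      ENNReal.ofReal (C * Real.exp (-(μ (em v) ^ b)))) (hκs : κs < 1)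
    (F : Frame μ) (w : V) {R s g E : ℝ} (hR : 1 ≤ R) (hs : 0 < s) (hsC : 4 * C0 ≤ s)
    (hw1 : s ≤ F.lv w) (hwR : ‖em w‖ ≤ R) (hg : C * (1 + C0 * (27 * R)) ^ (1 - κs) ≤ g) :
    PP {x | ∃ b : V, ‖em b‖ ≤ 26 * R ∧ F.lv w / 2 ≤ F.lv b ∧ F.lv b ≤ F.lv w / 2 + C0 ∧
      dR 0 b x + dR b w x ≤ E ∧ ¬ (μ (em b) + μ (em (w - b)) ≤ E + 2 * g)} ≤
      ENNReal.ofReal (9 * (26 * R) ^ 2 * (2 * (C * Real.exp (-((s / 4) ^ b))))) := by
  have hC0 := hN.Cge
  set q : ℝ := C * Real.exp (-((s / 4) ^ b)) with hq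
  have hq0 : 0 ≤ q := by positivity
  set E1 : V → Set En := fun c => {x | (F.lv w / 2 ≤ F.lv c ∧ F.lv c ≤ F.lv w / 2 + C0) ∧
    dR 0 c x < μ (em c) - C * (1 + μ (em c)) ^ (1 - κs)} with hE1
  set E2 : V → Set En := fun c => {x | (F.lv w / 2 ≤ F.lv c ∧ F.lv c ≤ F.lv w / 2 + C0) ∧
    dR c w x < μ (em (w - c)) - C * (1 + μ (em (w - c))) ^ (1 - κs)} with hE2
  have hcl : ∀ z : V, ‖em z‖ ≤ 27 * R → C * (1 + μ (em z)) ^ (1 - κs) ≤ g := by
    intro z hz
    refine le_trans (mul_le_mul_of_nonneg_left ?_ hC.le) hg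
    refine Real.rpow_le_rpow (by have := apply_nonneg μ (em z); linarith) ?_ (by linarith)
    have h1 := hN.hi (em z)
    have h2 : C0 * ‖em z‖ ≤ C0 * (27 * R) := mul_le_mul_of_nonneg_left hz (by linarith)
    linarith
  have hsub : {x | ∃ b : V, ‖em b‖ ≤ 26 * R ∧ F.lv w / 2 ≤ F.lv b ∧ F.lv b ≤ F.lv w / 2 + C0 ∧
      dR 0 b x + dR b w x ≤ E ∧ ¬ (μ (em b) + μ (em (w - b)) ≤ E + 2 * g)} ⊆
      {x | ∃ c : V, ‖em c‖ ≤ 26 * R ∧ x ∈ E1 c ∪ E2 c} := by
    rintro x ⟨c, hc1, hc2, hc3, hc4, hc5⟩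
    refine ⟨c, hc1, ?_⟩
    by_contra hno
    rw [mem_union, not_or] at hno
    obtain ⟨n1, n2⟩ := hno
    apply hc5
    have g1 : μ (em c) - C * (1 + μ (em c)) ^ (1 - κs) ≤ dR 0 c x := by
      by_contra hcon
      exact n1 ⟨⟨hc2, hc3⟩, not_le.1 hcon⟩
    have g2 : μ (em (w - c)) - C * (1 + μ (em (w - c))) ^ (1 - κs) ≤ dR c w x := by
      by_contra hcon
      exact n2 ⟨⟨hc2, hc3⟩, not_le.1 hcon⟩
    have g3 := hcl c (by linarith)
    have g4 := hcl (w - c) (by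
      rw [em_sub]
      refine (norm_sub_le _ _).trans ?_
      linarith)
    linarith
  refine (measure_mono hsub).trans ?_
  refine prob_box (r := 26 * R) (by linarith) (by positivity) fun c _ => ?_
  by_cases hlc : F.lv w / 2 ≤ F.lv c ∧ F.lv c ≤ F.lv w / 2 + C0
  swap
  · have : E1 c ∪ E2 c = ∅ := by
      ext x
      simp only [hE1, hE2, mem_union, mem_ofPred_eq, mem_empty_iff_false, iff_false, not_or]
      exact ⟨fun h => hlc h.1, fun h => hlc h.1⟩
    rw [this, measure_empty]; exact bot_le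
  have hexp : ∀ z : V, s / 4 ≤ μ (em z) → C * Real.exp (-(μ (em z) ^ b)) ≤ q := by
    intro z hz
    refine mul_le_mul_of_nonneg_left (Real.exp_le_exp.2 (neg_le_neg ?_)) hC.le
    exact Real.rpow_le_rpow (by positivity) hz hb.le
  have p1 : PP (E1 c) ≤ ENNReal.ofReal q := by
    refine (measure_mono (fun x hx => hx.2 :
      E1 c ⊆ {x | dR 0 c x < μ (em c) - C * (1 + μ (em c)) ^ (1 - κs)})).trans
      ((hbd c).trans (ENNReal.ofReal_le_ofReal (hexp c ?_)))
    have : F.lv c ≤ μ (em c) := F.le _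
    linarith
  have p2 : PP (E2 c) ≤ ENNReal.ofReal q := by
    have hs2 : E2 c ⊆
        {x | dR c w x ∈ Iio (μ (em (w - c)) - C * (1 + μ (em (w - c))) ^ (1 - κs))} :=
      fun x hx => hx.2
    refine (measure_mono hs2).trans ((dR_prob c w measurableSet_Iio).le.trans ?_)
    refine (hbd (w - c)).trans (ENNReal.ofReal_le_ofReal (hexp (w - c) ?_))
    have h1 : F.lv (w - c) ≤ μ (em (w - c)) := F.le _
    rw [F.lv_sub] at h1
    linarith
  refine (measure_union_le _ _).trans ((add_le_add p1 p2).trans (le_of_eq ?_))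
  rw [← ENNReal.ofReal_add hq0 hq0]
  congr 1; ring

end Pool.Agent.J4.H91.FPP
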