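import Pool.Agent.J4.H91.FPP.Spl2

set_option autoImplicit false
open MeasureTheory ProbabilityTheory Filter Set
open scoped ENNReal Topology Pointwise

/-!
# The splitting property, second form: conclusion (helper91)
-/

namespace Pool.Agent.J4.H91.FPP

open Pool.Agent.N662.FP hiding em

variable {μ : Seminorm ℝ (ℝ × ℝ)} {c0 C0 κ κ0 A : ℝ}

/-- a point of the level and its hubs -/
theorem hub_geo (hN : Nrm μ c0 C0) (F : Frame μ) {θ : ℝ × ℝ} (hθl : F.l θ = 1) (hθ : μ θ ≤ 5)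
    {m ρ S M : ℝ} (hρ : 0 < ρ) (hS : ∀ d : ℝ, |d| ≤ S → μ (m • θ + d • F.ta) ≤ M) {b : V}
    (hb1 : m ≤ F.lv b) (hb2 : F.lv b ≤ m + C0) {z : ℝ}
    (hz : |z - (F.h (em b) - F.lv b * F.h θ)| ≤ ρ * S) :
    μ (em (rnd ((m + ρ * m) • θ + z • F.ta)) - em b) ≤ 6 * C0 + ρ * M ∧
    μ (em b - em (rnd ((m - ρ * m) • θ + z • F.ta))) ≤ 6 * C0 + ρ * M := by
  have hC0 := hN.Cge
  set σ : ℝ := F.h (em b) - F.lv b * F.h θ with hσ
  have hθd : θ = F.th + F.h θ • F.ta := by
    have := F.decomp θ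
    rwa [hθl, one_smul] at this
  have hbd : em b = F.lv b • θ + σ • F.ta := by
    have h1 := F.decomp (em b)
    have h2 : F.lv b = F.l (em b) := rfl
    conv_lhs => rw [h1]
    conv_rhs => rw [hθd]
    rw [hσ, ← h2]
    module
  obtain ⟨d, rfl⟩ : ∃ d, z = σ + ρ * d := ⟨(z - σ) / ρ, by field_simp; ring⟩
  have hd : |d| ≤ S := by
    rw [add_sub_cancel_left, abs_mul, abs_of_pos hρ] at hz
    exact le_of_mul_le_mul_left hz hρ
  have hd2 : |-d| ≤ S := by rw [abs_neg]; exact hd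
  have k1 := hS _ hd
  have k2 := hS _ hd2
  have hlb : |m - F.lv b| ≤ C0 := by rw [abs_le]; constructor <;> linarith
  have k3 : μ ((m - F.lv b) • θ) ≤ 5 * C0 := by
    rw [map_smul_eq_mul, Real.norm_eq_abs]
    have : 0 ≤ μ θ := apply_nonneg μ _
    have h0 := abs_nonneg (m - F.lv b)
    nlinarith
  have k4 : μ ((F.lv b - m) • θ) ≤ 5 * C0 := by
    rw [map_smul_eq_mul, Real.norm_eq_abs, abs_sub_comm]
    have : 0 ≤ μ θ := apply_nonneg μ _
    have h0 := abs_nonneg (m - F.lv b)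
    nlinarith
  constructor
  · set x := (m + ρ * m) • θ + (σ + ρ * d) • F.ta with hx
    have e : em (rnd x) - em b = (em (rnd x) - x) + ((m - F.lv b) • θ +
        ρ • (m • θ + d • F.ta)) := by
      have : x - em b = (m - F.lv b) • θ + ρ • (m • θ + d • F.ta) := by
        rw [hbd, hx]; module
      rw [← this]; abel
    rw [e]
    have r1 := rnd_mu hN x
    have r2 := map_add_le_add μ (em (rnd x) - x) ((m - F.lv b) • θ +
        ρ • (m • θ + d • F.ta))
    have r3 := map_add_le_add μ ((m - F.lv b) • θ) (ρ • (m • θ + d • F.ta))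
    rw [map_smul_eq_mul μ ρ, Real.norm_eq_abs, abs_of_pos hρ] at r3
    have r4 := mul_le_mul_of_nonneg_left k1 hρ.le
    linarith
  · set x := (m - ρ * m) • θ + (σ + ρ * d) • F.ta with hx
    have e : em b - em (rnd x) = ((F.lv b - m) • θ + ρ • (m • θ + (-d) • F.ta)) -
        (em (rnd x) - x) := by
      have : em b - x = (F.lv b - m) • θ + ρ • (m • θ + (-d) • F.ta) := by
        rw [hbd, hx]; module
      rw [← this]; abel
    rw [e]
    have r1 := rnd_mu hN x
    have r2 := map_sub_le_add μ ((F.lv b - m) • θ + ρ • (m • θ + (-d) • F.ta)) (em (rnd x) - x)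
    have r3 := map_add_le_add μ ((F.lv b - m) • θ) (ρ • (m • θ + (-d) • F.ta))
    rw [map_smul_eq_mul μ ρ, Real.norm_eq_abs, abs_of_pos hρ] at r3
    have r4 := mul_le_mul_of_nonneg_left k2 hρ.le
    linarith

/-- vectors near the level direction -/
theorem spl1_small (hN : Nrm μ c0 C0) (hv : HV μ κ A) (hG : GG μ κ0) (h0 : 0 < κ0)
    (h1 : κ0 < κ) (hκ1 : κ < 1) {u' κ1 : ℝ} (hu : u' = (κ - κ0) / 3)
    (hk1 : κ1 = κ0 + u' * (1 - κ0)) :
    ∃ C m0 : ℝ, 1 ≤ C ∧ 1 ≤ m0 ∧ ∀ (F : Frame μ) (w : V) (s : ℝ), m0 ≤ s → s ≤ F.lv w →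
      F.lv w ≤ 4 * s → hh w - F.lv w ≤ s ^ (1 - κ0 * (1 - u')) → ∃ w1 w2 : V,
      ‖em w1 + em w2 - (1 + s ^ (-u')) • em w‖ ≤ C ∧
      |F.lv w1 - (1 + s ^ (-u')) * F.lv w / 2| ≤ C ∧ |F.lv w2 - (1 + s ^ (-u')) * F.lv w / 2| ≤ C ∧
      (hh w1 - F.lv w1) + (hh w2 - F.lv w2) ≤ (hh w - F.lv w) + C * s ^ (1 - κ1) := by
  classical
  have hC0 := hN.Cge
  have hc0 := hN.cpos
  have hA := hv.Age
  have hu0 : 0 < u' := by rw [hu]; linarith
  have hu1 : u' < 1 / 3 := by rw [hu]; linarith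
  set κs : ℝ := κ0 * (1 - u') with hκs
  have hku := mul_pos h0 hu0
  have hκs0 : 0 < κs := mul_pos h0 (by linarith)
  have hκs1 : κs < κ0 := by rw [hκs]; linarith
  have hk1p : κs < κ1 := by rw [hk1, hκs]; linarith
  have hk1l : κ1 < 1 := by
    have := mul_pos (by linarith : 0 < 1 - κ0) (by linarith : 0 < 1 - u')
    rw [hk1]; linarith
  have hk1k : κ1 < κ := by rw [hk1]; linarith
  obtain ⟨A', hy⟩ := to_hyp hv hG h1.le
  obtain ⟨b', CL, hb', hCL, hbd⟩ := HL_all hN hy (h1.trans hκ1) linLow hκs1 hκs0.le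
  obtain ⟨CG, hCG, hΓ⟩ := hG
  -- constants
  set K1 : ℝ := 7 + 5 / c0 with hK1
  have hK1' : 7 ≤ K1 := by
    have : 0 < 5 / c0 := by positivity
    rw [hK1]; linarith
  set Q : ℝ := 1 + C0 * (54 * K1) with hQ
  have hQ1 : 1 ≤ Q := by
    have : 0 ≤ C0 * (54 * K1) := by positivity
    rw [hQ]; linarith
  set C6 : ℝ := 3 + 2 * (CL * Q) + 10 * C0 with hC6
  have hC6p : 0 < C6 := by positivity
  set C8 : ℝ := 3 + 6 * C0 + C6 with hC8
  set C7 : ℝ := 6 * C0 + C6 + CG * C8 with hC7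
  have hC7p : 0 < C7 := by positivity
  have e1 := ev_neg (a := u' * (1 + κ0)) (by positivity) (7 * (2 * (A * Q)))
    (e := 1 / 8) (by norm_num)
  have e2 := ev_exp (b := κ - κ1) (c := 1 / (A * Q)) (C := 81 * (27 * K1) ^ 4 * 3)
    (by linarith) (by positivity) (by positivity) 4 (e := 1 / 8) (by norm_num)
  have e3 := ev_exp (b := 1) (c := K1) (C := 9 * (26 * K1) ^ 2)
    one_pos (by linarith) (by positivity) 2 (e := 1 / 8) (by norm_num)
  have e4 := ev_exp (b := b') (c := (1 / 4) ^ b') (C := 9 * (26 * K1) ^ 2 * (2 * CL))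
    hb' (by positivity) (by positivity) 2 (e := 1 / 8) (by norm_num)
  have e5 := ev_neg (a := κ1) (by linarith) C6 (e := 1) one_pos
  obtain ⟨m0, hm0⟩ := eventually_atTop.1 ((e1.and e2).and ((e3.and e4).and
    (e5.and (eventually_ge_atTop (6 * C0)))))
  refine ⟨2 * C7 + 6 + 2 * C0, max m0 1, by linarith, le_max_right _ _,
    fun F w s hms hs1 hs2 hf => ?_⟩
  have hs1' : 1 ≤ s := (le_max_right _ _).trans hms
  have hs0 : 0 < s := by linarith
  obtain ⟨⟨g1, g2⟩, ⟨g3, g4⟩, g5, g6⟩ := hm0 s ((le_max_left _ _).trans hms)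
  set H : ℝ := hh w with hH
  have hlvmu : F.lv w ≤ μ (em w) := F.le _
  have hmuH : μ (em w) ≤ H := hv.ge w
  have hlw0 : 0 < F.lv w := by linarith
  -- powers of s
  set y : ℝ := s ^ (1 - κ1) with hydef
  set gs : ℝ := s ^ (1 - κs) with hgs
  set ρ : ℝ := s ^ (-u') with hρ
  have hy0 : 0 < y := Real.rpow_pos_of_pos hs0 _
  have hy1 : 1 ≤ y := Real.one_le_rpow hs1' (by linarith)
  have hgs1 : 1 ≤ gs := Real.one_le_rpow hs1' (by linarith)
  have hygs : y ≤ gs := Real.rpow_le_rpow_of_exponent_le hs1' (by linarith)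
  have hgss : gs ≤ s := by
    calc gs ≤ s ^ (1 : ℝ) := Real.rpow_le_rpow_of_exponent_le hs1' (by linarith)
      _ = s := Real.rpow_one s
  have hρ0 : 0 < ρ := Real.rpow_pos_of_pos hs0 _
  have hρ1 : ρ ≤ 1 := Real.rpow_le_one_of_one_le_of_nonpos hs1' (by linarith)
  have hρg : ρ * gs = y := by
    rw [hρ, hgs, hydef, ← Real.rpow_add hs0]; congr 1; rw [hk1, hκs]; ring
  have hsu : 1 ≤ s ^ (1 - u') := Real.one_le_rpow hs1' (by linarith)
  have hρs : ρ * s = s ^ (1 - u') := by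
    rw [hρ, ← Real.rpow_add_one hs0.ne']; congr 1; ring
  have hysu : y ≤ s ^ (1 - u') := by
    rw [← hρg, ← hρs]; gcongr
  have hC6y : C6 * y ≤ s := by
    have : s ^ (-κ1) * s = y := by
      rw [hydef, ← Real.rpow_add_one hs0.ne']; congr 1; ring
    calc C6 * y = (C6 * s ^ (-κ1)) * s := by rw [mul_assoc, this]
      _ ≤ 1 * s := by gcongr
      _ = s := one_mul s
  have hH5 : H ≤ 5 * s := by linarith
  set R : ℝ := K1 * s with hR
  have hR1 : 1 ≤ R := one_le_mul_of_one_le_of_one_le (by linarith) hs1'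
  have hwR : ‖em w‖ ≤ R := by
    have h5 : ‖em w‖ ≤ 5 * s / c0 := by
      rw [le_div_iff₀ hc0, mul_comm]
      exact ((hN.lo _).trans hmuH).trans hH5
    have h6 : 5 * s / c0 = 5 / c0 * s := by ring
    rw [hR, hK1]; linarith
  set m : ℝ := F.lv w / 2 with hm
  have hm0' : 0 < m := by rw [hm]; linarith
  have hm2s : m ≤ 2 * s := by rw [hm]; linarith
  -- the direction
  obtain ⟨θ, hθ⟩ : ∃ θ : ℝ × ℝ, θ = (F.lv w)⁻¹ • em w := ⟨_, rfl⟩
  have hθl : F.l θ = 1 := by
    rw [hθ, map_smul, smul_eq_mul]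
    show (F.lv w)⁻¹ * F.lv w = 1
    exact inv_mul_cancel₀ hlw0.ne'
  have hwθ : em w = F.lv w • θ := by rw [hθ, smul_smul, mul_inv_cancel₀ hlw0.ne', one_smul]
  have hθ5 : μ θ ≤ 5 := by
    rw [hθ, map_smul_eq_mul, Real.norm_eq_abs, abs_of_pos (inv_pos.2 hlw0), inv_mul_le_iff₀ hlw0]
    linarith
  have hθμ : m * μ θ = μ (em w) / 2 := by
    have : μ (em w) = F.lv w * μ θ := by
      conv_lhs => rw [hwθ]
      rw [map_smul_eq_mul, Real.norm_eq_abs, abs_of_pos hlw0]
    rw [this, hm]; ring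
  set g : ℝ := CL * Q * gs with hg
  set E1 : ℝ := H - F.lv w + y + 1 + 2 * g + 10 * C0 with hE1
  have hE1s : E1 ≤ C6 * gs := by
    have h10 : 10 * C0 * 1 ≤ 10 * C0 * gs := mul_le_mul_of_nonneg_left hgs1 (by linarith)
    rw [hE1, hg, hC6]; linarith
  set M : ℝ := m + E1 with hM
  set Rel : V → Prop := fun b => μ (em b) + μ (em (w - b)) ≤ (H + y + 1) + 2 * g with hRel
  set B : Finset V := (box (26 * R)).filter (fun b => m ≤ F.lv b ∧ F.lv b ≤ m + C0 ∧ Rel b) with hB
  have hg0 : 0 ≤ g := by positivity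
  obtain ⟨S, hS0, hSB, hS⟩ := half_width F θ (m := m) (M := M) B
    (fun b => F.h (em b) - F.lv b * F.h θ) (by
      rw [map_smul_eq_mul, Real.norm_eq_abs, abs_of_pos hm0', hθμ, hM, hE1, hm]
      linarith) (by
      intro b hb
      rw [hB, Finset.mem_filter] at hb
      obtain ⟨-, hb1, hb2, hb3⟩ := hb
      have hb3' : μ (em b) + μ (em (w - b)) ≤ (H + y + 1) + 2 * g := hb3
      set σ : ℝ := F.h (em b) - F.lv b * F.h θ with hσ
      have hθd : θ = F.th + F.h θ • F.ta := by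
        have := F.decomp θ
        rwa [hθl, one_smul] at this
      have hbd' : em b = F.lv b • θ + σ • F.ta := by
        have h1 := F.decomp (em b)
        have h2 : F.lv b = F.l (em b) := rfl
        conv_lhs => rw [h1]
        conv_rhs => rw [hθd]
        rw [hσ, ← h2]
        module
      have hlb : |F.lv b - m| ≤ C0 := by rw [abs_le]; constructor <;> linarith
      have k3 : μ ((F.lv b - m) • θ) ≤ 5 * C0 := by
        rw [map_smul_eq_mul, Real.norm_eq_abs, mul_comm 5 C0]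
        exact mul_le_mul hlb hθ5 (apply_nonneg μ _) (by linarith)
      have t1 : μ (m • θ + σ • F.ta) ≤ μ (em b) + 5 * C0 := by
        have e : m • θ + σ • F.ta = em b - (F.lv b - m) • θ := by rw [hbd']; module
        rw [e]
        exact (map_sub_le_add μ _ _).trans (by linarith)
      have t2 : μ (m • θ - σ • F.ta) ≤ μ (em (w - b)) + 5 * C0 := by
        have e : m • θ - σ • F.ta = em (w - b) + (F.lv b - m) • θ := by
          have h2m : F.lv w = m + m := by rw [hm]; ring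
          rw [em_sub, hbd', hwθ, h2m]; module
        rw [e]
        exact (map_add_le_add μ _ _).trans (by linarith)
      have t3 : m ≤ μ (m • θ + σ • F.ta) := by
        have := F.le (m • θ + σ • F.ta)
        rw [map_add, map_smul, map_smul, hθl, F.l_ta] at this
        simpa using this
      have t4 : m ≤ μ (m • θ - σ • F.ta) := by
        have := F.le (m • θ - σ • F.ta)
        rw [map_sub, map_smul, map_smul, hθl, F.l_ta] at this
        simpa using this
      have h2m : F.lv w = m + m := by rw [hm]; ring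
      constructor
      · show μ (m • θ + σ • F.ta) ≤ M
        rw [hM, hE1]; linarith
      · show μ (m • θ - σ • F.ta) ≤ M
        rw [hM, hE1]; linarith)
  -- the hubs
  set Mh : ℕ := ⌈s ^ u'⌉₊ + 1 with hMh
  have hsu' : 1 ≤ s ^ u' := Real.one_le_rpow hs1' hu0.le
  have hMh1 : s ^ u' + 1 ≤ Mh := by
    rw [hMh]; push_cast
    linarith [Nat.le_ceil (s ^ u')]
  have hMh2 : (Mh : ℝ) ≤ s ^ u' + 2 := by
    rw [hMh]; push_cast
    have := Nat.ceil_lt_add_one (a := s ^ u') (by positivity)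
    linarith
  set zz : Fin (2 * Mh + 1) → ℝ := fun i => (((i : ℕ) : ℝ) - Mh) * (ρ * S) with hzz
  set hat : Fin (2 * Mh + 1) → V := fun i => rnd ((m + ρ * m) • θ + zz i • F.ta) with hhat
  set chk : Fin (2 * Mh + 1) → V := fun i => rnd ((m - ρ * m) • θ + zz i • F.ta) with hchk
  set Xm : ℝ := 6 * C0 + ρ * M with hXm
  have hXm1 : Xm ≤ ρ * m + (6 * C0 + C6 * y) := by
    have : ρ * E1 ≤ C6 * y := by
      calc ρ * E1 ≤ ρ * (C6 * gs) := by gcongr
        _ = C6 * (ρ * gs) := by ring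
        _ = C6 * y := by rw [hρg]
    rw [hXm, hM, mul_add]; linarith
  have hρm : ρ * m ≤ 2 * (ρ * s) := by
    have := mul_le_mul_of_nonneg_left hm2s hρ0.le
    linarith
  have hXm2 : Xm ≤ 5 * s := by
    have : ρ * s ≤ 1 * s := mul_le_mul_of_nonneg_right hρ1 hs0.le
    linarith
  have hM0 : 0 ≤ M := by
    have := hS 0 (by rw [abs_zero]; exact hS0)
    exact (apply_nonneg μ _).trans this
  have hXm0 : 0 ≤ Xm := by rw [hXm]; positivity
  have hXpow : CG * (1 + Xm) ^ (1 - κ0) ≤ CG * C8 * y := by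
    rw [mul_assoc]
    refine mul_le_mul_of_nonneg_left ?_ hCG.le
    have h5 : 1 + Xm ≤ C8 * s ^ (1 - u') := by
      have h6 : ρ * m ≤ 2 * s ^ (1 - u') := by
        rw [← hρs]; exact hρm
      have h7 : C6 * y ≤ C6 * s ^ (1 - u') := by gcongr
      have h8 : (1 + 6 * C0) * 1 ≤ (1 + 6 * C0) * s ^ (1 - u') :=
        mul_le_mul_of_nonneg_left hsu (by linarith)
      rw [hC8]; linarith
    have h8 : (s ^ (1 - u')) ^ (1 - κ0) = y := by
      rw [← Real.rpow_mul hs0.le, hydef]; congr 1; rw [hk1]; ring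
    calc (1 + Xm) ^ (1 - κ0) ≤ (C8 * s ^ (1 - u')) ^ (1 - κ0) :=
          Real.rpow_le_rpow (by linarith) h5 (by linarith)
      _ ≤ C8 * (s ^ (1 - u')) ^ (1 - κ0) :=
          rpow_le_const_mul (by rw [hC8]; linarith) hsu (by linarith) (by linarith)
      _ = C8 * y := by rw [h8]
  have hhX : ∀ v : V, μ (em v) ≤ Xm → hh v ≤ ρ * m + C7 * y := by
    intro v hvX
    have h5 := hΓ v
    have h6 : CG * (1 + μ (em v)) ^ (1 - κ0) ≤ CG * (1 + Xm) ^ (1 - κ0) := by
      refine mul_le_mul_of_nonneg_left ?_ hCG.le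
      exact Real.rpow_le_rpow (by have := apply_nonneg μ (em v); linarith) (by linarith)
        (by linarith)
    have h8 : 6 * C0 * 1 ≤ 6 * C0 * y := mul_le_mul_of_nonneg_left hy1 (by linarith)
    rw [hC7]; linarith
  have hcl : CL * (1 + C0 * (27 * R)) ^ (1 - κs) ≤ g := by
    rw [hg, mul_assoc]
    refine mul_le_mul_of_nonneg_left ?_ hCL.le
    refine le_trans (Real.rpow_le_rpow (by positivity) (?_ : _ ≤ Q * s) (by linarith))
      (rpow_le_const_mul hQ1 hs1' (by linarith) (by linarith))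
    have h8 : 0 ≤ C0 * (27 * K1) * s := by positivity
    rw [hQ, hR]; linarith
  have hrelp := rel_prob hN hb' hCL hbd (by linarith : κs < 1) F w (R := R) (s := s) (g := g)
    (E := H + y + 1) hR1 hs0 (by linarith) hs1 hwR hcl
  have hqp : 9 * (26 * R) ^ 2 * (2 * (CL * Real.exp (-((s / 4) ^ b')))) ≤ 1 / 8 := by
    have : (s / 4) ^ b' = (1 / 4) ^ b' * s ^ b' := by
      rw [← Real.mul_rpow (by norm_num) hs0.le]; congr 1; ring
    rw [this]
    calc 9 * (26 * R) ^ 2 * (2 * (CL * Real.exp (-((1 / 4) ^ b' * s ^ b'))))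
        = 9 * (26 * K1) ^ 2 * (2 * CL) * s ^ 2 * Real.exp (-((1 / 4) ^ b' * s ^ b')) := by
          rw [hR]; ring
      _ ≤ 1 / 8 := g4
  have hZ : (1 + C0 * (54 * R)) ^ (1 - κ) ≤ Q * s ^ (1 - κ) := by
    refine le_trans (Real.rpow_le_rpow (by positivity) (?_ : _ ≤ Q * s) (by linarith))
      (rpow_le_const_mul hQ1 hs1' (by linarith) (by linarith))
    rw [hQ, hR]; linarith
  obtain ⟨k, hk⟩ := hub (m := m) (R := R) (y := y) (L := 2 * (ρ * m + C7 * y)) hN hv hκ1 F w hR1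
    hy0 hm0' (by rw [hm]; linarith) (by
      have : 7 * s ≤ R := mul_le_mul_of_nonneg_right hK1' hs0.le
      linarith) (by linarith) hat chk Rel
    (hrelp.trans (ENNReal.ofReal_le_ofReal hqp)) (by
      intro b hb1 hb2 hb3 hb4
      have hbB : b ∈ B := by
        rw [hB, Finset.mem_filter]
        exact ⟨mem_box.2 hb1, hb2, hb3, hb4⟩
      have hσS := hSB b hbB
      set σ : ℝ := F.h (em b) - F.lv b * F.h θ with hσ
      have hcov : ∃ i : Fin (2 * Mh + 1), |zz i - σ| ≤ ρ * S := by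
        rcases hS0.eq_or_lt with hSz | hSpos
        · refine ⟨⟨Mh, by omega⟩, ?_⟩
          have hσ0 : σ = 0 := by
            rw [← hSz] at hσS
            exact abs_eq_zero.1 (le_antisymm hσS (abs_nonneg _))
          rw [hzz, hσ0, ← hSz]
          simp
        · set r := ρ * S with hr
          have hr0 : 0 < r := by positivity
          have hfl1 := Int.floor_le (σ / r)
          have hfl2 := Int.lt_floor_add_one (σ / r)
          have hσr : |σ / r| ≤ s ^ u' := by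
            rw [abs_div, abs_of_pos hr0, div_le_iff₀ hr0]
            have : s ^ u' * ρ = 1 := by
              rw [hρ, ← Real.rpow_add hs0, add_neg_cancel, Real.rpow_zero]
            calc |σ| ≤ S := hσS
              _ = (s ^ u' * ρ) * S := by rw [this, one_mul]
              _ = s ^ u' * r := by rw [hr]; ring
          rw [abs_le] at hσr
          have hz1 : 0 ≤ ⌊σ / r⌋ + (Mh : ℤ) := by
            have : (-1 : ℝ) < ⌊σ / r⌋ + (Mh : ℝ) := by linarith
            have h8 : (-1 : ℤ) < ⌊σ / r⌋ + (Mh : ℤ) := by exact_mod_cast this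
            omega
          have hz2 : ⌊σ / r⌋ + (Mh : ℤ) < 2 * Mh + 1 := by
            have : (⌊σ / r⌋ : ℝ) + (Mh : ℝ) < 2 * Mh + 1 := by linarith
            exact_mod_cast this
          refine ⟨⟨(⌊σ / r⌋ + (Mh : ℤ)).toNat, by omega⟩, ?_⟩
          have h8 : (((⌊σ / r⌋ + (Mh : ℤ)).toNat : ℕ) : ℤ) = ⌊σ / r⌋ + Mh :=
            Int.toNat_of_nonneg hz1
          have h9 : (((⌊σ / r⌋ + (Mh : ℤ)).toNat : ℕ) : ℝ) = ⌊σ / r⌋ + Mh := by exact_mod_cast h8
          show |((((⌊σ / r⌋ + (Mh : ℤ)).toNat : ℕ) : ℝ) - Mh) * r - σ| ≤ r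
          rw [h9, add_sub_cancel_right, abs_sub_comm]
          have h10 : σ - ⌊σ / r⌋ * r = (σ / r - ⌊σ / r⌋) * r := by field_simp
          rw [h10, abs_mul, abs_of_pos hr0, abs_of_nonneg (by linarith)]
          exact mul_le_of_le_one_left hr0.le (by linarith)
      obtain ⟨i, hi⟩ := hcov
      obtain ⟨x1, x2⟩ := hub_geo hN F hθl hθ5 hρ0 hS hb2 hb3 hi
      have x1' : μ (em (hat i - b)) ≤ Xm := by rw [em_sub]; exact x1
      have x2' : μ (em (b - chk i)) ≤ Xm := by rw [em_sub]; exact x2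
      have hXR : Xm / c0 ≤ R := by
        rw [div_le_iff₀ hc0, hR, hK1]
        have : (7 + 5 / c0) * s * c0 = 7 * s * c0 + 5 * s := by field_simp
        rw [this]
        have : 0 ≤ 7 * s * c0 := by positivity
        linarith
      refine ⟨i, ?_, ?_, ?_⟩
      · have := hhX _ x1'
        have := hhX _ x2'
        linarith
      · have n1 : ‖em (hat i - b)‖ ≤ Xm / c0 := by
          rw [le_div_iff₀ hc0, mul_comm]
          exact (hN.lo _).trans x1'
        have e : em (hat i) = em (hat i - b) + em b := by rw [em_sub]; abel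
        rw [e]
        refine (norm_add_le _ _).trans ?_
        linarith
      · have n1 : ‖em (b - chk i)‖ ≤ Xm / c0 := by
          rw [le_div_iff₀ hc0, mul_comm]
          exact (hN.lo _).trans x2'
        have e : em (chk i) = em b - em (b - chk i) := by rw [em_sub]; abel
        rw [e]
        refine (norm_sub_le _ _).trans ?_
        linarith) (by
      have h6 : ((2 * Mh + 1 : ℕ) : ℝ) ≤ 7 * s ^ u' := by
        push_cast; linarith
      have h7 : s ^ u' * (s ^ (1 - κ) / y) = s ^ (-(u' * (1 + κ0))) := by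
        rw [hydef, ← Real.rpow_sub hs0, ← Real.rpow_add hs0]
        congr 1
        rw [hk1]
        have : κ = κ0 + 3 * u' := by rw [hu]; ring
        rw [this]; ring
      calc ((2 * Mh + 1 : ℕ) : ℝ) * (2 * (A * (1 + C0 * (54 * R)) ^ (1 - κ) / y))
          ≤ (7 * s ^ u') * (2 * (A * (Q * s ^ (1 - κ)) / y)) := by gcongr
        _ = 7 * (2 * (A * Q)) * (s ^ u' * (s ^ (1 - κ) / y)) := by ring
        _ ≤ 1 / 8 := by rw [h7]; exact g1) (by
      have h6 : 1 / (A * Q) * s ^ (κ - κ1) ≤ y / (A * (1 + C0 * (54 * R)) ^ (1 - κ)) := by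
        have h7 : y = s ^ (κ - κ1) * s ^ (1 - κ) := by
          rw [hydef, ← Real.rpow_add hs0]; congr 1; ring
        rw [le_div_iff₀ (by positivity)]
        calc 1 / (A * Q) * s ^ (κ - κ1) * (A * (1 + C0 * (54 * R)) ^ (1 - κ))
            ≤ 1 / (A * Q) * s ^ (κ - κ1) * (A * (Q * s ^ (1 - κ))) := by gcongr
          _ = s ^ (κ - κ1) * s ^ (1 - κ) := by field_simp
          _ = y := h7.symm
      calc 81 * (27 * R) ^ 4 * (3 * Real.exp (-(y / (A * (1 + C0 * (54 * R)) ^ (1 - κ)))))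
          ≤ 81 * (27 * R) ^ 4 * (3 * Real.exp (-(1 / (A * Q) * s ^ (κ - κ1)))) := by gcongr
        _ = 81 * (27 * K1) ^ 4 * 3 * s ^ 4 * Real.exp (-(1 / (A * Q) * s ^ (κ - κ1))) := by
            rw [hR]; ring
        _ ≤ 1 / 8 := g2) (by
      have : 9 * (26 * R) ^ 2 * Real.exp (-R) =
          9 * (26 * K1) ^ 2 * s ^ 2 * Real.exp (-(K1 * s ^ (1 : ℝ))) := by
        rw [Real.rpow_one, hR]; ring
      rw [this]; exact g3)
  -- conclusion
  have a1 := lv_rnd hN F ((m + ρ * m) • θ + zz k • F.ta)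
  have a2 := lv_rnd hN F ((m - ρ * m) • θ + zz k • F.ta)
  have a3 : F.l ((m + ρ * m) • θ + zz k • F.ta) = m + ρ * m := by
    rw [map_add, map_smul, map_smul, hθl, F.l_ta]; simp
  have a4 : F.l ((m - ρ * m) • θ + zz k • F.ta) = m - ρ * m := by
    rw [map_add, map_smul, map_smul, hθl, F.l_ta]; simp
  rw [a3] at a1
  rw [a4] at a2
  have a1' : |F.lv (hat k) - (m + ρ * m)| ≤ C0 := a1
  have a2' : |F.lv (chk k) - (m - ρ * m)| ≤ C0 := a2
  have hhalf : (1 + ρ) * F.lv w / 2 = m + ρ * m := by rw [hm]; ring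
  have h2m : F.lv w = m + m := by rw [hm]; ring
  have b1 := abs_le.1 a1'
  have b2 := abs_le.1 a2'
  refine ⟨hat k, w - chk k, ?_, ?_, ?_, ?_⟩
  · have r1 := rnd_norm ((m + ρ * m) • θ + zz k • F.ta)
    have r2 := rnd_norm ((m - ρ * m) • θ + zz k • F.ta)
    have e : em (hat k) + em (w - chk k) - (1 + ρ) • em w =
        (em (hat k) - ((m + ρ * m) • θ + zz k • F.ta)) -
        (em (chk k) - ((m - ρ * m) • θ + zz k • F.ta)) := by
      have e1 : (1 + ρ) • em w = em w + ((m + ρ * m) • θ + zz k • F.ta) -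
          ((m - ρ * m) • θ + zz k • F.ta) := by
        rw [hwθ, h2m]; module
      rw [e1, em_sub]; abel
    rw [e]
    refine (norm_sub_le _ _).trans ?_
    linarith
  · rw [hhalf]; linarith
  · rw [hhalf, F.lv_sub, abs_le]
    constructor <;> linarith
  · rw [F.lv_sub]
    have h8 : (1 + 2 * C0) * 1 ≤ (1 + 2 * C0) * y := mul_le_mul_of_nonneg_left hy1 (by linarith)
    linarith

theorem spl1 (hN : Nrm μ c0 C0) (hv : HV μ κ A) (hG : GG μ κ0) (h0 : 0 < κ0)
    (h1 : κ0 < κ) (hκ1 : κ < 1) : SP μ (κ0 + (κ - κ0) / 3 * (1 - κ0)) := by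
  set u' : ℝ := (κ - κ0) / 3 with hu
  have hu0 : 0 < u' := by rw [hu]; linarith
  have hu1 : u' < 1 / 3 := by rw [hu]; linarith
  obtain ⟨Cb, mb, hCb, hmb, hbig⟩ := spl1_big hN hv hG h0 (h1.trans hκ1) hu0 (by linarith)
  obtain ⟨Cs, ms, hCs, hms, hsmall⟩ := spl1_small hN hv hG h0 h1 hκ1 hu rfl
  refine ⟨κ0 * u', Cb + Cs, max mb ms, by positivity, by linarith, le_max_of_le_left hmb,
    fun s => s ^ (-u'), fun s hs => ⟨by positivity, ?_⟩, fun F w s hm hs1 hs2 => ?_⟩
  · refine Real.rpow_le_rpow_of_exponent_le hs ?_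
    nlinarith
  have hsb : mb ≤ s := (le_max_left _ _).trans hm
  have hss : ms ≤ s := (le_max_right _ _).trans hm
  have hs1' : 1 ≤ s := hmb.trans hsb
  have hs0 : 0 < s := by linarith
  have hpow : 1 ≤ s ^ (1 - (κ0 + u' * (1 - κ0))) := Real.one_le_rpow hs1' (by nlinarith)
  have ha : 0 < s ^ (-(κ0 * u')) := Real.rpow_pos_of_pos hs0 _
  have hf0 : 0 ≤ hh w - F.lv w := by
    have : F.lv w ≤ μ (em w) := F.le _
    have := hv.ge w
    linarith
  rcases le_total (s ^ (1 - κ0 * (1 - u'))) (hh w - F.lv w) with h | h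
  · obtain ⟨w1, w2, q1, q2, q3, q4⟩ := hbig F w s hsb hs1 hs2 h
    refine ⟨w1, w2, by linarith, by linarith, by linarith, q4.trans ?_⟩
    have : Cb * s ^ (-(κ0 * u')) * (hh w - F.lv w) ≤
        (Cb + Cs) * s ^ (-(κ0 * u')) * (hh w - F.lv w) := by
      gcongr
      linarith
    nlinarith
  · obtain ⟨w1, w2, q1, q2, q3, q4⟩ := hsmall F w s hss hs1 hs2 h
    refine ⟨w1, w2, by linarith, by linarith, by linarith, q4.trans ?_⟩
    have : 0 ≤ (Cb + Cs) * s ^ (-(κ0 * u')) * (hh w - F.lv w) := by positivity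
    nlinarith

end Pool.Agent.J4.H91.FPP
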