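import Pool.Agent.J4.H91.FPP.Rows

set_option autoImplicit false
open MeasureTheory ProbabilityTheory Filter Set
open scoped ENNReal Topology

/-!
# One improvement step for the lower tail (helper91)
-/

namespace Pool.Agent.J4.H91.FPP

open Pool.Agent.N662.FP hiding em

variable {μ : Seminorm ℝ (ℝ × ℝ)} {c0 C0 κ A : ℝ}

/-- the lower tail at the exponent `κ` -/
def HL (μ : Seminorm ℝ (ℝ × ℝ)) (κ : ℝ) : Prop :=
  ∃ b C : ℝ, 0 < b ∧ 0 < C ∧ ∀ v : V,
    PP {x | dR 0 v x < μ (em v) - C * (1 + μ (em v)) ^ (1 - κ)} ≤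
      ENNReal.ofReal (C * Real.exp (-(μ (em v) ^ b)))

theorem half_pow_le {s t : ℝ} (h : t ≤ s) : ((1 : ℝ) / 2) ^ s ≤ Real.exp (-(t / 2)) ∨ t < 0 := by
  rcases lt_or_ge t 0 with h0 | h0
  · exact Or.inr h0
  left
  rw [Real.rpow_def_of_pos (by norm_num), Real.exp_le_exp, Real.log_div one_ne_zero two_ne_zero,
    Real.log_one, zero_sub]
  have h1 := Real.log_two_gt_d9
  have h2 : (1 : ℝ) / 2 ≤ Real.log 2 := by linarith
  nlinarith

/-- lower bounds for all pairs at the given level difference -/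
theorem old_prob (hN : Nrm μ c0 C0) (hlin : LinLow) {κ0 : ℝ} (h0 : 0 ≤ κ0) (h1 : κ0 < 1)
    (hL : HL μ κ0) :
    ∃ b C2 C' : ℝ, 0 < b ∧ b ≤ 1 ∧ 0 < C2 ∧ 0 < C' ∧ ∀ (F : Frame μ) (m R : ℝ), 2 * C0 + 2 ≤ m →
      1 ≤ R → PP {x | ∃ a : V, ‖em a‖ ≤ R ∧ x ∈ {x | ∃ b : V, ‖em b‖ ≤ R ∧
        x ∈ {x | |F.lv (b - a) - m| ≤ C0 ∧ dR a b x < F.lv (b - a) +
          1 / (50 * C0) * (μ (em (b - a)) - F.lv (b - a)) - C2 * m ^ (1 - κ0)}}} ≤
        ENNReal.ofReal (C' * R ^ 4 * Real.exp (-((m / 2) ^ b))) := by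
  have hC0 := hN.Cge
  obtain ⟨b, C, hb, hC, hbd⟩ := hL
  refine ⟨min b 1, C * (101 * C0), 81 * (C + 1), lt_min hb one_pos, min_le_right _ _,
    by positivity, by positivity, fun F m R hm hR => ?_⟩
  have hm1 : 1 ≤ m / 2 := by linarith
  have hm0 : 0 < m := by linarith
  set q : ℝ := (C + 1) * Real.exp (-((m / 2) ^ (min b 1))) with hq
  have hq0 : 0 ≤ q := by positivity
  have key : ∀ a c : V, PP {x | |F.lv (c - a) - m| ≤ C0 ∧ dR a c x < F.lv (c - a) +
      1 / (50 * C0) * (μ (em (c - a)) - F.lv (c - a)) - C * (101 * C0) * m ^ (1 - κ0)} ≤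
      ENNReal.ofReal q := by
    intro a c
    by_cases hlv : |F.lv (c - a) - m| ≤ C0
    swap
    · have : {x | |F.lv (c - a) - m| ≤ C0 ∧ dR a c x < F.lv (c - a) +
        1 / (50 * C0) * (μ (em (c - a)) - F.lv (c - a)) - C * (101 * C0) * m ^ (1 - κ0)} = ∅ := by
        ext x
        simp [hlv]
      rw [this, measure_empty]; exact bot_le
    rw [abs_le] at hlv
    set Δ := c - a with hΔ
    have hle : F.lv Δ ≤ μ (em Δ) := F.le _
    have hmu : m / 2 ≤ μ (em Δ) := by linarith [hlv.1]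
    have hc2 : 1 / (50 * C0) ≤ 1 := by
      rw [div_le_one (by positivity)]; linarith
    have hc20 : 0 < 1 / (50 * C0) := by positivity
    rcases le_or_gt (μ (em Δ)) (100 * C0 * m) with hA | hB
    · have hsub : {x | |F.lv Δ - m| ≤ C0 ∧ dR a c x < F.lv Δ +
          1 / (50 * C0) * (μ (em Δ) - F.lv Δ) - C * (101 * C0) * m ^ (1 - κ0)} ⊆
          {x | dR a c x ∈ Iio (μ (em Δ) - C * (1 + μ (em Δ)) ^ (1 - κ0))} := by
        rintro x ⟨-, hx⟩
        show dR a c x < μ (em Δ) - C * (1 + μ (em Δ)) ^ (1 - κ0)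
        refine hx.trans_le ?_
        have e1 : (1 + μ (em Δ)) ^ (1 - κ0) ≤ (101 * C0) * m ^ (1 - κ0) := by
          refine le_trans (Real.rpow_le_rpow (by positivity) (?_ : _ ≤ (101 * C0) * m)
            (by linarith)) (rpow_le_const_mul (by linarith) (by linarith) (by linarith)
            (by linarith))
          nlinarith
        have e2 : C * (1 + μ (em Δ)) ^ (1 - κ0) ≤ C * (101 * C0) * m ^ (1 - κ0) := by
          rw [mul_assoc]
          exact mul_le_mul_of_nonneg_left e1 hC.le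
        nlinarith
      refine (measure_mono hsub).trans ?_
      rw [dR_prob a c measurableSet_Iio]
      refine (hbd Δ).trans (ENNReal.ofReal_le_ofReal ?_)
      have e3 : (m / 2) ^ (min b 1) ≤ μ (em Δ) ^ b :=
        (Real.rpow_le_rpow_of_exponent_le hm1 (min_le_left _ _)).trans
          (Real.rpow_le_rpow (by linarith) hmu hb.le)
      have e4 : Real.exp (-(μ (em Δ) ^ b)) ≤ Real.exp (-((m / 2) ^ (min b 1))) :=
        Real.exp_le_exp.2 (neg_le_neg e3)
      have e5 := Real.exp_pos (-((m / 2) ^ (min b 1)))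
      calc C * Real.exp (-(μ (em Δ) ^ b)) ≤ C * Real.exp (-((m / 2) ^ (min b 1))) := by gcongr
        _ ≤ q := by rw [hq]; nlinarith
    · have hnorm : μ (em Δ) / C0 ≤ ‖em Δ‖ := by
        rw [div_le_iff₀ (by linarith), mul_comm]; exact hN.hi _
      have hnm : m ≤ ‖em Δ‖ := by
        refine le_trans ?_ hnorm
        rw [le_div_iff₀ (by linarith)]
        nlinarith
      have hsub : {x | |F.lv Δ - m| ≤ C0 ∧ dR a c x < F.lv Δ +
          1 / (50 * C0) * (μ (em Δ) - F.lv Δ) - C * (101 * C0) * m ^ (1 - κ0)} ⊆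
          {x | dR a c x ∈ Iio (‖em Δ‖ / 25)} := by
        rintro x ⟨-, hx⟩
        show dR a c x < ‖em Δ‖ / 25
        refine hx.trans_le ?_
        have e1 : 0 ≤ C * (101 * C0) * m ^ (1 - κ0) := by positivity
        have e2 : 2 * m ≤ 1 / (50 * C0) * μ (em Δ) := by
          rw [one_div, inv_mul_eq_div, le_div_iff₀ (by positivity)]
          nlinarith
        have e3 : 1 / (50 * C0) * μ (em Δ) + 1 / (50 * C0) * μ (em Δ) = (μ (em Δ) / C0) / 25 := by
          field_simp; ring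
        have e4 : (μ (em Δ) / C0) / 25 ≤ ‖em Δ‖ / 25 := by linarith
        have e5 : 0 ≤ 1 / (50 * C0) * F.lv Δ := by
          have : 0 ≤ F.lv Δ := by linarith [hlv.1]
          positivity
        have e6 := hlv.2
        rw [mul_sub]
        linarith
      refine (measure_mono hsub).trans ?_
      rw [dR_prob a c measurableSet_Iio]
      refine (hlin Δ).trans (ENNReal.ofReal_le_ofReal ?_)
      rcases half_pow_le (s := ‖em Δ‖) (t := m) hnm with e1 | e1
      · refine e1.trans ?_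
        have e2 : (m / 2) ^ (min b 1) ≤ m / 2 := by
          calc (m / 2) ^ (min b 1) ≤ (m / 2) ^ (1 : ℝ) :=
                Real.rpow_le_rpow_of_exponent_le hm1 (min_le_right _ _)
            _ = m / 2 := Real.rpow_one _
        have e3 : Real.exp (-(m / 2)) ≤ Real.exp (-((m / 2) ^ (min b 1))) :=
          Real.exp_le_exp.2 (neg_le_neg e2)
        have e5 := Real.exp_pos (-((m / 2) ^ (min b 1)))
        rw [hq]; nlinarith
      · linarith
  have h2 := prob_box (r := R) hR (q := 9 * R ^ 2 * q) (E := fun a => {x | ∃ b : V, ‖em b‖ ≤ R ∧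
      x ∈ {x | |F.lv (b - a) - m| ≤ C0 ∧ dR a b x < F.lv (b - a) +
        1 / (50 * C0) * (μ (em (b - a)) - F.lv (b - a)) - C * (101 * C0) * m ^ (1 - κ0)}})
    (by positivity) (fun a _ => prob_box (r := R) hR hq0 (fun c _ => key a c))
  refine h2.trans (ENNReal.ofReal_le_ofReal (le_of_eq ?_))
  rw [hq]; ring

/-- paths of small passage time stay in a box -/
theorem far_prob (hlin : LinLow) {n : ℝ} (hn : 1 ≤ n) :
    PP {x | ∃ a : V, ‖em a‖ ≤ 26 * n ∧ x ∈ {x | 25 * n ≤ ‖em a‖ ∧ dR 0 a x < ‖em a‖ / 25}} ≤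
      ENNReal.ofReal (9 * (26 * n) ^ 2 * Real.exp (-n)) := by
  refine prob_box (r := 26 * n) (by linarith) (Real.exp_pos _).le fun a _ => ?_
  by_cases ha : 25 * n ≤ ‖em a‖
  · have hsub : {x | 25 * n ≤ ‖em a‖ ∧ dR 0 a x < ‖em a‖ / 25} ⊆ {x | dR 0 a x < ‖em a‖ / 25} :=
      fun x hx => hx.2
    refine (measure_mono hsub).trans ((hlin a).trans (ENNReal.ofReal_le_ofReal ?_))
    rcases half_pow_le (s := ‖em a‖) (t := 2 * n) (by linarith) with h | h
    · have e : 2 * n / 2 = n := by ring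
      rwa [e] at h
    · linarith
  · have : {x | 25 * n ≤ ‖em a‖ ∧ dR 0 a x < ‖em a‖ / 25} = ∅ := by
      ext x; simp [ha]
    rw [this, measure_empty]; exact bot_le

theorem in_box {n : ℝ} (hn : 1 ≤ n) {x : En}
    (hx : ¬ ∃ a : V, ‖em a‖ ≤ 26 * n ∧ x ∈ {x | 25 * n ≤ ‖em a‖ ∧ dR 0 a x < ‖em a‖ / 25})
    {v : V} {k : ℕ} {p : ℕ → V} (hp : Fu 0 v k p) (ht : (tm x k p).toReal < n) :
    ∀ i ≤ k, ‖em (p i)‖ ≤ 26 * n := by
  classical
  obtain ⟨hp0, -, hps⟩ := hp
  by_contra hcon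
  push Not at hcon
  obtain ⟨i, hi, hbig⟩ := hcon
  have hex : ∃ j, 25 * n ≤ ‖em (p j)‖ := ⟨i, by linarith⟩
  have hj1 := Nat.find_spec hex
  have hji : Nat.find hex ≤ i := Nat.find_min' hex (by linarith)
  have hj0 : Nat.find hex ≠ 0 := by
    intro h
    rw [h, hp0, em_zero, norm_zero] at hj1
    linarith
  have hj2 := Nat.find_min hex (m := Nat.find hex - 1) (by omega)
  rw [not_le] at hj2
  have h1 := norm_step (hps (Nat.find hex - 1) (by omega))
  rw [show Nat.find hex - 1 + 1 = Nat.find hex by omega] at h1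
  have h2 : ‖em (p (Nat.find hex))‖ ≤ 26 * n := by
    have e : em (p (Nat.find hex)) = (em (p (Nat.find hex)) - em (p (Nat.find hex - 1))) +
      em (p (Nat.find hex - 1)) := by abel
    rw [e]
    refine (norm_add_le _ _).trans ?_
    linarith
  apply hx
  refine ⟨p (Nat.find hex), h2, hj1, ?_⟩
  have h3 := dR_le_tm (i := 0) (j := Nat.find hex) hps (Nat.zero_le _) (hji.trans hi) x
  rw [hp0] at h3
  have h4 : (tm x (Nat.find hex - 0) (sh 0 p)).toReal ≤ (tm x k p).toReal :=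
    ENNReal.toReal_mono (tm_lt_top _ _ _).ne (tm_sh_le p x (by omega))
  linarith

theorem step_core (hN : Nrm μ c0 C0) (hy : Hyp μ κ A) (hκ1 : κ < 1) (hlin : LinLow) {κ0 u : ℝ}
    (h0 : 0 ≤ κ0) (hu : 0 < u) (h4 : κ0 + 4 * u < κ) (hL : HL μ κ0) :
    ∃ b K M0 : ℝ, 0 < b ∧ b ≤ 1 ∧ 1 ≤ K ∧ 1 ≤ M0 ∧ ∀ (v : V) (N : ℕ) (m : ℝ), 1 ≤ N → M0 ≤ m →
      μ (em v) = N * m →
      PP {x | dR 0 v x < N * m - 2 * (N * m ^ (1 - (κ0 + u)))} ≤
        ENNReal.ofReal (K * Real.exp (-(N / (K * m ^ u))) +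
          K * (N * m) ^ 4 * Real.exp (-((m / 2) ^ b))) := by
  have hC0 := hN.Cge
  have hc0 := hN.cpos
  obtain ⟨b, C2, C', hb0, hb1, hC2, hC', hold⟩ := old_prob hN hlin h0 (by linarith) hL
  set κ'' : ℝ := κ0 + u with hκ''
  set κ' : ℝ := (κ0 + 4 * u + κ) / 2 with hκ'
  obtain ⟨C1, m1, hC1, hm1, hcell⟩ := cell (κ' := κ') (κ'' := κ'') (S := 4 * C0) hN hy hκ1
    (by rw [hκ'']; linarith) (by rw [hκ'', hκ']; linarith) (by rw [hκ']; linarith) (by linarith)
  set c2 : ℝ := 1 / (50 * C0) with hc2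
  have hc20 : 0 < c2 := by positivity
  set C5 : ℝ := 2 + 8 * (C2 / c2 + 2 * C0) with hC5
  set C6 : ℝ := C0 + C2 with hC6
  have hC5p : 0 < C5 := by positivity
  have hC6p : 0 < C6 := by positivity
  set C9 : ℝ := 2 * Real.exp 1 * C1 * (1 + 4 * C5 * C6) * (4 * C6) with hC9
  have hC9p : 0 < C9 := by positivity
  have hev : ∀ᶠ m : ℝ in atTop, C9 * m ^ (κ'' - κ' + 3 * u) ≤ 1 ∧ 1 ≤ m := by
    have e1 : 0 < -(κ'' - κ' + 3 * u) := by rw [hκ'', hκ']; linarith
    have e2 := (tendsto_rpow_neg_atTop e1).const_mul C9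
    rw [mul_zero] at e2
    filter_upwards [e2.eventually (ge_mem_nhds one_pos), eventually_ge_atTop 1] with m h1 h2
    refine ⟨?_, h2⟩
    simpa using h1
  obtain ⟨m2, hm2⟩ := eventually_atTop.1 hev
  set K : ℝ := 3 + 2 * C6 + 9 * 26 ^ 2 + C' * 26 ^ 4 with hK
  refine ⟨b, K, max (max m1 m2) (2 * C0 + 2), hb0, hb1, ?_, ?_, ?_⟩
  · rw [hK]
    have : 0 ≤ 2 * C6 + 9 * 26 ^ 2 + C' * 26 ^ 4 := by positivity
    linarith
  · exact le_max_of_le_right (by linarith)
  intro v N m hN1 hm hv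
  have hmm1 : m1 ≤ m := (le_max_left _ _).trans ((le_max_left _ _).trans hm)
  have hmm2 : m2 ≤ m := (le_max_right _ _).trans ((le_max_left _ _).trans hm)
  have hmC : 2 * C0 + 2 ≤ m := (le_max_right _ _).trans hm
  obtain ⟨hsmall, hm1'⟩ := hm2 m hmm2
  have hm0 : 0 < m := by linarith
  have hNr : (1 : ℝ) ≤ N := by exact_mod_cast hN1
  have hN0 : (0 : ℝ) < N := by linarith
  have hNm : m ≤ N * m := by nlinarith
  -- the frame
  obtain ⟨F, hF⟩ := exists_frame (μ := μ) (x := em v) (by rw [hv]; positivity)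
  have hlv : F.lv v = N * m := by
    have e : em v = μ (em v) • F.th := by
      rw [hF, smul_smul, mul_inv_cancel₀ (by rw [hv]; positivity), one_smul]
    show F.l (em v) = N * m
    rw [e, map_smul, F.lth, smul_eq_mul, mul_one, hv]
  set y : ℝ := m ^ (1 - κ'') with hydef
  set t : ℝ := m ^ u with htdef
  set g : ℝ := m ^ (1 - κ0) with hgdef
  have hy0 : 0 < y := Real.rpow_pos_of_pos hm0 _
  have ht0 : 0 < t := Real.rpow_pos_of_pos hm0 _
  have hg0 : 0 < g := Real.rpow_pos_of_pos hm0 _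
  have hgyt : g = y * t := by
    rw [hydef, htdef, hgdef, ← Real.rpow_add hm0]; congr 1; rw [hκ'']; ring
  have hy1 : 1 ≤ y := Real.one_le_rpow hm1' (by rw [hκ'']; linarith)
  have ht1 : 1 ≤ t := Real.one_le_rpow hm1' hu.le
  have hyt1 : 1 ≤ y * t := by nlinarith
  obtain ⟨wp, wm, hwp, hwm, hprof, hwid, -⟩ := width hN F hm0 (by positivity : 0 < y / 8)
  set w : ℝ := wp + wm with hw
  have hw0 : 0 < w := by positivity
  set J : ℝ := N * (2 + (C2 * g / c2 + 2 * C0) / (y / 8)) with hJ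
  set k : ℝ := N * y / (C0 + C2 * g) - 1 with hk
  set a : ℝ := 4 * C5 * C6 * t ^ 2 with ha
  have ha0 : 0 < a := by positivity
  set q : ℝ := C1 * m ^ (κ'' - κ') with hq
  have hq0 : 0 ≤ q := by positivity
  classical
  -- the events
  have hsub : {x | dR 0 v x < N * m - 2 * (N * y)} ⊆
      {x | ∃ a : V, ‖em a‖ ≤ 26 * (N * m) ∧ x ∈ {x | 25 * (N * m) ≤ ‖em a‖ ∧
        dR 0 a x < ‖em a‖ / 25}} ∪
      ({x | ∃ a : V, ‖em a‖ ≤ 26 * (N * m) ∧ x ∈ {x | ∃ b : V, ‖em b‖ ≤ 26 * (N * m) ∧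
        x ∈ {x | |F.lv (b - a) - m| ≤ C0 ∧ dR a b x < F.lv (b - a) +
          1 / (50 * C0) * (μ (em (b - a)) - F.lv (b - a)) - C2 * m ^ (1 - κ0)}}} ∪
      {x | ∃ D : ℕ → ℤ, D 0 = 0 ∧ ∑ j ∈ Finset.range N, |((D (j + 1) - D j : ℤ) : ℝ)| ≤ J ∧
        k ≤ (({j ∈ Finset.range N | x ∈ Bad F C0 m w y j (D (j + 1))} : Finset ℕ)).card}) := by
    intro x hx
    by_contra hno
    simp only [mem_union, not_or] at hno
    obtain ⟨n1, n2, n3⟩ := hno
    apply n3
    obtain ⟨n, p, hp, ht⟩ := dR_lt hx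
    have ht' : (tm x n p).toReal < N * m - 2 * (N * y) := ENNReal.toReal_lt_of_lt_ofReal ht
    have hNy : 0 ≤ (N : ℝ) * y := by positivity
    have hbox := in_box (n := N * m) (by linarith) n1 hp (by linarith)
    refine count hN F (R := 26 * (N * m)) hm0 hy0 hw0 hc20 (by positivity : 0 ≤ C2 * g) hwid hN1 hlv
      ?_ le_rfl ?_ hp hbox ht'.le
    · intro a b hab hbb hlb
      by_contra hcon
      rw [not_le] at hcon
      exact n2 ⟨a, hab, b, hbb, hlb, hcon⟩
    · rw [hk]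
      have : 0 < C0 + C2 * g := by positivity
      rw [sub_add_cancel, div_mul_cancel₀ _ this.ne']
  have p1 := far_prob hlin (n := N * m) (by linarith)
  have p2 := hold F m (26 * (N * m)) hmC (by linarith)
  have p3 := chain (N := N) (B := fun i c => Bad F C0 m w y i c) (S := fun i => RS F m i) ha0 hq0
    (fun i c => Bad_meas F C0 m w y i c) (fun i j hij => RS_disj F hm0 i j hij)
    (fun i c x z h hx => Bad_loc F hm0 w y i c x z h hx) (fun i _ c => by
      obtain ⟨z, hz⟩ := Bad_incl hN F hw hwp hwm hprof (by linarith) i c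
      refine (measure_mono hz).trans ?_
      rw [prob_shift z (CB_meas F m (4 * C0) y)]
      exact hcell F m hmm1) k J
  -- exponents
  have hNt : 0 < N / (4 * C6 * t) := by positivity
  have x1 : J / a ≤ N / (4 * C6 * t) := by
    have e1 : (C2 * g / c2 + 2 * C0) / (y / 8) ≤ 8 * (C2 / c2 + 2 * C0) * t := by
      rw [div_le_iff₀ (by positivity), hgyt]
      have e2 : 8 * (C2 / c2 + 2 * C0) * t * (y / 8) = C2 * (y * t) / c2 + 2 * C0 * (y * t) := by
        field_simp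
      rw [e2]
      nlinarith
    have e2 : J ≤ N * (C5 * t) := by
      rw [hJ]
      refine mul_le_mul_of_nonneg_left ?_ hN0.le
      rw [hC5]
      nlinarith
    rw [div_le_iff₀ ha0]
    refine e2.trans (le_of_eq ?_)
    rw [ha]; field_simp
  have x2 : N / (C6 * t) - 1 ≤ k := by
    rw [hk]
    refine sub_le_sub_right ?_ 1
    rw [div_le_div_iff₀ (by positivity) (by positivity), hgyt, hC6]
    have : C0 + C2 * (y * t) ≤ (C0 + C2) * (y * t) := by nlinarith
    calc N * (C0 + C2 * (y * t)) ≤ N * ((C0 + C2) * (y * t)) :=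
          mul_le_mul_of_nonneg_left this hN0.le
      _ = _ := by ring
  have x3 : 2 * Real.exp 1 * q * (1 + a) * N ≤ N / (4 * C6 * t) := by
    rw [le_div_iff₀ (by positivity)]
    have e1 : 1 + a ≤ (1 + 4 * C5 * C6) * t ^ 2 := by
      rw [ha]; nlinarith [mul_pos hC5p hC6p]
    have e2 : m ^ (κ'' - κ' + 3 * u) = m ^ (κ'' - κ') * t ^ 3 := by
      rw [Real.rpow_add hm0, htdef, ← Real.rpow_natCast (m ^ u) 3, ← Real.rpow_mul hm0.le]
      congr 2; push_cast; ring
    rw [e2] at hsmall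
    calc 2 * Real.exp 1 * q * (1 + a) * N * (4 * C6 * t)
        ≤ 2 * Real.exp 1 * q * ((1 + 4 * C5 * C6) * t ^ 2) * N * (4 * C6 * t) := by gcongr
      _ = (C9 * (m ^ (κ'' - κ') * t ^ 3)) * N := by rw [hC9, hq]; ring
      _ ≤ 1 * N := by gcongr
      _ = N := one_mul _
  have x4 : J / a - k + 2 * Real.exp 1 * q * (1 + a) * N ≤ 1 + -(N / (K * t)) := by
    have e1 : N / (C6 * t) = 4 * (N / (4 * C6 * t)) := by field_simp
    have e2 : N / (K * t) ≤ 2 * (N / (4 * C6 * t)) := by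
      have e3 : 2 * (N / (4 * C6 * t)) = N / (2 * C6 * t) := by field_simp; norm_num
      rw [e3]
      refine div_le_div_of_nonneg_left hN0.le (by positivity) ?_
      refine mul_le_mul_of_nonneg_right ?_ ht0.le
      rw [hK]
      have : 0 ≤ 3 + 9 * 26 ^ 2 + C' * 26 ^ 4 := by positivity
      linarith
    linarith
  refine (measure_mono hsub).trans ((measure_union_le _ _).trans
    ((add_le_add p1 ((measure_union_le _ _).trans (add_le_add p2 p3))).trans ?_))
  rw [← ENNReal.ofReal_add (by positivity) (by positivity),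
    ← ENNReal.ofReal_add (by positivity) (by positivity)]
  refine ENNReal.ofReal_le_ofReal ?_
  have z1 : Real.exp (J / a - k + 2 * Real.exp 1 * q * (1 + a) * N) ≤
      K * Real.exp (-(N / (K * t))) := by
    refine (Real.exp_le_exp.2 x4).trans ?_
    rw [Real.exp_add]
    refine mul_le_mul_of_nonneg_right ?_ (Real.exp_pos _).le
    have := Real.exp_one_lt_d9
    rw [hK]
    have : 0 ≤ 2 * C6 + 9 * 26 ^ 2 + C' * 26 ^ 4 := by positivity
    linarith
  have z2 : 9 * (26 * (N * m)) ^ 2 * Real.exp (-(N * m)) ≤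
      9 * 26 ^ 2 * (N * m) ^ 4 * Real.exp (-((m / 2) ^ b)) := by
    have e1 : (1 : ℝ) ≤ N * m := by linarith
    have e2 : ((N : ℝ) * m) ^ 2 ≤ (N * m) ^ 4 := pow_le_pow_right₀ e1 (by norm_num)
    have e3 : (m / 2) ^ b ≤ N * m := by
      calc (m / 2) ^ b ≤ (m / 2) ^ (1 : ℝ) :=
            Real.rpow_le_rpow_of_exponent_le (by linarith) hb1
        _ = m / 2 := Real.rpow_one _
        _ ≤ N * m := by linarith
    have e4 : Real.exp (-(N * m)) ≤ Real.exp (-((m / 2) ^ b)) :=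
      Real.exp_le_exp.2 (neg_le_neg e3)
    calc 9 * (26 * (N * m)) ^ 2 * Real.exp (-(N * m)) =
          9 * 26 ^ 2 * (N * m) ^ 2 * Real.exp (-(N * m)) := by ring
      _ ≤ 9 * 26 ^ 2 * (N * m) ^ 4 * Real.exp (-((m / 2) ^ b)) := by gcongr
  have z3 : C' * (26 * (N * m)) ^ 4 * Real.exp (-((m / 2) ^ b)) =
      C' * 26 ^ 4 * (N * m) ^ 4 * Real.exp (-((m / 2) ^ b)) := by ring
  rw [z3]
  have z4 : 9 * 26 ^ 2 * (N * m) ^ 4 * Real.exp (-((m / 2) ^ b)) +
      C' * 26 ^ 4 * (N * m) ^ 4 * Real.exp (-((m / 2) ^ b)) ≤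
      K * (N * m) ^ 4 * Real.exp (-((m / 2) ^ b)) := by
    have e1 : 0 ≤ (N * m) ^ 4 * Real.exp (-((m / 2) ^ b)) := by positivity
    have e2 : 9 * 26 ^ 2 + C' * 26 ^ 4 ≤ K := by rw [hK]; linarith
    nlinarith
  linarith

end Pool.Agent.J4.H91.FPP
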