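import Pool.Agent.J4.H91.FPP.Half

set_option autoImplicit false
open MeasureTheory ProbabilityTheory Filter Set
open scoped ENNReal Topology

/-!
# Passage times restricted to a half-plane, started at its boundary (helper91)
-/

namespace Pool.Agent.J4.H91.FPP

open Pool.Agent.N662.FP hiding em

variable {μ : Seminorm ℝ (ℝ × ℝ)} {c0 C0 κ A : ℝ}

/-- lattice point near `h • th`, of level at least `h` -/
noncomputable def bp (C0 : ℝ) (F : Frame μ) (h : ℝ) : V := rnd ((h + C0) • F.th)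

theorem bp_err (hN : Nrm μ c0 C0) (F : Frame μ) (h : ℝ) :
    μ (em (bp C0 F h) - (h + C0) • F.th) ≤ C0 := rnd_mu hN _

theorem bp_lv (hN : Nrm μ c0 C0) (F : Frame μ) (h : ℝ) :
    h ≤ F.lv (bp C0 F h) ∧ F.lv (bp C0 F h) ≤ h + 2 * C0 := by
  have h1 := F.l_abs hN (em (bp C0 F h) - (h + C0) • F.th)
  have h2 := rnd_norm ((h + C0) • F.th)
  rw [map_sub, map_smul, F.lth, smul_eq_mul, mul_one] at h1
  have h3 : |F.l (em (bp C0 F h)) - (h + C0)| ≤ C0 := by
    refine h1.trans ?_
    have h4 : ‖em (bp C0 F h) - (h + C0) • F.th‖ ≤ 1 := h2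
    have := hN.Cge
    nlinarith
  rw [abs_le] at h3
  constructor
  · show h ≤ F.l (em (bp C0 F h)); linarith [h3.1]
  · show F.l (em (bp C0 F h)) ≤ _; linarith [h3.2]

theorem bp_mu (hN : Nrm μ c0 C0) (F : Frame μ) (h h' : ℝ) :
    μ (em (bp C0 F h - bp C0 F h')) ≤ |h - h'| + 2 * C0 := by
  have e : em (bp C0 F h - bp C0 F h') = (em (bp C0 F h) - (h + C0) • F.th) -
      (em (bp C0 F h') - (h' + C0) • F.th) + (h - h') • F.th := by
    rw [em_sub]; ext <;> simp <;> ring
  rw [e]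
  refine (map_add_le_add μ _ _).trans ?_
  rw [map_smul_eq_mul, F.mth, mul_one, Real.norm_eq_abs]
  have h1 := map_sub_le_add μ (em (bp C0 F h) - (h + C0) • F.th)
    (em (bp C0 F h') - (h' + C0) • F.th)
  have h2 := bp_err hN F h
  have h3 := bp_err hN F h'
  linarith

theorem bp_norm (hN : Nrm μ c0 C0) (F : Frame μ) {h : ℝ} (hh : 0 ≤ h) :
    ‖em (bp C0 F h)‖ ≤ (h + C0) / c0 + 1 := by
  have e : em (bp C0 F h) = (em (bp C0 F h) - (h + C0) • F.th) + (h + C0) • F.th := by abel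
  rw [e]
  refine (norm_add_le _ _).trans ?_
  have h1 : ‖em (bp C0 F h) - (h + C0) • F.th‖ ≤ 1 := rnd_norm _
  have h2 := F.th_norm hN
  have h3 : 0 ≤ h + C0 := by linarith [hN.Cge]
  rw [norm_smul, Real.norm_eq_abs, abs_of_nonneg h3]
  have h4 : (h + C0) * ‖F.th‖ ≤ (h + C0) * (1 / c0) := mul_le_mul_of_nonneg_left h2 h3
  rw [mul_one_div] at h4
  linarith

/-- the passage time from the boundary of the half-plane -/
noncomputable def Rh (C0 : ℝ) (F : Frame μ) (h : ℝ) (x : En) : ℝ≥0∞ :=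
  LE (Re (fun v => 0 ≤ F.lv v) 0 (bp C0 F h)) x

theorem Rh_meas (C0 : ℝ) (F : Frame μ) (h : ℝ) : Measurable (Rh C0 F h) := LE_meas _

theorem Re_add {S : V → Prop} {a b c : V} (x : En) :
    LE (Re S a c) x ≤ LE (Re S a b) x + LE (Re S b c) x := by
  refine LE_add ?_
  rintro n p m q ⟨h1, h2, h3, h4⟩ ⟨h5, h6, h7, h8⟩
  have e : p n = q 0 := by rw [h2, h5]
  refine ⟨n + m, cat n p q, ⟨?_, ?_, stp_cat e h3 h7, cat_forall e h4 h8⟩, (tm_cat e x).le⟩
  · rw [cat_le (Nat.zero_le _), h1]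
  · rw [cat_add e, h6]

theorem rpow_le_const_mul {a h s : ℝ} (ha : 1 ≤ a) (hh : 1 ≤ h) (hs0 : 0 ≤ s) (hs1 : s ≤ 1) :
    (a * h) ^ s ≤ a * h ^ s := by
  rw [Real.mul_rpow (by linarith) (by linarith)]
  refine mul_le_mul_of_nonneg_right ?_ (by positivity)
  calc a ^ s ≤ a ^ (1 : ℝ) := Real.rpow_le_rpow_of_exponent_le ha hs1
    _ = a := Real.rpow_one a

/-- one dyadic step -/
theorem taper_step (hN : Nrm μ c0 C0) (hy : Hyp μ κ A) (hκ1 : κ < 1) {κ' : ℝ}
    (hκ' : 0 < κ') (hκκ : κ' < κ) :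
    ∃ B1 : ℝ, 0 < B1 ∧ ∀ (F : Frame μ) (h : ℝ), 16 * (C0 + 1) ≤ h →
      ∫⁻ x, (LE (Re (fun v => 0 ≤ F.lv v) (bp C0 F (h / 2)) (bp C0 F h)) x -
        ENNReal.ofReal (h / 2)) ∂PP ≤ ENNReal.ofReal (B1 * h ^ (1 - κ')) := by
  have hC0 : 1 ≤ C0 := hN.Cge
  have hc0 := hN.cpos
  have hA : 1 ≤ A := hy.Age
  have hκ : 0 < κ := hκ'.trans hκκ
  set R : ℝ := (5 + C0) / c0 + 1 with hR
  have hR1 : 1 ≤ R := by
    have : 0 ≤ (5 + C0) / c0 := by positivity
    linarith
  obtain ⟨Cu, hCu, hulc⟩ := ulc hN hy hκ hκ1 (ε := 1 / 8) (by norm_num) hR1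
  obtain ⟨C1, hC1, hexp⟩ := exp_poly (κ := κ - κ') (c := 1) 1 (by linarith) one_pos
  set n0 : ℝ := 2 * ((1 + 2 * C0) / c0) with hn0
  have hn0' : 0 < n0 := by positivity
  refine ⟨A * (2 + 2 * C0) + 2 * C0 + n0 * (Cu + 3 * C1), by positivity, fun F h hh => ?_⟩
  have hh1 : 1 ≤ h := by linarith
  have hh0 : 0 < h := by linarith
  set u := bp C0 F (h / 2) with hu
  set w := bp C0 F h with hw
  have hlu := bp_lv hN F (h / 2)
  have hlw := bp_lv hN F h
  have hmu : μ (em (w - u)) ≤ h / 2 + 2 * C0 := by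
    have h1 := bp_mu hN F h (h / 2)
    rw [show h - h / 2 = h / 2 by ring, abs_of_pos (by linarith)] at h1
    exact h1
  -- the good event
  have hgood : ∀ x : En, Unif μ x (R * h) (1 / 8 * h) →
      LE (Re (fun v => 0 ≤ F.lv v) u w) x ≤ DE u w x := by
    intro x hx
    refine Re_le_DE fun n p hp ht i hi => ?_
    have hunorm : ‖em u‖ ≤ (h / 2 + C0) / c0 + 1 := bp_norm hN F (by linarith)
    have hball : ∀ a : V, μ (em (a - u)) ≤ h + 1 / 8 * h + C0 → ‖em a‖ ≤ R * h := by
      intro a ha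
      have e : em a = em (a - u) + em u := by rw [← em_add, sub_add_cancel]
      have h1 : ‖em (a - u)‖ ≤ (h + 1 / 8 * h + C0) / c0 := by
        rw [le_div_iff₀ hc0, mul_comm]
        exact (hN.lo _).trans ha
      rw [e]
      refine (norm_add_le _ _).trans ((add_le_add h1 hunorm).trans ?_)
      rw [← add_assoc, ← add_div, hR]
      have h2 : (h + 1 / 8 * h + C0 + (h / 2 + C0)) / c0 ≤ (5 + C0) / c0 * h := by
        rw [div_mul_eq_mul_div (5 + C0) c0 h]
        refine div_le_div_of_nonneg_right ?_ hc0.le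
        nlinarith
      nlinarith
    have hwball : ‖em w‖ ≤ R * h := by
      refine hball w ?_
      linarith
    have huball : ‖em u‖ ≤ R * h := by
      refine hball u ?_
      rw [sub_self, em_zero, map_zero]; positivity
    have hdR : dR u w x ≤ h / 2 + 2 * C0 + 1 / 8 * h := by
      have := (abs_le.1 (hx u w huball hwball)).2
      linarith
    have hT : tm x n p ≤ ENNReal.ofReal (h / 2 + 2 * C0 + 1 / 8 * h + 1) := by
      refine ht.le.trans ?_
      rw [DE_ofReal, ENNReal.ofReal_add (by positivity) zero_le_one, ENNReal.ofReal_one]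
      gcongr
    have hTh : h / 2 + 2 * C0 + 1 / 8 * h + 1 ≤ h := by linarith
    have h5 := hp_path hN F (x := x) (d := 1 / 8 * h) (T := h / 2 + 2 * C0 + 1 / 8 * h + 1)
      (u := u) (w := w) (by positivity) (by positivity) (fun a b ha hb => by
        have := (abs_le.1 (hx a b (hball a (by linarith)) (hball b (by linarith)))).1
        linarith) hp hT i hi
    linarith [hlu.1, hlw.1]
  -- the crude path
  obtain ⟨n, p, hp, hn⟩ := lshape F u w
  have hp' : Re (fun v => 0 ≤ F.lv v) u w n p := by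
    refine ⟨hp.1, hp.2.1, hp.2.2.1, fun i hi => le_trans ?_ (hp.2.2.2 i hi)⟩
    exact le_min (by linarith [hlu.1]) (by linarith [hlw.1])
  have hnle : (n : ℝ) ≤ n0 * h := by
    refine hn.trans ?_
    have h1 : ‖em (w - u)‖ ≤ (h / 2 + 2 * C0) / c0 := by
      rw [le_div_iff₀ hc0, mul_comm]
      exact (hN.lo _).trans hmu
    have h2 : (h / 2 + 2 * C0) / c0 ≤ (1 + 2 * C0) / c0 * h := by
      rw [div_mul_eq_mul_div]
      refine div_le_div_of_nonneg_right ?_ hc0.le
      nlinarith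
    rw [hn0]; linarith
  set B : Set En := {x | ¬ Unif μ x (R * h) (1 / 8 * h)} with hB
  have hBm : MeasurableSet B := (Unif_meas μ _ _).compl
  have hPB : PP B ≤ ENNReal.ofReal (Cu * h ^ (-κ)) := hulc h hh1
  set M : ℝ := h ^ (κ - κ') with hM
  have hM1 : 1 ≤ M := Real.one_le_rpow hh1 (by linarith)
  have hpt : ∀ x : En, LE (Re (fun v => 0 ≤ F.lv v) u w) x - ENNReal.ofReal (h / 2) ≤
      ((DE u w x - ENNReal.ofReal (μ (em (w - u)))) + ENNReal.ofReal (2 * C0)) +
        B.indicator (fun x => tm x n p) x := by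
    intro x
    by_cases hx : x ∈ B
    · rw [indicator_of_mem hx]
      exact tsub_le_self.trans ((LE_le hp' x).trans le_add_self)
    · rw [indicator_of_notMem hx, add_zero]
      have hx' : Unif μ x (R * h) (1 / 8 * h) := not_not.1 hx
      refine (tsub_le_tsub_right (hgood x hx') _).trans ?_
      refine tsub_le_tsub_add_tsub (b := ENNReal.ofReal (μ (em (w - u)))) |>.trans ?_
      refine add_le_add le_rfl ?_
      rw [← ENNReal.ofReal_sub _ (by positivity)]
      exact ENNReal.ofReal_le_ofReal (by linarith)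
  refine (lintegral_mono hpt).trans ?_
  rw [lintegral_add_left (((DE_meas u w).sub_const _).add_const _),
    lintegral_add_right _ measurable_const, lintegral_const, measure_univ, mul_one,
    lintegral_indicator hBm]
  have i1 : ∫⁻ x, (DE u w x - ENNReal.ofReal (μ (em (w - u)))) ∂PP ≤
      ENNReal.ofReal (A * (2 + 2 * C0) * h ^ (1 - κ')) := by
    have h1 := DE_lint u w (f := fun t => t - ENNReal.ofReal (μ (em (w - u))))
      (measurable_id.sub_const _)
    rw [h1]
    refine (hy.up (w - u)).trans (ENNReal.ofReal_le_ofReal ?_)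
    rw [mul_assoc]
    refine mul_le_mul_of_nonneg_left ?_ (by linarith)
    calc (1 + μ (em (w - u))) ^ (1 - κ) ≤ ((2 + 2 * C0) * h) ^ (1 - κ) := by
          refine Real.rpow_le_rpow (by positivity) ?_ (by linarith)
          nlinarith
      _ ≤ (2 + 2 * C0) * h ^ (1 - κ) := rpow_le_const_mul (by linarith) hh1 (by linarith)
          (by linarith)
      _ ≤ (2 + 2 * C0) * h ^ (1 - κ') := by
          refine mul_le_mul_of_nonneg_left ?_ (by linarith)
          exact Real.rpow_le_rpow_of_exponent_le hh1 (by linarith)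
  have i2 := tm_bad n p hBm hM1 (by positivity) hPB
  have i3 : (n : ℝ) * (M * (Cu * h ^ (-κ)) + 3 * Real.exp (-M)) ≤
      n0 * (Cu + 3 * C1) * h ^ (1 - κ') := by
    have e1 : M * h ^ (-κ) = h ^ (-κ') := by
      rw [hM, ← Real.rpow_add hh0]; congr 1; ring
    have e2 : Real.exp (-M) ≤ C1 * h ^ (-(1 : ℝ)) := by
      have := hexp h hh1
      rwa [one_mul] at this
    have e3 : h ^ (-(1 : ℝ)) ≤ h ^ (-κ') :=
      Real.rpow_le_rpow_of_exponent_le hh1 (by linarith)
    have e4 : M * (Cu * h ^ (-κ)) + 3 * Real.exp (-M) ≤ (Cu + 3 * C1) * h ^ (-κ') := by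
      have : M * (Cu * h ^ (-κ)) = Cu * h ^ (-κ') := by rw [← e1]; ring
      rw [this]
      nlinarith
    have e5 : h * h ^ (-κ') = h ^ (1 - κ') := by
      rw [sub_eq_add_neg, Real.rpow_add hh0, Real.rpow_one]
    calc (n : ℝ) * (M * (Cu * h ^ (-κ)) + 3 * Real.exp (-M))
        ≤ (n0 * h) * ((Cu + 3 * C1) * h ^ (-κ')) := by
          refine mul_le_mul hnle e4 (by positivity) (by positivity)
      _ = n0 * (Cu + 3 * C1) * (h * h ^ (-κ')) := by ring
      _ = _ := by rw [e5]
  have hpw : 1 ≤ h ^ (1 - κ') := Real.one_le_rpow hh1 (by linarith)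
  refine (add_le_add (add_le_add i1 le_rfl) (i2.trans (ENNReal.ofReal_le_ofReal i3))).trans ?_
  rw [← ENNReal.ofReal_add (by positivity) (by positivity),
    ← ENNReal.ofReal_add (by positivity) (by positivity)]
  refine ENNReal.ofReal_le_ofReal ?_
  nlinarith

theorem taper (hN : Nrm μ c0 C0) (hy : Hyp μ κ A) (hκ1 : κ < 1) {κ' : ℝ}
    (hκ' : 0 < κ') (hκκ : κ' < κ) :
    ∃ B : ℝ, 0 < B ∧ ∀ (F : Frame μ) (h : ℝ), 1 ≤ h →
      ∫⁻ x, (Rh C0 F h x - ENNReal.ofReal h) ∂PP ≤ ENNReal.ofReal (B * h ^ (1 - κ')) := by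
  have hC0 : 1 ≤ C0 := hN.Cge
  have hc0 := hN.cpos
  obtain ⟨B1, hB1, hstep⟩ := taper_step hN hy hκ1 hκ' hκκ
  set h1 : ℝ := 16 * (C0 + 1) with hh1
  set n1 : ℝ := 2 * ((h1 + C0) / c0 + 1) with hn1
  have hn1' : 0 < n1 := by positivity
  set s : ℝ := 1 - κ' with hs
  have hs0 : 0 < s := by rw [hs]; linarith
  set g : ℝ := 1 - (1 / 2) ^ s with hg
  have hg0 : 0 < g := by
    have : ((1 : ℝ) / 2) ^ s < 1 := Real.rpow_lt_one (by norm_num) (by norm_num) hs0
    linarith
  set B : ℝ := n1 * 4 + B1 / g with hB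
  have hB0 : 0 < B := by positivity
  refine ⟨B, hB0, fun F => ?_⟩
  have key : ∀ (k : ℕ) (h : ℝ), 1 ≤ h → h ≤ 2 ^ k * h1 →
      ∫⁻ x, (Rh C0 F h x - ENNReal.ofReal h) ∂PP ≤ ENNReal.ofReal (B * h ^ s) := by
    intro k
    induction k with
    | zero =>
      intro h hh hle
      rw [pow_zero, one_mul] at hle
      obtain ⟨n, p, hp, hn⟩ := lshape F 0 (bp C0 F h)
      have hp' : Re (fun v => 0 ≤ F.lv v) 0 (bp C0 F h) n p := by
        refine ⟨hp.1, hp.2.1, hp.2.2.1, fun i hi => le_trans ?_ (hp.2.2.2 i hi)⟩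
        exact le_min (F.lv_zero.ge) (by linarith [(bp_lv hN F h).1])
      have h2 : ∀ x, Rh C0 F h x - ENNReal.ofReal h ≤ tm x n p :=
        fun x => tsub_le_self.trans (LE_le hp' x)
      refine (lintegral_mono h2).trans ?_
      have h3 := tm_bad n p MeasurableSet.univ (M := 1) (b := 1) le_rfl zero_le_one
        (by rw [measure_univ, ENNReal.ofReal_one])
      rw [Measure.restrict_univ] at h3
      refine h3.trans (ENNReal.ofReal_le_ofReal ?_)
      have h4 : (n : ℝ) ≤ n1 := by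
        refine hn.trans ?_
        rw [sub_zero, hn1]
        have h5 := bp_norm hN F (h := h) (by linarith)
        have h6 : (h + C0) / c0 ≤ (h1 + C0) / c0 :=
          div_le_div_of_nonneg_right (by linarith) hc0.le
        linarith
      have h5 : Real.exp (-1) ≤ 1 := Real.exp_le_one_iff.2 (by norm_num)
      have h6 : 1 ≤ h ^ s := Real.one_le_rpow hh hs0.le
      have h7 : (n : ℝ) * (1 * 1 + 3 * Real.exp (-1)) ≤ n1 * 4 :=
        mul_le_mul h4 (by linarith) (by positivity) hn1'.le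
      have h8 : 0 ≤ B1 / g := by positivity
      nlinarith
    | succ k ih =>
      intro h hh hle
      rcases le_or_gt h (2 ^ k * h1) with h2 | h2
      · exact ih h hh h2
      have hk : (1 : ℝ) ≤ 2 ^ k := one_le_pow₀ (by norm_num)
      have h3 : h1 ≤ h := by nlinarith
      have h4 : 1 ≤ h / 2 := by linarith
      have h5 := ih (h / 2) h4 (by rw [pow_succ] at hle; linarith)
      have h6 := hstep F h h3
      have h7 : ∀ x, Rh C0 F h x - ENNReal.ofReal h ≤
          (Rh C0 F (h / 2) x - ENNReal.ofReal (h / 2)) +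
          (LE (Re (fun v => 0 ≤ F.lv v) (bp C0 F (h / 2)) (bp C0 F h)) x -
            ENNReal.ofReal (h / 2)) := by
        intro x
        have h8 : Rh C0 F h x ≤ Rh C0 F (h / 2) x +
          LE (Re (fun v => 0 ≤ F.lv v) (bp C0 F (h / 2)) (bp C0 F h)) x := Re_add x
        have h9 : ENNReal.ofReal h = ENNReal.ofReal (h / 2) + ENNReal.ofReal (h / 2) := by
          rw [← ENNReal.ofReal_add (by linarith) (by linarith)]; congr 1; ring
        rw [h9]
        exact (tsub_le_tsub_right h8 _).trans add_tsub_add_le_tsub_add_tsub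
      refine (lintegral_mono h7).trans ?_
      rw [lintegral_add_left ((Rh_meas C0 F (h / 2)).sub_const _)]
      refine (add_le_add h5 h6).trans ?_
      rw [← ENNReal.ofReal_add (by positivity) (by positivity)]
      refine ENNReal.ofReal_le_ofReal ?_
      have h10 : (h / 2) ^ s = (1 / 2) ^ s * h ^ s := by
        rw [← Real.mul_rpow (by norm_num) (by linarith)]; congr 1; ring
      rw [h10]
      have h11 : B * g = n1 * 4 * g + B1 := by rw [hB]; field_simp
      have h12 : B * (1 / 2) ^ s + B1 ≤ B := by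
        have : (1 / 2) ^ s = 1 - g := by rw [hg]; ring
        rw [this]
        have : 0 ≤ n1 * 4 * g := by positivity
        nlinarith
      have h13 : 0 ≤ h ^ s := by positivity
      nlinarith
  intro h hh
  obtain ⟨k, hk⟩ := pow_unbounded_of_one_lt h (by norm_num : (1 : ℝ) < 2)
  have h1' : 1 ≤ h1 := by rw [hh1]; linarith
  have : (2 : ℝ) ^ k ≤ 2 ^ k * h1 := le_mul_of_one_le_right (by positivity) h1'
  exact key k h hh (by linarith)

end Pool.Agent.J4.H91.FPP
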