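import Pool.Agent.J4.H91.FPP.Iter

set_option autoImplicit false
open MeasureTheory ProbabilityTheory Filter Set
open scoped ENNReal Topology Pointwise

/-!
# Linear lower bound; transfer to the law of the environment (helper91)
-/

namespace Pool.Agent.J4.H91.FPP

open Pool.Agent.N662.FP hiding em

theorem linLow : LinLow := by
  intro v
  let _ : MeasureSpace En := ⟨PP⟩
  have hprob : IsProbabilityMeasure (volume : Measure En) := inferInstanceAs (IsProbabilityMeasure PP)
  set n : ℕ := max v.1.natAbs v.2.natAbs with hn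
  have hnorm : ‖em v‖ = n := by
    rw [Prod.norm_def, hn]
    show max ‖(v.1 : ℝ)‖ ‖(v.2 : ℝ)‖ = _
    rw [Real.norm_eq_abs, Real.norm_eq_abs, Nat.cast_max, Nat.cast_natAbs, Nat.cast_natAbs,
      Int.cast_abs, Int.cast_abs]
  have hc := Pool.Agent.N896.FM.t_CNT En (fun e x => x e) iid_can n
  have hae : ∀ᵐ x ∂PP, dR 0 v x < ‖em v‖ / 25 → Fast x n := by
    filter_upwards [ae_nonneg] with x hx hlt
    have h1 : D x 0 v < ‖em v‖ / 25 := by
      have h2 : dR 0 v x = D x 0 v := by
        unfold dR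
        rw [DE_eq hx, ENNReal.toReal_ofReal (cGE x hx 0 v).2.2.1]
      rwa [h2] at hlt
    obtain ⟨s, hs, hs2⟩ := exists_lt_of_csInf_lt (cGE x hx 0 v).1 h1
    obtain ⟨k, p, hp0, hpk, hstep, hinj, hle⟩ := cSAW x hx 0 v s hs
    have hcb := Pool.Agent.N476.FM.coord_bound hp0 hstep k le_rfl
    rw [hpk] at hcb
    have hnk : n ≤ k := by
      rw [Int.abs_eq_natAbs, Int.abs_eq_natAbs] at hcb
      rw [hn]
      refine max_le ?_ ?_ <;> omega
    refine ⟨p, hp0, fun i hi => hstep i (by omega), fun i hi j hj => hinj i (by omega) j (by omega),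
      ?_⟩
    have h3 : ∑ i ∈ Finset.range n, x s(p i, p (i + 1)) ≤
        ∑ i ∈ Finset.range k, x s(p i, p (i + 1)) :=
      Finset.sum_le_sum_of_subset_of_nonneg (Finset.range_mono hnk) fun i _ _ => hx _
    rw [← hnorm]
    linarith
  have h1 : PP {x | dR 0 v x < ‖em v‖ / 25} ≤ PP {x | Fast x n} := measure_mono_ae hae
  refine h1.trans (hc.trans (le_of_eq ?_))
  rw [hnorm, Real.rpow_natCast, ENNReal.ofReal_pow (by norm_num)]
  congr 1
  rw [ENNReal.ofReal_div_of_pos two_pos]
  simp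

section
variable {Ω : Type} [MeasureSpace Ω] [IsProbabilityMeasure (volume : Measure Ω)]
  {X : Sym2 (ℤ × ℤ) → Ω → ℝ} {μ : Seminorm ℝ (ℝ × ℝ)} {c0 C0 κ A : ℝ}

theorem dR_eq {x : En} (hx : ∀ e, 0 ≤ x e) (a b : V) : dR a b x = D x a b := by
  unfold dR
  rw [DE_eq hx, ENNReal.toReal_ofReal (cGE x hx a b).2.2.1]

theorem tr_le (hX : Iid X) (S : Set En) : (volume : Measure Ω) {ω | env X ω ∈ S} ≤ PP S := by
  have h := Measure.le_map_apply (μ := (volume : Measure Ω)) (env_meas hX).aemeasurable S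
  rw [map_env hX] at h
  exact h

theorem tr_eq (hX : Iid X) {S : Set En} (hS : MeasurableSet S) :
    (volume : Measure Ω) {ω | env X ω ∈ S} = PP S := by
  have h := Measure.map_apply (μ := (volume : Measure Ω)) (env_meas hX) hS
  rw [map_env hX] at h
  exact h.symm

theorem tr_lint (hX : Iid X) {f : En → ℝ≥0∞} (hf : Measurable f) :
    ∫⁻ x, f x ∂PP = ∫⁻ ω, f (env X ω) ∂(volume : Measure Ω) := by
  rw [← map_env hX, lintegral_map hf (env_meas hX)]

theorem nrm_of (μ : Seminorm ℝ (ℝ × ℝ)) (h : ∀ x, μ x = 0 → x = 0) :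
    ∃ c0 C0 : ℝ, Nrm μ c0 C0 := by
  obtain ⟨c, C, hc, hC, hb⟩ := cNORM μ h
  refine ⟨c, max C 1, hc, le_max_right _ _, fun x => ?_, fun x => ?_⟩
  · rw [Prod.norm_def]; exact (hb x).1
  · refine ((hb x).2).trans ?_
    rw [Prod.norm_def]
    show C * max ‖x.1‖ ‖x.2‖ ≤ max C 1 * max ‖x.1‖ ‖x.2‖
    exact mul_le_mul_of_nonneg_right (le_max_left _ _) (le_max_of_le_left (norm_nonneg _))

/-- the hypotheses from a one-point bound -/
theorem mk_hyp (hX : Iid X) (hG : Good (fun ω v => D (env X ω) 0 v) μ) {e B : ℝ}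
    (he : e < Real.exp (-1)) (hB : 0 < B)
    (h : ∀ v : V, (volume : Measure Ω).real
      {ω | μ (em v) + B * (1 + μ (em v)) ^ (1 - κ) ≤ D (env X ω) 0 v} ≤ e) :
    ∃ A : ℝ, Hyp μ κ A := by
  obtain ⟨d, hd, hed⟩ := ex_d e he
  set A : ℝ := 1 + 2 * (1 + 1 / d) * B + B + B / d with hA
  have hA1 : 1 ≤ A := by
    have : 0 ≤ 2 * (1 + 1 / d) * B + B + B / d := by positivity
    rw [hA]; linarith
  have hae := cAE Ω X hX
  have hone : ∀ v : V, ∫ ω, |D (env X ω) 0 v - μ (em v)| ∂(volume : Measure Ω) ≤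
      A * (1 + μ (em v)) ^ (1 - κ) := by
    intro v
    refine (hG.one v _ d (pos μ v B κ hB) hd ((h v).trans hed)).2.trans ?_
    have h1 : 0 < (1 + μ (em v)) ^ (1 - κ) := by
      have : 0 ≤ μ (em v) := apply_nonneg μ _
      positivity
    have h2 : 2 * (1 + 1 / d) * B ≤ A := by
      have : 0 ≤ B + B / d := by positivity
      rw [hA]; linarith
    calc 2 * (1 + 1 / d) * (B * (1 + μ (em v)) ^ (1 - κ))
        = (2 * (1 + 1 / d) * B) * (1 + μ (em v)) ^ (1 - κ) := by ring
      _ ≤ A * (1 + μ (em v)) ^ (1 - κ) := by gcongr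
  have hl : ∀ v : V, ∫⁻ ω, ENNReal.ofReal |D (env X ω) 0 v - μ (em v)| ∂(volume : Measure Ω) ≤
      ENNReal.ofReal (A * (1 + μ (em v)) ^ (1 - κ)) := by
    intro v
    have hi : Integrable (fun ω => |D (env X ω) 0 v - μ (em v)|) (volume : Measure Ω) :=
      ((hG.int v).sub (integrable_const _)).abs
    rw [← ofReal_integral_eq_lintegral_ofReal hi (Eventually.of_forall fun ω => abs_nonneg _)]
    exact ENNReal.ofReal_le_ofReal (hone v)
  refine ⟨A, hA1, fun v => ?_, fun v => ?_, fun v s hs => ?_⟩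
  · rw [tr_lint hX ((DE_meas 0 v).sub_const _)]
    refine le_trans (lintegral_mono_ae ?_) (hl v)
    filter_upwards [hae] with ω hω
    rw [DE_ofReal, dR_eq hω, ← ENNReal.ofReal_sub _ (apply_nonneg μ _)]
    exact ENNReal.ofReal_le_ofReal (le_abs_self _)
  · rw [tr_lint hX (f := fun x => ENNReal.ofReal (μ (em v)) - DE 0 v x)
      (measurable_const.sub (DE_meas 0 v))]
    refine le_trans (lintegral_mono_ae ?_) (hl v)
    filter_upwards [hae] with ω hω
    rw [DE_ofReal, dR_eq hω, ← ENNReal.ofReal_sub _ (cGE _ hω 0 v).2.2.1, abs_sub_comm]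
    exact ENNReal.ofReal_le_ofReal (le_abs_self _)
  · have hw : 0 < B * (1 + μ (em v)) ^ (1 - κ) := pos μ v B κ hB
    set w := B * (1 + μ (em v)) ^ (1 - κ) with hw'
    have hq0 : 0 < (1 + μ (em v)) ^ (1 - κ) := by
      have : 0 ≤ μ (em v) := apply_nonneg μ _
      positivity
    have hA0 : 0 < A := by linarith
    rw [← tr_eq hX (measurableSet_lt measurable_const (dR_meas 0 v))]
    rcases lt_or_ge s w with h1 | h1
    · refine prob_le_one.trans ?_
      rw [ENNReal.one_le_ofReal]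
      have h2 : s / (A * (1 + μ (em v)) ^ (1 - κ)) ≤ 1 := by
        rw [div_le_one (by positivity)]
        refine h1.le.trans ?_
        rw [hw']
        refine mul_le_mul_of_nonneg_right ?_ hq0.le
        have : 0 ≤ 1 + 2 * (1 + 1 / d) * B + B / d := by positivity
        rw [hA]; linarith
      have h3 : Real.exp (-1) ≤ Real.exp (-(s / (A * (1 + μ (em v)) ^ (1 - κ)))) :=
        Real.exp_le_exp.2 (neg_le_neg h2)
      have h4 : 1 / 3 ≤ Real.exp (-1) := by
        rw [Real.exp_neg, ← one_div]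
        exact one_div_le_one_div_of_le (Real.exp_pos _) (by linarith [Real.exp_one_lt_d9])
      linarith
    · have h2 := (hG.one v w d hw hd ((h v).trans hed)).1 (s - w) (by linarith)
      have h3 : (volume : Measure Ω) {ω | env X ω ∈ {x | μ (em v) + s < dR 0 v x}} ≤
          (volume : Measure Ω) {ω | μ (em v) + w + (s - w) ≤ D (env X ω) 0 v} := by
        refine measure_mono_ae ?_
        filter_upwards [hae] with ω hω h4
        have h5 : μ (em v) + s < dR 0 v (env X ω) := h4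
        rw [dR_eq hω] at h5
        show μ (em v) + w + (s - w) ≤ D (env X ω) 0 v
        linarith
      refine h3.trans ?_
      rw [← ofReal_measureReal (measure_ne_top _ _)]
      refine ENNReal.ofReal_le_ofReal (h2.trans ?_)
      have h4 : s / (A * (1 + μ (em v)) ^ (1 - κ)) ≤ 1 + d + d * (s - w) / w := by
        have h5 : 1 + d + d * (s - w) / w = 1 + d * s / w := by field_simp; ring
        have h6 : s / (A * (1 + μ (em v)) ^ (1 - κ)) ≤ d * s / w := by
          rw [div_le_div_iff₀ (by positivity) hw, hw']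
          have h7 : B ≤ d * A := by
            have h8 : d * (B / d) = B := by field_simp
            have h9 : 0 ≤ 1 + 2 * (1 + 1 / d) * B + B := by positivity
            have h10 : A = (1 + 2 * (1 + 1 / d) * B + B) + B / d := hA
            rw [h10, mul_add, h8]
            nlinarith
          calc s * (B * (1 + μ (em v)) ^ (1 - κ)) = B * (s * (1 + μ (em v)) ^ (1 - κ)) := by ring
            _ ≤ (d * A) * (s * (1 + μ (em v)) ^ (1 - κ)) := by gcongr
            _ = _ := by ring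
        rw [h5]; linarith
      have h5 := Real.exp_le_exp.2 (neg_le_neg h4)
      have h6 := Real.exp_pos (-(s / (A * (1 + μ (em v)) ^ (1 - κ))))
      linarith

end

section
variable {μ : Seminorm ℝ (ℝ × ℝ)} {c0 C0 κ A : ℝ}

/-- no vertex far outside is reached by the time `t` -/
theorem out_prob (hN : Nrm μ c0 C0) (hL : HL μ κ) (hκ1 : κ < 1) {κ' : ℝ} (h0' : 0 < κ')
    (h1' : κ' < κ) : ∃ c : ℝ, 0 < c ∧ ∀ᶠ t : ℝ in atTop,
      PP {x | ∃ v : V, dR 0 v x ≤ t ∧ t + t ^ (1 - κ') - C0 < μ (em v)} ≤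
        ENNReal.ofReal (Real.exp (-(t ^ c))) := by
  classical
  have hC0 := hN.Cge
  have hc0 := hN.cpos
  obtain ⟨b, C, hb, hC, hbd⟩ := hL
  set R : ℝ := 2 / c0 + 1 with hR
  have hR1 : 1 ≤ R := by
    have : 0 ≤ 2 / c0 := by positivity
    linarith
  have d1 := exp_dom (b := b / 2) (b' := b) (c := 1) (by positivity) (by linarith) one_pos
    (C := 9 * R ^ 2 * C) (by positivity) 2
  have d2 : ∀ᶠ t : ℝ in atTop, C * 3 * t ^ (1 - κ) + C0 + 1 ≤ t ^ (1 - κ') := by
    have e1 := (tendsto_rpow_neg_atTop (sub_pos.2 h1')).const_mul (C * 3)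
    rw [mul_zero] at e1
    have e2 := (tendsto_rpow_neg_atTop (by linarith : 0 < 1 - κ')).const_mul (C0 + 1)
    rw [mul_zero] at e2
    filter_upwards [e1.eventually (gt_mem_nhds (by norm_num : (0 : ℝ) < 1 / 2)),
      e2.eventually (gt_mem_nhds (by norm_num : (0 : ℝ) < 1 / 2)), eventually_gt_atTop 0]
      with t h1 h2 h3
    have e3 : 0 < t ^ (1 - κ') := Real.rpow_pos_of_pos h3 _
    have e4 : t ^ (-(κ - κ')) * t ^ (1 - κ') = t ^ (1 - κ) := by
      rw [← Real.rpow_add h3]; congr 1; ring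
    have e5 : t ^ (-(1 - κ')) * t ^ (1 - κ') = 1 := by
      rw [← Real.rpow_add h3, neg_add_cancel, Real.rpow_zero]
    have e6 : C * 3 * t ^ (1 - κ) ≤ 1 / 2 * t ^ (1 - κ') := by
      rw [← e4, ← mul_assoc]
      exact mul_le_mul_of_nonneg_right h1.le e3.le
    have e7 : C0 + 1 ≤ 1 / 2 * t ^ (1 - κ') := by
      calc C0 + 1 = (C0 + 1) * t ^ (-(1 - κ')) * t ^ (1 - κ') := by rw [mul_assoc, e5, mul_one]
        _ ≤ _ := mul_le_mul_of_nonneg_right h2.le e3.le
    linarith
  refine ⟨b / 2, by positivity, ?_⟩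
  filter_upwards [d1, d2, eventually_ge_atTop (1 : ℝ), eventually_ge_atTop C0] with t h1 h2 h3 h3'
  have ht0 : 0 < t := by linarith
  set r : ℝ := t + t ^ (1 - κ') - C0 with hr
  have hpw : 0 < t ^ (1 - κ) := Real.rpow_pos_of_pos ht0 _
  have hrt : t ≤ r := by
    have : 0 ≤ C * 3 * t ^ (1 - κ) := by positivity
    rw [hr]; linarith
  have hpt : t ^ (1 - κ') ≤ t := by
    calc t ^ (1 - κ') ≤ t ^ (1 : ℝ) := Real.rpow_le_rpow_of_exponent_le h3 (by linarith)
      _ = t := Real.rpow_one t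
  have hr2 : r + C0 ≤ 2 * t := by rw [hr]; linarith
  set E : V → Set En := fun a => {x | (r < μ (em a) ∧ μ (em a) ≤ r + C0) ∧ dR 0 a x < t + 1}
    with hE
  have hsub : {x | ∃ v : V, dR 0 v x ≤ t ∧ r < μ (em v)} ⊆
      {x | ∃ a : V, ‖em a‖ ≤ R * t ∧ x ∈ E a} := by
    rintro x ⟨v, hv1, hv2⟩
    obtain ⟨n, p, ⟨hp0, hpn, hps⟩, ht⟩ := dR_lt (show dR 0 v x < t + 1 by linarith)
    have hex : ∃ j, r < μ (em (p j)) := ⟨n, by rw [hpn]; exact hv2⟩
    have hj1 := Nat.find_spec hex
    have hjn : Nat.find hex ≤ n := Nat.find_min' hex (by rw [hpn]; exact hv2)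
    have hj0 : Nat.find hex ≠ 0 := by
      intro h
      rw [h, hp0, em_zero, map_zero] at hj1
      linarith
    have hj2 := Nat.find_min hex (m := Nat.find hex - 1) (by omega)
    rw [not_lt] at hj2
    have h4 := mu_step hN (hps (Nat.find hex - 1) (by omega)) 0
    rw [show Nat.find hex - 1 + 1 = Nat.find hex by omega, sub_zero, sub_zero] at h4
    refine ⟨p (Nat.find hex), ?_, ⟨hj1, by linarith⟩, ?_⟩
    · have h5 := hN.lo (em (p (Nat.find hex)))
      have h6 : ‖em (p (Nat.find hex))‖ ≤ 2 * t / c0 := by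
        rw [le_div_iff₀ hc0, mul_comm]
        linarith
      have h7 : 2 * t / c0 = 2 / c0 * t := by ring
      rw [h7] at h6
      rw [hR]; nlinarith
    · have h5 := dR_le_tm (i := 0) (j := Nat.find hex) hps (Nat.zero_le _) hjn x
      rw [hp0] at h5
      have h6 : (tm x (Nat.find hex - 0) (sh 0 p)).toReal ≤ (tm x n p).toReal :=
        ENNReal.toReal_mono (tm_lt_top _ _ _).ne (tm_sh_le p x (by omega))
      have h7 : (tm x n p).toReal < t + 1 := ENNReal.toReal_lt_of_lt_ofReal ht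
      show dR 0 (p (Nat.find hex)) x < t + 1
      linarith
  refine (measure_mono hsub).trans ?_
  have hq : ∀ a ∈ box (R * t), PP (E a) ≤ ENNReal.ofReal (C * Real.exp (-(t ^ b))) := by
    intro a _
    by_cases ha : r < μ (em a) ∧ μ (em a) ≤ r + C0
    swap
    · have : E a = ∅ := by
        ext x
        simp only [hE, mem_ofPred_eq, mem_empty_iff_false, iff_false]
        exact fun h => ha h.1
      rw [this, measure_empty]; exact bot_le
    have hsub2 : E a ⊆ {x | dR 0 a x < μ (em a) - C * (1 + μ (em a)) ^ (1 - κ)} := by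
      rintro x ⟨-, hx⟩
      show dR 0 a x < μ (em a) - C * (1 + μ (em a)) ^ (1 - κ)
      have h4 : (1 + μ (em a)) ^ (1 - κ) ≤ 3 * t ^ (1 - κ) := by
        refine le_trans (Real.rpow_le_rpow (by positivity) (?_ : _ ≤ 3 * t) (by linarith))
          (rpow_le_const_mul (by norm_num) h3 (by linarith) (by linarith))
        linarith [ha.2]
      have h5 : C * (1 + μ (em a)) ^ (1 - κ) ≤ C * 3 * t ^ (1 - κ) := by
        rw [mul_assoc]; exact mul_le_mul_of_nonneg_left h4 hC.le
      have h6 := ha.1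
      rw [hr] at h6
      linarith
    refine (measure_mono hsub2).trans ((hbd a).trans (ENNReal.ofReal_le_ofReal ?_))
    refine mul_le_mul_of_nonneg_left (Real.exp_le_exp.2 (neg_le_neg ?_)) hC.le
    exact Real.rpow_le_rpow ht0.le (by linarith [ha.1]) hb.le
  refine (prob_box (r := R * t) (by nlinarith) (by positivity) hq).trans
    (ENNReal.ofReal_le_ofReal (le_trans (le_of_eq ?_) h1))
  rw [one_mul]; ring

end

end Pool.Agent.J4.H91.FPP
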