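import Pool.Agent.J4.H91.FPP.Spl3

set_option autoImplicit false
open MeasureTheory ProbabilityTheory Filter Set
open scoped ENNReal Topology Pointwise

/-!
# From the splitting property to the nonrandom fluctuations (helper91)
-/

namespace Pool.Agent.J4.H91.FPP

open Pool.Agent.N662.FP hiding em

/-- two members of a centred family with small weighted cost -/
theorem pair {ι : Type} [Fintype ι] [Nonempty ι] (τ f : ι → ℝ) (G : ℝ)
    (hτ : ∑ i, τ i = 0) (hs : ∑ i, f i ≤ Fintype.card ι * G) :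
    ∃ i j : ι, ∃ a b : ℝ, 0 ≤ a ∧ 0 ≤ b ∧ a + b = 1 ∧ a * τ i + b * τ j = 0 ∧
      a * f i + b * f j ≤ G := by
  classical
  by_contra hcon
  push Not at hcon
  have hz : ∀ i, τ i = 0 → 0 < f i - G := by
    intro i hi
    have := hcon i i 1 0 zero_le_one le_rfl (by norm_num) (by rw [hi]; ring)
    linarith
  have hpq : ∀ i j, 0 < τ i → τ j < 0 → 0 < (-τ j) * (f i - G) + τ i * (f j - G) := by
    intro i j hi hj
    have hd : 0 < τ i - τ j := by linarith
    have h1 := hcon i j (-τ j / (τ i - τ j)) (τ i / (τ i - τ j)) (div_nonneg (by linarith) hd.le)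
      (div_nonneg hi.le hd.le) (by field_simp; ring) (by field_simp; ring)
    have h2 : -τ j / (τ i - τ j) * f i + τ i / (τ i - τ j) * f j =
      (-τ j * f i + τ i * f j) / (τ i - τ j) := by ring
    rw [h2, lt_div_iff₀ hd] at h1
    linarith
  set P : Finset ι := Finset.univ.filter (fun i => 0 < τ i) with hP
  set Q : Finset ι := Finset.univ.filter (fun i => τ i < 0) with hQ
  set Z : Finset ι := Finset.univ.filter (fun i => τ i = 0) with hZ
  have split : ∀ g : ι → ℝ, ∑ i, g i = ∑ i ∈ P, g i + ∑ i ∈ Q, g i + ∑ i ∈ Z, g i := by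
    intro g
    rw [hP, hQ, hZ, Finset.sum_filter, Finset.sum_filter, Finset.sum_filter,
      ← Finset.sum_add_distrib, ← Finset.sum_add_distrib]
    refine Finset.sum_congr rfl fun i _ => ?_
    rcases lt_trichotomy (τ i) 0 with h | h | h
    · rw [if_neg h.not_gt, if_pos h, if_neg h.ne]; ring
    · rw [if_neg (by rw [h]; exact lt_irrefl 0), if_neg (by rw [h]; exact lt_irrefl 0), if_pos h]
      ring
    · rw [if_pos h, if_neg h.not_gt, if_neg h.ne']; ring
  have hS : ∑ i, (f i - G) ≤ 0 := by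
    rw [Finset.sum_sub_distrib, Finset.sum_const, Finset.card_univ, nsmul_eq_mul]
    linarith
  have hτ2 := split τ
  rw [hτ] at hτ2
  have hZτ : ∑ i ∈ Z, τ i = 0 := Finset.sum_eq_zero fun i hi => (Finset.mem_filter.1 hi).2
  have hS2 := split fun i => f i - G
  have hSZ : 0 ≤ ∑ i ∈ Z, (f i - G) :=
    Finset.sum_nonneg fun i hi => (hz i (Finset.mem_filter.1 hi).2).le
  rcases P.eq_empty_or_nonempty with hPe | hPn
  · rcases Q.eq_empty_or_nonempty with hQe | hQn
    · rw [hPe, hQe] at hS2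
      have hZu : Z = Finset.univ := by
        ext i
        refine ⟨fun _ => Finset.mem_univ i, fun _ => ?_⟩
        rw [hZ, Finset.mem_filter]
        refine ⟨Finset.mem_univ i, ?_⟩
        by_contra hne
        rcases lt_or_gt_of_ne hne with h | h
        · have : i ∈ Q := Finset.mem_filter.2 ⟨Finset.mem_univ i, h⟩
          rw [hQe] at this
          exact absurd this (Finset.notMem_empty i)
        · have : i ∈ P := Finset.mem_filter.2 ⟨Finset.mem_univ i, h⟩
          rw [hPe] at this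
          exact absurd this (Finset.notMem_empty i)
      have hpos : 0 < ∑ i ∈ Z, (f i - G) :=
        Finset.sum_pos (fun i hi => hz i (Finset.mem_filter.1 hi).2) (hZu ▸ Finset.univ_nonempty)
      simp only [Finset.sum_empty, zero_add] at hS2
      linarith
    · have h1 : ∑ i ∈ Q, τ i < 0 :=
        Finset.sum_neg (fun i hi => (Finset.mem_filter.1 hi).2) hQn
      rw [hPe, Finset.sum_empty] at hτ2
      linarith
  · have h1 : 0 < ∑ i ∈ P, τ i := Finset.sum_pos (fun i hi => (Finset.mem_filter.1 hi).2) hPn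
    rcases Q.eq_empty_or_nonempty with hQe | hQn
    · rw [hQe, Finset.sum_empty] at hτ2
      linarith
    · have h2 : 0 < ∑ i ∈ P, ∑ j ∈ Q, ((-τ j) * (f i - G) + τ i * (f j - G)) :=
        Finset.sum_pos (fun i hi => Finset.sum_pos (fun j hj => hpq i j (Finset.mem_filter.1 hi).2
          (Finset.mem_filter.1 hj).2) hQn) hPn
      have h3 : ∑ i ∈ P, ∑ j ∈ Q, ((-τ j) * (f i - G) + τ i * (f j - G)) =
          (∑ j ∈ Q, -τ j) * (∑ i ∈ P, (f i - G)) + (∑ i ∈ P, τ i) * (∑ j ∈ Q, (f j - G)) := by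
        simp_rw [Finset.sum_add_distrib, ← Finset.mul_sum, ← Finset.sum_mul]
        rw [← Finset.mul_sum]
      have h4 : ∑ j ∈ Q, -τ j = ∑ i ∈ P, τ i := by
        rw [Finset.sum_neg_distrib]; linarith
      rw [h3, h4, ← mul_add] at h2
      have h5 := (pos_iff_pos_of_mul_pos h2).1 h1
      linarith

section
variable {μ : Seminorm ℝ (ℝ × ℝ)} {c0 C0 κ κ1 A : ℝ}

theorem Frame.h_sum (F : Frame μ) {ι : Type} (s : Finset ι) (x : ι → ℝ × ℝ) :
    F.h (∑ i ∈ s, x i) = ∑ i ∈ s, F.h (x i) := by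
  classical
  induction s using Finset.induction_on with
  | empty => simp [Frame.h]
  | insert a s ha ih => rw [Finset.sum_insert ha, Finset.sum_insert ha, F.h_add, ih]

theorem geo_sum {a : ℝ} (ha : 0 < a) (J : ℕ) :
    ∑ i ∈ Finset.range J, ((2 : ℝ) ^ (i + 1)) ^ (-a) ≤ 1 / (1 - 2 ^ (-a)) := by
  have hr : (2 : ℝ) ^ (-a) < 1 := Real.rpow_lt_one_of_one_lt_of_neg one_lt_two (by linarith)
  have hr0 : 0 < (2 : ℝ) ^ (-a) := Real.rpow_pos_of_pos two_pos _
  have h1 : ∀ i : ℕ, ((2 : ℝ) ^ (i + 1)) ^ (-a) ≤ ((2 : ℝ) ^ (-a)) ^ i := by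
    intro i
    rw [← Real.rpow_natCast ((2 : ℝ) ^ (-a)) i, ← Real.rpow_mul zero_le_two,
      ← Real.rpow_natCast (2 : ℝ) (i + 1), ← Real.rpow_mul zero_le_two]
    refine Real.rpow_le_rpow_of_exponent_le one_le_two ?_
    push_cast
    nlinarith
  refine (Finset.sum_le_sum fun i _ => h1 i).trans ?_
  have h2 := (summable_geometric_of_lt_one hr0.le hr).sum_le_tsum (Finset.range J)
    (fun i _ => by positivity)
  rw [tsum_geometric_of_lt_one hr0.le hr, ← one_div] at h2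
  exact h2

/-- the data at the scales `2 ^ j n` -/
noncomputable def sg (n u : ℝ) (J : ℕ) : ℝ := ∑ i ∈ Finset.range J, (2 ^ (i + 1) * n) ^ (-u)

theorem sg_succ (n u : ℝ) (J : ℕ) : sg n u (J + 1) = sg n u J + (2 ^ (J + 1) * n) ^ (-u) :=
  Finset.sum_range_succ _ _

theorem sg_nonneg {n : ℝ} (hn : 0 < n) (u : ℝ) (J : ℕ) : 0 ≤ sg n u J :=
  Finset.sum_nonneg fun i _ => by positivity

theorem sg_le {n u : ℝ} (hn : 0 < n) (hu : 0 < u) (J : ℕ) :
    sg n u J ≤ n ^ (-u) * (1 / (1 - 2 ^ (-u))) := by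
  have h1 : sg n u J = n ^ (-u) * ∑ i ∈ Finset.range J, ((2 : ℝ) ^ (i + 1)) ^ (-u) := by
    rw [Finset.mul_sum]
    refine Finset.sum_congr rfl fun i _ => ?_
    rw [Real.mul_rpow (by positivity) hn.le, mul_comm]
  rw [h1]
  exact mul_le_mul_of_nonneg_left (geo_sum hu J) (by positivity)

/-- the tree of increments -/
theorem tree {u C m0 : ℝ} (hu1 : u ≤ 1) (hC : 1 ≤ C) (hm0 : 1 ≤ m0) {ρ : ℝ → ℝ}
    (hρ : ∀ s, 1 ≤ s → 0 ≤ ρ s ∧ ρ s ≤ s ^ (-u)) (F : Frame μ) (hge : ∀ v, F.lv v ≤ hh v)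
    (hsp : ∀ (w : V) (s : ℝ), m0 ≤ s → s ≤ F.lv w → F.lv w ≤ 4 * s → ∃ w1 w2 : V,
      ‖em w1 + em w2 - (1 + ρ s) • em w‖ ≤ C ∧
      |F.lv w1 - (1 + ρ s) * F.lv w / 2| ≤ C ∧ |F.lv w2 - (1 + ρ s) * F.lv w / 2| ≤ C ∧
      (hh w1 - F.lv w1) + (hh w2 - F.lv w2) ≤
        (1 + C * s ^ (-u)) * (hh w - F.lv w) + C * s ^ (1 - κ1))
    {n : ℝ} (hn : m0 ≤ n) (hn2 : 2 * C ≤ n) :
    ∀ J : ℕ, ∀ W : V, 2 ^ J * (n + 2 * C) - 2 * C ≤ F.lv W →
      F.lv W ≤ 2 ^ J * n * (4 - (4 + 2 * C) * sg n u J) →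
      ∃ (ι : Type) (_ : Fintype ι) (w : ι → V), Fintype.card ι = 2 ^ J ∧
        (∀ i, n ≤ F.lv (w i) ∧ F.lv (w i) ≤ 4 * n) ∧
        ‖∑ i, em (w i) - (∏ i ∈ Finset.range J, (1 + ρ (2 ^ (i + 1) * n))) • em W‖ ≤
          C * Real.exp (sg n u J) * (2 ^ J - 1) ∧
        ∑ i, (hh (w i) - F.lv (w i)) ≤ Real.exp (C * sg n u J) *
          ((hh W - F.lv W) + 2 ^ J * (C * n ^ (1 - κ1) *
            ∑ i ∈ Finset.range J, ((2 : ℝ) ^ (i + 1)) ^ (-κ1))) := by
  have hn1 : 1 ≤ n := hm0.trans hn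
  have hn0 : 0 < n := by linarith
  intro J
  induction J with
  | zero =>
    intro W h1 h2
    refine ⟨Unit, inferInstance, fun _ => W, by simp, fun _ => ⟨?_, ?_⟩, ?_, ?_⟩
    · simpa using h1
    · have h3 : F.lv W ≤ 2 ^ 0 * n * (4 - (4 + 2 * C) * sg n u 0) := h2
      rw [show sg n u 0 = 0 from Finset.sum_range_zero _] at h3
      linarith
    · simp
    · simp [sg]
  | succ J ih =>
    intro W h1 h2
    set s : ℝ := 2 ^ (J + 1) * n with hs
    have hs2 : s = 2 * (2 ^ J * n) := by rw [hs, pow_succ]; ring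
    have h2J : (1 : ℝ) ≤ 2 ^ J := one_le_pow₀ one_le_two
    have h2Jn : n ≤ 2 ^ J * n := by nlinarith
    have hsn : n ≤ s := by linarith
    have hs1 : 1 ≤ s := by linarith
    have hs0 : 0 < s := by linarith
    have hsg0 := sg_nonneg hn0 u J
    have hsg1 := sg_nonneg hn0 u (J + 1)
    have hlow : s ≤ F.lv W := by
      have : (2 : ℝ) ^ (J + 1) * (n + 2 * C) - 2 * C = s + 2 * C * (2 ^ (J + 1) - 1) := by
        rw [hs]; ring
      have h3 : (1 : ℝ) ≤ 2 ^ (J + 1) := one_le_pow₀ one_le_two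
      have h4 : 0 ≤ 2 * C * ((2 : ℝ) ^ (J + 1) - 1) := by
        have : 0 ≤ (2 : ℝ) ^ (J + 1) - 1 := by linarith
        positivity
      linarith
    have hupp : F.lv W ≤ 4 * s := by
      have h3 : 0 ≤ s * ((4 + 2 * C) * sg n u (J + 1)) := by positivity
      linarith
    obtain ⟨w1, w2, q1, q2, q3, q4⟩ := hsp W s (hn.trans hsn) hlow hupp
    obtain ⟨r0, r1⟩ := hρ s hs1
    have hsu : 0 < s ^ (-u) := Real.rpow_pos_of_pos hs0 _
    have hsu1 : 1 ≤ s ^ (-u) * s := by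
      rw [← Real.rpow_add_one hs0.ne']
      exact Real.one_le_rpow hs1 (by linarith)
    have hsgs := sg_succ n u J
    rw [← hs] at hsgs
    have hrange : ∀ z : V, |F.lv z - (1 + ρ s) * F.lv W / 2| ≤ C →
        2 ^ J * (n + 2 * C) - 2 * C ≤ F.lv z ∧
        F.lv z ≤ 2 ^ J * n * (4 - (4 + 2 * C) * sg n u J) := by
      intro z hz
      rw [abs_le] at hz
      constructor
      · have h3 : 0 ≤ ρ s * F.lv W := mul_nonneg r0 (by linarith)
        rw [pow_succ] at h1
        linarith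
      · have h3 : (1 + ρ s) * F.lv W / 2 ≤ F.lv W / 2 + s ^ (-u) * (2 * s) := by
          have h5 : ρ s * F.lv W ≤ s ^ (-u) * (4 * s) :=
            mul_le_mul r1 hupp (by linarith) hsu.le
          linarith
        rw [hsgs] at h2
        have h6 : F.lv W / 2 ≤ s / 2 * (4 - (4 + 2 * C) * (sg n u J + s ^ (-u))) := by linarith
        have h7 : s / 2 = 2 ^ J * n := by rw [hs2]; ring
        rw [← h7]
        have h8 : C ≤ C * (s ^ (-u) * s) := le_mul_of_one_le_right (by linarith) hsu1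
        linarith
    obtain ⟨l1, u1⟩ := hrange w1 q2
    obtain ⟨l2, u2⟩ := hrange w2 q3
    obtain ⟨ι1, _, f1, a1, a2, a3, a4⟩ := ih w1 l1 u1
    obtain ⟨ι2, _, f2, b1, b2, b3, b4⟩ := ih w2 l2 u2
    set c : ℝ := ∏ i ∈ Finset.range J, (1 + ρ (2 ^ (i + 1) * n)) with hc
    have hρi : ∀ i : ℕ, 0 ≤ ρ (2 ^ (i + 1) * n) ∧
        ρ (2 ^ (i + 1) * n) ≤ (2 ^ (i + 1) * n) ^ (-u) := by
      intro i
      refine hρ _ ?_
      have : (1 : ℝ) ≤ 2 ^ (i + 1) := one_le_pow₀ one_le_two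
      exact one_le_mul_of_one_le_of_one_le this hn1
    have hc0 : 0 ≤ c ∧ c ≤ Real.exp (sg n u J) := by
      refine ⟨Finset.prod_nonneg fun i _ => by have := (hρi i).1; linarith, ?_⟩
      have h3 : c ≤ ∏ i ∈ Finset.range J, Real.exp ((2 ^ (i + 1) * n) ^ (-u)) := by
        refine Finset.prod_le_prod (fun i _ => by have := (hρi i).1; linarith) fun i _ => ?_
        have h4 := Real.add_one_le_exp ((2 ^ (i + 1) * n) ^ (-u))
        have h5 := (hρi i).2
        linarith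
      rw [← Real.exp_sum] at h3
      exact h3
    set b : ℝ := C * n ^ (1 - κ1) * ∑ i ∈ Finset.range J, ((2 : ℝ) ^ (i + 1)) ^ (-κ1) with hb
    refine ⟨ι1 ⊕ ι2, inferInstance, Sum.elim f1 f2, ?_, ?_, ?_, ?_⟩
    · rw [Fintype.card_sum, a1, b1, pow_succ]; ring
    · rintro (i | i)
      · exact a2 i
      · exact b2 i
    · rw [Fintype.sum_sum_type, Finset.prod_range_succ, ← hc, ← hs]
      simp only [Sum.elim_inl, Sum.elim_inr]
      have e : ∑ i, em (f1 i) + ∑ i, em (f2 i) - (c * (1 + ρ s)) • em W =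
          (∑ i, em (f1 i) - c • em w1) + (∑ i, em (f2 i) - c • em w2) +
          c • (em w1 + em w2 - (1 + ρ s) • em W) := by
        rw [smul_sub, smul_add, smul_smul]; abel
      rw [e]
      have n1 : ‖c • (em w1 + em w2 - (1 + ρ s) • em W)‖ ≤ Real.exp (sg n u J) * C := by
        rw [norm_smul, Real.norm_eq_abs, abs_of_nonneg hc0.1]
        exact mul_le_mul hc0.2 q1 (norm_nonneg _) (Real.exp_pos _).le
      have n2 : Real.exp (sg n u J) ≤ Real.exp (sg n u (J + 1)) :=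
        Real.exp_le_exp.2 (by rw [hsgs]; linarith)
      calc _ ≤ C * Real.exp (sg n u J) * (2 ^ J - 1) + C * Real.exp (sg n u J) * (2 ^ J - 1) +
            Real.exp (sg n u J) * C :=
            (norm_add_le _ _).trans (add_le_add ((norm_add_le _ _).trans (add_le_add a3 b3)) n1)
        _ = C * Real.exp (sg n u J) * (2 ^ (J + 1) - 1) := by rw [pow_succ]; ring
        _ ≤ C * Real.exp (sg n u (J + 1)) * (2 ^ (J + 1) - 1) := by
            have h3 : (1 : ℝ) ≤ 2 ^ (J + 1) := one_le_pow₀ one_le_two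
            have h4 : 0 ≤ (2 : ℝ) ^ (J + 1) - 1 := by linarith
            gcongr
    · rw [Fintype.sum_sum_type]
      simp only [Sum.elim_inl, Sum.elim_inr]
      have hE := Real.exp_pos (C * sg n u J)
      have k1 : Real.exp (C * sg n u (J + 1)) = Real.exp (C * sg n u J) * Real.exp (C * s ^ (-u)) := by
        rw [← Real.exp_add, hsgs]; congr 1; ring
      have k2 : 1 + C * s ^ (-u) ≤ Real.exp (C * s ^ (-u)) := by
        rw [add_comm]; exact Real.add_one_le_exp _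
      have k3 : s ^ (1 - κ1) = 2 ^ (J + 1) * (n ^ (1 - κ1) * ((2 : ℝ) ^ (J + 1)) ^ (-κ1)) := by
        rw [hs, Real.mul_rpow (by positivity) hn0.le,
          show (1 : ℝ) - κ1 = 1 + -κ1 by ring, Real.rpow_add (by positivity : (0 : ℝ) < 2 ^ (J + 1)),
          Real.rpow_one]
        ring
      set f : ℝ := hh W - F.lv W with hf
      have hf0 : 0 ≤ f := sub_nonneg.2 (hge W)
      set B : ℝ := C * n ^ (1 - κ1) * ∑ i ∈ Finset.range (J + 1), ((2 : ℝ) ^ (i + 1)) ^ (-κ1) with hB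
      have hBb : B = b + C * n ^ (1 - κ1) * ((2 : ℝ) ^ (J + 1)) ^ (-κ1) := by
        rw [hB, hb, Finset.sum_range_succ]; ring
      have hB0 : 0 ≤ B := by
        rw [hB]
        have : 0 ≤ ∑ i ∈ Finset.range (J + 1), ((2 : ℝ) ^ (i + 1)) ^ (-κ1) :=
          Finset.sum_nonneg fun i _ => by positivity
        positivity
      calc _ ≤ Real.exp (C * sg n u J) * ((hh w1 - F.lv w1) + 2 ^ J * b) +
            Real.exp (C * sg n u J) * ((hh w2 - F.lv w2) + 2 ^ J * b) := add_le_add a4 b4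
        _ = Real.exp (C * sg n u J) * (((hh w1 - F.lv w1) + (hh w2 - F.lv w2)) +
              2 ^ (J + 1) * b) := by rw [pow_succ]; ring
        _ ≤ Real.exp (C * sg n u J) * ((1 + C * s ^ (-u)) * f + C * s ^ (1 - κ1) +
              2 ^ (J + 1) * b) := by gcongr
        _ = Real.exp (C * sg n u J) * ((1 + C * s ^ (-u)) * f + 2 ^ (J + 1) * B) := by
            rw [hBb, k3]; ring
        _ ≤ Real.exp (C * sg n u J) * (Real.exp (C * s ^ (-u)) * f +
              Real.exp (C * s ^ (-u)) * (2 ^ (J + 1) * B)) := by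
            have k4 : 1 ≤ Real.exp (C * s ^ (-u)) := Real.one_le_exp (by positivity)
            have k5 : 1 * (2 ^ (J + 1) * B) ≤ Real.exp (C * s ^ (-u)) * (2 ^ (J + 1) * B) := by
              gcongr
            rw [one_mul] at k5
            gcongr
        _ = _ := by rw [k1]; ring

end

end Pool.Agent.J4.H91.FPP
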