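import Pool.Agent.J4.H91.FPP.Non

set_option autoImplicit false
open MeasureTheory ProbabilityTheory Filter Set
open scoped ENNReal Topology Pointwise

/-!
# Concentration around the mean (helper91)
-/

namespace Pool.Agent.J4.H91.FPP

open Pool.Agent.N662.FP hiding em

section
variable {Ω : Type} [MeasureSpace Ω] [IsProbabilityMeasure (volume : Measure Ω)]
  {X : Sym2 (ℤ × ℤ) → Ω → ℝ} {μ : Seminorm ℝ (ℝ × ℝ)} {c0 C0 κ A : ℝ}

theorem tr_int (hX : Iid X) {f : En → ℝ} (hf : Measurable f) :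
    ∫ x, f x ∂PP = ∫ ω, f (env X ω) ∂(volume : Measure Ω) := by
  rw [← map_env hX, integral_map (env_meas hX).aemeasurable hf.aestronglyMeasurable]

theorem hh_eq (hX : Iid X) (v : V) : ∫ ω, D (env X ω) 0 v ∂(volume : Measure Ω) = hh v := by
  unfold hh
  rw [tr_int hX (dR_meas 0 v)]
  refine integral_congr_ae ?_
  filter_upwards [cAE Ω X hX] with ω hω
  exact (dR_eq hω 0 v).symm

/-- the one-point lemma around the mean -/
theorem one_mean (hX : Iid X) (v : V) {r d : ℝ} (hr : 0 < r) (hd : 0 < d)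
    (h : (volume : Measure Ω).real {ω | hh v + r ≤ D (env X ω) 0 v} ≤ Real.exp (-(1 + d))) :
    (∀ u : ℝ, 0 ≤ u → (volume : Measure Ω).real {ω | hh v + r + u ≤ D (env X ω) 0 v} ≤
      Real.exp (-(1 + d + d * u / r))) ∧
    ∫ ω, |D (env X ω) 0 v - hh v| ∂(volume : Measure Ω) ≤ 2 * (1 + 1 / d) * r := by
  set T' : Ω → ℝ := fun ω => dR 0 v (env X ω) with hT'
  have hmeas : Measurable T' := (dR_meas 0 v).comp (env_meas hX)
  have hae : ∀ᵐ ω ∂(volume : Measure Ω), D (env X ω) 0 v = T' ω := by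
    filter_upwards [cAE Ω X hX] with ω h
    exact (dR_eq h 0 v).symm
  have hset : ∀ t : ℝ, (volume : Measure Ω).real {ω | t ≤ T' ω} =
      (volume : Measure Ω).real {ω | t ≤ D (env X ω) 0 v} := by
    intro t
    refine measureReal_congr ?_
    filter_upwards [hae] with ω h
    show (t ≤ T' ω) = (t ≤ D (env X ω) 0 v)
    rw [h]
  have hint : Integrable T' (volume : Measure Ω) := (cINT Ω X hX 0 v).congr hae
  have hmean : hh v ≤ ∫ ω, T' ω ∂(volume : Measure Ω) := by
    rw [← integral_congr_ae hae, hh_eq hX]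
  obtain ⟨h1, h2⟩ := cCORE2 Ω T' hmeas hint (hh v) r d hr hd
    (by intro s t; rw [hset, hset, hset]; exact cLC Ω X hX 0 v s t) hmean
    (by rw [hset]; exact h)
  refine ⟨fun u hu => ?_, ?_⟩
  · rw [← hset]; exact h1 u hu
  · refine le_trans (le_of_eq ?_) h2
    refine integral_congr_ae ?_
    filter_upwards [hae] with ω h
    rw [h]

theorem exp_two_le : (1 : ℝ) / 9 ≤ Real.exp (-(1 + 1)) := by
  have h1 : Real.exp (1 + 1) ≤ 9 := by
    rw [Real.exp_add]
    have := Real.exp_one_lt_d9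
    have h0 := Real.exp_pos 1
    nlinarith
  rw [Real.exp_neg, ← one_div]
  exact one_div_le_one_div_of_le (Real.exp_pos _) h1

/-- the upper tail from the first moment -/
theorem mean_tail (hX : Iid X) (v : V) {w : ℝ} (hw : 0 < w)
    (h : ∫ ω, |D (env X ω) 0 v - hh v| ∂(volume : Measure Ω) ≤ w) {s : ℝ} (hs : 0 ≤ s) :
    PP {x | hh v + s < dR 0 v x} ≤ ENNReal.ofReal (3 * Real.exp (-(s / (9 * w)))) := by
  have h3 : 1 / 3 ≤ Real.exp (-1) := by
    rw [Real.exp_neg, ← one_div]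
    exact one_div_le_one_div_of_le (Real.exp_pos _) (by linarith [Real.exp_one_lt_d9])
  rcases lt_or_ge s (9 * w) with h1 | h1
  · refine prob_le_one.trans ?_
    rw [ENNReal.one_le_ofReal]
    have h2 : s / (9 * w) ≤ 1 := by
      rw [div_le_one (by positivity)]; exact h1.le
    have h4 := Real.exp_le_exp.2 (neg_le_neg h2)
    linarith
  · have h2 : (volume : Measure Ω).real {ω | hh v + 9 * w ≤ D (env X ω) 0 v} ≤
        Real.exp (-(1 + 1)) := by
      refine le_trans ?_ exp_two_le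
      have h5 := mk (fun ω => D (env X ω) 0 v) (cINT Ω X hX 0 v) (hh v) (9 * w) (by positivity)
      refine (measureReal_mono ?_ (measure_ne_top _ _)).trans (h5.trans ?_)
      · intro ω hω
        have h6 : hh v + 9 * w ≤ D (env X ω) 0 v := hω
        exact (by linarith : 9 * w ≤ D (env X ω) 0 v - hh v).trans (le_abs_self _)
      · rw [div_le_div_iff₀ (by positivity) (by norm_num)]
        linarith
    have h4 := (one_mean hX v (by positivity : 0 < 9 * w) one_pos h2).1 (s - 9 * w) (by linarith)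
    rw [← tr_eq hX (measurableSet_lt measurable_const (dR_meas 0 v))]
    have h5 : (volume : Measure Ω) {ω | env X ω ∈ {x | hh v + s < dR 0 v x}} ≤
        (volume : Measure Ω) {ω | hh v + 9 * w + (s - 9 * w) ≤ D (env X ω) 0 v} := by
      refine measure_mono_ae ?_
      filter_upwards [cAE Ω X hX] with ω hω h4
      have h5 : hh v + s < dR 0 v (env X ω) := h4
      rw [dR_eq hω] at h5
      show hh v + 9 * w + (s - 9 * w) ≤ D (env X ω) 0 v
      linarith
    refine h5.trans ?_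
    rw [← ofReal_measureReal (measure_ne_top _ _)]
    refine ENNReal.ofReal_le_ofReal (h4.trans ?_)
    have h6 : s / (9 * w) ≤ 1 + 1 + 1 * (s - 9 * w) / (9 * w) := by
      have : 1 + 1 + 1 * (s - 9 * w) / (9 * w) = 1 + s / (9 * w) := by field_simp; ring
      rw [this]; linarith
    have h7 := Real.exp_le_exp.2 (neg_le_neg h6)
    have h8 := Real.exp_pos (-(s / (9 * w)))
    linarith

/-- the law of large numbers for the means -/
theorem lln_of (hX : Iid X) {m : ℝ} (v : V)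
    (hlim : ∀ᵐ ω ∂(volume : Measure Ω),
      Tendsto (fun n : ℕ => D (env X ω) 0 ((n : ℤ) • v) / (n : ℝ)) atTop (𝓝 m))
    (hsm : Tendsto (fun k : ℕ => (∫ ω, |D (env X ω) 0 ((k : ℤ) • v) - hh ((k : ℤ) • v)|
      ∂(volume : Measure Ω)) / k) atTop (𝓝 0)) :
    ∀ᶠ k : ℕ in atTop, hh ((k : ℤ) • v) ≤ k * (m + 1) := by
  have h1 : TendstoInMeasure (volume : Measure Ω)
      (fun n : ℕ => fun ω => D (env X ω) 0 ((n : ℤ) • v) / (n : ℝ)) atTop (fun _ => m) :=
    tendstoInMeasure_of_tendsto_ae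
      (fun n => ((cINT Ω X hX 0 ((n : ℤ) • v)).div_const _).aestronglyMeasurable) hlim
  rw [tendstoInMeasure_iff_dist] at h1
  have h2 := (h1 (1 / 2) (by norm_num)).eventually (gt_mem_nhds (by norm_num : (0 : ℝ≥0∞) < 1 / 2))
  have h3 := hsm.eventually (gt_mem_nhds (by norm_num : (0 : ℝ) < 1 / 8))
  filter_upwards [h2, h3, eventually_gt_atTop 0] with k k1 k2 k3
  have hk : (0 : ℝ) < k := by exact_mod_cast k3
  by_contra hcon
  rw [not_le] at hcon
  have h4 := mk (fun ω => D (env X ω) 0 ((k : ℤ) • v)) (cINT Ω X hX 0 ((k : ℤ) • v))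
    (hh ((k : ℤ) • v)) (k / 2) (by positivity)
  have h5 : (volume : Measure Ω).real {ω | (k : ℝ) / 2 ≤ |D (env X ω) 0 ((k : ℤ) • v) -
      hh ((k : ℤ) • v)|} ≤ 1 / 4 := by
    refine h4.trans ?_
    rw [div_lt_iff₀ hk] at k2
    rw [div_le_iff₀ (by positivity)]
    linarith
  have h6 : (univ : Set Ω) ⊆ {ω | 1 / 2 ≤ dist (D (env X ω) 0 ((k : ℤ) • v) / (k : ℝ)) m} ∪
      {ω | (k : ℝ) / 2 ≤ |D (env X ω) 0 ((k : ℤ) • v) - hh ((k : ℤ) • v)|} := by
    intro ω _
    by_contra hω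
    simp only [mem_union, mem_ofPred_eq, not_or, not_le] at hω
    obtain ⟨w1, w2⟩ := hω
    rw [Real.dist_eq, abs_lt] at w1
    rw [abs_lt] at w2
    have w3 : D (env X ω) 0 ((k : ℤ) • v) / (k : ℝ) < m + 1 / 2 := by linarith [w1.2]
    rw [div_lt_iff₀ hk] at w3
    have w4 : (m + 1 / 2) * (k : ℝ) = k * (m + 1) - k / 2 := by ring
    linarith [w2.1]
  have h7 := measure_mono (μ := (volume : Measure Ω)) h6
  rw [measure_univ] at h7
  have h8 : (1 : ℝ≥0∞) < 1 := by
    calc (1 : ℝ≥0∞) ≤ _ := h7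
      _ ≤ _ := measure_union_le _ _
      _ < 1 / 2 + 1 / 2 := by
          refine ENNReal.add_lt_add_of_lt_of_le ?_ k1 ?_
          · rw [← ofReal_measureReal (measure_ne_top _ _)]; exact ENNReal.ofReal_ne_top
          · rw [← ofReal_measureReal (measure_ne_top _ _)]
            refine (ENNReal.ofReal_le_ofReal h5).trans ?_
            rw [one_div, one_div, ENNReal.ofReal_inv_of_pos (by norm_num), ENNReal.inv_le_inv]
            norm_num
      _ = 1 := ENNReal.add_halves 1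
  exact absurd h8 (lt_irrefl _)

theorem small_of (μ : Seminorm ℝ (ℝ × ℝ)) (hκ0 : 0 < κ) (hA : 0 ≤ A) {f : V → ℝ}
    (hf : ∀ v, 0 ≤ f v) (h : ∀ v : V, f v ≤ A * (1 + μ (em v)) ^ (1 - κ)) (hκ1 : κ < 1) (v : V) :
    Tendsto (fun k : ℕ => f ((k : ℤ) • v) / k) atTop (𝓝 0) := by
  have h0 : 0 ≤ μ (em v) := apply_nonneg μ _
  have h1 : Tendsto (fun k : ℕ => (A * (1 + μ (em v)) ^ (1 - κ)) * (k : ℝ) ^ (-κ)) atTop (𝓝 0) := by
    have := ((tendsto_rpow_neg_atTop hκ0).comp tendsto_natCast_atTop_atTop).const_mul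
      (A * (1 + μ (em v)) ^ (1 - κ))
    rwa [mul_zero] at this
  refine squeeze_zero' (Eventually.of_forall fun k => div_nonneg (hf _) (Nat.cast_nonneg _)) ?_ h1
  filter_upwards [eventually_ge_atTop 1] with k hk
  have hk1 : (1 : ℝ) ≤ k := by exact_mod_cast hk
  have hk0 : (0 : ℝ) < k := by linarith
  rw [div_le_iff₀ hk0]
  refine (h _).trans ?_
  have h2 : μ (em ((k : ℤ) • v)) = k * μ (em v) := by
    rw [em_zsmul, map_smul_eq_mul, Real.norm_eq_abs, abs_of_pos hk0]
  have h3 : (1 + μ (em ((k : ℤ) • v))) ^ (1 - κ) ≤ (k * (1 + μ (em v))) ^ (1 - κ) := by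
    refine Real.rpow_le_rpow ?_ ?_ (by linarith)
    · have := apply_nonneg μ (em ((k : ℤ) • v)); linarith
    · rw [h2]; linarith
  have h4 : (k * (1 + μ (em v))) ^ (1 - κ) = (1 + μ (em v)) ^ (1 - κ) * (k : ℝ) ^ (-κ) * k := by
    rw [Real.mul_rpow hk0.le (by linarith), mul_assoc ((1 + μ (em v)) ^ (1 - κ)),
      ← Real.rpow_add_one hk0.ne', mul_comm]
    congr 2; ring
  rw [h4] at h3
  calc A * (1 + μ (em ((k : ℤ) • v))) ^ (1 - κ)
      ≤ A * ((1 + μ (em v)) ^ (1 - κ) * (k : ℝ) ^ (-κ) * k) := mul_le_mul_of_nonneg_left h3 hA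
    _ = _ := by ring

/-- the hypotheses around the mean -/
theorem mk_HV (hX : Iid X)
    (hlim : ∀ z : V, ∀ᵐ ω ∂(volume : Measure Ω),
      Tendsto (fun n : ℕ => D (env X ω) 0 ((n : ℤ) • z) / (n : ℝ)) atTop (𝓝 (μ (em z))))
    (hκ0 : 0 < κ) (hκ1 : κ < 1)
    (h : ∀ v : V, ∫ ω, |D (env X ω) 0 v - hh v| ∂(volume : Measure Ω) ≤
      A * (1 + μ (em v)) ^ (1 - κ)) : ∃ A' : ℝ, HV μ κ A' := by
  obtain ⟨B, hB⟩ : ∃ B : ℝ, B = max A 1 := ⟨_, rfl⟩
  have hB1 : 1 ≤ B := by rw [hB]; exact le_max_right _ _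
  have hpos : ∀ v : V, 0 < (1 + μ (em v)) ^ (1 - κ) := by
    intro v
    have h1 : 0 ≤ μ (em v) := apply_nonneg μ _
    positivity
  have hb : ∀ v : V, ∫ ω, |D (env X ω) 0 v - hh v| ∂(volume : Measure Ω) ≤
      B * (1 + μ (em v)) ^ (1 - κ) := fun v =>
    (h v).trans (mul_le_mul_of_nonneg_right (by rw [hB]; exact le_max_left _ _) (hpos v).le)
  refine ⟨9 * B, by linarith, fun v => ?_, fun v => ?_, fun v s hs => ?_, fun v => ?_⟩
  · rw [← hh_eq hX]
    exact cFAT Ω X hX v _ (hlim v)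
  · have hm : Measurable fun x => ENNReal.ofReal |dR 0 v x - hh v| :=
      (measurable_norm.comp ((dR_meas 0 v).sub_const _)).ennreal_ofReal
    rw [tr_lint hX hm]
    have h1 : ∫⁻ ω, ENNReal.ofReal |dR 0 v (env X ω) - hh v| ∂(volume : Measure Ω) =
        ∫⁻ ω, ENNReal.ofReal |D (env X ω) 0 v - hh v| ∂(volume : Measure Ω) := by
      refine lintegral_congr_ae ?_
      filter_upwards [cAE Ω X hX] with ω hω
      rw [dR_eq hω]
    have hi : Integrable (fun ω => |D (env X ω) 0 v - hh v|) (volume : Measure Ω) :=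
      ((cINT Ω X hX 0 v).sub (integrable_const _)).abs
    rw [h1, ← ofReal_integral_eq_lintegral_ofReal hi (Eventually.of_forall fun ω => abs_nonneg _)]
    refine ENNReal.ofReal_le_ofReal ((hb v).trans ?_)
    exact mul_le_mul_of_nonneg_right (by linarith) (hpos v).le
  · have h1 := mean_tail hX v (w := B * (1 + μ (em v)) ^ (1 - κ))
      (mul_pos (by linarith) (hpos v)) (hb v) hs
    rw [← mul_assoc] at h1
    exact h1
  · exact lln_of hX v (hlim v) (small_of μ hκ0 (by linarith : (0 : ℝ) ≤ B)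
      (f := fun v => ∫ ω, |D (env X ω) 0 v - hh v| ∂(volume : Measure Ω))
      (fun v => integral_nonneg fun ω => abs_nonneg _) hb hκ1 v)

end

end Pool.Agent.J4.H91.FPP
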